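import Pool.Agent.H984R4.HN.Defs
import Pool.Agent.H984R3.Per.FinalSharp

/-!
C1: trials succeed with a fixed probability at every scale.
-/

namespace H984H

open H974 Finset H342P H984P

theorem allOk_of {c C : ℝ} (hc : 0 < c) (hC : 0 < C) (hL : LowA c (1/4)) (hU : TwoUp C (1/4)) :
    ∃ c' δ : ℝ, 0 < c' ∧ 0 < δ ∧ δ ≤ 1 ∧ ∀ n a : ℕ, 1 ≤ a →
      AllOk n a ⌈c' * (a:ℝ) ^ (7/4 : ℝ)⌉₊ δ := by
  have hok : Ok (fun _ : Edg => (1/2:ℝ)) := fun _ => ⟨by norm_num, by norm_num⟩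
  obtain ⟨c₀, hc₀, htr⟩ := trial
  obtain ⟨c₂, hc₂, hn⟩ := nra_prob (c := c) (C := C) (s := 1/4) (t := 1/4) hc hC (by norm_num)
    (by norm_num) (by norm_num) le_rfl hL hU
  set c₁ : ℝ := min c₀ 1 with hc₁
  have hc₁0 : 0 < c₁ := lt_min hc₀ one_pos
  have htr' : ∀ (S k F0 : Finset Edg) (A y0 X Y : ℤ) (T a M : ℕ),
    1 ≤ a → F0 ⊆ S → k ⊆ S → Strand (↑F0 : Set Edg) A y0 X Y T → A ≤ X - 9 * a →
    Bl X Y a ⊆ S → ((A - 1, y0, true) : Edg) ∈ k → Exm (↑F0) (st0 A y0) T ⊆ k →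
    (∀ e ∈ k, e ∈ Bl X Y a → e ∈ Exm (↑F0) (st0 A y0) T) →
    c₁ * Pr (fun _ => (1/2:ℝ)) (NB (X + 32 * a, Y) a)
        (fun G => M ≤ nRA (X + 32 * a, Y) a (↑G)) ≤
      Pr (fun _ => (1/2:ℝ)) (S \ k) (fun G => M ≤ cnt (st0 A y0)
        (↑(Exm (↑F0) (st0 A y0) T ∪ Bl X Y a)) (↑((F0 ∩ k) ∪ G)) (ctr (X + 32 * a, Y) a)) := by
    intro S k F0 A y0 X Y T a M h0 h1 h2 h3 h4 h5 h6 h7 h8
    refine le_trans ?_ (htr S k F0 A y0 X Y T a M h0 h1 h2 h3 h4 h5 h6 h7 h8)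
    exact mul_le_mul_of_nonneg_right (min_le_left _ _) (Pr_nonneg hok _ _)
  have hexp : ∀ a : ℕ, ((a:ℝ)) ^ (-(2 * (1/4:ℝ) - 2 * (1/4))) = 1 := by
    intro a
    rw [show (-(2 * (1/4:ℝ) - 2 * (1/4))) = 0 by norm_num, Real.rpow_zero]
  refine ⟨c₂, c₁ * c₂, hc₂, by positivity, ?_, fun n a ha => ?_⟩
  · have f1 := hn (0, 0) 1 le_rfl
    have f2 := Pr_le_one hok (NB (0, 0) 1)
      (fun G => c₂ * ((1:ℕ):ℝ) ^ (2 - (1/4:ℝ)) ≤ (nRA (0, 0) 1 (↑G) : ℝ))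
    rw [hexp 1, mul_one] at f1
    have f3 : c₁ ≤ 1 := min_le_right _ _
    calc c₁ * c₂ ≤ 1 * 1 := mul_le_mul f3 (f1.trans f2) (by positivity) zero_le_one
      _ = 1 := one_mul 1
  · have h74 : (7/4 : ℝ) = 2 - (1/4 : ℝ) := by norm_num
    rw [h74]
    refine fl_ok htr' hc₁0.le hn ha ?_
    rw [hexp a, mul_one]

end H984H
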