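import Pool.Agent.H984R4.HN.Walk
import Pool.Agent.H984R4.HN.Clu

/-!
A3: a visited state has two arms.
-/

namespace H984H

open H974 Finset H342P H984P

/-- Adjacency for both lattices. -/
def arms_A (a b : Edg → Vtx) (F : Set Edg) (u v : Vtx) : Prop :=
  ∃ e ∈ F, (a e = u ∧ b e = v) ∨ (a e = v ∧ b e = u)

theorem arms_first (a b : Edg → Vtx) (F X : Set Edg) (B : Vtx → Prop)
    (hX : ∀ e ∈ F, B (a e) ∨ B (b e) → e ∈ X) {x y : Vtx}
    (h : Relation.ReflTransGen (arms_A a b F) x y) (hy : ¬ B y) :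
    ∃ z, ¬ B z ∧ Relation.ReflTransGen (arms_A a b (F ∩ X)) x z := by
  induction h using Relation.ReflTransGen.head_induction_on with
  | refl => exact ⟨y, hy, .refl⟩
  | @head x x' hs _ ih =>
    obtain ⟨z, hz, hp⟩ := ih
    by_cases hx : B x
    · obtain ⟨e, he, hc⟩ := hs
      refine ⟨z, hz, .head ⟨e, ⟨he, hX e he ?_⟩, hc⟩ hp⟩
      rcases hc with ⟨h1, h2⟩ | ⟨h1, h2⟩
      · left; rw [h1]; exact hx
      · right; rw [h2]; exact hx
    · exact ⟨x, hx, .refl⟩

theorem arms_reach {F X G : Set Edg} (B : Vtx → Prop)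
    (hX : ∀ e ∈ F, B (src e) ∨ B (tgt e) → e ∈ X) (hG : F ∩ X ⊆ G) {x y : Vtx}
    (h : Reach F x y) (hy : ¬ B y) : ∃ z, ¬ B z ∧ Reach G x z := by
  obtain ⟨z, hz, hp⟩ := arms_first src tgt F X B hX h hy
  exact ⟨z, hz, Reach.mono hG hp⟩

theorem arms_dreach {F X G : Set Edg} (B : Vtx → Prop)
    (hX : ∀ e ∈ F, B (dsrc e) ∨ B (dtgt e) → e ∈ X) (hG : F ∩ X ⊆ G) {x y : Vtx}
    (h : DReach F x y) (hy : ¬ B y) : ∃ z, ¬ B z ∧ DReach G x z := by
  obtain ⟨z, hz, hp⟩ := arms_first dsrc dtgt F X B hX h hy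
  exact ⟨z, hz, DReach.mono hG hp⟩

theorem arms_face (σ : St) : (σ.1.1 - 1 ≤ (face σ).1 ∧ (face σ).1 ≤ σ.1.1) ∧
    (σ.1.2 - 1 ≤ (face σ).2 ∧ (face σ).2 ≤ σ.1.2) := by
  obtain ⟨⟨x, y⟩, q⟩ := σ
  cases q <;> simp

/-- A configuration edge with an endpoint strictly inside of the rectangle is an edge of `F`. -/
theorem arms_cfg {D : Dm} {F : Finset Edg} {e : Edg} (he : e ∈ D.cfg F) {z : Vtx}
    (hz : src e = z ∨ tgt e = z) (hi : D.l < z.1 ∧ z.1 < D.r ∧ 0 < z.2 ∧ z.2 < D.h) :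
    e ∈ (↑F : Set Edg) := by
  rcases he with he | he
  · exact he.1
  · exfalso
    obtain ⟨x, y, t⟩ := e
    unfold Dm.wir at he
    simp only [Set.mem_setOf_eq] at he
    rcases he with ⟨rfl, h1, h2, h3⟩ | ⟨rfl, h1, h2, h3⟩ | ⟨rfl, h1, h2, h3⟩
    · rcases hz with rfl | rfl <;> simp at hi <;> omega
    · rcases hz with rfl | rfl <;> simp at hi <;> omega
    · rcases hz with rfl | rfl <;> simp at hi <;> omega

/-- Two arms to distance `m`. -/
theorem vis_two {D : Dm} (hD : D.Ok) {F : Finset Edg} (hF : F ⊆ D.edges) {σ : St}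
    (h : D.Vis F σ) {m : ℤ} (hm : 0 < m) (hb : m + 1 ≤ D.bd σ.1) : Two σ.1 (face σ) m ↑F := by
  obtain ⟨k, hk, rfl⟩ := h
  obtain ⟨h1, g, hg, h2⟩ := walk_clu hD hF hk
  have h1' : Reach (D.cfg F) (0, 0) (D.walk F k).1 := h1
  set σ := D.walk F k with hσ
  have hb' : m < σ.1.1 - D.l ∧ m < D.r - σ.1.1 ∧ m < σ.1.2 ∧ m < D.h - σ.1.2 := by
    unfold Dm.bd at hb
    omega
  refine ⟨?_, ?_⟩
  · obtain ⟨z, hz, hp⟩ := arms_reach (X := (↑F : Set Edg)) (G := (↑F : Set Edg))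
      (fun z => ¬ Far σ.1 m z)
      (fun e he hB => by
        rcases hB with hB | hB
        · refine arms_cfg he (Or.inl rfl) ?_
          unfold Far at hB
          omega
        · refine arms_cfg he (Or.inr rfl) ?_
          unfold Far at hB
          omega) (fun e he => he.2) h1'.symm (by
        rw [not_not]
        unfold Far
        right; right; left
        show (0 : ℤ) ≤ _
        omega)
    exact ⟨z, not_not.1 hz, hp⟩
  · obtain ⟨g', hg', hp⟩ := arms_dreach (X := (Dm.zer)ᶜ) (G := (↑F : Set Edg)ᶜ)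
      (fun z => inF (σ.1.1 - m) (σ.1.1 + m) (σ.1.2 - m) (σ.1.2 + m) z)
      (fun e _ hB hz => by
        obtain ⟨x, y, _ | _⟩ := e
        · exact absurd hz.1 (by simp)
        · have hy : y = 0 := hz.2.1
          unfold inF at hB
          simp only [dsrc_true, dtgt_mk] at hB
          omega)
      (fun e he hF' => he.1.2 (Or.inl ⟨hF', he.2⟩)) h2.symm (by
        unfold inF
        rcases hg with hg | hg | hg <;> omega)
    exact ⟨g', hg', hp⟩

/-- Two arms across an annulus outside of a smaller box: only edges outside of the box of radius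
`k` around `c` are used. -/
theorem vis_ann {D : Dm} (hD : D.Ok) {F : Finset Edg} (hF : F ⊆ D.edges) {σ : St}
    (h : D.Vis F σ) {c1 c2 : ℤ} {k R : ℕ} (hc : inR (c1 - k) (c1 + k) (c2 - k) (c2 + k) σ.1)
    (hkR : k + 2 ≤ R) (h1 : D.l ≤ c1 - R) (h2 : c1 + R ≤ D.r) (h3 : 0 ≤ c2 - R)
    (h4 : c2 + R ≤ D.h) :
    H12S.Crs c1 c2 (k + 1) R (↑(F \ RE (c1 - k) (c1 + k) (c2 - k) (c2 + k)) : Set Edg) ∧
    H12S.DCrs c1 c2 (k + 1) R
      (↑((D.edges \ RE (c1 - k) (c1 + k) (c2 - k) (c2 + k)) \ F) : Set Edg) := by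
  obtain ⟨i, hi, rfl⟩ := h
  obtain ⟨g1, g, hg, g2⟩ := walk_clu hD hF hi
  have g1' : Reach (D.cfg F) (0, 0) (D.walk F i).1 := g1
  set σ := D.walk F i with hσ
  have hfσ := arms_face σ
  unfold inR at hc
  constructor
  · obtain ⟨y, hy, hp⟩ := arms_reach (X := (↑F : Set Edg)) (G := (↑F : Set Edg))
      (fun z => (c1 - R < z.1 ∧ z.1 < c1 + R) ∧ (c2 - R < z.2 ∧ z.2 < c2 + R))
      (fun e he hB => by
        rcases hB with hB | hB
        · refine arms_cfg he (Or.inl rfl) ?_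
          omega
        · refine arms_cfg he (Or.inr rfl) ?_
          omega) (fun e he => he.2) g1'.symm (by
        show ¬ ((c1 - R < (0 : ℤ) ∧ (0 : ℤ) < c1 + R) ∧ (c2 - R < (0 : ℤ) ∧ (0 : ℤ) < c2 + R))
        omega)
    obtain ⟨x, hx, hq⟩ := arms_reach
      (X := ((↑(RE (c1 - k) (c1 + k) (c2 - k) (c2 + k)) : Set Edg))ᶜ)
      (G := (↑(F \ RE (c1 - k) (c1 + k) (c2 - k) (c2 + k)) : Set Edg))
      (fun z => ¬ ((c1 - k ≤ z.1 ∧ z.1 ≤ c1 + k) ∧ (c2 - k ≤ z.2 ∧ z.2 ≤ c2 + k)))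
      (fun e _ hB => by
        intro hcon
        have hcon' : e ∈ RE (c1 - k) (c1 + k) (c2 - k) (c2 + k) := hcon
        obtain ⟨x, y, _ | _⟩ := e
        · simp only [mem_RE_false] at hcon'
          simp only [src_mk, tgt_false] at hB
          omega
        · simp only [mem_RE_true] at hcon'
          simp only [src_mk, tgt_true] at hB
          omega)
      (by
        rw [Finset.coe_sdiff]
        exact fun e he => he) hp.symm (by rw [not_not]; exact hc)
    refine ⟨x, y, ?_, ?_, hq.symm⟩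
    · unfold inR
      push_cast
      omega
    · omega
  · obtain ⟨g', hg', hp'⟩ := arms_dreach (X := (Dm.zer)ᶜ) (G := (↑(D.edges \ F) : Set Edg))
      (fun z => (c1 - R < z.1 ∧ z.1 < c1 + R) ∧ (c2 - R < z.2 ∧ z.2 < c2 + R))
      (fun e _ hB hz => by
        obtain ⟨x, y, _ | _⟩ := e
        · exact absurd hz.1 (by simp)
        · have hy : y = 0 := hz.2.1
          simp only [dsrc_true, dtgt_mk] at hB
          omega)
      (by
        rw [Finset.coe_sdiff]
        intro e he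
        exact ⟨he.1.1, fun hF' => he.1.2 (Or.inl ⟨hF', he.2⟩)⟩) g2.symm (by
        rcases hg with hg | hg | hg <;> omega)
    obtain ⟨x, hx, hq⟩ := arms_dreach
      (X := ((↑(RE (c1 - k) (c1 + k) (c2 - k) (c2 + k)) : Set Edg))ᶜ)
      (G := (↑((D.edges \ RE (c1 - k) (c1 + k) (c2 - k) (c2 + k)) \ F) : Set Edg))
      (fun z => ¬ ((c1 - k - 1 ≤ z.1 ∧ z.1 ≤ c1 + k) ∧ (c2 - k - 1 ≤ z.2 ∧ z.2 ≤ c2 + k)))
      (fun e _ hB => by
        intro hcon
        have hcon' : e ∈ RE (c1 - k) (c1 + k) (c2 - k) (c2 + k) := hcon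
        obtain ⟨x, y, _ | _⟩ := e
        · simp only [mem_RE_false] at hcon'
          simp only [dsrc_false, dtgt_mk] at hB
          omega
        · simp only [mem_RE_true] at hcon'
          simp only [dsrc_true, dtgt_mk] at hB
          omega)
      (by
        rw [Finset.coe_sdiff, Finset.coe_sdiff, Finset.coe_sdiff]
        intro e he
        exact ⟨⟨he.1.1, he.2⟩, he.1.2⟩) hp'.symm (by
        rw [not_not]
        omega)
    refine ⟨x, g', ?_, ?_, hq.symm⟩
    · unfold inR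
      push_cast
      omega
    · omega

end H984H
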