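import Pool.Agent.H984R4.HN.HPDefs
import Pool.Agent.H984R3.Per.Basic

/-!
S1: `step` is the inverse of `nxt`; elementary properties of the path.
-/

namespace H984H

open H974 Finset H342P H984P MeasureTheory

theorem nxt_step (G : Set Edg) (σ : St) : nxt G (step G σ) = σ := by
  obtain ⟨⟨x, y⟩, q⟩ := σ
  cases q
  · by_cases h : ((x, y, false) : Edg) ∈ G
    · have h1 : step G ((x, y), .ne) = ((x, y + 1), .se) := by simp [step, h]
      rw [h1, nxt_open (by simpa using h)]
      simp
    · have h1 : step G ((x, y), .ne) = ((x, y), .nw) := by simp [step, h]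
      rw [h1, nxt_closed (by simpa using h)]
      simp
  · by_cases h : ((x - 1, y, true) : Edg) ∈ G
    · have h1 : step G ((x, y), .nw) = ((x - 1, y), .ne) := by simp [step, h]
      rw [h1, nxt_open (by simpa using h)]
      simp
    · have h1 : step G ((x, y), .nw) = ((x, y), .sw) := by simp [step, h]
      rw [h1, nxt_closed (by simpa using h)]
      simp
  · by_cases h : ((x, y - 1, false) : Edg) ∈ G
    · have h1 : step G ((x, y), .sw) = ((x, y - 1), .nw) := by simp [step, h]
      rw [h1, nxt_open (by simpa using h)]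
      simp
    · have h1 : step G ((x, y), .sw) = ((x, y), .se) := by simp [step, h]
      rw [h1, nxt_closed (by simpa using h)]
      simp
  · by_cases h : ((x, y, true) : Edg) ∈ G
    · have h1 : step G ((x, y), .se) = ((x + 1, y), .sw) := by simp [step, h]
      rw [h1, nxt_open (by simpa using h)]
      simp
    · have h1 : step G ((x, y), .se) = ((x, y), .ne) := by simp [step, h]
      rw [h1, nxt_closed (by simpa using h)]
      simp

theorem step_nxt (G : Set Edg) (σ : St) : step G (nxt G σ) = σ := by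
  obtain ⟨⟨x, y⟩, q⟩ := σ
  cases q
  · by_cases h : ((x, y, true) : Edg) ∈ G
    · rw [nxt_open (by simpa using h)]
      simp [step, h]
    · rw [nxt_closed (by simpa using h)]
      simp [step, h]
  · by_cases h : ((x, y, false) : Edg) ∈ G
    · rw [nxt_open (by simpa using h)]
      simp [step, h]
    · rw [nxt_closed (by simpa using h)]
      simp [step, h]
  · by_cases h : ((x - 1, y, true) : Edg) ∈ G
    · rw [nxt_open (by simpa using h)]
      simp [step, h]
    · rw [nxt_closed (by simpa using h)]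
      simp [step, h]
  · by_cases h : ((x, y - 1, false) : Edg) ∈ G
    · rw [nxt_open (by simpa using h)]
      simp [step, h]
    · rw [nxt_closed (by simpa using h)]
      simp [step, h]

/-- The step only depends on the edges at the vertex. -/
theorem step_congr {G G' : Set Edg} {σ : St}
    (h : ∀ e : Edg, src e = σ.1 ∨ tgt e = σ.1 → (e ∈ G ↔ e ∈ G')) : step G σ = step G' σ := by
  classical
  obtain ⟨⟨x, y⟩, q⟩ := σ
  cases q
  · have h1 := h (x, y, false) (Or.inl rfl)
    simp only [step]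
    exact if_congr h1 rfl rfl
  · have h1 := h (x - 1, y, true) (Or.inr (by simp [tgt]))
    simp only [step]
    exact if_congr h1 rfl rfl
  · have h1 := h (x, y - 1, false) (Or.inr (by simp [tgt]))
    simp only [step]
    exact if_congr h1 rfl rfl
  · have h1 := h (x, y, true) (Or.inl rfl)
    simp only [step]
    exact if_congr h1 rfl rfl

theorem path_succ (ω : Conf) (k : ℕ) : path ω (k + 1) = step (opn ω) (path ω k) := rfl

theorem Step_sd (G : Set Edg) (σ : St) : sd σ.1 (step G σ).1 ≤ 1 := by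
  obtain ⟨⟨x, y⟩, q⟩ := σ
  cases q
  · by_cases h : ((x, y, false) : Edg) ∈ G <;> simp [step, h, sd]
  · by_cases h : ((x - 1, y, true) : Edg) ∈ G <;> simp [step, h, sd]
  · by_cases h : ((x, y - 1, false) : Edg) ∈ G <;> simp [step, h, sd]
  · by_cases h : ((x, y, true) : Edg) ∈ G <;> simp [step, h, sd]

theorem path_step (ω : Conf) (k : ℕ) : sd (path ω k).1 (path ω (k + 1)).1 ≤ 1 :=
  Step_sd _ _

theorem Step_tri (u v w : Vtx) : sd u w ≤ sd u v + sd v w := by
  unfold sd
  apply max_le
  · have h1 := abs_sub_le u.1 v.1 w.1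
    have h2 := le_max_left |u.1 - v.1| |u.2 - v.2|
    have h3 := le_max_left |v.1 - w.1| |v.2 - w.2|
    linarith
  · have h1 := abs_sub_le u.2 v.2 w.2
    have h2 := le_max_right |u.1 - v.1| |u.2 - v.2|
    have h3 := le_max_right |v.1 - w.1| |v.2 - w.2|
    linarith

theorem path_sd (ω : Conf) {i j : ℕ} (h : i ≤ j) :
    sd (path ω i).1 (path ω j).1 ≤ (j - i : ℕ) := by
  induction j, h using Nat.le_induction with
  | base => simp [sd]
  | succ j hj ih =>
    have h1 := Step_tri (path ω i).1 (path ω j).1 (path ω (j + 1)).1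
    have h2 := path_step ω j
    have h3 : ((j + 1 - i : ℕ) : ℤ) = (j - i : ℕ) + 1 := by
      rw [Nat.sub_add_comm hj]
      push_cast
      ring
    rw [h3]
    linarith

theorem Step_opn {ω : Conf} {e : Edg} (h : e ∈ opn ω) : 0 ≤ e.2.1 := by
  rcases h with h | h
  · exact h.1.ge
  · exact h.1

/-- The path stays in the half-plane. -/
theorem path_nonneg (ω : Conf) (k : ℕ) : 0 ≤ (path ω k).1.2 := by
  induction k with
  | zero => exact le_refl _
  | succ k ih =>
    rw [path_succ]
    generalize path ω k = σ at ih ⊢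
    obtain ⟨⟨x, y⟩, q⟩ := σ
    simp only at ih
    cases q
    · by_cases h : ((x, y, false) : Edg) ∈ opn ω <;> simp [step, h] <;> omega
    · by_cases h : ((x - 1, y, true) : Edg) ∈ opn ω <;> simp [step, h] <;> omega
    · by_cases h : ((x, y - 1, false) : Edg) ∈ opn ω
      · have h2 := Step_opn h
        simp only at h2
        simp [step, h]
        omega
      · simp [step, h]
        omega
    · by_cases h : ((x, y, true) : Edg) ∈ opn ω <;> simp [step, h] <;> omega

theorem Step_place (G : Set Edg) (σ : St) : dist (place σ) (place (step G σ)) ≤ 1 / 2 := by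
  obtain ⟨⟨x, y⟩, q⟩ := σ
  cases q
  · by_cases h : ((x, y, false) : Edg) ∈ G
    · rw [Complex.dist_of_re_eq (by simp [step, h, place]), Real.dist_eq]
      simp only [step, h, if_true, place]
      push_cast
      rw [show ((y : ℝ) + 1 / 4 - (y + 1 - 1 / 4)) = -(1 / 2) by ring, abs_neg]
      norm_num
    · rw [Complex.dist_of_im_eq (by simp [step, h, place]), Real.dist_eq]
      simp only [step, h, if_false, place]
      rw [show ((x : ℝ) + 1 / 4 - (x - 1 / 4)) = 1 / 2 by ring]
      norm_num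
  · by_cases h : ((x - 1, y, true) : Edg) ∈ G
    · rw [Complex.dist_of_im_eq (by simp [step, h, place]), Real.dist_eq]
      simp only [step, h, if_true, place]
      push_cast
      rw [show ((x : ℝ) - 1 / 4 - (x - 1 + 1 / 4)) = 1 / 2 by ring]
      norm_num
    · rw [Complex.dist_of_re_eq (by simp [step, h, place]), Real.dist_eq]
      simp only [step, h, if_false, place]
      rw [show ((y : ℝ) + 1 / 4 - (y - 1 / 4)) = 1 / 2 by ring]
      norm_num
  · by_cases h : ((x, y - 1, false) : Edg) ∈ G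
    · rw [Complex.dist_of_re_eq (by simp [step, h, place]), Real.dist_eq]
      simp only [step, h, if_true, place]
      push_cast
      rw [show ((y : ℝ) - 1 / 4 - (y - 1 + 1 / 4)) = 1 / 2 by ring]
      norm_num
    · rw [Complex.dist_of_im_eq (by simp [step, h, place]), Real.dist_eq]
      simp only [step, h, if_false, place]
      rw [show ((x : ℝ) - 1 / 4 - (x + 1 / 4)) = -(1 / 2) by ring, abs_neg]
      norm_num
  · by_cases h : ((x, y, true) : Edg) ∈ G
    · rw [Complex.dist_of_im_eq (by simp [step, h, place]), Real.dist_eq]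
      simp only [step, h, if_true, place]
      push_cast
      rw [show ((x : ℝ) + 1 / 4 - (x + 1 - 1 / 4)) = -(1 / 2) by ring, abs_neg]
      norm_num
    · rw [Complex.dist_of_re_eq (by simp [step, h, place]), Real.dist_eq]
      simp only [step, h, if_false, place]
      rw [show ((y : ℝ) - 1 / 4 - (y + 1 / 4)) = -(1 / 2) by ring, abs_neg]
      norm_num

theorem gam_step (ω : Conf) (k : ℕ) : dist (gam ω k) (gam ω (k + 1)) ≤ 1/2 :=
  Step_place _ _

theorem Step_re (σ : St) : |(place σ).re - σ.1.1| = 1 / 4 := by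
  obtain ⟨⟨x, y⟩, q⟩ := σ
  cases q <;> simp only [place]
  · rw [show ((x : ℝ) + 1 / 4 - x) = 1 / 4 by ring]; norm_num
  · rw [show ((x : ℝ) - 1 / 4 - x) = -(1 / 4) by ring, abs_neg]; norm_num
  · rw [show ((x : ℝ) - 1 / 4 - x) = -(1 / 4) by ring, abs_neg]; norm_num
  · rw [show ((x : ℝ) + 1 / 4 - x) = 1 / 4 by ring]; norm_num

theorem Step_im (σ : St) : |(place σ).im - σ.1.2| = 1 / 4 := by
  obtain ⟨⟨x, y⟩, q⟩ := σ
  cases q <;> simp only [place]
  · rw [show ((y : ℝ) + 1 / 4 - y) = 1 / 4 by ring]; norm_num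
  · rw [show ((y : ℝ) + 1 / 4 - y) = 1 / 4 by ring]; norm_num
  · rw [show ((y : ℝ) - 1 / 4 - y) = -(1 / 4) by ring, abs_neg]; norm_num
  · rw [show ((y : ℝ) - 1 / 4 - y) = -(1 / 4) by ring, abs_neg]; norm_num

theorem gam_im (ω : Conf) (k : ℕ) : -(1/4) ≤ (gam ω k).im := by
  have h1 := Step_im (path ω k)
  have h2 : (0 : ℝ) ≤ ((path ω k).1.2 : ℝ) := by exact_mod_cast path_nonneg ω k
  have h3 := (abs_le.1 h1.le).1
  unfold gam
  linarith

theorem Step_sd_le {u v : Vtx} : |(u.1 : ℝ) - v.1| ≤ ((sd u v : ℤ) : ℝ) ∧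
    |(u.2 : ℝ) - v.2| ≤ ((sd u v : ℤ) : ℝ) := by
  constructor
  · have h : |u.1 - v.1| ≤ sd u v := le_max_left _ _
    exact_mod_cast h
  · have h : |u.2 - v.2| ≤ sd u v := le_max_right _ _
    exact_mod_cast h

theorem Step_le_sd {u v : Vtx} {r : ℝ} (h1 : |(u.1 : ℝ) - v.1| ≤ r) (h2 : |(u.2 : ℝ) - v.2| ≤ r) :
    ((sd u v : ℤ) : ℝ) ≤ r := by
  unfold sd
  push_cast
  exact max_le h1 h2

/-- Distances of places and of vertices. -/
theorem dist_place_le (σ τ : St) :
    dist (place σ) (place τ) ≤ 2 * ((sd σ.1 τ.1 : ℤ) : ℝ) + 1 := by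
  rw [Complex.dist_eq]
  refine (Complex.norm_le_abs_re_add_abs_im _).trans ?_
  rw [Complex.sub_re, Complex.sub_im]
  have a1 := abs_le.1 (Step_re σ).le
  have a2 := abs_le.1 (Step_re τ).le
  have b1 := abs_le.1 (Step_im σ).le
  have b2 := abs_le.1 (Step_im τ).le
  obtain ⟨c1, c2⟩ := Step_sd_le (u := σ.1) (v := τ.1)
  have d1 := abs_le.1 c1
  have d2 := abs_le.1 c2
  have e1 : |(place σ).re - (place τ).re| ≤ ((sd σ.1 τ.1 : ℤ) : ℝ) + 1 / 2 :=
    abs_le.2 ⟨by linarith, by linarith⟩
  have e2 : |(place σ).im - (place τ).im| ≤ ((sd σ.1 τ.1 : ℤ) : ℝ) + 1 / 2 :=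
    abs_le.2 ⟨by linarith, by linarith⟩
  linarith

theorem le_dist_place (σ τ : St) :
    ((sd σ.1 τ.1 : ℤ) : ℝ) - 1/2 ≤ dist (place σ) (place τ) := by
  rw [Complex.dist_eq]
  have a1 := abs_le.1 (Step_re σ).le
  have a2 := abs_le.1 (Step_re τ).le
  have b1 := abs_le.1 (Step_im σ).le
  have b2 := abs_le.1 (Step_im τ).le
  have c1 := abs_le.1 (Complex.abs_re_le_norm (place σ - place τ))
  have c2 := abs_le.1 (Complex.abs_im_le_norm (place σ - place τ))
  rw [Complex.sub_re] at c1
  rw [Complex.sub_im] at c2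
  have h := Step_le_sd (u := σ.1) (v := τ.1) (r := ‖place σ - place τ‖ + 1 / 2)
    (abs_le.2 ⟨by linarith, by linarith⟩) (abs_le.2 ⟨by linarith, by linarith⟩)
  linarith

theorem norm_place_le (σ : St) : ‖place σ‖ ≤ 2 * ((sd σ.1 (0, 0) : ℤ) : ℝ) + 1 := by
  refine (Complex.norm_le_abs_re_add_abs_im _).trans ?_
  have a1 := abs_le.1 (Step_re σ).le
  have b1 := abs_le.1 (Step_im σ).le
  obtain ⟨c1, c2⟩ := Step_sd_le (u := σ.1) (v := (0, 0))
  simp only [Int.cast_zero, sub_zero] at c1 c2
  have d1 := abs_le.1 c1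
  have d2 := abs_le.1 c2
  have e1 : |(place σ).re| ≤ ((sd σ.1 (0, 0) : ℤ) : ℝ) + 1 / 2 :=
    abs_le.2 ⟨by linarith, by linarith⟩
  have e2 : |(place σ).im| ≤ ((sd σ.1 (0, 0) : ℤ) : ℝ) + 1 / 2 :=
    abs_le.2 ⟨by linarith, by linarith⟩
  linarith

theorem le_norm_place (σ : St) : ((sd σ.1 (0, 0) : ℤ) : ℝ) - 1/4 ≤ ‖place σ‖ := by
  have a1 := abs_le.1 (Step_re σ).le
  have b1 := abs_le.1 (Step_im σ).le
  have c1 := abs_le.1 (Complex.abs_re_le_norm (place σ))
  have c2 := abs_le.1 (Complex.abs_im_le_norm (place σ))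
  have h := Step_le_sd (u := σ.1) (v := (0, 0)) (r := ‖place σ‖ + 1 / 4)
    (abs_le.2 ⟨by simp only [Int.cast_zero, sub_zero]; linarith, by simp only [Int.cast_zero, sub_zero]; linarith⟩)
    (abs_le.2 ⟨by simp only [Int.cast_zero, sub_zero]; linarith, by simp only [Int.cast_zero, sub_zero]; linarith⟩)
  linarith

end H984H
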