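import Pool.Agent.H984R4.HN.Walk
import Pool.Agent.H984R4.HN.Clu
import Pool.Agent.H984R4.HN.Step

/-!
S2: coupling of the path in the half-plane with the path in the box, run backwards.
-/

namespace H984H

open H974 Finset H342P H984P MeasureTheory

theorem bx_ok {ρ : ℤ} (hρ : 1 ≤ ρ) : (bx ρ).Ok := by
  constructor <;> simp only [bx] <;> omega

theorem Couple_cut_sub (ω : Conf) (ρ : ℤ) : cut ω ρ ⊆ (bx ρ).edges :=
  Finset.filter_subset _ _

theorem Couple_mem_cut (ω : Conf) (ρ : ℤ) (e : Edg) :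
    e ∈ cut ω ρ ↔ e ∈ RE (-ρ) ρ 0 ρ ∧ ω e = true := by
  unfold cut
  rw [Finset.mem_filter]
  rfl

theorem Couple_cfg_iff (ω : Conf) (ρ : ℤ) (e : Edg) :
    e ∈ (bx ρ).cfg (cut ω ρ) ↔ (((e ∈ RE (-ρ) ρ 0 ρ ∧ ω e = true) ∧
      ¬ (e.2.2 = true ∧ e.2.1 = 0 ∧ 0 ≤ e.1)) ∨
    ((e.2.2 = true ∧ e.2.1 = ρ ∧ -ρ ≤ e.1 ∧ e.1 < 0) ∨
    (e.2.2 = false ∧ e.1 = -ρ ∧ 0 ≤ e.2.1 ∧ e.2.1 < ρ) ∨
    (e.2.2 = true ∧ e.2.1 = 0 ∧ -ρ ≤ e.1 ∧ e.1 < 0))) := by
  rw [← Couple_mem_cut]
  exact Iff.rfl

/-- The two configurations agree at the edges of the vertices of the box which are not on its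
left, top or right side. -/
theorem cfg_opn {ρ : ℤ} (hρ : 1 ≤ ρ) (ω : Conf) {v : Vtx} (h0 : 0 ≤ v.2)
    (hv : sd v (0, 0) < ρ) {e : Edg} (he : src e = v ∨ tgt e = v) :
    e ∈ (bx ρ).cfg (cut ω ρ) ↔ e ∈ opn ω := by
  rw [Couple_cfg_iff]
  obtain ⟨x, y, b⟩ := e
  obtain ⟨v1, v2⟩ := v
  have h1 : |v1| < ρ := by
    have := lt_of_le_of_lt (le_max_left _ _) hv
    simpa using this
  have h2 : |v2| < ρ := by
    have := lt_of_le_of_lt (le_max_right _ _) hv
    simpa using this
  rw [abs_lt] at h1 h2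
  simp only at h0
  have hop : ((x, y, b) : Edg) ∈ opn ω ↔ ((y = 0 ∧ b = true ∧ x < 0) ∨
      (0 ≤ y ∧ ¬ (y = 0 ∧ b = true) ∧ ω (x, y, b) = true)) := Iff.rfl
  rw [hop]
  by_cases hw : ω (x, y, b) = true
  · cases b
    · rw [mem_RE_false]
      simp only [src_mk, tgt_false, Prod.mk.injEq] at he
      simp only [hw, Bool.false_eq_true, false_and, and_false, and_true, false_or, or_false,
        not_false_eq_true, true_and]
      omega
    · rw [mem_RE_true]
      simp only [src_mk, tgt_true, Prod.mk.injEq] at he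
      simp only [hw, Bool.true_eq_false, false_and, and_true, false_or, true_and]
      omega
  · cases b
    · simp only [src_mk, tgt_false, Prod.mk.injEq] at he
      simp only [hw, Bool.false_eq_true, false_and, and_false, false_or, or_false,
        true_and, iff_false]
      omega
    · simp only [src_mk, tgt_true, Prod.mk.injEq] at he
      have hw' : ω (x, y, true) = false := by simpa using hw
      simp only [hw', Bool.true_eq_false, Bool.false_eq_true, false_and, and_false, false_or,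
        or_false, true_and]
      omega

/-- The first state of the path of the half-plane is the one before the end in the box. -/
theorem Couple_first {ρ : ℤ} (ω : Conf) :
    nxt ((bx ρ).cfg (cut ω ρ)) ((0, 0), .ne) = Dm.stop := by
  have h : ae (((0, 0), .ne) : St) ∉ (bx ρ).cfg (cut ω ρ) := by
    rw [Couple_cfg_iff, ae_ne]
    simp
  rw [nxt_closed h]
  rfl

theorem Couple_start_ne {ρ : ℤ} (hρ : 1 ≤ ρ) {σ : St} (h : sd σ.1 (0, 0) < ρ) :
    σ ≠ (bx ρ).start := by
  rintro rfl
  have : sd ((bx ρ).start).1 (0, 0) = |ρ| := by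
    simp [sd, Dm.start, bx]
  rw [this, abs_of_nonneg (by omega)] at h
  exact absurd h (lt_irrefl _)

/-- Coupling: as long as the path is in the interior of the box of size `ρ`, it is the path of the
box from the top side to the origin, run backwards. -/
theorem couple {ρ : ℤ} (hρ : 1 ≤ ρ) (ω : Conf) {k : ℕ}
    (hk : ∀ j < k, sd (path ω j).1 (0, 0) < ρ) :
    k + 1 ≤ (bx ρ).len (cut ω ρ) ∧
      (bx ρ).walk (cut ω ρ) ((bx ρ).len (cut ω ρ) - 1 - k) = path ω k := by
  have hL := walk_len (bx_ok hρ) (Couple_cut_sub ω ρ)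
  set L := (bx ρ).len (cut ω ρ) with hLdef
  induction k with
  | zero =>
    have hpos : L ≠ 0 := by
      intro h0
      rw [h0, walk_zero] at hL
      have : sd ((Dm.stop).1) (0, 0) < ρ := by
        simp only [Dm.stop, Walk_sd_self]
        omega
      exact Couple_start_ne hρ this hL.symm
    refine ⟨by omega, ?_⟩
    obtain ⟨m, hm⟩ : ∃ m, L = m + 1 := ⟨L - 1, by omega⟩
    rw [hm] at hL ⊢
    rw [walk_succ, ← Couple_first ω] at hL
    exact (nxt_bij _).1 hL
  | succ k ih =>
    obtain ⟨h1, h2⟩ := ih (fun j hj => hk j (by omega))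
    have h3 : sd (path ω k).1 (0, 0) < ρ := hk k (by omega)
    have h4 : L - 1 - k ≠ 0 := by
      intro h0
      rw [h0, walk_zero] at h2
      exact Couple_start_ne hρ h3 h2.symm
    refine ⟨by omega, ?_⟩
    obtain ⟨m, hm⟩ : ∃ m, L - 1 - k = m + 1 := ⟨L - 1 - k - 1, by omega⟩
    have hm' : L - 1 - (k + 1) = m := by omega
    rw [hm, walk_succ] at h2
    rw [hm', path_succ, ← step_congr (G := (bx ρ).cfg (cut ω ρ)), ← h2, step_nxt]
    intro e he
    exact cfg_opn hρ ω (path_nonneg ω k) h3 he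

/-- No state is visited twice. -/
theorem path_inj (ω : Conf) {i j : ℕ} (h : i ≠ j) : path ω i ≠ path ω j := by
  have key : ∀ i j : ℕ, i < j → path ω i ≠ path ω j := by
    intro i j hij he
    have hρ : (1 : ℤ) ≤ (j : ℤ) + 1 := by omega
    have hst : ∀ l, l < j + 1 → sd (path ω l).1 (0, 0) < (j : ℤ) + 1 := by
      intro l hl
      have h1 := path_sd ω (Nat.zero_le l)
      have h2 : sd (path ω l).1 (0, 0) = sd (path ω 0).1 (path ω l).1 := by
        have : (path ω 0).1 = (0, 0) := rfl
        rw [this]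
        simp only [sd]
        rw [abs_sub_comm, abs_sub_comm (path ω l).1.2]
      rw [h2]
      omega
    have ci := couple hρ ω (k := i) (fun l hl => hst l (by omega))
    have cj := couple hρ ω (k := j) (fun l hl => hst l (by omega))
    have h3 := walk_inj (bx_ok hρ) (Couple_cut_sub ω _)
      (i := (bx ((j : ℤ) + 1)).len (cut ω ((j : ℤ) + 1)) - 1 - j)
      (j := (bx ((j : ℤ) + 1)).len (cut ω ((j : ℤ) + 1)) - 1 - i) (by omega) (by omega)
    rw [ci.2, cj.2] at h3
    exact h3 he.symm
  rcases lt_or_gt_of_ne h with h | h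
  · exact key i j h
  · exact (key j i h).symm

/-- One step stays at the vertex or follows an open edge. -/
theorem Couple_step_reach (G : Set Edg) (σ : St) : Reach G σ.1 (step G σ).1 := by
  classical
  obtain ⟨⟨x, y⟩, q⟩ := σ
  cases q
  · simp only [step]
    split_ifs with h
    · exact Adj.reach ⟨_, h, Or.inl ⟨rfl, rfl⟩⟩
    · exact Reach.refl _ _
  · simp only [step]
    split_ifs with h
    · refine Adj.reach ⟨_, h, Or.inr ⟨rfl, ?_⟩⟩
      rw [tgt_true]
      simp
    · exact Reach.refl _ _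
  · simp only [step]
    split_ifs with h
    · refine Adj.reach ⟨_, h, Or.inr ⟨rfl, ?_⟩⟩
      rw [tgt_false]
      simp
    · exact Reach.refl _ _
  · simp only [step]
    split_ifs with h
    · exact Adj.reach ⟨_, h, Or.inl ⟨rfl, rfl⟩⟩
    · exact Reach.refl _ _

/-- The vertices of the path are connected to the origin by open edges. -/
theorem path_clu (ω : Conf) (k : ℕ) : Reach (opn ω) (0, 0) (path ω k).1 := by
  induction k with
  | zero => exact Reach.refl _ _
  | succ k ih =>
    rw [path_succ]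
    exact ih.trans (Couple_step_reach _ _)

end H984H
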