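import Pool.Agent.H984R3.Per.Defs

/-!
Copy of `Pool.Agent.H984R4.NP.Defs` with the edges of the positive half-axis closed (boundary
condition of the half-plane). The exploration path as a walk: each step
turns at the examined edge, open edges stay on the right hand side and closed edges on the left
hand side (states, `nxt`, `orb` of `Pool.Agent.H984R3.Per.Defs`).
-/

namespace H984H

open H974 Finset H342P H984P

/-- The lattice rectangle `{l, …, r} × {0, …, h}` with the boundary vertices `(t, h)` (start) and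
`(0, 0)` (end). -/
structure Dm where
  l : ℤ
  r : ℤ
  h : ℤ
  t : ℤ

/-- Sup-norm distance. -/
def sd (u v : Vtx) : ℤ := max |u.1 - v.1| |u.2 - v.2|

namespace Dm

variable (D : Dm)

/-- The rectangle is nondegenerate. -/
structure Ok : Prop where
  l_neg : D.l < 0
  r_pos : 0 < D.r
  h_pos : 0 < D.h
  l_le : D.l ≤ D.t
  le_r : D.t ≤ D.r

/-- The edges. -/
noncomputable def edges : Finset Edg := RE D.l D.r 0 D.h

/-- The wired edges: the boundary arc from `(t, h)` counterclockwise to `(0, 0)`. -/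
def wir : Set Edg :=
  {e | (e.2.2 = true ∧ e.2.1 = D.h ∧ D.l ≤ e.1 ∧ e.1 < D.t) ∨
    (e.2.2 = false ∧ e.1 = D.l ∧ 0 ≤ e.2.1 ∧ e.2.1 < D.h) ∨
    (e.2.2 = true ∧ e.2.1 = 0 ∧ D.l ≤ e.1 ∧ e.1 < 0)}

/-- The horizontal edges of the positive half-axis, which are closed. -/
def zer : Set Edg := {e | e.2.2 = true ∧ e.2.1 = 0 ∧ 0 ≤ e.1}

/-- The open edges, with the boundary condition. -/
def cfg (F : Finset Edg) : Set Edg := (↑F \ zer) ∪ D.wir

/-- The faces outside along the complementary arc. -/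
def outer : Set Vtx :=
  {f | (f.2 = -1 ∧ 0 ≤ f.1 ∧ f.1 ≤ D.r) ∨
    (f.1 = D.r ∧ -1 ≤ f.2 ∧ f.2 ≤ D.h) ∨
    (f.2 = D.h ∧ D.t ≤ f.1 ∧ f.1 ≤ D.r)}

/-- The first state of the path. -/
def start : St := ((D.t, D.h), .ne)

/-- The last state of the path. -/
def stop : St := ((0, 0), .se)

/-- The exploration path. -/
noncomputable def walk (F : Finset Edg) (k : ℕ) : St := orb (D.cfg F) D.start k

/-- Its number of steps. -/
noncomputable def len (F : Finset Edg) : ℕ := sInf {k | D.walk F k = stop}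

/-- Vertices connected to the wired arc. -/
def clu (F : Finset Edg) : Set Vtx := {v | Reach (D.cfg F) (0, 0) v}

/-- Faces connected to the complementary arc. -/
def dclu (F : Finset Edg) : Set Vtx :=
  {f | ∃ g ∈ D.outer, DReach (↑D.edges \ D.cfg F : Set Edg) g f}

/-- Distance of a vertex to the boundary. -/
def bd (v : Vtx) : ℤ := min (min (v.1 - D.l) (D.r - v.1)) (min v.2 (D.h - v.2))

/-- The state is visited by the path. -/
def Vis (F : Finset Edg) (σ : St) : Prop := ∃ k ≤ D.len F, D.walk F k = σ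

/-- The states over the vertices of the rectangle. -/
noncomputable def states : Finset St :=
  (Finset.Icc D.l D.r ×ˢ Finset.Icc 0 D.h) ×ˢ (Finset.univ : Finset Q4)

/-- A subpath which starts in the bulk and has extent `R` but less than `M` steps. -/
def BulkBad (R D0 : ℤ) (M : ℕ) (F : Finset Edg) : Prop :=
  ∃ k l : ℕ, k ≤ l ∧ l ≤ D.len F ∧ D0 ≤ D.bd (D.walk F k).1 ∧
    Far (D.walk F k).1 R (D.walk F l).1 ∧ l - k < M

/-- An open path of extent `w` near the boundary. -/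
def PLay (ρ w : ℤ) (F : Finset Edg) : Prop :=
  ∃ u v : Vtx, w ≤ sd u v ∧
    Reach (↑F ∩ {e | D.bd (src e) < ρ ∧ D.bd (tgt e) < ρ} : Set Edg) u v

/-- A closed dual path of extent `w` near the boundary. -/
def DLay (ρ w : ℤ) (F : Finset Edg) : Prop :=
  ∃ f g : Vtx, w ≤ sd f g ∧
    DReach ({e | e ∈ D.edges ∧ D.bd (src e) < ρ ∧ D.bd (tgt e) < ρ} \ ↑F : Set Edg) f g

/-- A subpath of extent at least `w` with less than `M` steps. -/
def Fast (w : ℤ) (M : ℝ) (F : Finset Edg) : Prop :=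
  ∃ k l : ℕ, k ≤ l ∧ l ≤ D.len F ∧ w ≤ sd (D.walk F k).1 (D.walk F l).1 ∧ ((l - k : ℕ) : ℝ) < M

/-- The side lengths are between `κ n` and `n`. -/
structure Shape (κ n : ℝ) : Prop where
  ok : D.Ok
  l_ge : κ * n ≤ -D.l
  r_ge : κ * n ≤ D.r
  h_ge : κ * n ≤ D.h
  w_le : ((D.r - D.l : ℤ) : ℝ) ≤ n
  h_le : (D.h : ℝ) ≤ n

end Dm

/-- Annulus bound (the statement `H934F.St_A` with its constant): an open arm and a dual arm from
the box of radius `r` around `(c1,c2)` to distance `R`, inside an arbitrary random edge set `S`. -/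
def AnnUp (C : ℝ) : Prop := ∀ r R : ℕ, 1 ≤ r → r ≤ R → ∀ (c1 c2 : ℤ) (S : Finset Edg),
  Pr (fun _ => (1/2:ℝ)) S
    (fun F => H12S.Crs c1 c2 r R ↑F ∧ H12S.DCrs c1 c2 r R (↑(S \ F) : Set Edg)) ≤
    C * ((r : ℝ) / R) ^ (1/4 : ℝ)

/-- Hölder continuity of the exploration path with exponent `1/γ` in its natural time. -/
def Hol (D : Dm) (γ Λ n : ℝ) (F : Finset Edg) : Prop :=
  ∀ k l : ℕ, k ≤ l → l ≤ D.len F →
    (((sd (D.walk F k).1 (D.walk F l).1 : ℤ) : ℝ) / n) ^ γ ≤
      Λ * (((l - k : ℕ) : ℝ) / n ^ (7/4 : ℝ))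

/-- The energy of the visited states. -/
noncomputable def energy (D : Dm) (α : ℝ) (F : Finset Edg) : ℝ :=
  ∑ i ∈ Finset.range (D.len F + 1), ∑ j ∈ Finset.range (D.len F + 1),
    ((max (sd (D.walk F i).1 (D.walk F j).1) 1 : ℤ) : ℝ) ^ (-α)

/-- The bound for the probability that two states with different vertices are visited. -/
noncomputable def tpb (D : Dm) (u v : Vtx) : ℝ :=
  ((D.bd u : ℝ) + 1) ^ (-(1/4) : ℝ) *
    ((sd u v : ℝ) ^ (-(1/4) : ℝ) + ((D.bd v : ℝ) + 1) ^ (-(1/4) : ℝ))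

/-- Probability at `p = 1/2`. -/
noncomputable abbrev P (S : Finset Edg) (A : Finset Edg → Prop) : ℝ := Pr (fun _ => (1/2:ℝ)) S A

/-- Expectation at `p = 1/2`. -/
noncomputable abbrev E (S : Finset Edg) (f : Finset Edg → ℝ) : ℝ := Ex (fun _ => (1/2:ℝ)) S f

end H984H
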