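import Pool.Agent.H984R4.HN.HPDefs

/-!
S3: measurability, and probabilities of events in a finite box (compare the generic section of
`Pool.Agent.H389R2.KP.Inf`).
-/

namespace H984H

open H974 Finset H342P H984P MeasureTheory

instance perc_prob : IsProbabilityMeasure perc := by
  unfold perc
  infer_instance

/-! ### auxiliary lemmas -/

theorem Perc_coin_eq (b : Bool) : (PMF.uniformOfFintype Bool).toMeasure {b} = 1/2 := by
  rw [PMF.toMeasure_apply_singleton _ _ (measurableSet_singleton b)]
  simp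

theorem Perc_mem_cut {ω : Conf} {ρ : ℤ} {e : Edg} :
    e ∈ cut ω ρ ↔ e ∈ (bx ρ).edges ∧ ω e = true := by
  unfold cut
  rw [Finset.mem_filter]

theorem Perc_cut_sub (ω : Conf) (ρ : ℤ) : cut ω ρ ⊆ (bx ρ).edges := Finset.filter_subset _ _

theorem Perc_cut_pi (ρ : ℤ) {T : Finset Edg} (hT : T ⊆ (bx ρ).edges) :
    {ω : Conf | cut ω ρ = T} = Set.pi (↑((bx ρ).edges) : Set Edg)
      (fun g => {b : Bool | b = true ↔ g ∈ T}) := by
  ext ω
  rw [Set.mem_pi]
  constructor
  · intro h g hg
    have h' : cut ω ρ = T := h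
    show ω g = true ↔ g ∈ T
    rw [← h', Perc_mem_cut]
    exact ⟨fun h => ⟨hg, h⟩, fun h => h.2⟩
  · intro h
    show cut ω ρ = T
    ext e
    rw [Perc_mem_cut]
    constructor
    · rintro ⟨he, hω⟩
      exact (h e he).mp hω
    · intro he
      exact ⟨hT he, (h e (hT he)).mpr he⟩

theorem Perc_meas_cut (ρ : ℤ) (T : Finset Edg) : MeasurableSet {ω : Conf | cut ω ρ = T} := by
  by_cases hT : T ⊆ (bx ρ).edges
  · rw [Perc_cut_pi ρ hT]
    exact MeasurableSet.pi (Finset.countable_toSet _) (fun _ _ => MeasurableSet.of_discrete)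
  · have : {ω : Conf | cut ω ρ = T} = ∅ := by
      ext ω
      simp only [Set.mem_empty_iff_false, iff_false]
      intro h
      have h' : cut ω ρ = T := h
      exact hT (h' ▸ Perc_cut_sub ω ρ)
    rw [this]
    exact MeasurableSet.empty

theorem Perc_prob_cut (ρ : ℤ) {T : Finset Edg} (hT : T ⊆ (bx ρ).edges) :
    perc.real {ω : Conf | cut ω ρ = T} = (1/2 : ℝ) ^ (bx ρ).edges.card := by
  classical
  unfold perc
  rw [measureReal_def, Perc_cut_pi ρ hT]
  rw [Measure.infinitePi_pi _ (fun _ _ => MeasurableSet.of_discrete), ENNReal.toReal_prod]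
  have h1 : ∀ e ∈ (bx ρ).edges, ((PMF.uniformOfFintype Bool).toMeasure
      {b : Bool | b = true ↔ e ∈ T}).toReal = 1/2 := by
    intro e _
    by_cases he : e ∈ T
    · have : {b : Bool | b = true ↔ e ∈ T} = {true} := by
        ext b; simp [he]
      rw [this, Perc_coin_eq]; simp
    · have : {b : Bool | b = true ↔ e ∈ T} = {false} := by
        ext b; simp [he]
      rw [this, Perc_coin_eq]; simp
  rw [Finset.prod_congr rfl h1, Finset.prod_const]

theorem perc_cut_meas (ρ : ℤ) (g : Finset Edg → ℝ) : Measurable (fun ω => g (cut ω ρ)) := by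
  intro s _
  have h : (fun ω : Conf => g (cut ω ρ)) ⁻¹' s =
      ⋃ T ∈ {T : Finset Edg | g T ∈ s}, {ω : Conf | cut ω ρ = T} := by
    ext ω
    simp only [Set.mem_preimage, Set.mem_iUnion, Set.mem_ofPred_eq, exists_prop]
    exact ⟨fun h => ⟨_, h, rfl⟩, fun ⟨T, h1, h2⟩ => by rw [h2]; exact h1⟩
  rw [h]
  exact MeasurableSet.biUnion (Set.to_countable _) (fun T _ => Perc_meas_cut ρ T)

theorem perc_cut_int (ρ : ℤ) (g : Finset Edg → ℝ) :
    ∫ ω, g (cut ω ρ) ∂perc = E (bx ρ).edges g := by
  classical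
  have h : ∀ ω : Conf, g (cut ω ρ) = ∑ T ∈ (bx ρ).edges.powerset,
      Set.indicator {ω : Conf | cut ω ρ = T} (fun _ => g T) ω := by
    intro ω
    rw [Finset.sum_eq_single (cut ω ρ)]
    · rw [Set.indicator_of_mem]
      exact rfl
    · intro T _ hT
      rw [Set.indicator_of_notMem]
      intro h
      exact hT (show cut ω ρ = T from h).symm
    · intro h
      exact absurd (Finset.mem_powerset.mpr (Perc_cut_sub ω ρ)) h
  rw [integral_congr_ae (Filter.Eventually.of_forall h)]
  rw [integral_finsetSum]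
  · have hE : E (bx ρ).edges g = (1/2) ^ (bx ρ).edges.card * ∑ F ∈ (bx ρ).edges.powerset, g F :=
      H984N.Ex_half (bx ρ).edges g
    rw [hE, Finset.mul_sum]
    apply Finset.sum_congr rfl
    intro T hT
    rw [integral_indicator_const _ (Perc_meas_cut ρ T), Perc_prob_cut ρ (Finset.mem_powerset.mp hT),
      smul_eq_mul]
  · intro T _
    exact (integrable_const _).indicator (Perc_meas_cut ρ T)

/-- Events of the box of size `ρ`. -/
theorem perc_cut (ρ : ℤ) (A : Finset Edg → Prop) :
    perc.real {ω | A (cut ω ρ)} = P (bx ρ).edges A := by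
  classical
  have hm : MeasurableSet {ω : Conf | A (cut ω ρ)} := by
    have := perc_cut_meas ρ (fun F => ind (A F)) (measurableSet_singleton (1 : ℝ))
    convert this using 1
    ext ω
    simp only [Set.mem_ofPred_eq, Set.mem_preimage, Set.mem_singleton_iff]
    constructor
    · exact fun h => ind_of h
    · intro h
      by_contra hA
      rw [ind_not_of hA] at h
      norm_num at h
  have h := perc_cut_int ρ (fun F => ind (A F))
  show _ = E (bx ρ).edges (fun F => ind (A F))
  rw [← h, ← integral_indicator_one hm]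
  apply integral_congr_ae
  apply Filter.Eventually.of_forall
  intro ω
  by_cases hA : A (cut ω ρ)
  · show Set.indicator _ _ ω = ind _
    rw [ind_of hA, Set.indicator_of_mem (show ω ∈ {ω | A (cut ω ρ)} from hA)]
    rfl
  · show Set.indicator _ _ ω = ind _
    rw [ind_not_of hA, Set.indicator_of_notMem (show ω ∉ {ω | A (cut ω ρ)} from hA)]

/-! ### measurability of the path -/

theorem Perc_meas_opn (e : Edg) : MeasurableSet {ω : Conf | e ∈ opn ω} := by
  have h0 : Measurable (fun ω : Conf => ω e) := measurable_pi_apply e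
  have h1 : MeasurableSet {ω : Conf | ω e = true} := h0 (measurableSet_singleton true)
  have : {ω : Conf | e ∈ opn ω} = {_ω : Conf | e.2.1 = 0 ∧ e.2.2 = true ∧ e.1 < 0} ∪
      ({_ω : Conf | 0 ≤ e.2.1 ∧ ¬ (e.2.1 = 0 ∧ e.2.2 = true)} ∩ {ω : Conf | ω e = true}) := by
    ext ω
    simp only [opn, Set.mem_ofPred_eq, Set.mem_union, Set.mem_inter_iff]
    tauto
  rw [this]
  exact (MeasurableSet.const _).union ((MeasurableSet.const _).inter h1)

open Classical in
theorem Perc_meas_ite (e : Edg) (a b τ : St) :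
    MeasurableSet {ω : Conf | (if e ∈ opn ω then a else b) = τ} := by
  have : {ω : Conf | (if e ∈ opn ω then a else b) = τ} =
      ({ω : Conf | e ∈ opn ω} ∩ {_ω : Conf | a = τ}) ∪
        ({ω : Conf | e ∈ opn ω}ᶜ ∩ {_ω : Conf | b = τ}) := by
    ext ω
    simp only [Set.mem_ofPred_eq, Set.mem_union, Set.mem_inter_iff, Set.mem_compl_iff]
    by_cases h : e ∈ opn ω <;> simp [h]
  rw [this]
  exact ((Perc_meas_opn e).inter (MeasurableSet.const _)).union
    ((Perc_meas_opn e).compl.inter (MeasurableSet.const _))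

theorem Perc_meas_step (σ τ : St) : MeasurableSet {ω : Conf | step (opn ω) σ = τ} := by
  obtain ⟨v, q⟩ := σ
  cases q
  all_goals
    unfold step
    exact Perc_meas_ite _ _ _ _

theorem Perc_meas_path (k : ℕ) : ∀ τ : St, MeasurableSet {ω : Conf | path ω k = τ} := by
  induction k with
  | zero =>
    intro τ
    show MeasurableSet {_ω : Conf | (((0, 0), .ne) : St) = τ}
    exact MeasurableSet.const _
  | succ k ih =>
    intro τ
    have : {ω : Conf | path ω (k + 1) = τ} =
        ⋃ σ : St, ({ω : Conf | path ω k = σ} ∩ {ω : Conf | step (opn ω) σ = τ}) := by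
      ext ω
      simp only [Set.mem_ofPred_eq, Set.mem_iUnion, Set.mem_inter_iff]
      constructor
      · intro h
        exact ⟨path ω k, rfl, h⟩
      · rintro ⟨σ, h1, h2⟩
        show step (opn ω) (path ω k) = τ
        rw [h1]; exact h2
    rw [this]
    exact MeasurableSet.iUnion (fun σ => (ih σ).inter (Perc_meas_step σ τ))

/-- Functions of the first steps are measurable. -/
theorem meas_path {β : Type*} [MeasurableSpace β] (n : ℕ) (G : (Fin (n + 1) → St) → β) :
    Measurable (fun ω : Conf => G (fun j => path ω j)) := by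
  intro s _
  have h : (fun ω : Conf => G (fun j => path ω j)) ⁻¹' s =
      ⋃ v ∈ {v : Fin (n + 1) → St | G v ∈ s}, ⋂ j : Fin (n + 1), {ω : Conf | path ω j = v j} := by
    ext ω
    simp only [Set.mem_preimage, Set.mem_iUnion, Set.mem_ofPred_eq, exists_prop, Set.mem_iInter]
    constructor
    · intro h
      exact ⟨_, h, fun _ => rfl⟩
    · rintro ⟨v, h1, h2⟩
      have : (fun j : Fin (n + 1) => path ω j) = v := funext h2
      rw [this]; exact h1
  rw [h]
  exact MeasurableSet.biUnion (Set.to_countable _)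
    (fun v _ => MeasurableSet.iInter (fun j => Perc_meas_path _ _))

theorem Perc_meas_dep {β : Type*} [MeasurableSpace β] (n : ℕ) (F : (ℕ → St) → β)
    (hF : ∀ p p' : ℕ → St, (∀ k ≤ n, p k = p' k) → F p = F p') :
    Measurable (fun ω : Conf => F (path ω)) := by
  have h := meas_path n (fun v : Fin (n + 1) → St =>
    F (fun k => v ⟨min k n, by omega⟩))
  convert h using 2 with ω
  apply hF
  intro k hk
  show path ω k = path ω (min k n)
  rw [min_eq_left hk]

theorem Perc_pl_congr (n : ℕ) (p p' : ℕ → ℂ) (h : ∀ k ≤ n, p k = p' k) :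
    H984N.pl n p = H984N.pl n p' := by
  ext s
  show p 0 + ∑ k ∈ Finset.range n, ((H984N.clamp (s * n - k) : ℝ) : ℂ) * (p (k + 1) - p k) =
    p' 0 + ∑ k ∈ Finset.range n, ((H984N.clamp (s * n - k) : ℝ) : ℂ) * (p' (k + 1) - p' k)
  rw [h 0 (Nat.zero_le _)]
  congr 1
  apply Finset.sum_congr rfl
  intro k hk
  rw [Finset.mem_range] at hk
  rw [h k hk.le, h (k + 1) hk]

theorem curve_meas (n : ℕ) : Measurable (curve n) := by
  refine Perc_meas_dep n
    (fun p => H984N.pl n (fun k => (((n : ℝ) ^ (-(4/7) : ℝ) : ℝ) : ℂ) * place (p k))) ?_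
  intro p p' h
  apply Perc_pl_congr
  intro k hk
  rw [h k hk]

theorem reach_meas (n : ℕ) : Measurable (reach n) := by
  refine Perc_meas_dep n
    (fun p => (Finset.range (n + 1)).sup' ⟨0, Finset.mem_range.mpr (Nat.succ_pos n)⟩
      (fun k => ‖place (p k)‖)) ?_
  intro p p' h
  apply Finset.sup'_congr _ rfl
  intro k hk
  rw [Finset.mem_range] at hk
  rw [h k (by omega)]

theorem stay_meas (ρ : ℤ) (n : ℕ) : MeasurableSet {ω : Conf | Stay ρ n ω} := by
  have h := Perc_meas_dep n (fun p : ℕ → St => ∀ j ≤ n, sd (p j).1 (0, 0) < ρ) (by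
    intro p p' h
    apply propext
    exact ⟨fun h1 j hj => by rw [← h j hj]; exact h1 j hj,
      fun h1 j hj => by rw [h j hj]; exact h1 j hj⟩)
  exact measurableSet_setOfPred.mpr h

theorem enr_meas (α : ℝ) (n : ℕ) : Measurable (enr α n) := by
  refine Perc_meas_dep n
    (fun p => ∑ i ∈ Finset.range (n + 1), ∑ j ∈ Finset.range (n + 1),
      ((max (sd (p i).1 (p j).1) 1 : ℤ) : ℝ) ^ (-α)) ?_
  intro p p' h
  apply Finset.sum_congr rfl
  intro i hi
  apply Finset.sum_congr rfl
  intro j hj
  rw [Finset.mem_range] at hi hj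
  rw [h i (by omega), h j (by omega)]

end H984H
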