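import Pool.Agent.H984R4.HN.Step
import Pool.Agent.H984R4.HN.Perc
import Pool.Agent.H12R2.Sep.Win2
import Pool.Agent.H12R2.Sep.WinHalf

/-!
S12: the path does not come back.
-/

namespace H984H

open H974 Finset H342P H984P MeasureTheory

/-! ### planarity -/

/-- The edges inside a set of vertices. -/
def Ret_E (S : Set Vtx) : Set Edg := {e | src e ∈ S ∧ tgt e ∈ S}

theorem Ret_adj {S : Set Vtx} {u v : Vtx} (h : Adj (Ret_E S) u v) : u ∈ S ∧ v ∈ S := by
  obtain ⟨e, he, hc⟩ := h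
  rcases hc with ⟨h1, h2⟩ | ⟨h1, h2⟩
  · rw [← h1, ← h2]; exact he
  · rw [← h1, ← h2]; exact ⟨he.2, he.1⟩

theorem Ret_reach_mem {S T : Set Vtx} (hST : Disjoint S T) {G : Set Edg}
    (hG : G ⊆ Ret_E S ∪ Ret_E T) {u v : Vtx} (hu : u ∈ S) (h : Reach G u v) : v ∈ S := by
  induction h with
  | refl => exact hu
  | @tail w w' _ hs ih =>
    obtain ⟨e, he, hc⟩ := hs
    rcases hG he with h1 | h1
    · exact (Ret_adj ⟨e, h1, hc⟩).2
    · exact absurd (Ret_adj ⟨e, h1, hc⟩).1 (Set.disjoint_left.mp hST ih)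

theorem Ret_first {G : Set Edg} {u v : Vtx} (h : Reach G u v) (hne : u ≠ v) : ∃ w, Adj G u w := by
  rcases Relation.ReflTransGen.cases_head h with h1 | ⟨w, h1, -⟩
  · exact absurd h1 hne
  · exact ⟨w, h1⟩

/-- Two paths in disjoint sets of vertices do not cross. -/
theorem Ret_no_cross {S T : Set Vtx} (hST : Disjoint S T) {a b c d : ℤ} (hab : a < b) (hcd : c < d)
    {u v u' v' : Vtx} (h1 : Reach (Ret_E S ∩ ↑(RE a b c d)) u v) (hu : u.1 = a) (hv : v.1 = b)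
    (h2 : Reach (Ret_E T ∩ ↑(RE a b c d)) u' v') (hu' : u'.2 = c) (hv' : v'.2 = d) : False := by
  classical
  set FS : Finset Edg := (RE a b c d).filter (fun e => e ∈ Ret_E S) with hFS
  set FT : Finset Edg := (RE a b c d).filter (fun e => e ∈ Ret_E T) with hFT
  have e1 : LRc a b c d FS := by
    refine LRc_of_reach hab (h1.mono ?_) hu hv
    rintro e ⟨he1, he2⟩
    refine ⟨?_, he2⟩
    rw [hFS, Finset.mem_coe, Finset.mem_filter]
    exact ⟨by exact_mod_cast he2, he1⟩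
  have e2 : TBc a b c d FT := by
    refine TBc_of_reach hcd (h2.mono ?_) hu' hv'
    rintro e ⟨he1, he2⟩
    refine ⟨?_, he2⟩
    rw [hFT, Finset.mem_coe, Finset.mem_filter]
    exact ⟨by exact_mod_cast he2, he1⟩
  obtain ⟨y, y', h4, h5, h6⟩ := e1
  obtain ⟨x, x', h10, h11, h12⟩ := e2
  have hFSs : ∀ e ∈ (↑FS : Set Edg), e ∈ Ret_E S := by
    intro e he
    rw [Finset.mem_coe, hFS, Finset.mem_filter] at he
    exact he.2
  have hFTs : ∀ e ∈ (↑FT : Set Edg), e ∈ Ret_E T := by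
    intro e he
    rw [Finset.mem_coe, hFT, Finset.mem_filter] at he
    exact he.2
  have hmeet := crossings_meet hab hcd.le (F := (↑FS ∪ ↑FT : Set Edg)) h5 h10
    (h6.mono (Set.inter_subset_inter_left _ Set.subset_union_left))
    (h12.mono (Set.inter_subset_inter_left _ Set.subset_union_right))
  have hS : ((a, y) : Vtx) ∈ S := by
    obtain ⟨w, hw⟩ := Ret_first h6 (by intro h; rw [Prod.mk.injEq] at h; omega)
    exact (Ret_adj (hw.mono (fun e he => hFSs e he.1))).1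
  have hT : ((x, c) : Vtx) ∈ T := by
    obtain ⟨w, hw⟩ := Ret_first h12 (by intro h; rw [Prod.mk.injEq] at h; omega)
    exact (Ret_adj (hw.mono (fun e he => hFTs e he.1))).1
  have := Ret_reach_mem hST (G := (↑FS ∪ ↑FT : Set Edg) ∩ ↑(RE a b c d)) (by
    rintro e ⟨he | he, _⟩
    · exact Or.inl (hFSs e he)
    · exact Or.inr (hFTs e he)) hS hmeet
  exact Set.disjoint_left.mp hST this hT

/-- horizontal segments -/
theorem Ret_row {G : Set Edg} {y : ℤ} (x : ℤ) (n : ℕ)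
    (h : ∀ i : ℤ, x ≤ i → i < x + n → ((i, y, true) : Edg) ∈ G) : Reach G (x, y) (x + n, y) := by
  induction n with
  | zero => simpa using Reach.refl G (x, y)
  | succ n ih =>
    refine (ih fun i h1 h2 => h i h1 (by push_cast; omega)).trans (Adj.reach ⟨(x + n, y, true), ?_, Or.inl ⟨rfl, ?_⟩⟩)
    · exact h _ (by omega) (by push_cast; omega)
    · rw [tgt_true]; push_cast; rw [add_assoc]

theorem Ret_row' {G : Set Edg} {y x x' : ℤ} (hx : x ≤ x')
    (h : ∀ i : ℤ, x ≤ i → i < x' → ((i, y, true) : Edg) ∈ G) : Reach G (x, y) (x', y) := by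
  obtain ⟨n, rfl⟩ := Int.le.dest hx
  exact Ret_row x n h

theorem Ret_col {G : Set Edg} {x : ℤ} (y : ℤ) (n : ℕ)
    (h : ∀ i : ℤ, y ≤ i → i < y + n → ((x, i, false) : Edg) ∈ G) : Reach G (x, y) (x, y + n) := by
  induction n with
  | zero => simpa using Reach.refl G (x, y)
  | succ n ih =>
    refine (ih fun i h1 h2 => h i h1 (by push_cast; omega)).trans (Adj.reach ⟨(x, y + n, false), ?_, Or.inl ⟨rfl, ?_⟩⟩)
    · exact h _ (by omega) (by push_cast; omega)
    · rw [tgt_false]; push_cast; rw [add_assoc]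

theorem Ret_col' {G : Set Edg} {x y y' : ℤ} (hy : y ≤ y')
    (h : ∀ i : ℤ, y ≤ i → i < y' → ((x, i, false) : Edg) ∈ G) : Reach G (x, y) (x, y') := by
  obtain ⟨n, rfl⟩ := Int.le.dest hy
  exact Ret_col y n h

/-! ### the cluster of the half-box -/

/-- The open edges off the axis. -/
def Ret_O (ω : Conf) : Set Edg := {e | 0 ≤ e.2.1 ∧ ¬ (e.2.1 = 0 ∧ e.2.2 = true) ∧ ω e = true}

/-- The cluster of the half-box, off the axis. -/
def Ret_S (ω : Conf) (r : ℤ) : Set Vtx :=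
  {v | ∃ u : Vtx, sd u (0, 0) ≤ r ∧ 0 ≤ u.2 ∧ Reach (Ret_O ω) u v}

/-- The vertices of the upper half-plane which are connected to distance `R` off the cluster. -/
def Ret_T (ω : Conf) (r R : ℤ) : Set Vtx :=
  {v | 0 ≤ v.2 ∧ v ∉ Ret_S ω r ∧ ∃ w : Vtx, R ≤ sd w (0, 0) ∧
    Reach {e | 0 ≤ e.2.1 ∧ src e ∉ Ret_S ω r ∧ tgt e ∉ Ret_S ω r} v w}

theorem Ret_sd (u : Vtx) : sd u (0, 0) = max |u.1| |u.2| := by
  unfold sd; simp

theorem Ret_O_nonneg {ω : Conf} {u v : Vtx} (hu : 0 ≤ u.2) (h : Reach (Ret_O ω) u v) : 0 ≤ v.2 := by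
  induction h with
  | refl => exact hu
  | @tail w w' _ hs ih =>
    obtain ⟨⟨x, y, b⟩, he, hc⟩ := hs
    have h0 : 0 ≤ y := he.1
    cases b
    · simp only [src_mk, tgt_false] at hc
      rcases hc with ⟨h1, h2⟩ | ⟨h1, h2⟩
      · rw [← h2]; simp only; omega
      · rw [← h1]; exact h0
    · simp only [src_mk, tgt_true] at hc
      rcases hc with ⟨h1, h2⟩ | ⟨h1, h2⟩
      · rw [← h2]; exact h0
      · rw [← h1]; exact h0

theorem Ret_S_nonneg {ω : Conf} {r : ℤ} {v : Vtx} (hv : v ∈ Ret_S ω r) : 0 ≤ v.2 := by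
  obtain ⟨u, _, h0, h⟩ := hv
  exact Ret_O_nonneg h0 h

theorem Ret_S_closed {ω : Conf} {r : ℤ} {u v : Vtx} (hu : u ∈ Ret_S ω r) (h : Adj (Ret_O ω) u v) :
    v ∈ Ret_S ω r := by
  obtain ⟨w, h1, h0, h2⟩ := hu
  exact ⟨w, h1, h0, h2.trans h.reach⟩

/-- A path of the cluster stays in the cluster. -/
theorem Ret_S_path {ω : Conf} {r : ℤ} {u v : Vtx} (hu : u ∈ Ret_S ω r) (h : Reach (Ret_O ω) u v) :
    Reach (Ret_E (Ret_S ω r)) u v ∧ v ∈ Ret_S ω r := by
  induction h with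
  | refl => exact ⟨Reach.refl _ _, hu⟩
  | @tail w w' _ hs ih =>
    have hw' := Ret_S_closed ih.2 hs
    obtain ⟨e, he, hc⟩ := hs
    refine ⟨ih.1.trans (Adj.reach ⟨e, ?_, hc⟩), hw'⟩
    rcases hc with ⟨h1, h2⟩ | ⟨h1, h2⟩
    · show src e ∈ _ ∧ tgt e ∈ _
      rw [h1, h2]; exact ⟨ih.2, hw'⟩
    · show src e ∈ _ ∧ tgt e ∈ _
      rw [h1, h2]; exact ⟨hw', ih.2⟩

/-- The planar fact. -/
theorem Ret_planar {ω : Conf} {r R : ℤ} (hr : 0 ≤ r) (hrR : r < R)
    (hS : ∀ v ∈ Ret_S ω r, sd v (0, 0) < R) {x : ℤ} (hx : x < 0) (h1 : ((x, 0) : Vtx) ∈ Ret_S ω r)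
    (h2 : ((x + 1, 0) : Vtx) ∈ Ret_T ω r R) : False := by
  obtain ⟨-, hxS, w, hw, hreach⟩ := h2
  obtain ⟨u0, hu0, hu0', hπ⟩ := h1
  have hbox : ∀ v : Vtx, sd v (0, 0) ≤ r → 0 ≤ v.2 → v ∈ Ret_S ω r := fun v h h' => ⟨v, h, h', Reach.refl _ _⟩
  have hx1 : x + 1 < -r := by
    by_contra hcon
    apply hxS
    apply hbox _ _ le_rfl
    rw [Ret_sd]
    simp only [abs_zero]
    apply max_le _ hr
    rw [abs_le]
    omega
  have hu0S := hbox u0 hu0 hu0'
  have hxx : ((x, 0) : Vtx) ∈ Ret_S ω r := ⟨u0, hu0, hu0', hπ⟩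
  have habs : ∀ v : Vtx, sd v (0, 0) < R → (-R < v.1 ∧ v.1 < R) ∧ (-R < v.2 ∧ v.2 < R) := by
    intro v hv
    rw [Ret_sd, max_lt_iff, abs_lt, abs_lt] at hv
    exact hv
  have hSb : ∀ v ∈ Ret_S ω r, (-R < v.1 ∧ v.1 < R) ∧ (0 ≤ v.2 ∧ v.2 < R) := fun v hv =>
    ⟨(habs v (hS v hv)).1, Ret_S_nonneg hv, (habs v (hS v hv)).2.2⟩
  obtain ⟨⟨hxb1, -⟩, -⟩ := hSb _ hxx
  simp only at hxb1
  have hu0r : (-r ≤ u0.1 ∧ u0.1 ≤ r) ∧ u0.2 ≤ r := by
    rw [Ret_sd, max_le_iff, abs_le, abs_le] at hu0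
    exact ⟨hu0.1, hu0.2.2⟩
  set S' : Set Vtx := {v | v ∈ Ret_S ω r ∨ (v.2 = -1 ∧ v.1 ≤ x) ∨ (v.2 = -1 ∧ -r ≤ v.1)} with hS'
  set T' : Set Vtx := {v | (0 ≤ v.2 ∧ v ∉ Ret_S ω r) ∨ (v.2 = -1 ∧ x < v.1 ∧ v.1 < -r) ∨ v.2 = -2} with hT'
  have hdis : Disjoint S' T' := by
    rw [Set.disjoint_left]
    rintro v (h | ⟨h, h'⟩ | ⟨h, h'⟩) (k | ⟨k, k', k''⟩ | k)
    · exact k.2 h
    · have := Ret_S_nonneg h; omega
    · have := Ret_S_nonneg h; omega
    all_goals omega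
  -- the left-right path
  have p1 : Reach (Ret_E S' ∩ ↑(RE (-R) R (-2) R)) (-R, -1) (x, -1) := by
    apply Ret_row' (by omega)
    intro i hi1 hi2
    refine ⟨⟨Or.inr (Or.inl ⟨rfl, by simp only [src_mk]; omega⟩), Or.inr (Or.inl ⟨by simp, by simp only [tgt_true]; omega⟩)⟩, ?_⟩
    rw [Finset.mem_coe, mem_RE_true]; omega
  have p2 : Reach (Ret_E S' ∩ ↑(RE (-R) R (-2) R)) (x, -1) (x, 0) := by
    apply Ret_col' (by omega)
    intro i hi1 hi2
    have : i = -1 := by omega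
    subst this
    refine ⟨⟨Or.inr (Or.inl ⟨rfl, le_rfl⟩), Or.inl (by simpa using hxx)⟩, ?_⟩
    rw [Finset.mem_coe, mem_RE_false]; omega
  have hin : ∀ u v : Vtx, Reach (Ret_E (Ret_S ω r)) u v → Reach (Ret_E S' ∩ ↑(RE (-R) R (-2) R)) u v := by
    intro u v h
    refine h.mono ?_
    rintro e ⟨he1, he2⟩
    refine ⟨⟨Or.inl he1, Or.inl he2⟩, ?_⟩
    have b1 := hSb _ he1
    have b2 := hSb _ he2
    obtain ⟨a, b, _ | _⟩ := e
    · simp only [src_mk, tgt_false] at b1 b2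
      rw [Finset.mem_coe, mem_RE_false]; omega
    · simp only [src_mk, tgt_true] at b1 b2
      rw [Finset.mem_coe, mem_RE_true]; omega
  have p3 : Reach (Ret_E S' ∩ ↑(RE (-R) R (-2) R)) u0 (x, 0) := hin _ _ (Ret_S_path hu0S hπ).1
  have p4 : Reach (Ret_E S' ∩ ↑(RE (-R) R (-2) R)) (u0.1, -1) (u0.1, u0.2) := by
    apply Ret_col' (by omega)
    intro i hi1 hi2
    have hmem : ∀ j : ℤ, -1 ≤ j → j ≤ u0.2 → ((u0.1, j) : Vtx) ∈ S' := by
      intro j hj1 hj2
      rcases eq_or_lt_of_le hj1 with h | h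
      · right; right
        exact ⟨h.symm, hu0r.1.1⟩
      · left
        apply hbox _ _ (by simp only; omega)
        rw [Ret_sd]
        simp only
        apply max_le
        · rw [abs_le]; exact hu0r.1
        · rw [abs_le]; omega
    refine ⟨⟨hmem i hi1 (by omega), by rw [tgt_false]; exact hmem (i + 1) (by omega) (by omega)⟩, ?_⟩
    rw [Finset.mem_coe, mem_RE_false]; omega
  have p5 : Reach (Ret_E S' ∩ ↑(RE (-R) R (-2) R)) (u0.1, -1) (R, -1) := by
    apply Ret_row' (by omega)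
    intro i hi1 hi2
    refine ⟨⟨Or.inr (Or.inr ⟨rfl, by simp only [src_mk]; omega⟩), Or.inr (Or.inr ⟨by simp, by simp only [tgt_true]; omega⟩)⟩, ?_⟩
    rw [Finset.mem_coe, mem_RE_true]; omega
  have pLR : Reach (Ret_E S' ∩ ↑(RE (-R) R (-2) R)) (-R, -1) (R, -1) :=
    p1.trans (p2.trans (p3.symm.trans (p4.symm.trans p5)))
  -- the bottom-top path
  have q1 : Reach (Ret_E T' ∩ ↑(RE (-R) R (-2) R)) (x + 1, -2) (x + 1, 0) := by
    apply Ret_col' (by omega)
    intro i hi1 hi2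
    have hmem : ∀ j : ℤ, -2 ≤ j → j ≤ 0 → ((x + 1, j) : Vtx) ∈ T' := by
      intro j hj1 hj2
      rcases (by omega : j = -2 ∨ j = -1 ∨ j = 0) with h | h | h
      · right; right; exact h
      · right; left; exact ⟨h, by simp only; omega, by simp only; omega⟩
      · left; subst h; exact ⟨le_rfl, hxS⟩
    refine ⟨⟨hmem i hi1 (by omega), by rw [tgt_false]; exact hmem (i + 1) (by omega) (by omega)⟩, ?_⟩
    rw [Finset.mem_coe, mem_RE_false]; omega
  -- exit from the box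
  have hw' : w.1 ≤ -R ∨ R ≤ w.1 ∨ w.2 ≤ -2 ∨ R ≤ w.2 := by
    have hw0 : 0 ≤ w.2 := by
      have : ∀ v, Reach {e : Edg | 0 ≤ e.2.1 ∧ src e ∉ Ret_S ω r ∧ tgt e ∉ Ret_S ω r} (x + 1, 0) v → 0 ≤ v.2 := by
        intro v hv
        induction hv with
        | refl => exact le_rfl
        | @tail a a' _ hs ih =>
          obtain ⟨⟨x', y', b⟩, he, hc⟩ := hs
          have h0 : 0 ≤ y' := he.1
          cases b
          · simp only [src_mk, tgt_false] at hc
            rcases hc with ⟨h1, h2⟩ | ⟨h1, h2⟩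
            · rw [← h2]; simp only; omega
            · rw [← h1]; exact h0
          · simp only [src_mk, tgt_true] at hc
            rcases hc with ⟨h1, h2⟩ | ⟨h1, h2⟩
            · rw [← h2]; exact h0
            · rw [← h1]; exact h0
      exact this w hreach
    rw [Ret_sd, le_max_iff, le_abs, le_abs] at hw
    omega
  obtain ⟨z, hz1, hz2, hz3⟩ := first_exit (a := -R) (b := R) (c := -2) (d := R) (u := ((x + 1, 0) : Vtx))
    (by unfold inR; simp only; omega) hreach hw'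
  have hzz : ∀ v, Reach ({e : Edg | 0 ≤ e.2.1 ∧ src e ∉ Ret_S ω r ∧ tgt e ∉ Ret_S ω r} ∩ ↑(RE (-R) R (-2) R))
      (x + 1, 0) v → Reach (Ret_E T' ∩ ↑(RE (-R) R (-2) R)) (x + 1, 0) v ∧ 0 ≤ v.2 := by
    intro v hv
    induction hv with
    | refl => exact ⟨Reach.refl _ _, le_rfl⟩
    | @tail a a' _ hs ih =>
      obtain ⟨e, ⟨he, heR⟩, hc⟩ := hs
      have he' : e ∈ Ret_E T' := by
        obtain ⟨h0, hs, ht⟩ := he
        obtain ⟨x', y', _ | _⟩ := e
        · exact ⟨Or.inl ⟨h0, hs⟩, Or.inl ⟨by simp only [tgt_false] at h0 ⊢; omega, ht⟩⟩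
        · exact ⟨Or.inl ⟨h0, hs⟩, Or.inl ⟨h0, ht⟩⟩
      refine ⟨ih.1.trans (Adj.reach ⟨e, ⟨he', heR⟩, hc⟩), ?_⟩
      have h0 : 0 ≤ e.2.1 := he.1
      obtain ⟨x', y', _ | _⟩ := e
      · simp only [src_mk, tgt_false] at hc h0
        rcases hc with ⟨h1, h2⟩ | ⟨h1, h2⟩
        · rw [← h2]; simp only; omega
        · rw [← h1]; exact h0
      · simp only [src_mk, tgt_true] at hc h0
        rcases hc with ⟨h1, h2⟩ | ⟨h1, h2⟩
        · rw [← h2]; exact h0
        · rw [← h1]; exact h0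
  obtain ⟨hz4, hz5⟩ := hzz z hz3
  obtain ⟨⟨hz6, hz7⟩, hz8, hz9⟩ := hz1
  have q3 : Reach (Ret_E T' ∩ ↑(RE (-R) R (-2) R)) (z.1, z.2) (z.1, R) := by
    rcases hz2 with h | h | h | h
    · apply Ret_col' hz9
      intro i hi1 hi2
      have hmem : ∀ j : ℤ, 0 ≤ j → ((z.1, j) : Vtx) ∈ T' := by
        intro j hj
        left
        refine ⟨hj, fun hc => ?_⟩
        have := (hSb _ hc).1
        simp only at this
        omega
      refine ⟨⟨hmem i (by omega), by rw [tgt_false]; exact hmem (i + 1) (by omega)⟩, ?_⟩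
      rw [Finset.mem_coe, mem_RE_false]; omega
    · apply Ret_col' hz9
      intro i hi1 hi2
      have hmem : ∀ j : ℤ, 0 ≤ j → ((z.1, j) : Vtx) ∈ T' := by
        intro j hj
        left
        refine ⟨hj, fun hc => ?_⟩
        have := (hSb _ hc).1
        simp only at this
        omega
      refine ⟨⟨hmem i (by omega), by rw [tgt_false]; exact hmem (i + 1) (by omega)⟩, ?_⟩
      rw [Finset.mem_coe, mem_RE_false]; omega
    · omega
    · rw [h]; exact Reach.refl _ _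
  exact Ret_no_cross hdis (by omega) (by omega) pLR rfl rfl (q1.trans (hz4.trans q3)) rfl rfl

/-! ### the path -/

/-- The corners below the negative half-axis. -/
def Ret_bad (σ : St) : Prop := σ.1.2 = 0 ∧ ((σ.2 = .sw ∧ σ.1.1 ≤ 0) ∨ (σ.2 = .se ∧ σ.1.1 < 0))

theorem Ret_not_bad (ω : Conf) (k : ℕ) : ¬ Ret_bad (path ω k) := by
  induction k with
  | zero =>
    rintro ⟨-, ⟨h, -⟩ | ⟨h, -⟩⟩ <;> simp [path] at h
  | succ k ih =>
    have hnn := path_nonneg ω k
    rw [path_succ]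
    generalize path ω k = σ at ih hnn
    obtain ⟨⟨x, y⟩, q⟩ := σ
    simp only at hnn
    unfold Ret_bad at ih ⊢
    simp only at ih
    cases q
    all_goals
      simp only [step]
    · split_ifs with hc
      · simp; intro h; omega
      · simp
    · split_ifs with hc
      · simp
      · simp only
        rintro ⟨h1, ⟨-, h2⟩ | ⟨h2, -⟩⟩
        · apply hc
          left
          exact ⟨h1, rfl, by simp only; omega⟩
        · exact absurd h2 (by simp)
    · split_ifs with hc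
      · simp
      · simp only
        rintro ⟨h1, ⟨h2, -⟩ | ⟨-, h2⟩⟩
        · exact absurd h2 (by simp)
        · apply ih
          exact ⟨h1, Or.inl ⟨rfl, by omega⟩⟩
    · split_ifs with hc
      · simp only
        rintro ⟨h1, ⟨-, h2⟩ | ⟨h2, -⟩⟩
        · apply ih
          exact ⟨h1, Or.inr ⟨rfl, by omega⟩⟩
        · exact absurd h2 (by simp)
      · simp


theorem Ret_step_cases (G : Set Edg) (σ : St) : (step G σ).1 = σ.1 ∨ ∃ e ∈ G,
    ((src e = σ.1 ∧ tgt e = (step G σ).1) ∨ (src e = (step G σ).1 ∧ tgt e = σ.1)) ∧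
    (e.2.2 = true → src e = σ.1 → σ.2 = .se) := by
  obtain ⟨⟨x, y⟩, q⟩ := σ
  cases q
  all_goals
    simp only [step]
  · split_ifs with hc
    · right
      exact ⟨_, hc, Or.inl ⟨rfl, by simp⟩, fun h => absurd h (by simp)⟩
    · left; rfl
  · split_ifs with hc
    · right
      refine ⟨_, hc, Or.inr ⟨rfl, by simp⟩, fun _ h => ?_⟩
      rw [src_mk, Prod.mk.injEq] at h
      omega
    · left; rfl
  · split_ifs with hc
    · right
      exact ⟨_, hc, Or.inr ⟨rfl, by simp⟩, fun h => absurd h (by simp)⟩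
    · left; rfl
  · split_ifs with hc
    · right
      exact ⟨_, hc, Or.inl ⟨rfl, by simp⟩, fun _ _ => by trivial⟩
    · left; rfl

/-- Once it is outside the path stays outside. -/
theorem Ret_step_T (ω : Conf) {r R : ℤ} (hr : 0 ≤ r) (hrR : r < R)
    (hS : ∀ v ∈ Ret_S ω r, sd v (0, 0) < R) {k : ℕ} (hk : (path ω k).1 ∈ Ret_T ω r R) :
    (path ω (k + 1)).1 ∈ Ret_T ω r R := by
  have hbad := Ret_not_bad ω k
  have hnn := path_nonneg ω (k + 1)
  rw [path_succ] at hnn ⊢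
  rcases Ret_step_cases (opn ω) (path ω k) with h | ⟨e, he, hc, hse⟩
  · rw [h]; exact hk
  generalize hσ : path ω k = σ at hk hbad hnn hc hse ⊢
  obtain ⟨hk0, hkS, w, hw, hkw⟩ := hk
  have he0 : 0 ≤ e.2.1 := by
    rcases he with h | h
    · rw [h.1]
    · exact h.1
  have hvS : (step (opn ω) σ).1 ∉ Ret_S ω r := by
    intro hv
    rcases he with ⟨h1, h2, h3⟩ | he
    · obtain ⟨x, y, b⟩ := e
      simp only at h1 h2 h3
      subst h1
      subst h2
      rw [src_mk, tgt_true] at hc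
      rcases hc with ⟨h4, h5⟩ | ⟨h4, h5⟩
      · apply hbad
        have h6 := hse rfl (by rw [src_mk]; exact h4)
        refine ⟨by rw [← h4], Or.inr ⟨h6, by rw [← h4]; exact h3⟩⟩
      · refine Ret_planar hr hrR hS h3 (by rw [h4]; exact hv) ?_
        rw [h5]
        exact ⟨hk0, hkS, w, hw, hkw⟩
    · apply hkS
      exact Ret_S_closed hv ⟨e, he, hc.symm⟩
  refine ⟨hnn, hvS, w, hw, Reach.trans (Adj.reach ⟨e, ⟨he0, ?_, ?_⟩, hc.symm⟩) hkw⟩
  · rcases hc with ⟨h1, h2⟩ | ⟨h1, h2⟩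
    · rw [h1]; exact hkS
    · rw [h1]; exact hvS
  · rcases hc with ⟨h1, h2⟩ | ⟨h1, h2⟩
    · rw [h2]; exact hvS
    · rw [h2]; exact hkS

/-- If the cluster of the half-box of radius `r` off the axis does not reach distance `R`, then
the path does not come back from distance `R` to distance `r`. -/
theorem Ret_det (ω : Conf) {r R : ℤ} (hr : 0 ≤ r) (hrR : r < R)
    (hS : ∀ v ∈ Ret_S ω r, sd v (0, 0) < R) {k l : ℕ} (hkl : k ≤ l)
    (hk : R ≤ sd (path ω k).1 (0, 0)) (hl : sd (path ω l).1 (0, 0) ≤ r) : False := by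
  have h0 : (path ω k).1 ∈ Ret_T ω r R := by
    refine ⟨path_nonneg ω k, fun h => ?_, _, hk, Reach.refl _ _⟩
    have := hS _ h
    omega
  have h1 : ∀ n : ℕ, (path ω (k + n)).1 ∈ Ret_T ω r R := by
    intro n
    induction n with
    | zero => exact h0
    | succ n ih => exact Ret_step_T ω hr hrR hS ih
  obtain ⟨n, rfl⟩ := Nat.exists_eq_add_of_le hkl
  replace h1 := h1 n
  exact h1.2.1 ⟨_, hl, path_nonneg ω _, Reach.refl _ _⟩

/-- The arm event in the box. -/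
theorem Ret_arm (ω : Conf) {r R : ℕ} (hrR : r < R) {v : Vtx} (hv : v ∈ Ret_S ω r)
    (hR : (R : ℤ) ≤ sd v (0, 0)) : H12S.Crs 0 0 r R (↑(cut ω R) : Set Edg) := by
  obtain ⟨u, hu, hu0, hreach⟩ := hv
  have hv0 := Ret_O_nonneg hu0 hreach
  have hur : (-(r:ℤ) ≤ u.1 ∧ u.1 ≤ r) ∧ (-(r:ℤ) ≤ u.2 ∧ u.2 ≤ r) := by
    rw [Ret_sd, max_le_iff, abs_le, abs_le] at hu
    exact hu
  have hvR : v.1 ≤ -(R:ℤ) ∨ (R:ℤ) ≤ v.1 ∨ v.2 ≤ -1 ∨ (R:ℤ) ≤ v.2 := by
    rw [Ret_sd, le_max_iff, le_abs, le_abs] at hR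
    omega
  obtain ⟨z, hz1, hz2, hz3⟩ := first_exit (a := -(R:ℤ)) (b := R) (c := -1) (d := R) (u := u)
    (by unfold inR; omega) hreach hvR
  have hz0 : 0 ≤ z.2 := Ret_O_nonneg hu0 (hz3.mono Set.inter_subset_left)
  refine ⟨u, z, ?_, ?_, hz3.mono ?_⟩
  · unfold inR; omega
  · omega
  · rintro e ⟨⟨he1, he2, he3⟩, he4⟩
    rw [Finset.mem_coe] at he4 ⊢
    unfold cut
    rw [Finset.mem_filter]
    refine ⟨?_, he3⟩
    obtain ⟨x, y, _ | _⟩ := e
    · show ((x, y, false) : Edg) ∈ RE (-(R:ℤ)) R 0 R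
      simp only at he1
      rw [mem_RE_false] at he4 ⊢
      omega
    · show ((x, y, true) : Edg) ∈ RE (-(R:ℤ)) R 0 R
      simp only at he1
      rw [mem_RE_true] at he4 ⊢
      omega

/-- After it has reached distance `R` the path comes back to distance `r` with small probability:
a closed dual path in a half-annulus from the positive to the negative half-axis is crossed by the
path only once. -/
theorem no_return : ∃ a A : ℝ, 0 < a ∧ 0 < A ∧ ∀ r R : ℤ, 1 ≤ r → r ≤ R →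
    perc.real {ω | ∃ k l : ℕ, k ≤ l ∧ R ≤ sd (path ω k).1 (0, 0) ∧ sd (path ω l).1 (0, 0) ≤ r} ≤
      A * ((r : ℝ) / R) ^ a := by
  obtain ⟨κ, hκ, hW⟩ := H12S.win_half
  obtain ⟨C, c, hC, hc, harm⟩ := H12S.win_arm_of
    (fun h _ h1 h2 => fun c1 c2 S => H12S.win_blk h h1 h2 c1 c2 S) κ hκ
  refine ⟨c, max C 1, hc, lt_of_lt_of_le hC (le_max_left _ _), ?_⟩
  intro r R hr hrR
  rcases eq_or_lt_of_le hrR with h | hlt
  · subst h
    have hr0 : (r : ℝ) ≠ 0 := by
      have : (0:ℝ) < r := by exact_mod_cast (by omega : 0 < r)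
      exact this.ne'
    rw [div_self hr0, Real.one_rpow, mul_one]
    exact measureReal_le_one.trans (le_max_right _ _)
  · lift r to ℕ using (by omega) with r'
    lift R to ℕ using (by omega) with R'
    have hr1 : 1 ≤ r' := by exact_mod_cast hr
    have hrR' : r' < R' := by exact_mod_cast hlt
    have h1 : perc.real {ω | ∃ k l : ℕ, k ≤ l ∧ (R' : ℤ) ≤ sd (path ω k).1 (0, 0) ∧
        sd (path ω l).1 (0, 0) ≤ (r' : ℤ)} ≤
        perc.real {ω | H12S.Crs 0 0 r' R' (↑(cut ω R') : Set Edg)} := by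
      apply measureReal_mono
      · rintro ω ⟨k, l, hkl, hk, hl⟩
        by_contra hcon
        refine Ret_det ω (r := r') (R := R') (by positivity) (by exact_mod_cast hrR') ?_ hkl hk hl
        intro v hv
        by_contra hv2
        push Not at hv2
        exact hcon (Ret_arm ω hrR' hv hv2)
      · exact measure_ne_top _ _
    refine h1.trans ?_
    rw [perc_cut (R' : ℤ) (fun F => H12S.Crs 0 0 r' R' (↑F : Set Edg))]
    have h2 := (harm (1/2) R' (hW R') r' R' hr1 hrR'.le le_rfl 0 0 (bx R').edges).1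
    refine h2.trans ?_
    have h3 : (0:ℝ) ≤ ((r':ℝ) / R') ^ c := by positivity
    have h4 := mul_le_mul_of_nonneg_right (le_max_left C 1) h3
    simp only [Int.cast_natCast]
    exact h4

end H984H
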