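import Pool.Agent.H984R4.HN.Mom
import Pool.Agent.H984R4.HN.Ret

/-!
S13: moments and almost sure growth of the distance of the path from the origin.
-/

namespace H984H

open H974 Finset H342P H984P MeasureTheory Filter Topology

theorem norm_gam_le (n : ℕ) (ω : Conf) : ‖gam ω n‖ ≤ reach n ω :=
  Finset.le_sup' (fun k => ‖gam ω k‖) (Finset.mem_range.2 (Nat.lt_succ_self n))

theorem norm_gam_pos (n : ℕ) (ω : Conf) : 1/4 ≤ ‖gam ω n‖ := by
  have h1 := Step_re (path ω n)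
  have h2 := Complex.abs_re_le_norm (place (path ω n))
  have h3 : (1:ℝ)/4 ≤ |(place (path ω n)).re| := by
    rcases eq_or_ne (path ω n).1.1 0 with h0 | h0
    · rw [h0] at h1
      simp only [Int.cast_zero, sub_zero] at h1
      rw [h1]
    · have h4 : (1:ℝ) ≤ |(((path ω n).1.1 : ℤ) : ℝ)| := by
        have := Int.one_le_abs h0
        exact_mod_cast this
      have h5 := abs_sub_abs_le_abs_sub (((path ω n).1.1 : ℤ) : ℝ) (place (path ω n)).re
      rw [abs_sub_comm] at h5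
      linarith
  exact h3.trans h2

theorem Disp_meas (n : ℕ) : Measurable (fun ω : Conf => ‖gam ω n‖) := by
  refine Perc_meas_dep n (fun p => ‖place (p n)‖) ?_
  intro p p' h
  rw [h n le_rfl]

/-- the point has integer radius at most `r` -/
theorem Disp_sd_le {ω : Conf} {n : ℕ} {y : ℝ} (h : ‖gam ω n‖ ≤ y) :
    sd (path ω n).1 (0, 0) ≤ ⌊y + 1/4⌋ := by
  rw [Int.le_floor]
  have := le_norm_place (path ω n)
  have h' : ‖place (path ω n)‖ ≤ y := h
  linarith

theorem Disp_le_sd {ω : Conf} {n : ℕ} {y : ℝ} (h : y ≤ ‖gam ω n‖) :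
    ⌈(y - 1) / 2⌉ ≤ sd (path ω n).1 (0, 0) := by
  rw [Int.ceil_le]
  have := norm_place_le (path ω n)
  have h' : y ≤ ‖place (path ω n)‖ := h
  linarith

theorem Disp_exists_reach (ω : Conf) (n : ℕ) : ∃ k ≤ n, ‖gam ω k‖ = reach n ω := by
  obtain ⟨k, hk, h⟩ := Finset.exists_mem_eq_sup' (s := Finset.range (n + 1))
    ⟨0, Finset.mem_range.mpr (Nat.succ_pos n)⟩ (fun k => ‖gam ω k‖)
  exact ⟨k, by have := Finset.mem_range.1 hk; omega, h.symm⟩

/-- `no_return` without the condition `r ≤ R` -/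
theorem Disp_ret : ∃ a A : ℝ, 0 < a ∧ 1 ≤ A ∧ ∀ r R : ℤ, 1 ≤ r → 1 ≤ R →
    perc.real {ω | ∃ k l : ℕ, k ≤ l ∧ R ≤ sd (path ω k).1 (0, 0) ∧ sd (path ω l).1 (0, 0) ≤ r} ≤
      A * ((r : ℝ) / R) ^ a := by
  obtain ⟨a, A, ha, hA, h⟩ := no_return
  refine ⟨a, max A 1, ha, le_max_right _ _, fun r R hr hR => ?_⟩
  have hr0 : (0:ℝ) < r := by exact_mod_cast (show 0 < r by omega)
  have hR0 : (0:ℝ) < R := by exact_mod_cast (show 0 < R by omega)
  rcases le_or_gt r R with hrR | hrR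
  · refine (h r R hr hrR).trans ?_
    gcongr
    exact le_max_left _ _
  · have h1 : (1:ℝ) ≤ (r:ℝ) / R := by
      rw [one_le_div hR0]
      exact_mod_cast hrR.le
    have h2 : (1:ℝ) ≤ ((r : ℝ) / R) ^ a := Real.one_le_rpow h1 ha.le
    have h3 : (1:ℝ) ≤ max A 1 := le_max_right _ _
    refine measureReal_le_one.trans ?_
    nlinarith

/-- Lower tail of the distance, from `hlow` and `no_return`. -/
theorem disp_low {A' : ℝ} (hA' : 0 < A')
    (hlow : ∀ (n : ℕ) (x : ℝ), 1 ≤ n → 0 < x →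
      perc.real {ω | reach n ω ≤ x * (n : ℝ) ^ (4/7 : ℝ)} ≤ A' * x ^ (7/4 : ℝ)) :
    ∃ b B : ℝ, 0 < b ∧ 0 < B ∧ ∀ (n : ℕ) (x : ℝ), 1 ≤ n → 0 < x →
      perc.real {ω | ‖gam ω n‖ ≤ x * (n : ℝ) ^ (4/7 : ℝ)} ≤ B * x ^ b := by
  obtain ⟨a, A, ha, hA, hret⟩ := Disp_ret
  set b : ℝ := min (a / 2) (7/8) with hb
  have hb0 : 0 < b := lt_min (by linarith) (by norm_num)
  refine ⟨b, A' + A * 24 ^ a + 64 ^ b, hb0, by positivity, fun n x hn hx => ?_⟩
  have hn1 : (1:ℝ) ≤ n := by exact_mod_cast hn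
  set S : ℝ := (n : ℝ) ^ (4/7 : ℝ) with hS
  have hS1 : 1 ≤ S := Real.one_le_rpow hn1 (by norm_num)
  have hS0 : 0 < S := by linarith
  have hxb : 0 < x ^ b := Real.rpow_pos_of_pos hx b
  rcases le_or_gt x (1/64) with hx64 | hx64
  swap
  · -- trivial range
    have h1 : (1:ℝ) ≤ 64 ^ b * x ^ b := by
      rw [← Real.mul_rpow (by norm_num) hx.le]
      exact Real.one_le_rpow (by linarith) hb0.le
    have h2 : 0 ≤ (A' + A * 24 ^ a) * x ^ b := by positivity
    refine measureReal_le_one.trans ?_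
    nlinarith
  rcases lt_or_ge (x * S) (1/4) with hxS | hxS
  · have h1 : {ω : Conf | ‖gam ω n‖ ≤ x * S} = ∅ := by
      ext ω
      simp only [Set.mem_ofPred_eq, Set.mem_empty_iff_false, iff_false, not_le]
      exact lt_of_lt_of_le hxS (norm_gam_pos n ω)
    rw [h1, measureReal_empty]
    positivity
  · set q : ℝ := Real.sqrt x with hq
    have hq0 : 0 < q := Real.sqrt_pos.2 hx
    have hqq : q * q = x := Real.mul_self_sqrt hx.le
    have hq8 : q ≤ 1/8 := by
      rw [hq, show (1:ℝ)/8 = Real.sqrt (1/64) by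
        rw [show (1:ℝ)/64 = (1/8)^2 by norm_num, Real.sqrt_sq (by norm_num)]]
      exact Real.sqrt_le_sqrt hx64
    have hqS : 2 ≤ q * S := by
      have h1 : (1:ℝ)/4 ≤ q * (q * S) := by rw [← mul_assoc, hqq]; exact hxS
      have h2 : 0 < q * S := by positivity
      nlinarith
    set r : ℤ := ⌊x * S + 1/4⌋ + 1 with hr
    set R : ℤ := ⌈(q * S - 1) / 2⌉ with hR
    have hr1 : 1 ≤ r := by
      have : 0 ≤ ⌊x * S + 1/4⌋ := Int.floor_nonneg.2 (by positivity)
      omega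
    have hR1 : 1 ≤ R := by
      have : 0 < R := Int.ceil_pos.2 (by linarith)
      omega
    have hrle : (r:ℝ) ≤ 6 * (x * S) := by
      have := Int.floor_le (x * S + 1/4)
      rw [hr]; push_cast; linarith
    have hRge : q * S / 4 ≤ (R:ℝ) := by
      have := Int.le_ceil ((q * S - 1) / 2)
      linarith
    have hR0 : (0:ℝ) < R := by exact_mod_cast (show 0 < R by omega)
    have hrat : (r:ℝ) / R ≤ 24 * q := by
      rw [div_le_iff₀ hR0]
      have h1 : 24 * q * (q * S / 4) ≤ 24 * q * R := by gcongr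
      have h2 : 24 * q * (q * S / 4) = 6 * (x * S) := by rw [← hqq]; ring
      linarith
    have hsub : {ω : Conf | ‖gam ω n‖ ≤ x * S} ⊆ {ω : Conf | reach n ω ≤ q * S} ∪
        {ω | ∃ k l : ℕ, k ≤ l ∧ R ≤ sd (path ω k).1 (0, 0) ∧ sd (path ω l).1 (0, 0) ≤ r} := by
      intro ω hω
      simp only [Set.mem_ofPred_eq] at hω
      by_cases h : reach n ω ≤ q * S
      · exact Or.inl h
      · right
        push Not at h
        obtain ⟨k, hk, hk2⟩ := Disp_exists_reach ω n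
        refine ⟨k, n, hk, Disp_le_sd (by rw [hk2]; exact h.le), ?_⟩
        have := Disp_sd_le hω
        omega
    refine (measureReal_mono hsub).trans ((measureReal_union_le _ _).trans ?_)
    have e1 : q ^ (7/4 : ℝ) ≤ x ^ b := by
      rw [hq, Real.sqrt_eq_rpow, ← Real.rpow_mul hx.le]
      exact Real.rpow_le_rpow_of_exponent_ge hx (by linarith)
        ((min_le_right _ _).trans (by norm_num))
    have e2 : q ^ a ≤ x ^ b := by
      rw [hq, Real.sqrt_eq_rpow, ← Real.rpow_mul hx.le]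
      exact Real.rpow_le_rpow_of_exponent_ge hx (by linarith)
        ((min_le_left _ _).trans (by linarith))
    have h1 := hlow n q hn hq0
    have h2 := hret r R hr1 hR1
    have h3 : ((r:ℝ) / R) ^ a ≤ (24 * q) ^ a := by
      have : (0:ℝ) ≤ (r:ℝ) / R := by
        have : (0:ℝ) ≤ r := by exact_mod_cast (show 0 ≤ r by omega)
        positivity
      exact Real.rpow_le_rpow this hrat ha.le
    rw [Real.mul_rpow (by norm_num) hq0.le] at h3
    have h4 : A * ((r:ℝ) / R) ^ a ≤ A * (24 ^ a * x ^ b) := by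
      refine mul_le_mul_of_nonneg_left (h3.trans ?_) (by linarith)
      gcongr
    have h5 : A' * q ^ (7/4 : ℝ) ≤ A' * x ^ b := by gcongr
    have h6 : 0 ≤ (64:ℝ) ^ b * x ^ b := by positivity
    calc _ ≤ A' * x ^ b + A * (24 ^ a * x ^ b) := add_le_add (h1.trans h5) (h2.trans h4)
      _ ≤ _ := by nlinarith

theorem Disp_int (n : ℕ) {p : ℝ} (hp : 0 < p) : Integrable (fun ω => ‖gam ω n‖ ^ p) perc := by
  refine Integrable.of_bound ((Disp_meas n).pow_const p).aestronglyMeasurable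
    (((n : ℝ) + 1) ^ p) (Eventually.of_forall fun ω => ?_)
  rw [Real.norm_eq_abs, abs_of_nonneg (Real.rpow_nonneg (norm_nonneg _) p)]
  exact Real.rpow_le_rpow (norm_nonneg _) ((norm_gam_le n ω).trans (reach_le n ω)) hp.le

/-- All positive moments of the distance. -/
theorem disp_moments {a A A' : ℝ} (ha : 0 < a) (hA : 0 < A) (hA' : 0 < A')
    (hup : ∀ (n : ℕ) (x : ℝ), 1 ≤ n → 0 < x →
      perc.real {ω | x * (n : ℝ) ^ (4/7 : ℝ) ≤ reach n ω} ≤ A * Real.exp (-(a * x ^ (1/2 : ℝ))))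
    (hlow : ∀ (n : ℕ) (x : ℝ), 1 ≤ n → 0 < x →
      perc.real {ω | reach n ω ≤ x * (n : ℝ) ^ (4/7 : ℝ)} ≤ A' * x ^ (7/4 : ℝ))
    {p : ℝ} (hp : 0 < p) :
    ∃ c C : ℝ, 0 < c ∧ 0 < C ∧ ∀ n : ℕ, 1 ≤ n →
      c * (n : ℝ) ^ (4/7 * p) ≤ ∫ ω, ‖gam ω n‖ ^ p ∂perc ∧
      ∫ ω, ‖gam ω n‖ ^ p ∂perc ≤ C * (n : ℝ) ^ (4/7 * p) := by
  obtain ⟨c0, C, hc0, hC, hmom⟩ := moments_of ha hA hA' hup hlow hp
  obtain ⟨b, B, hb, hB, hdl⟩ := disp_low hA' hlow
  set x₀ : ℝ := (1 / (2 * B)) ^ (1 / b) with hx₀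
  have hx₀p : 0 < x₀ := by positivity
  have hx₀e : B * x₀ ^ b = 1 / 2 := by
    rw [hx₀, ← Real.rpow_mul (by positivity), one_div_mul_cancel hb.ne', Real.rpow_one]
    field_simp
  refine ⟨x₀ ^ p / 2, C, by positivity, hC, fun n hn => ⟨?_, ?_⟩⟩
  · have hn0 : (0 : ℝ) < n := by exact_mod_cast hn
    set s : ℝ := (n : ℝ) ^ (4/7 : ℝ) with hs
    have hs0 : 0 < s := by positivity
    have hsp : (n : ℝ) ^ (4/7 * p) = s ^ p := by rw [hs, ← Real.rpow_mul hn0.le]
    rw [hsp]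
    have h1 := mul_meas_ge_le_integral_of_nonneg (μ := perc) (f := fun ω => ‖gam ω n‖ ^ p)
      (Eventually.of_forall fun ω => Real.rpow_nonneg (norm_nonneg _) p) (Disp_int n hp)
      ((x₀ * s) ^ p)
    have h2 : (1 : ℝ) / 2 ≤ perc.real {ω | (x₀ * s) ^ p ≤ ‖gam ω n‖ ^ p} := by
      have h3 : {ω : Conf | ‖gam ω n‖ ≤ x₀ * s}ᶜ ⊆ {ω | (x₀ * s) ^ p ≤ ‖gam ω n‖ ^ p} := by
        intro ω hω
        simp only [Set.mem_compl_iff, Set.mem_ofPred_eq, not_le] at hω ⊢
        exact Real.rpow_le_rpow (by positivity) hω.le hp.le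
      have h4 : perc.real {ω : Conf | ‖gam ω n‖ ≤ x₀ * s}ᶜ =
          1 - perc.real {ω : Conf | ‖gam ω n‖ ≤ x₀ * s} :=
        probReal_compl_eq_one_sub (measurableSet_le (Disp_meas n) measurable_const)
      have h5 := hdl n x₀ hn hx₀p
      rw [hx₀e] at h5
      have h6 := measureReal_mono (μ := perc) h3
      rw [h4] at h6
      linarith
    calc x₀ ^ p / 2 * s ^ p = (x₀ * s) ^ p * (1 / 2) := by
          rw [Real.mul_rpow hx₀p.le hs0.le]; ring
      _ ≤ (x₀ * s) ^ p * perc.real {ω | (x₀ * s) ^ p ≤ ‖gam ω n‖ ^ p} := by gcongr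
      _ ≤ _ := h1
  · refine le_trans ?_ (hmom n hn).2
    exact integral_mono (Disp_int n hp) (Mom_int n hp)
      (fun ω => Real.rpow_le_rpow (norm_nonneg _) (norm_gam_le n ω) hp.le)

/-- Almost sure exponent: for all `n`, after the exit from the ball of radius `2 ^ j` the path does
not come back to the ball of radius `2 ^ j / j ^ s` for large `j` (Borel-Cantelli). -/
theorem disp_as {a A A' : ℝ} (ha : 0 < a) (hA : 0 < A) (hA' : 0 < A')
    (hup : ∀ (n : ℕ) (x : ℝ), 1 ≤ n → 0 < x →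
      perc.real {ω | x * (n : ℝ) ^ (4/7 : ℝ) ≤ reach n ω} ≤ A * Real.exp (-(a * x ^ (1/2 : ℝ))))
    (hlow : ∀ (n : ℕ) (x : ℝ), 1 ≤ n → 0 < x →
      perc.real {ω | reach n ω ≤ x * (n : ℝ) ^ (4/7 : ℝ)} ≤ A' * x ^ (7/4 : ℝ)) :
    ∀ᵐ ω ∂perc, Tendsto (fun n : ℕ => Real.log ‖gam ω n‖ / Real.log n) atTop (𝓝 (4/7)) := by
  have has := as_exponent_of ha hA hA' hup hlow
  obtain ⟨a', B, ha', hB, hret⟩ := Disp_ret
  obtain ⟨s, hs⟩ := exists_nat_gt (2 / a')
  have hsa : 2 < s * a' := by rwa [div_lt_iff₀ ha'] at hs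
  have hs0 : 0 < s := by
    rcases Nat.eq_zero_or_pos s with h | h
    · rw [h] at hsa; simp at hsa; linarith
    · exact h
  have hs1 : (1:ℝ) ≤ s := by exact_mod_cast hs0
  have hl2 : 0 < Real.log 2 := Real.log_pos (by norm_num)
  -- radii
  set r : ℕ → ℤ := fun j => ⌈(2:ℝ) ^ j / ((j:ℝ) + 1) ^ s⌉ with hr
  set R : ℕ → ℤ := fun j => ⌈((2:ℝ) ^ j - 1) / 2⌉ with hR
  set E : ℕ → Set Conf := fun j => {ω | ∃ k l : ℕ, k ≤ l ∧ R (j + 1) ≤ sd (path ω k).1 (0, 0) ∧
    sd (path ω l).1 (0, 0) ≤ r (j + 1)} with hE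
  have hbnd : ∀ j, perc.real (E j) ≤ B * (8 ^ a' * ((j + 1 : ℕ) : ℝ) ^ (-(s * a')) +
      (8 ^ a' * (((1:ℝ)/2) ^ a') ^ j)) := by
    intro j
    have hr1 : 1 ≤ r (j + 1) := by
      have : 0 < r (j + 1) := Int.ceil_pos.2 (by positivity)
      omega
    have h2j : (2:ℝ) ≤ 2 ^ (j + 1) := by
      rw [pow_succ]
      have : (1:ℝ) ≤ 2 ^ j := one_le_pow₀ (by norm_num)
      linarith
    have hR1 : 1 ≤ R (j + 1) := by
      have : 0 < R (j + 1) := Int.ceil_pos.2 (by linarith)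
      omega
    have h1 := hret (r (j + 1)) (R (j + 1)) hr1 hR1
    refine h1.trans ?_
    refine mul_le_mul_of_nonneg_left ?_ (by linarith)
    have hR0 : (0:ℝ) < R (j + 1) := by exact_mod_cast (show 0 < R (j + 1) by omega)
    have hr0 : (0:ℝ) < r (j + 1) := by exact_mod_cast (show 0 < r (j + 1) by omega)
    have hRge : (2:ℝ) ^ (j + 1) / 4 ≤ R (j + 1) := by
      have := Int.le_ceil (((2:ℝ) ^ (j + 1) - 1) / 2)
      linarith
    set u : ℝ := 1 / ((j:ℝ) + 1) ^ s with hu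
    set v : ℝ := ((1:ℝ)/2) ^ j with hv
    have hu0 : 0 < u := by positivity
    have hv0 : 0 < v := by positivity
    have hrle : (r (j + 1) : ℝ) ≤ 2 ^ (j + 1) * u + 1 := by
      have h2 := (Int.ceil_lt_add_one ((2:ℝ) ^ (j + 1) / (((j + 1 : ℕ):ℝ) + 1) ^ s)).le
      refine h2.trans ?_
      have h3 : (2:ℝ) ^ (j + 1) / (((j + 1 : ℕ):ℝ) + 1) ^ s ≤ 2 ^ (j + 1) * u := by
        rw [hu, mul_one_div]
        gcongr
        push_cast
        linarith
      linarith
    have hrat : (r (j + 1) : ℝ) / R (j + 1) ≤ 4 * u + 4 * v := by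
      rw [div_le_iff₀ hR0]
      have hvv : 2 ^ (j + 1) * v = 2 := by
        rw [hv, pow_succ, mul_assoc, mul_comm (2:ℝ), ← mul_assoc, ← mul_pow]
        norm_num
      have h2 : (4 * u + 4 * v) * (2 ^ (j + 1) / 4) ≤ (4 * u + 4 * v) * R (j + 1) := by gcongr
      nlinarith
    have h4 : ((r (j + 1) : ℝ) / R (j + 1)) ^ a' ≤ (8 * u) ^ a' + (8 * v) ^ a' := by
      rcases le_total u v with huv | huv
      · have : ((r (j + 1) : ℝ) / R (j + 1)) ^ a' ≤ (8 * v) ^ a' :=
          Real.rpow_le_rpow (by positivity) (by linarith) ha'.le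
        have : 0 ≤ (8 * u) ^ a' := by positivity
        linarith
      · have : ((r (j + 1) : ℝ) / R (j + 1)) ^ a' ≤ (8 * u) ^ a' :=
          Real.rpow_le_rpow (by positivity) (by linarith) ha'.le
        have : 0 ≤ (8 * v) ^ a' := by positivity
        linarith
    refine h4.trans (le_of_eq ?_)
    rw [Real.mul_rpow (by norm_num) hu0.le, Real.mul_rpow (by norm_num) hv0.le]
    congr 2
    · rw [hu, one_div, Real.inv_rpow (by positivity), ← Real.rpow_natCast, ← Real.rpow_mul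
        (by positivity), ← Real.rpow_neg (by positivity)]
      push_cast
      rfl
    · rw [hv, ← Real.rpow_natCast, ← Real.rpow_mul (by norm_num), ← Real.rpow_natCast,
        ← Real.rpow_mul (by norm_num), mul_comm]
  have hsum : Summable (fun j : ℕ => B * (8 ^ a' * ((j + 1 : ℕ) : ℝ) ^ (-(s * a')) +
      (8 ^ a' * (((1:ℝ)/2) ^ a') ^ j))) := by
    refine Summable.mul_left B (Summable.add ?_ ?_)
    · exact ((summable_nat_add_iff 1).2
        (Real.summable_nat_rpow.2 (show -(s * a') < -1 by linarith))).mul_left _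
    · refine (summable_geometric_of_lt_one (by positivity) ?_).mul_left _
      exact Real.rpow_lt_one (by norm_num) (by norm_num) ha'
  have hbc := Mom_bc E _ hsum hbnd
  filter_upwards [has, hbc] with ω h1 h2
  have hlogn : Tendsto (fun n : ℕ => Real.log n) atTop atTop :=
    Real.tendsto_log_atTop.comp tendsto_natCast_atTop_atTop
  have hlr : Tendsto (fun n : ℕ => Real.log (reach n ω)) atTop atTop := by
    have h3 : Tendsto (fun n : ℕ => Real.log (reach n ω) / Real.log n * Real.log n) atTop atTop :=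
      h1.pos_mul_atTop (by norm_num) hlogn
    refine h3.congr' ?_
    filter_upwards [eventually_ge_atTop 2] with n hn
    have : 0 < Real.log n := Real.log_pos (by exact_mod_cast hn)
    field_simp
  have hrch : Tendsto (fun n : ℕ => reach n ω) atTop atTop := by
    refine (Real.tendsto_exp_atTop.comp hlr).congr fun n => ?_
    exact Real.exp_log (reach_pos n ω)
  have hJ : Tendsto (fun n : ℕ => Nat.log 2 ⌊reach n ω⌋₊) atTop atTop :=
    Mom_log_tendsto.comp (tendsto_nat_floor_atTop.comp hrch)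
  have hev : ∀ᶠ n : ℕ in atTop, ω ∉ E (Nat.log 2 ⌊reach n ω⌋₊ - 1) :=
    ((tendsto_sub_atTop_nat 1).comp hJ).eventually h2
  have hlim2 : Tendsto (fun n : ℕ => (4 * Real.log (((Nat.log 2 n : ℕ) : ℝ) + 2) + 1) /
      ((Nat.log 2 n : ℕ) * Real.log 2)) atTop (𝓝 0) := Mom_lim.comp Mom_log_tendsto
  have hlow2 : Tendsto (fun n : ℕ => Real.log (reach n ω) / Real.log n -
      s * ((4 * Real.log (((Nat.log 2 n : ℕ) : ℝ) + 2) + 1) /
      ((Nat.log 2 n : ℕ) * Real.log 2))) atTop (𝓝 (4/7)) := by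
    have := h1.sub (hlim2.const_mul (s:ℝ))
    simpa using this
  refine tendsto_of_tendsto_of_tendsto_of_le_of_le' hlow2 h1 ?_ ?_
  · filter_upwards [hev, hJ.eventually_ge_atTop 1, eventually_ge_atTop 2] with n hn hJ1 hn2
    set J := Nat.log 2 ⌊reach n ω⌋₊ with hJdef
    obtain ⟨j, hj⟩ : ∃ j, J = j + 1 := ⟨J - 1, by omega⟩
    rw [hj] at hn
    simp only [Nat.add_sub_cancel] at hn
    have hfl : ⌊reach n ω⌋₊ ≠ 0 := by
      intro h0
      rw [h0] at hJdef
      simp at hJdef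
      omega
    have hlo : (2:ℝ) ^ J ≤ reach n ω := by
      have h3 : 2 ^ J ≤ ⌊reach n ω⌋₊ := Nat.pow_log_le_self 2 hfl
      have h4 : ((2 ^ J : ℕ) : ℝ) ≤ (⌊reach n ω⌋₊ : ℝ) := by exact_mod_cast h3
      have h5 := Nat.floor_le (reach_pos n ω).le
      push_cast at h4
      linarith
    have hhi : reach n ω ≤ (2:ℝ) ^ (J + 1) := by
      have h3 : ⌊reach n ω⌋₊ + 1 ≤ 2 ^ (J + 1) := Nat.lt_pow_succ_log_self (by norm_num) _
      have h4 : ((⌊reach n ω⌋₊ + 1 : ℕ) : ℝ) ≤ ((2 ^ (J + 1) : ℕ) : ℝ) := by exact_mod_cast h3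
      have h5 := (Nat.lt_floor_add_one (reach n ω)).le
      push_cast at h4
      linarith
    -- the distance
    have hdist : (2:ℝ) ^ J / ((J:ℝ) + 1) ^ s ≤ ‖gam ω n‖ := by
      obtain ⟨k, hk, hk2⟩ := Disp_exists_reach ω n
      by_contra hcon
      push Not at hcon
      apply hn
      refine ⟨k, n, hk, ?_, ?_⟩
      · rw [← hj]
        exact Disp_le_sd (by rw [hk2]; exact hlo)
      · rw [← hj]
        have h3 := le_norm_place (path ω n)
        have h4 : ‖place (path ω n)‖ < (2:ℝ) ^ J / ((J:ℝ) + 1) ^ s := hcon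
        have h5 := Int.le_ceil ((2:ℝ) ^ J / ((J:ℝ) + 1) ^ s)
        have h6 : ((sd (path ω n).1 (0, 0) : ℤ) : ℝ) < ((r J + 1 : ℤ) : ℝ) := by
          push_cast
          simp only [hr]
          linarith
        have h7 : sd (path ω n).1 (0, 0) < r J + 1 := by exact_mod_cast h6
        omega
    -- logs
    have hn0 : (0:ℝ) < n := by
      have : 0 < n := by omega
      exact_mod_cast this
    have hlogpos : 0 < Real.log n := Real.log_pos (by exact_mod_cast hn2)
    set j' := Nat.log 2 n with hj'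
    have hj'1 : 1 ≤ j' := Nat.le_log_of_pow_le (by norm_num) (by simpa using hn2)
    have hj'r : (1:ℝ) ≤ j' := by exact_mod_cast hj'1
    have hlogn1 : (j' : ℝ) * Real.log 2 ≤ Real.log n := by
      rw [← Real.log_pow]
      exact Real.log_le_log (by positivity) (by exact_mod_cast Nat.pow_log_le_self 2 (by omega))
    have hJle : J ≤ j' + 1 := by
      have h3 : (2:ℝ) ^ J ≤ n + 1 := hlo.trans (reach_le n ω)
      have h4 : 2 ^ J ≤ n + 1 := by exact_mod_cast h3
      have h5 : n + 1 ≤ 2 ^ (j' + 1) := Nat.lt_pow_succ_log_self (by norm_num) _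
      exact (Nat.pow_le_pow_iff_right (by norm_num)).1 (h4.trans h5)
    have hJr : (J:ℝ) + 1 ≤ (j':ℝ) + 2 := by
      have : (J:ℝ) ≤ j' + 1 := by exact_mod_cast hJle
      linarith
    have hlogJ : Real.log ((J:ℝ) + 1) ≤ Real.log ((j':ℝ) + 2) :=
      Real.log_le_log (by positivity) hJr
    have hlogg : (J:ℝ) * Real.log 2 - s * Real.log ((J:ℝ) + 1) ≤ Real.log ‖gam ω n‖ := by
      have h3 := Real.log_le_log (by positivity) hdist
      rw [Real.log_div (by positivity) (by positivity), Real.log_pow, Real.log_pow] at h3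
      exact h3
    have hlogr : Real.log (reach n ω) ≤ ((J:ℝ) + 1) * Real.log 2 := by
      have h3 := Real.log_le_log (reach_pos n ω) hhi
      rw [Real.log_pow] at h3
      push_cast at h3
      exact h3
    have hl21 : Real.log 2 < 1 := by
      have := Real.log_two_lt_d9
      linarith
    have hl0 : 0 ≤ Real.log ((j':ℝ) + 2) := Real.log_nonneg (by linarith)
    have hfin : Real.log (reach n ω) - s * (4 * Real.log ((j':ℝ) + 2) + 1) ≤
        Real.log ‖gam ω n‖ := by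
      have h3 : (s:ℝ) * Real.log ((J:ℝ) + 1) ≤ s * Real.log ((j':ℝ) + 2) := by gcongr
      nlinarith
    have hden : s * (4 * Real.log ((j':ℝ) + 2) + 1) / Real.log n ≤
        s * ((4 * Real.log ((j':ℝ) + 2) + 1) / (j' * Real.log 2)) := by
      rw [mul_div_assoc]
      gcongr
    have h8 : (Real.log (reach n ω) - s * (4 * Real.log ((j':ℝ) + 2) + 1)) / Real.log n ≤
        Real.log ‖gam ω n‖ / Real.log n := by gcongr
    rw [sub_div] at h8
    linarith
  · filter_upwards [eventually_ge_atTop 2] with n hn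
    have : 0 < Real.log n := Real.log_pos (by exact_mod_cast hn)
    have h3 : 0 < ‖gam ω n‖ := by
      have := norm_gam_pos n ω
      linarith
    have h4 := Real.log_le_log h3 (norm_gam_le n ω)
    gcongr

end H984H
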