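import Pool.Agent.H984R4.HN.Trans
import Pool.Agent.H984R4.HN.Perc
import Pool.Agent.H984R4.NP.EnergyC

/-!
S9: energy of the rescaled path (helper439).
-/

namespace H984H

open H974 Finset H342P H984P MeasureTheory

theorem EnC_dist {δ : ℝ} (hδ : 0 ≤ δ) (z w : ℂ) :
    dist ((δ : ℂ) * z) ((δ : ℂ) * w) = δ * dist z w := by
  rw [dist_eq_norm, ← mul_sub, norm_mul, Complex.norm_real, Real.norm_eq_abs, abs_of_nonneg hδ,
    dist_eq_norm]

theorem EnC_pos (u v : Vtx) (α : ℝ) : 0 ≤ ((max (sd u v) 1 : ℤ) : ℝ) ^ (-α) := by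
  refine Real.rpow_nonneg ?_ _
  have : (0 : ℤ) ≤ max (sd u v) 1 := (by norm_num : (0 : ℤ) ≤ 1).trans (le_max_right _ _)
  exact_mod_cast this

theorem EnC_enr_nonneg (α : ℝ) (n : ℕ) (ω : Conf) : 0 ≤ enr α n ω :=
  Finset.sum_nonneg fun _ _ => Finset.sum_nonneg fun _ _ => EnC_pos _ _ _

theorem EnC_energy_nonneg (D : Dm) (α : ℝ) (F : Finset Edg) : 0 ≤ energy D α F :=
  Finset.sum_nonneg fun _ _ => Finset.sum_nonneg fun _ _ => EnC_pos _ _ _

theorem EnC_En_nonneg (α ρ : ℝ) (f : C(unitInterval, ℂ)) : 0 ≤ H984N.En α ρ f := by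
  unfold H984N.En
  exact integral_nonneg fun s => integral_nonneg fun t =>
    Real.rpow_nonneg (le_trans dist_nonneg (le_max_left _ _)) _

/-- The truncated energy of the curve is bounded by the discrete energy; compare
`H984N.energy_curve` (the auxiliary lemmas of that file about `pl` can be used). -/
theorem en_curve {n : ℕ} (hn : 1 ≤ n) {ρ α : ℝ} (hρ : (n : ℝ) ^ (-(4/7) : ℝ) ≤ ρ) (hα : 0 ≤ α)
    (ω : Conf) :
    H984N.En α ρ (curve n ω) ≤ 4 ^ α * ((n : ℝ) ^ (4/7 * α - 2) * enr α n ω) := by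
  have hN : 0 < n := hn
  have hN' : (0 : ℝ) < n := Nat.cast_pos.mpr hN
  obtain ⟨δ, hδd⟩ : ∃ δ : ℝ, δ = (n : ℝ) ^ (-(4/7) : ℝ) := ⟨_, rfl⟩
  have hδ : 0 < δ := by rw [hδd]; positivity
  have hδρ : δ ≤ ρ := by rw [hδd]; exact hρ
  set w : ℕ → St := fun k => path ω k with hw
  set m : ℕ → ℕ → ℝ := fun i j => ((max (sd (w i).1 (w j).1) 1 : ℤ) : ℝ) with hm
  have hm1 : ∀ i j, 1 ≤ m i j := by
    intro i j
    simp only [hm]
    exact_mod_cast le_max_right _ _
  have hmα : ∀ i j, 0 ≤ m i j ^ (-α) := fun i j =>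
    Real.rpow_nonneg (by linarith [hm1 i j]) _
  have hen : enr α n ω =
      ∑ i ∈ Finset.range (n + 1), ∑ j ∈ Finset.range (n + 1), m i j ^ (-α) := rfl
  have h4 : (0 : ℝ) < 4 ^ α := Real.rpow_pos_of_pos (by norm_num) _
  set f : C(unitInterval, ℂ) := curve n ω with hf
  have hfp : f = H984N.pl n (fun k => (δ : ℂ) * place (w k)) := by
    rw [hf, hδd]
    rfl
  have hstep : ∀ k < n, dist ((δ : ℂ) * place (w k)) ((δ : ℂ) * place (w (k + 1))) ≤ δ / 2 := by
    intro k _
    rw [EnC_dist hδ.le]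
    have h1 := gam_step ω k
    calc δ * dist (place (w k)) (place (w (k + 1))) ≤ δ * (1 / 2) :=
          mul_le_mul_of_nonneg_left h1 hδ.le
      _ = δ / 2 := by ring
  set c : ℝ := 4 ^ α * δ ^ (-α) with hc
  have hc0 : 0 < c := mul_pos h4 (Real.rpow_pos_of_pos hδ _)
  -- the pointwise bound
  have hpt : ∀ i < n, ∀ j < n, ∀ s ∈ H984N.EnergyC_I n i, ∀ t ∈ H984N.EnergyC_I n j,
      (max (dist (f s) (f t)) ρ) ^ (-α) ≤ c * m i j ^ (-α) := by
    intro i hi j hj s hs t ht
    have h1 : dist (f s) ((δ : ℂ) * place (w i)) ≤ δ / 2 := by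
      rw [hfp]; exact H984N.EnergyC_near hstep hi hs
    have h2 : dist (f t) ((δ : ℂ) * place (w j)) ≤ δ / 2 := by
      rw [hfp]; exact H984N.EnergyC_near hstep hj ht
    have h3 : δ * (((sd (w i).1 (w j).1 : ℤ) : ℝ) - 1/2) ≤
        dist ((δ : ℂ) * place (w i)) ((δ : ℂ) * place (w j)) := by
      rw [EnC_dist hδ.le]
      exact mul_le_mul_of_nonneg_left (le_dist_place _ _) hδ.le
    have h5 : dist ((δ : ℂ) * place (w i)) ((δ : ℂ) * place (w j)) ≤
        δ / 2 + dist (f s) (f t) + δ / 2 := by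
      have a1 := dist_triangle4 ((δ : ℂ) * place (w i)) (f s) (f t) ((δ : ℂ) * place (w j))
      rw [dist_comm ((δ : ℂ) * place (w i)) (f s)] at a1
      linarith
    have h6 : δ * m i j / 4 ≤ max (dist (f s) (f t)) ρ := by
      by_cases hsd : sd (w i).1 (w j).1 ≤ 1
      · have : m i j = 1 := by
          simp only [hm]
          rw [max_eq_right hsd]; norm_num
        rw [this]
        refine le_trans ?_ (le_max_right _ _)
        linarith
      · have hsd2 : 2 ≤ sd (w i).1 (w j).1 := by omega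
        have : m i j = (sd (w i).1 (w j).1 : ℝ) := by
          simp only [hm]
          rw [max_eq_left (by omega)]
        rw [this]
        refine le_trans ?_ (le_max_left _ _)
        have hsd3 : (2 : ℝ) ≤ (sd (w i).1 (w j).1 : ℝ) := by exact_mod_cast hsd2
        nlinarith
    have h7 : 0 < δ * m i j / 4 := by
      have := hm1 i j
      positivity
    calc (max (dist (f s) (f t)) ρ) ^ (-α) ≤ (δ * m i j / 4) ^ (-α) :=
          Real.rpow_le_rpow_of_nonpos h7 h6 (by linarith)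
      _ = c * m i j ^ (-α) := by
          have hm0 : 0 ≤ m i j := by linarith [hm1 i j]
          rw [Real.div_rpow (by positivity) (by norm_num), Real.mul_rpow hδ.le hm0, hc,
            Real.rpow_neg (by norm_num : (0:ℝ) ≤ 4)]
          rw [div_inv_eq_mul]
          ring
  -- the inner integral
  have hρ0 : 0 < ρ := hδ.trans_le hδρ
  have hpos : ∀ s t, 0 ≤ (max (dist (f s) (f t)) ρ) ^ (-α) := fun s t =>
    Real.rpow_nonneg (le_trans hρ0.le (le_max_right _ _)) _
  have hind : ∀ (i : ℕ) (e : ℝ), Integrable ((H984N.EnergyC_I n i).indicator (fun _ => e))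
      (volume : Measure unitInterval) := fun i e =>
    (integrable_const e).indicator (H984N.EnergyC_meas n i)
  have hinner : ∀ i < n, ∀ s ∈ H984N.EnergyC_I n i,
      ∫ t : unitInterval, (max (dist (f s) (f t)) ρ) ^ (-α) ≤
        ∑ j ∈ Finset.range n, (1 / n) * (c * m i j ^ (-α)) := by
    intro i hi s hs
    have hI : Integrable (fun t : unitInterval => ∑ j ∈ Finset.range n,
        (H984N.EnergyC_I n j).indicator (fun _ => c * m i j ^ (-α)) t) volume :=
      integrable_finsetSum _ fun j _ => hind j _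
    calc ∫ t : unitInterval, (max (dist (f s) (f t)) ρ) ^ (-α)
        ≤ ∫ t : unitInterval, ∑ j ∈ Finset.range n,
            (H984N.EnergyC_I n j).indicator (fun _ => c * m i j ^ (-α)) t := by
          refine integral_mono_of_nonneg (Filter.Eventually.of_forall fun t => hpos s t) hI
            (Filter.Eventually.of_forall fun t => ?_)
          obtain ⟨j, hj, ht⟩ := H984N.EnergyC_cover hN t
          refine (hpt i hi j hj s hs t ht).trans ?_
          have h0 : c * m i j ^ (-α) =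
              (H984N.EnergyC_I n j).indicator (fun _ => c * m i j ^ (-α)) t := by
            rw [Set.indicator_of_mem ht]
          rw [h0]
          refine Finset.single_le_sum (f := fun j =>
            (H984N.EnergyC_I n j).indicator (fun _ => c * m i j ^ (-α)) t) (fun k _ => ?_)
            (Finset.mem_range.mpr hj)
          exact Set.indicator_nonneg (fun _ _ => mul_nonneg hc0.le (hmα i k)) _
      _ = ∑ j ∈ Finset.range n, (volume : Measure unitInterval).real (H984N.EnergyC_I n j) *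
            (c * m i j ^ (-α)) := by
          rw [integral_finsetSum _ fun j _ => hind j _]
          refine Finset.sum_congr rfl fun j _ => ?_
          rw [integral_indicator_const _ (H984N.EnergyC_meas n j), smul_eq_mul]
      _ ≤ ∑ j ∈ Finset.range n, (1 / n) * (c * m i j ^ (-α)) :=
          Finset.sum_le_sum fun j _ => mul_le_mul_of_nonneg_right (H984N.EnergyC_vol j hN)
            (mul_nonneg hc0.le (hmα i j))
  -- the outer integral
  have hinner0 : ∀ i, 0 ≤ ∑ j ∈ Finset.range n, (1 / n : ℝ) * (c * m i j ^ (-α)) := fun i =>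
    Finset.sum_nonneg fun j _ => mul_nonneg (by positivity) (mul_nonneg hc0.le (hmα i j))
  have houter : H984N.En α ρ f ≤
      ∑ i ∈ Finset.range n, (1 / n) * ∑ j ∈ Finset.range n, (1 / n) * (c * m i j ^ (-α)) := by
    unfold H984N.En
    have hI : Integrable (fun s : unitInterval => ∑ i ∈ Finset.range n,
        (H984N.EnergyC_I n i).indicator
          (fun _ => ∑ j ∈ Finset.range n, (1 / n) * (c * m i j ^ (-α))) s) volume :=
      integrable_finsetSum _ fun i _ => hind i _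
    calc ∫ s : unitInterval, ∫ t : unitInterval, (max (dist (f s) (f t)) ρ) ^ (-α)
        ≤ ∫ s : unitInterval, ∑ i ∈ Finset.range n, (H984N.EnergyC_I n i).indicator
            (fun _ => ∑ j ∈ Finset.range n, (1 / n) * (c * m i j ^ (-α))) s := by
          refine integral_mono_of_nonneg (Filter.Eventually.of_forall fun s =>
            integral_nonneg fun t => hpos s t) hI (Filter.Eventually.of_forall fun s => ?_)
          obtain ⟨i, hi, hs⟩ := H984N.EnergyC_cover hN s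
          refine (hinner i hi s hs).trans ?_
          have h0 : ∑ j ∈ Finset.range n, (1 / n) * (c * m i j ^ (-α)) =
              (H984N.EnergyC_I n i).indicator
                (fun _ => ∑ j ∈ Finset.range n, (1 / n) * (c * m i j ^ (-α))) s := by
            rw [Set.indicator_of_mem hs]
          rw [h0]
          refine Finset.single_le_sum (f := fun i => (H984N.EnergyC_I n i).indicator
            (fun _ => ∑ j ∈ Finset.range n, (1 / n : ℝ) * (c * m i j ^ (-α))) s) (fun k _ => ?_)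
            (Finset.mem_range.mpr hi)
          exact Set.indicator_nonneg (fun _ _ => hinner0 k) _
      _ = ∑ i ∈ Finset.range n, (volume : Measure unitInterval).real (H984N.EnergyC_I n i) *
            ∑ j ∈ Finset.range n, (1 / n) * (c * m i j ^ (-α)) := by
          rw [integral_finsetSum _ fun i _ => hind i _]
          refine Finset.sum_congr rfl fun i _ => ?_
          rw [integral_indicator_const _ (H984N.EnergyC_meas n i), smul_eq_mul]
      _ ≤ _ := Finset.sum_le_sum fun i _ => mul_le_mul_of_nonneg_right (H984N.EnergyC_vol i hN)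
            (hinner0 i)
  have hsum : ∑ i ∈ Finset.range n, (1 / n : ℝ) *
      ∑ j ∈ Finset.range n, (1 / n) * (c * m i j ^ (-α)) =
      c / (n : ℝ) ^ 2 * ∑ i ∈ Finset.range n, ∑ j ∈ Finset.range n, m i j ^ (-α) := by
    simp only [Finset.mul_sum]
    refine Finset.sum_congr rfl fun i _ => Finset.sum_congr rfl fun j _ => ?_
    field_simp
  have hle : ∑ i ∈ Finset.range n, ∑ j ∈ Finset.range n, m i j ^ (-α) ≤ enr α n ω := by
    rw [hen]
    have hsub : Finset.range n ⊆ Finset.range (n + 1) := Finset.range_mono (Nat.le_succ n)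
    calc ∑ i ∈ Finset.range n, ∑ j ∈ Finset.range n, m i j ^ (-α)
        ≤ ∑ i ∈ Finset.range n, ∑ j ∈ Finset.range (n + 1), m i j ^ (-α) :=
          Finset.sum_le_sum fun i _ => Finset.sum_le_sum_of_subset_of_nonneg hsub
            fun j _ _ => hmα i j
      _ ≤ _ := Finset.sum_le_sum_of_subset_of_nonneg hsub fun i _ _ =>
            Finset.sum_nonneg fun j _ => hmα i j
  have hcn : c / (n : ℝ) ^ 2 = 4 ^ α * (n : ℝ) ^ (4/7 * α - 2) := by
    rw [hc, hδd, ← Real.rpow_mul hN'.le, Real.rpow_sub hN']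
    have e1 : -(4/7 : ℝ) * -α = 4/7 * α := by ring
    rw [e1]
    have e2 : (n : ℝ) ^ (2 : ℝ) = (n : ℝ) ^ 2 := by
      rw [← Real.rpow_natCast]; norm_num
    rw [e2, mul_div_assoc]
  refine houter.trans ?_
  rw [hsum, hcn, mul_assoc]
  exact mul_le_mul_of_nonneg_left (mul_le_mul_of_nonneg_left hle (by positivity)) h4.le

theorem EnC_int_energy (ρ : ℤ) (α : ℝ) :
    Integrable (fun ω => energy (bx ρ) α (cut ω ρ)) perc := by
  have hm := perc_cut_meas ρ (energy (bx ρ) α)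
  refine Integrable.of_bound hm.aestronglyMeasurable
    (∑ T ∈ (bx ρ).edges.powerset, ‖energy (bx ρ) α T‖) (Filter.Eventually.of_forall fun ω => ?_)
  exact Finset.single_le_sum (f := fun T => ‖energy (bx ρ) α T‖) (fun T _ => norm_nonneg _)
    (Finset.mem_powerset.mpr (Perc_cut_sub ω ρ))

theorem EnC_int_enr (ρ : ℤ) (n : ℕ) {α : ℝ} (h0 : 0 ≤ α) :
    Integrable (fun ω => Set.indicator {ω | Stay ρ n ω} (enr α n) ω) perc := by
  refine Integrable.indicator ?_ (stay_meas ρ n)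
  refine Integrable.of_bound (enr_meas α n).aestronglyMeasurable
    (((n : ℝ) + 1) * (((n : ℝ) + 1) * 1)) (Filter.Eventually.of_forall fun ω => ?_)
  rw [Real.norm_eq_abs, abs_of_nonneg (EnC_enr_nonneg α n ω)]
  unfold enr
  have h1 : ∀ u v : Vtx, ((max (sd u v) 1 : ℤ) : ℝ) ^ (-α) ≤ 1 := fun u v => by
    refine Real.rpow_le_one_of_one_le_of_nonpos ?_ (by linarith)
    exact_mod_cast le_max_right _ _
  refine (Finset.sum_le_sum fun i _ => Finset.sum_le_sum fun j _ => h1 _ _).trans (le_of_eq ?_)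
  rw [Finset.sum_const, Finset.sum_const, Finset.card_range, nsmul_eq_mul, nsmul_eq_mul]
  push_cast
  ring

theorem en_stay {C C2 : ℝ} (hC : 0 < C) (hU : TwoUp C (1/4)) (hC2 : 0 < C2) (hA : AnnUp C2)
    {α : ℝ} (h0 : 0 ≤ α) (h1 : α < 7/4) :
    ∃ C' : ℝ, 0 < C' ∧ ∀ (ρ : ℤ) (n : ℕ), 1 ≤ ρ →
      ∫ ω, Set.indicator {ω | Stay ρ n ω} (enr α n) ω ∂perc ≤
        C' * (2 * ρ : ℝ) ^ (7/2 - α) := by
  obtain ⟨C', hC', h⟩ := energy_moment hC hU hC2 hA h0 h1
  refine ⟨C', hC', fun ρ n hρ => ?_⟩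
  have hρ' : (1 : ℝ) ≤ ρ := by exact_mod_cast hρ
  have e1 : ∫ ω, Set.indicator {ω | Stay ρ n ω} (enr α n) ω ∂perc ≤
      ∫ ω, energy (bx ρ) α (cut ω ρ) ∂perc := by
    refine integral_mono_of_nonneg (Filter.Eventually.of_forall fun ω =>
      Set.indicator_nonneg (fun ω _ => EnC_enr_nonneg α n ω) ω) (EnC_int_energy ρ α)
      (Filter.Eventually.of_forall fun ω => ?_)
    show Set.indicator {ω | Stay ρ n ω} (enr α n) ω ≤ energy (bx ρ) α (cut ω ρ)
    by_cases hS : Stay ρ n ω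
    · rw [Set.indicator_of_mem (show ω ∈ {ω | Stay ρ n ω} from hS)]
      exact enr_le hρ hS
    · rw [Set.indicator_of_notMem (show ω ∉ {ω | Stay ρ n ω} from hS)]
      exact EnC_energy_nonneg _ _ _
  refine e1.trans ?_
  rw [perc_cut_int]
  refine h (bx ρ) (2 * ρ) (bx_ok hρ) (by linarith) ?_ ?_
  · simp only [bx]
    push_cast
    linarith
  · simp only [bx]
    linarith

/-- the nodes of the curve lie on the curve -/
theorem EnC_node {n : ℕ} (hn : 1 ≤ n) (ω : Conf) {j : ℕ} (hj : j ≤ n) :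
    ‖(((n : ℝ) ^ (-(4/7) : ℝ) : ℝ) : ℂ) * gam ω j‖ ≤ ‖curve n ω‖ := by
  have hN' : (0 : ℝ) < n := Nat.cast_pos.mpr hn
  rcases hj.lt_or_eq with h | h
  · have hmem : (j : ℝ) / n ∈ Set.Icc (0 : ℝ) 1 := by
      refine ⟨by positivity, ?_⟩
      rw [div_le_one hN']
      exact_mod_cast hj
    have h1 := H984N.pl_seg (N := n) (p := fun k => (((n : ℝ) ^ (-(4/7) : ℝ) : ℝ) : ℂ) * gam ω k)
      h (s := ⟨(j : ℝ) / n, hmem⟩) (le_of_eq (by
        show (j : ℝ) = (j : ℝ) / n * n
        field_simp)) (by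
        show (j : ℝ) / n * n ≤ j + 1
        rw [div_mul_cancel₀ _ hN'.ne']
        linarith)
    have h2 : (((⟨(j : ℝ) / n, hmem⟩ : unitInterval) : ℝ) * n - j : ℝ) = 0 := by
      show (j : ℝ) / n * n - j = 0
      rw [div_mul_cancel₀ _ hN'.ne', sub_self]
    rw [h2] at h1
    have h3 : curve n ω ⟨(j : ℝ) / n, hmem⟩ = (((n : ℝ) ^ (-(4/7) : ℝ) : ℝ) : ℂ) * gam ω j := by
      unfold curve
      rw [h1]
      simp
    rw [← h3]
    exact ContinuousMap.norm_coe_le_norm _ _
  · subst h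
    have h3 : curve j ω 1 = (((j : ℝ) ^ (-(4/7) : ℝ) : ℝ) : ℂ) * gam ω j := by
      unfold curve
      rw [H984N.pl_one]
    rw [← h3]
    exact ContinuousMap.norm_coe_le_norm _ _

theorem EnC_cutoff_stay {n : ℕ} (hn : 1 ≤ n) {r : ℝ} (hr : 0 < r) {ω : Conf}
    (h : cutoff r (curve n ω) ≠ 0) : Stay (⌈2 * r * (n : ℝ) ^ (4/7 : ℝ)⌉ + 1) n ω := by
  have hN' : (0 : ℝ) < n := Nat.cast_pos.mpr hn
  have hnorm : ‖curve n ω‖ < 2 * r := by
    by_contra hcon
    push Not at hcon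
    apply h
    unfold cutoff
    apply max_eq_left
    refine (min_le_right _ _).trans ?_
    have : 2 ≤ ‖curve n ω‖ / r := by
      rw [le_div_iff₀ hr]; exact hcon
    linarith
  intro j hj
  have h1 := (EnC_node hn ω hj).trans_lt hnorm
  rw [norm_mul, Complex.norm_real, Real.norm_eq_abs, abs_of_pos (by positivity)] at h1
  have h2 : ‖gam ω j‖ < 2 * r * (n : ℝ) ^ (4/7 : ℝ) := by
    have h3 : (n : ℝ) ^ (4/7 : ℝ) * ((n : ℝ) ^ (-(4/7) : ℝ) * ‖gam ω j‖) = ‖gam ω j‖ := by
      rw [← mul_assoc, ← Real.rpow_add hN']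
      norm_num
    rw [← h3]
    calc (n : ℝ) ^ (4/7 : ℝ) * ((n : ℝ) ^ (-(4/7) : ℝ) * ‖gam ω j‖)
        < (n : ℝ) ^ (4/7 : ℝ) * (2 * r) := mul_lt_mul_of_pos_left h1 (by positivity)
      _ = _ := by ring
  have h3 := le_norm_place (path ω j)
  have h4 : ‖place (path ω j)‖ = ‖gam ω j‖ := rfl
  rw [h4] at h3
  have h5 := Int.le_ceil (2 * r * (n : ℝ) ^ (4/7 : ℝ))
  have h6 : ((sd (path ω j).1 (0, 0) : ℤ) : ℝ) <
      ((⌈2 * r * (n : ℝ) ^ (4/7 : ℝ)⌉ + 1 : ℤ) : ℝ) := by
    push_cast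
    linarith
  exact_mod_cast h6

/-- The expected energy of the curves in a ball of radius `2 r`. -/
theorem en_cutoff {C C2 : ℝ} (hC : 0 < C) (hU : TwoUp C (1/4)) (hC2 : 0 < C2) (hA : AnnUp C2)
    {α : ℝ} (h0 : 0 ≤ α) (h1 : α < 7/4) {r : ℝ} (hr : 0 < r) :
    ∃ C' : ℝ, 0 < C' ∧ ∀ (n : ℕ) (ρ : ℝ), 1 ≤ n → (n : ℝ) ^ (-(4/7) : ℝ) ≤ ρ →
      ∫ ω, cutoff r (curve n ω) * H984N.En α ρ (curve n ω) ∂perc ≤ C' := by
  obtain ⟨C', hC', hst⟩ := en_stay hC hU hC2 hA h0 h1
  have h4 : (0 : ℝ) < 4 ^ α := Real.rpow_pos_of_pos (by norm_num) _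
  refine ⟨4 ^ α * (C' * (4 * r + 4) ^ (7/2 - α)), by positivity, fun n ρ hn hρ => ?_⟩
  have hN' : (0 : ℝ) < n := Nat.cast_pos.mpr hn
  have hN1 : (1 : ℝ) ≤ n := by exact_mod_cast hn
  obtain ⟨R, hR⟩ : ∃ R : ℤ, R = ⌈2 * r * (n : ℝ) ^ (4/7 : ℝ)⌉ + 1 := ⟨_, rfl⟩
  have hx : 0 < 2 * r * (n : ℝ) ^ (4/7 : ℝ) := by positivity
  have hR1 : 1 ≤ R := by
    rw [hR]
    have := Int.ceil_nonneg hx.le
    omega
  have hn47 : 1 ≤ (n : ℝ) ^ (4/7 : ℝ) := Real.one_le_rpow hN1 (by norm_num)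
  have hR2 : 2 * (R : ℝ) ≤ (4 * r + 4) * (n : ℝ) ^ (4/7 : ℝ) := by
    have h5 := Int.ceil_lt_add_one (2 * r * (n : ℝ) ^ (4/7 : ℝ))
    rw [hR]
    push_cast
    nlinarith
  obtain ⟨K, hK⟩ : ∃ K : ℝ, K = 4 ^ α * (n : ℝ) ^ (4/7 * α - 2) := ⟨_, rfl⟩
  have hK0 : 0 < K := by rw [hK]; positivity
  have e1 : ∫ ω, cutoff r (curve n ω) * H984N.En α ρ (curve n ω) ∂perc ≤
      ∫ ω, K * Set.indicator {ω | Stay R n ω} (enr α n) ω ∂perc := by
    refine integral_mono_of_nonneg (Filter.Eventually.of_forall fun ω =>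
      mul_nonneg (le_max_left _ _) (EnC_En_nonneg _ _ _)) ((EnC_int_enr R n h0).const_mul K)
      (Filter.Eventually.of_forall fun ω => ?_)
    show cutoff r (curve n ω) * H984N.En α ρ (curve n ω) ≤
      K * Set.indicator {ω | Stay R n ω} (enr α n) ω
    by_cases hc : cutoff r (curve n ω) = 0
    · rw [hc, zero_mul]
      exact mul_nonneg hK0.le (Set.indicator_nonneg (fun ω _ => EnC_enr_nonneg α n ω) ω)
    · have hS : Stay R n ω := by
        rw [hR]; exact EnC_cutoff_stay hn hr hc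
      rw [Set.indicator_of_mem (show ω ∈ {ω | Stay R n ω} from hS)]
      have h5 : cutoff r (curve n ω) ≤ 1 := max_le zero_le_one (min_le_left _ _)
      calc cutoff r (curve n ω) * H984N.En α ρ (curve n ω)
          ≤ 1 * H984N.En α ρ (curve n ω) :=
            mul_le_mul_of_nonneg_right h5 (EnC_En_nonneg _ _ _)
        _ = H984N.En α ρ (curve n ω) := one_mul _
        _ ≤ 4 ^ α * ((n : ℝ) ^ (4/7 * α - 2) * enr α n ω) := en_curve hn hρ h0 ω
        _ = K * enr α n ω := by rw [hK]; ring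
  refine e1.trans ?_
  rw [integral_const_mul]
  have h5 : (0 : ℝ) < 7/2 - α := by linarith
  calc K * ∫ ω, Set.indicator {ω | Stay R n ω} (enr α n) ω ∂perc
      ≤ K * (C' * (2 * R : ℝ) ^ (7/2 - α)) :=
        mul_le_mul_of_nonneg_left (hst R n hR1) hK0.le
    _ ≤ K * (C' * ((4 * r + 4) * (n : ℝ) ^ (4/7 : ℝ)) ^ (7/2 - α)) := by
        have hR0 : (0 : ℝ) ≤ 2 * R := by
          have : (1 : ℝ) ≤ R := by exact_mod_cast hR1
          linarith
        gcongr
    _ = 4 ^ α * (C' * (4 * r + 4) ^ (7/2 - α)) := by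
        rw [Real.mul_rpow (by positivity) (by positivity), ← Real.rpow_mul hN'.le, hK]
        have e2 : (n : ℝ) ^ (4/7 * α - 2) * (n : ℝ) ^ (4/7 * (7/2 - α)) = 1 := by
          rw [← Real.rpow_add hN']
          have : 4/7 * α - 2 + 4/7 * (7/2 - α) = (0 : ℝ) := by ring
          rw [this, Real.rpow_zero]
        calc 4 ^ α * (n : ℝ) ^ (4/7 * α - 2) * (C' * ((4 * r + 4) ^ (7/2 - α) *
              (n : ℝ) ^ (4/7 * (7/2 - α))))
            = 4 ^ α * (C' * (4 * r + 4) ^ (7/2 - α)) * ((n : ℝ) ^ (4/7 * α - 2) *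
              (n : ℝ) ^ (4/7 * (7/2 - α))) := by ring
          _ = _ := by rw [e2, mul_one]

end H984H
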