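import Pool.Agent.H984R4.HN.HPDefs
import Pool.Agent.H984R4.NP.EnLimit

/-!
S11: finite energy of the limits; compare `Pool.Agent.H984R4.NP.EnLimit`.
-/

namespace H984H

open H974 Finset H342P H984P MeasureTheory Filter Topology

theorem cutoff_cont (r : ℝ) : Continuous (cutoff r) := by
  unfold cutoff
  exact continuous_const.max (continuous_const.min
    (continuous_const.sub (continuous_norm.div_const r)))

theorem cutoff_mem (r : ℝ) (f : C(unitInterval, ℂ)) : 0 ≤ cutoff r f ∧ cutoff r f ≤ 1 :=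
  ⟨le_max_left _ _, max_le zero_le_one (min_le_left _ _)⟩

theorem cutoff_one {r : ℝ} (hr : 0 < r) {f : C(unitInterval, ℂ)} (h : ‖f‖ ≤ r) :
    cutoff r f = 1 := by
  have h1 : ‖f‖ / r ≤ 1 := (div_le_one hr).2 h
  unfold cutoff
  rw [min_eq_left (by linarith), max_eq_right zero_le_one]

theorem cutoff_zero {r : ℝ} (hr : 0 < r) {f : C(unitInterval, ℂ)} (h : 2 * r ≤ ‖f‖) :
    cutoff r f = 0 := by
  have h1 : 2 ≤ ‖f‖ / r := (le_div_iff₀ hr).2 h
  unfold cutoff
  exact max_eq_left ((min_le_right _ _).trans (by linarith))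

/-- the test function -/
noncomputable def LimE_Phi (r α ρ : ℝ) (f : C(unitInterval, ℂ)) : ℝ := cutoff r f * H984N.En α ρ f

theorem LimE_Phi_cont {r α ρ : ℝ} (hα : 0 ≤ α) (hρ : 0 < ρ) :
    Continuous (LimE_Phi r α ρ) :=
  (cutoff_cont r).mul (H984N.EnLimit_En_cont hα hρ)

theorem LimE_Phi_nonneg {r α ρ : ℝ} (hρ : 0 < ρ) (f : C(unitInterval, ℂ)) :
    0 ≤ LimE_Phi r α ρ f :=
  mul_nonneg (cutoff_mem r f).1 (H984N.EnLimit_En_nonneg hρ _)

theorem LimE_Phi_le {r α ρ : ℝ} (hα : 0 ≤ α) (hρ : 0 < ρ) (f : C(unitInterval, ℂ)) :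
    LimE_Phi r α ρ f ≤ ρ ^ (-α) := by
  unfold LimE_Phi
  calc cutoff r f * H984N.En α ρ f ≤ 1 * ρ ^ (-α) := by
        apply mul_le_mul (cutoff_mem r f).2 (H984N.EnLimit_En_le hα hρ _)
          (H984N.EnLimit_En_nonneg hρ _) zero_le_one
    _ = _ := one_mul _

theorem LimE_lim {r α : ℝ} (hα : 0 ≤ α)
    {ν : ℕ → ProbabilityMeasure C(unitInterval, ℂ)} {μ : ProbabilityMeasure C(unitInterval, ℂ)}
    (hμ : Tendsto ν atTop (𝓝 μ)) {C ρ : ℝ} (hρ : 0 < ρ)
    (hE : ∀ᶠ i in atTop,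
      ∫ f, cutoff r f * H984N.En α ρ f ∂(ν i : Measure C(unitInterval, ℂ)) ≤ C) :
    ∫⁻ f, ENNReal.ofReal (LimE_Phi r α ρ f) ∂(μ : Measure C(unitInterval, ℂ)) ≤
      ENNReal.ofReal C := by
  have hc := LimE_Phi_cont (r := r) hα hρ
  have hnorm : ∀ p, ‖LimE_Phi r α ρ p‖ ≤ ρ ^ (-α) := by
    intro p
    rw [Real.norm_eq_abs, abs_of_nonneg (LimE_Phi_nonneg hρ p)]
    exact LimE_Phi_le hα hρ p
  let g : BoundedContinuousFunction C(unitInterval, ℂ) ℝ :=
    BoundedContinuousFunction.ofNormedAddCommGroup (LimE_Phi r α ρ) hc (ρ ^ (-α)) hnorm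
  have h1 := (ProbabilityMeasure.tendsto_iff_forall_integral_tendsto.mp hμ) g
  have h2 : ∫ p, g p ∂(μ : Measure C(unitInterval, ℂ)) ≤ C := by
    refine le_of_tendsto h1 ?_
    filter_upwards [hE] with i hi
    exact hi
  have h4 : ∫ p, LimE_Phi r α ρ p ∂(μ : Measure C(unitInterval, ℂ)) ≤ C := h2
  rw [← ofReal_integral_eq_lintegral_ofReal]
  · exact ENNReal.ofReal_le_ofReal h4
  · refine Integrable.mono' (integrable_const (ρ ^ (-α))) hc.stronglyMeasurable.aestronglyMeasurable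
      (Eventually.of_forall hnorm)
  · exact Eventually.of_forall fun p => LimE_Phi_nonneg hρ p

theorem LimE_EnI_le {α : ℝ} (hα : 0 < α) (f : C(unitInterval, ℂ)) :
    H984N.EnI α f ≤ ⨆ n, ENNReal.ofReal (H984N.En α (H984N.EnLimit_r n) f) := by
  have hkm : ∀ n (s : unitInterval), Measurable fun t : unitInterval =>
      ENNReal.ofReal (H984N.EnLimit_k α (H984N.EnLimit_r n) (f s) (f t)) := fun n s =>
    (H984N.EnLimit_k_cont (H984N.EnLimit_r_pos n) continuous_const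
      f.continuous).measurable.ennreal_ofReal
  have hkm2 : ∀ n, Measurable fun s : unitInterval => ∫⁻ t : unitInterval,
      ENNReal.ofReal (H984N.EnLimit_k α (H984N.EnLimit_r n) (f s) (f t)) := by
    intro n
    apply Measurable.lintegral_prod_right' (f := fun q : unitInterval × unitInterval =>
      ENNReal.ofReal (H984N.EnLimit_k α (H984N.EnLimit_r n) (f q.1) (f q.2)))
    exact (H984N.EnLimit_k_cont (H984N.EnLimit_r_pos n) (f.continuous.comp continuous_fst)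
      (f.continuous.comp continuous_snd)).measurable.ennreal_ofReal
  calc H984N.EnI α f ≤ ∫⁻ s : unitInterval, ∫⁻ t : unitInterval,
        ⨆ n, ENNReal.ofReal (H984N.EnLimit_k α (H984N.EnLimit_r n) (f s) (f t)) :=
        lintegral_mono fun s => lintegral_mono fun t => H984N.EnLimit_k_sup hα _ _
    _ = ∫⁻ s : unitInterval, ⨆ n, ∫⁻ t : unitInterval,
        ENNReal.ofReal (H984N.EnLimit_k α (H984N.EnLimit_r n) (f s) (f t)) := by
        refine lintegral_congr fun s => ?_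
        rw [lintegral_iSup (fun n => hkm n s)]
        intro m n hmn t
        exact ENNReal.ofReal_le_ofReal
          (H984N.EnLimit_k_anti hα.le (H984N.EnLimit_r_pos n) (H984N.EnLimit_r_anti hmn) _ _)
    _ = ⨆ n, ∫⁻ s : unitInterval, ∫⁻ t : unitInterval,
        ENNReal.ofReal (H984N.EnLimit_k α (H984N.EnLimit_r n) (f s) (f t)) := by
        rw [lintegral_iSup hkm2]
        intro m n hmn s
        refine lintegral_mono fun t => ENNReal.ofReal_le_ofReal ?_
        exact H984N.EnLimit_k_anti hα.le (H984N.EnLimit_r_pos n) (H984N.EnLimit_r_anti hmn) _ _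
    _ = ⨆ n, ENNReal.ofReal (H984N.En α (H984N.EnLimit_r n) f) := by
        congr 1
        funext n
        rw [H984N.EnLimit_ofReal hα.le (H984N.EnLimit_r_pos n)]

theorem LimE_ball {r α : ℝ} (hr : 0 < r) (hα : 0 < α)
    {ν : ℕ → ProbabilityMeasure C(unitInterval, ℂ)} {μ : ProbabilityMeasure C(unitInterval, ℂ)}
    (hμ : Tendsto ν atTop (𝓝 μ)) {C : ℝ}
    (hE : ∀ ρ : ℝ, 0 < ρ → ∀ᶠ i in atTop,
      ∫ f, cutoff r f * H984N.En α ρ f ∂(ν i : Measure C(unitInterval, ℂ)) ≤ C) :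
    ∀ᵐ f ∂(μ : Measure C(unitInterval, ℂ)), ‖f‖ ≤ r → H984N.EnI α f ≠ ⊤ := by
  have hmeas : ∀ n, Measurable fun p : C(unitInterval, ℂ) =>
      ENNReal.ofReal (LimE_Phi r α (H984N.EnLimit_r n) p) :=
    fun n => (LimE_Phi_cont hα.le (H984N.EnLimit_r_pos n)).measurable.ennreal_ofReal
  have hmono : Monotone fun (n : ℕ) (p : C(unitInterval, ℂ)) =>
      ENNReal.ofReal (LimE_Phi r α (H984N.EnLimit_r n) p) := by
    intro m n hmn p
    apply ENNReal.ofReal_le_ofReal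
    unfold LimE_Phi
    apply mul_le_mul_of_nonneg_left _ (cutoff_mem r p).1
    rw [← ENNReal.ofReal_le_ofReal_iff (H984N.EnLimit_En_nonneg (H984N.EnLimit_r_pos n) _),
      H984N.EnLimit_ofReal hα.le (H984N.EnLimit_r_pos m),
      H984N.EnLimit_ofReal hα.le (H984N.EnLimit_r_pos n)]
    refine lintegral_mono fun s => lintegral_mono fun t => ENNReal.ofReal_le_ofReal ?_
    exact H984N.EnLimit_k_anti hα.le (H984N.EnLimit_r_pos n) (H984N.EnLimit_r_anti hmn) _ _
  have hint : ∫⁻ p, ⨆ n, ENNReal.ofReal (LimE_Phi r α (H984N.EnLimit_r n) p)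
      ∂(μ : Measure C(unitInterval, ℂ)) ≤ ENNReal.ofReal C := by
    rw [lintegral_iSup hmeas hmono]
    exact iSup_le fun n => LimE_lim hα.le hμ (H984N.EnLimit_r_pos n)
      (hE _ (H984N.EnLimit_r_pos n))
  have hae := ae_lt_top (Measurable.iSup hmeas)
    (lt_of_le_of_lt hint ENNReal.ofReal_lt_top).ne
  filter_upwards [hae] with f hp hf
  have h1 : ∀ n, LimE_Phi r α (H984N.EnLimit_r n) f = H984N.En α (H984N.EnLimit_r n) f := by
    intro n
    unfold LimE_Phi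
    rw [cutoff_one hr hf, one_mul]
  simp only [h1] at hp
  exact (lt_of_le_of_lt (LimE_EnI_le hα f) hp).ne

theorem limit_energyC {α : ℝ} (hα : 0 < α)
    {ν : ℕ → ProbabilityMeasure C(unitInterval, ℂ)} {μ : ProbabilityMeasure C(unitInterval, ℂ)}
    (hμ : Tendsto ν atTop (𝓝 μ))
    (hE : ∀ r : ℝ, 0 < r → ∃ C : ℝ, ∀ ρ : ℝ, 0 < ρ → ∀ᶠ i in atTop,
      ∫ f, cutoff r f * H984N.En α ρ f ∂(ν i : Measure C(unitInterval, ℂ)) ≤ C) :
    ∀ᵐ f ∂(μ : Measure C(unitInterval, ℂ)), H984N.EnI α f ≠ ⊤ := by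
  have key : ∀ n : ℕ, ∀ᵐ f ∂(μ : Measure C(unitInterval, ℂ)),
      ‖f‖ ≤ (n : ℝ) + 1 → H984N.EnI α f ≠ ⊤ := by
    intro n
    obtain ⟨C, hC⟩ := hE ((n : ℝ) + 1) (by positivity)
    exact LimE_ball (by positivity) hα hμ hC
  filter_upwards [ae_all_iff.2 key] with f hf
  obtain ⟨n, hn⟩ := exists_nat_ge ‖f‖
  exact hf n (by linarith)

end H984H
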