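import Pool.Agent.H984R4.HN.HPDefs
import Pool.Agent.H984R4.NP.Good

/-!
S10: general limit theory for laws of curves; compare `Pool.Agent.H984R4.NP.Exist` and
`Pool.Agent.H984R4.NP.Limit`.
-/

namespace H984H

open H974 Finset H342P H984P MeasureTheory Filter Topology

theorem goodC_compact {β Λ : ℝ} (hβ : 0 < β) (hΛ : 1 ≤ Λ) : IsCompact (GoodC β Λ) := by
  have h1 : GoodC β Λ = Prod.fst '' (H984N.Good β Λ) := by
    ext f
    constructor
    · intro hf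
      exact ⟨(f, 1), ⟨hf.1, hf.2, inv_le_one_of_one_le₀ hΛ, hΛ⟩, rfl⟩
    · rintro ⟨p, hp, rfl⟩
      exact ⟨hp.1, hp.2.1⟩
  rw [h1]
  exact (H984N.good_compact hβ).image continuous_fst

theorem exists_limitC {β : ℝ} (hβ : 0 < β) {ν : ℕ → ProbabilityMeasure C(unitInterval, ℂ)}
    (hT : ∀ ε : ℝ, 0 < ε → ∃ Λ : ℝ, 1 ≤ Λ ∧ ∀ i,
      (ν i : Measure C(unitInterval, ℂ)) (GoodC β Λ)ᶜ ≤ ENNReal.ofReal ε) :
    ∃ φ : ℕ → ℕ, StrictMono φ ∧ ∃ μ : ProbabilityMeasure C(unitInterval, ℂ),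
      Tendsto (fun i => ν (φ i)) atTop (𝓝 μ) := by
  set S : Set (ProbabilityMeasure C(unitInterval, ℂ)) := Set.range ν with hS
  have htight : IsTightMeasureSet
      {((ν' : ProbabilityMeasure C(unitInterval, ℂ)) : Measure C(unitInterval, ℂ)) | ν' ∈ S} := by
    rw [isTightMeasureSet_iff_exists_isCompact_measure_compl_le]
    intro ε hε
    by_cases htop : ε = ⊤
    · exact ⟨∅, isCompact_empty, fun ν _ => by rw [htop]; exact le_top⟩
    have hε' : 0 < ε.toReal := ENNReal.toReal_pos hε.ne' htop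
    obtain ⟨Λ, hΛ, hprob⟩ := hT ε.toReal hε'
    refine ⟨GoodC β Λ, goodC_compact hβ hΛ, ?_⟩
    rintro ν' ⟨ν'', ⟨i, rfl⟩, rfl⟩
    refine (hprob i).trans ?_
    rw [ENNReal.ofReal_toReal htop]
  have hcomp := isCompact_closure_of_isTightMeasureSet htight
  obtain ⟨μ, _, φ, hφ, hμ⟩ := hcomp.tendsto_subseq
    (x := ν) (fun i => subset_closure ⟨i, rfl⟩)
  exact ⟨φ, hφ, μ, hμ⟩

variable {ν : ℕ → ProbabilityMeasure C(unitInterval, ℂ)}
  {μ : ProbabilityMeasure C(unitInterval, ℂ)} (hμ : Tendsto ν atTop (𝓝 μ))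

include hμ

theorem limit_closedC {G : Set C(unitInterval, ℂ)} (hG : IsClosed G) {ε : ℝ}
    (h : ∀ᶠ i in atTop, (ν i : Measure C(unitInterval, ℂ)) Gᶜ ≤ ENNReal.ofReal ε) :
    (μ : Measure C(unitInterval, ℂ)) Gᶜ ≤ ENNReal.ofReal ε := by
  have h1 := ProbabilityMeasure.le_liminf_measure_open_of_tendsto hμ hG.isOpen_compl
  refine h1.trans ?_
  calc liminf (fun i => (ν i : Measure C(unitInterval, ℂ)) Gᶜ) atTop ≤
        liminf (fun _ : ℕ => ENNReal.ofReal ε) atTop := liminf_le_liminf h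
    _ = ENNReal.ofReal ε := liminf_const _

theorem limit_goodC {β : ℝ} (hβ : 0 < β)
    (hT : ∀ ε : ℝ, 0 < ε → ∃ Λ : ℝ, 1 ≤ Λ ∧ ∀ i,
      (ν i : Measure C(unitInterval, ℂ)) (GoodC β Λ)ᶜ ≤ ENNReal.ofReal ε) :
    ∀ᵐ f ∂(μ : Measure C(unitInterval, ℂ)), ∃ Λ : ℝ, 1 ≤ Λ ∧ f ∈ GoodC β Λ := by
  rw [ae_iff]
  rw [← nonpos_iff_eq_zero]
  apply ENNReal.le_of_forall_pos_le_add
  intro ε hε _
  obtain ⟨Λ, hΛ, h⟩ := hT ε (by exact_mod_cast hε)
  have h1 := limit_closedC hμ (goodC_compact hβ hΛ).isClosed (ε := ε)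
    (Eventually.of_forall h)
  rw [zero_add]
  refine (measure_mono ?_).trans (h1.trans ?_)
  · intro p hp hp2
    exact hp ⟨Λ, hΛ, hp2⟩
  · rw [ENNReal.ofReal_coe_nnreal]

end H984H
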