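import Pool.Agent.H984R4.HN.Perc
import Pool.Agent.H984R4.HN.Step

/-!
S7: moments and almost sure growth from the tails (proofs by helper43).
-/

namespace H984H

open H974 Finset H342P H984P MeasureTheory Filter Topology

theorem Mom_norm_zero (ω : Conf) : 0 < ‖gam ω 0‖ ∧ ‖gam ω 0‖ ≤ 1 := by
  have h : gam ω 0 = ⟨1/4, 1/4⟩ := by
    unfold gam path place
    simp
  rw [h]
  constructor
  · rw [norm_pos_iff]
    intro h0
    have := congrArg Complex.re h0
    norm_num at this
  · rw [Complex.norm_def, Complex.normSq_mk]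
    rw [Real.sqrt_le_one]
    norm_num

theorem reach_pos (n : ℕ) (ω : Conf) : 0 < reach n ω :=
  lt_of_lt_of_le (Mom_norm_zero ω).1
    (Finset.le_sup' (fun k => ‖gam ω k‖) (Finset.mem_range.2 (Nat.succ_pos n)))

theorem reach_mono (ω : Conf) {m n : ℕ} (h : m ≤ n) : reach m ω ≤ reach n ω :=
  Finset.sup'_mono _ (Finset.range_mono (by omega)) _

theorem reach_le (n : ℕ) (ω : Conf) : reach n ω ≤ n + 1 := by
  refine Finset.sup'_le _ _ fun k hk => ?_
  have hk' : k ≤ n := by have := Finset.mem_range.1 hk; omega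
  have key : ∀ k : ℕ, ‖gam ω k‖ ≤ k / 2 + 1 := by
    intro k
    induction k with
    | zero => simpa using (Mom_norm_zero ω).2
    | succ k ih =>
      have h1 := gam_step ω k
      have h2 : ‖gam ω (k + 1)‖ ≤ ‖gam ω k‖ + dist (gam ω k) (gam ω (k + 1)) := by
        rw [dist_comm, dist_eq_norm]
        have := norm_add_le (gam ω k) (gam ω (k + 1) - gam ω k)
        simpa using this
      push_cast
      linarith
  have h3 : (k : ℝ) ≤ n := by exact_mod_cast hk'
  have h4 := key k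
  have h5 : (0 : ℝ) ≤ n := Nat.cast_nonneg n
  linarith

/-- polynomial decay of stretched exponentials -/
theorem Mom_decay {a : ℝ} (ha : 0 < a) (q : ℝ) :
    ∃ B : ℝ, 0 < B ∧ ∀ x : ℝ, 1 ≤ x → Real.exp (-(a * x ^ (1/2 : ℝ))) ≤ B * x ^ (-q) := by
  obtain ⟨m, hm⟩ := exists_nat_ge (2 * q)
  refine ⟨m.factorial / a ^ m, by positivity, fun x hx => ?_⟩
  have hx0 : 0 < x := by linarith
  have h1 := Real.pow_div_factorial_le_exp (a * x ^ (1/2 : ℝ)) (by positivity) m
  rw [Real.exp_neg]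
  have hpos : 0 < (a * x ^ (1/2 : ℝ)) ^ m / m.factorial := by positivity
  refine (inv_anti₀ hpos h1).trans ?_
  rw [inv_div, mul_pow, ← Real.rpow_natCast (x ^ (1/2 : ℝ)), ← Real.rpow_mul hx0.le,
    Real.rpow_neg hx0.le, ← div_div, div_eq_mul_inv (_ / a ^ m)]
  gcongr
  linarith

theorem Mom_meas_le (n : ℕ) (c : ℝ) : MeasurableSet {ω : Conf | c ≤ reach n ω} :=
  measurableSet_le measurable_const (reach_meas n)

theorem Mom_int (n : ℕ) {p : ℝ} (hp : 0 < p) : Integrable (fun ω => (reach n ω) ^ p) perc := by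
  refine Integrable.of_bound ((reach_meas n).pow_const p).aestronglyMeasurable
    (((n : ℝ) + 1) ^ p) (Eventually.of_forall fun ω => ?_)
  rw [Real.norm_eq_abs, abs_of_nonneg (Real.rpow_nonneg (reach_pos n ω).le p)]
  exact Real.rpow_le_rpow (reach_pos n ω).le (reach_le n ω) hp.le

/-- All positive moments. -/
theorem moments_of {a A A' : ℝ} (ha : 0 < a) (hA : 0 < A) (hA' : 0 < A')
    (hup : ∀ (n : ℕ) (x : ℝ), 1 ≤ n → 0 < x →
      perc.real {ω | x * (n : ℝ) ^ (4/7 : ℝ) ≤ reach n ω} ≤ A * Real.exp (-(a * x ^ (1/2 : ℝ))))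
    (hlow : ∀ (n : ℕ) (x : ℝ), 1 ≤ n → 0 < x →
      perc.real {ω | reach n ω ≤ x * (n : ℝ) ^ (4/7 : ℝ)} ≤ A' * x ^ (7/4 : ℝ))
    {p : ℝ} (hp : 0 < p) :
    ∃ c C : ℝ, 0 < c ∧ 0 < C ∧ ∀ n : ℕ, 1 ≤ n →
      c * (n : ℝ) ^ (4/7 * p) ≤ ∫ ω, (reach n ω) ^ p ∂perc ∧
      ∫ ω, (reach n ω) ^ p ∂perc ≤ C * (n : ℝ) ^ (4/7 * p) := by
  -- lower constants
  set x₀ : ℝ := (1 / (2 * A')) ^ (4/7 : ℝ) with hx₀
  have hx₀p : 0 < x₀ := by positivity
  have hx₀e : A' * x₀ ^ (7/4 : ℝ) = 1 / 2 := by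
    rw [hx₀, ← Real.rpow_mul (by positivity)]
    norm_num
    field_simp
  obtain ⟨B, hB, hdec⟩ := Mom_decay ha (p + 2)
  have hsum : Summable (fun k : ℕ => 1 / (k : ℝ) ^ 2) :=
    Real.summable_one_div_nat_pow.2 (by norm_num)
  set T : ℝ := ∑' k : ℕ, 1 / (k : ℝ) ^ 2 with hT
  have hT0 : 0 ≤ T := tsum_nonneg fun k => by positivity
  refine ⟨x₀ ^ p / 2, 1 + A * B * 2 ^ p * T, by positivity, by positivity, fun n hn => ?_⟩
  have hn0 : (0 : ℝ) < n := by exact_mod_cast hn
  set s : ℝ := (n : ℝ) ^ (4/7 : ℝ) with hs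
  have hs0 : 0 < s := by positivity
  have hsp : (n : ℝ) ^ (4/7 * p) = s ^ p := by rw [hs, ← Real.rpow_mul hn0.le]
  rw [hsp]
  constructor
  · -- lower bound
    have h1 := mul_meas_ge_le_integral_of_nonneg (μ := perc) (f := fun ω => (reach n ω) ^ p)
      (Eventually.of_forall fun ω => Real.rpow_nonneg (reach_pos n ω).le p) (Mom_int n hp)
      ((x₀ * s) ^ p)
    have h2 : (1 : ℝ) / 2 ≤ perc.real {ω | (x₀ * s) ^ p ≤ (reach n ω) ^ p} := by
      have h3 : {ω : Conf | reach n ω ≤ x₀ * s}ᶜ ⊆ {ω | (x₀ * s) ^ p ≤ (reach n ω) ^ p} := by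
        intro ω hω
        simp only [Set.mem_compl_iff, Set.mem_ofPred_eq, not_le] at hω ⊢
        exact Real.rpow_le_rpow (by positivity) hω.le hp.le
      have h4 : perc.real {ω : Conf | reach n ω ≤ x₀ * s}ᶜ =
          1 - perc.real {ω : Conf | reach n ω ≤ x₀ * s} :=
        probReal_compl_eq_one_sub (measurableSet_le (reach_meas n) measurable_const)
      have h5 := hlow n x₀ hn hx₀p
      rw [hx₀e] at h5
      have h6 := measureReal_mono (μ := perc) h3
      rw [h4] at h6
      linarith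
    calc x₀ ^ p / 2 * s ^ p = (x₀ * s) ^ p * (1 / 2) := by
          rw [Real.mul_rpow hx₀p.le hs0.le]; ring
      _ ≤ (x₀ * s) ^ p * perc.real {ω | (x₀ * s) ^ p ≤ (reach n ω) ^ p} := by gcongr
      _ ≤ _ := h1
  · -- upper bound
    obtain ⟨N, hN⟩ := exists_nat_gt (((n : ℝ) + 1) / s)
    have hpt : ∀ ω, (reach n ω) ^ p ≤ s ^ p * ∑ k ∈ Finset.range N,
        ({ω : Conf | (k : ℝ) * s ≤ reach n ω}.indicator (fun _ => ((k : ℝ) + 1) ^ p) ω) := by
      intro ω
      set y : ℝ := reach n ω / s with hy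
      have hy0 : 0 ≤ y := by have := reach_pos n ω; positivity
      have hyN : y < N := by
        refine lt_of_le_of_lt ?_ hN
        rw [hy]
        gcongr
        exact reach_le n ω
      have hkN : ⌊y⌋₊ ∈ Finset.range N := by
        rw [Finset.mem_range, Nat.floor_lt hy0]
        exact hyN
      have hre : reach n ω = s * y := by rw [hy]; field_simp
      have h1 : (reach n ω) ^ p = s ^ p * y ^ p := by
        rw [hre, Real.mul_rpow hs0.le hy0]
      rw [h1]
      gcongr
      have h2 : y ^ p ≤ ((⌊y⌋₊ : ℝ) + 1) ^ p :=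
        Real.rpow_le_rpow hy0 (Nat.lt_floor_add_one y).le hp.le
      have h3 : ({ω : Conf | (⌊y⌋₊ : ℝ) * s ≤ reach n ω}.indicator
          (fun _ => ((⌊y⌋₊ : ℝ) + 1) ^ p) ω) = ((⌊y⌋₊ : ℝ) + 1) ^ p := by
        refine Set.indicator_of_mem ?_ _
        simp only [Set.mem_ofPred_eq]
        rw [hre, mul_comm]
        exact mul_le_mul_of_nonneg_left (Nat.floor_le hy0) hs0.le
      rw [← h3] at h2
      refine h2.trans ?_
      refine Finset.single_le_sum (f := fun k : ℕ => ({ω : Conf | (k : ℝ) * s ≤ reach n ω}.indicator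
          (fun _ => ((k : ℝ) + 1) ^ p) ω)) (fun k _ => ?_) hkN
      exact Set.indicator_nonneg (fun _ _ => by positivity) _
    have hint : ∀ k : ℕ, Integrable (fun ω => ({ω : Conf | (k : ℝ) * s ≤ reach n ω}.indicator
        (fun _ => ((k : ℝ) + 1) ^ p) ω)) perc := fun k =>
      (integrable_const _).indicator (Mom_meas_le n _)
    calc ∫ ω, (reach n ω) ^ p ∂perc
        ≤ ∫ ω, s ^ p * ∑ k ∈ Finset.range N,
          ({ω : Conf | (k : ℝ) * s ≤ reach n ω}.indicator (fun _ => ((k : ℝ) + 1) ^ p) ω) ∂perc :=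
          integral_mono (Mom_int n hp)
            ((integrable_finsetSum _ fun k _ => hint k).const_mul _) hpt
      _ = s ^ p * ∑ k ∈ Finset.range N,
          perc.real {ω : Conf | (k : ℝ) * s ≤ reach n ω} * ((k : ℝ) + 1) ^ p := by
          rw [integral_const_mul, integral_finsetSum _ fun k _ => hint k]
          congr 1
          refine Finset.sum_congr rfl fun k _ => ?_
          rw [integral_indicator_const _ (Mom_meas_le n _), smul_eq_mul]
      _ ≤ s ^ p * (1 + A * B * 2 ^ p * T) := by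
          gcongr
          have hterm : ∀ k ∈ Finset.range N,
              perc.real {ω : Conf | (k : ℝ) * s ≤ reach n ω} * ((k : ℝ) + 1) ^ p ≤
              (if k = 0 then 1 else 0) + A * B * 2 ^ p * (1 / (k : ℝ) ^ 2) := by
            intro k _
            rcases Nat.eq_zero_or_pos k with rfl | hk
            · simp only [Nat.cast_zero, zero_mul, zero_add, Real.one_rpow, mul_one, if_true]
              have h1 : perc.real {ω : Conf | 0 ≤ reach n ω} ≤ 1 := measureReal_le_one
              have h2 : 0 ≤ A * B * 2 ^ p * (1 / (0 : ℝ) ^ 2) := by positivity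
              linarith
            · have hk1 : (1 : ℝ) ≤ k := by exact_mod_cast hk
              have hk0 : (0 : ℝ) < k := by linarith
              rw [if_neg (by omega), zero_add]
              have h1 := hup n k hn hk0
              have h2 := hdec k hk1
              have h3 : ((k : ℝ) + 1) ^ p ≤ 2 ^ p * (k : ℝ) ^ p := by
                rw [← Real.mul_rpow (by norm_num) hk0.le]
                exact Real.rpow_le_rpow (by positivity) (by linarith) hp.le
              have h4 : (k : ℝ) ^ (-(p + 2)) * (k : ℝ) ^ p = 1 / (k : ℝ) ^ 2 := by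
                rw [← Real.rpow_add hk0, show -(p + 2) + p = -((2 : ℕ) : ℝ) by push_cast; ring,
                  Real.rpow_neg hk0.le, Real.rpow_natCast, one_div]
              calc perc.real {ω : Conf | (k : ℝ) * s ≤ reach n ω} * ((k : ℝ) + 1) ^ p
                  ≤ (A * (B * (k : ℝ) ^ (-(p + 2)))) * (2 ^ p * (k : ℝ) ^ p) := by
                    refine mul_le_mul (h1.trans ?_) h3 (by positivity) (by positivity)
                    gcongr
                _ = A * B * 2 ^ p * ((k : ℝ) ^ (-(p + 2)) * (k : ℝ) ^ p) := by ring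
                _ = _ := by rw [h4]
          refine (Finset.sum_le_sum hterm).trans ?_
          rw [Finset.sum_add_distrib, ← Finset.mul_sum]
          have h5 : ∑ k ∈ Finset.range N, (if k = 0 then (1 : ℝ) else 0) ≤ 1 := by
            rw [Finset.sum_ite_eq' (Finset.range N) 0 (fun _ => (1 : ℝ))]
            split_ifs <;> norm_num
          have h6 : ∑ k ∈ Finset.range N, 1 / (k : ℝ) ^ 2 ≤ T :=
            hsum.sum_le_tsum _ fun k _ => by positivity
          have h7 : 0 ≤ A * B * 2 ^ p := by positivity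
          have h8 := mul_le_mul_of_nonneg_left h6 h7
          linarith
      _ = _ := by ring

/-- Borel-Cantelli with real measures -/
theorem Mom_bc (E : ℕ → Set Conf) (b : ℕ → ℝ) (hb : Summable b) (h : ∀ j, perc.real (E j) ≤ b j) :
    ∀ᵐ ω ∂perc, ∀ᶠ j in atTop, ω ∉ E j := by
  refine ae_eventually_notMem ?_
  refine ne_top_of_le_ne_top hb.tsum_ofReal_ne_top (ENNReal.tsum_le_tsum fun j => ?_)
  rw [← ofReal_measureReal]
  exact ENNReal.ofReal_le_ofReal (h j)

theorem Mom_lim : Tendsto (fun j : ℕ => (4 * Real.log ((j : ℝ) + 2) + 1) / (j * Real.log 2))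
    atTop (𝓝 0) := by
  have hl2 : 0 < Real.log 2 := Real.log_pos (by norm_num)
  have h1 := Real.tendsto_pow_log_div_mul_add_atTop 1 (-2) 1 one_ne_zero
  have h2 : Tendsto (fun j : ℕ => (j : ℝ) + 2) atTop atTop :=
    tendsto_atTop_add_const_right _ _ tendsto_natCast_atTop_atTop
  have h3 := h1.comp h2
  have h4 : Tendsto (fun j : ℕ => 1 / ((j : ℝ) * Real.log 2)) atTop (𝓝 0) := by
    have : Tendsto (fun j : ℕ => (j : ℝ) * Real.log 2) atTop atTop :=
      tendsto_natCast_atTop_atTop.atTop_mul_const hl2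
    refine this.inv_tendsto_atTop.congr fun j => ?_
    simp [one_div]
  have h5 := ((h3.const_mul (4 / Real.log 2))).add h4
  simp only [mul_zero, add_zero] at h5
  refine h5.congr' ?_
  filter_upwards [eventually_gt_atTop 0] with j hj
  have hj0 : (0 : ℝ) < j := by exact_mod_cast hj
  simp only [Function.comp_apply, pow_one, one_mul]
  rw [show (j : ℝ) + 2 + -2 = j by ring]
  field_simp

theorem Mom_log_tendsto : Tendsto (fun n : ℕ => Nat.log 2 n) atTop atTop := by
  refine tendsto_atTop.2 fun b => ?_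
  filter_upwards [eventually_ge_atTop (2 ^ b)] with n hn
  exact Nat.le_log_of_pow_le (by norm_num) hn

/-- Almost sure exponent (Borel-Cantelli along powers of two). -/
theorem as_exponent_of {a A A' : ℝ} (ha : 0 < a) (hA : 0 < A) (hA' : 0 < A')
    (hup : ∀ (n : ℕ) (x : ℝ), 1 ≤ n → 0 < x →
      perc.real {ω | x * (n : ℝ) ^ (4/7 : ℝ) ≤ reach n ω} ≤ A * Real.exp (-(a * x ^ (1/2 : ℝ))))
    (hlow : ∀ (n : ℕ) (x : ℝ), 1 ≤ n → 0 < x →
      perc.real {ω | reach n ω ≤ x * (n : ℝ) ^ (4/7 : ℝ)} ≤ A' * x ^ (7/4 : ℝ)) :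
    ∀ᵐ ω ∂perc, Tendsto (fun n : ℕ => Real.log (reach n ω) / Real.log n) atTop (𝓝 (4/7)) := by
  have hl2 : 0 < Real.log 2 := Real.log_pos (by norm_num)
  have h1 := Mom_bc
    (fun j => {ω | ((j : ℝ) + 1) ^ 4 * ((2 ^ j : ℕ) : ℝ) ^ (4/7 : ℝ) ≤ reach (2 ^ j) ω})
    (fun j => A * Real.exp ((j : ℝ) * (-a))) ((Real.summable_exp_nat_mul_iff.2 (by linarith)).mul_left A)
    (fun j => by
      refine (hup (2 ^ j) _ Nat.one_le_two_pow (by positivity)).trans ?_
      have hj : (0 : ℝ) ≤ j := Nat.cast_nonneg j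
      have h2 : (((j : ℝ) + 1) ^ 4) ^ (1/2 : ℝ) = ((j : ℝ) + 1) ^ 2 := by
        rw [← Real.sqrt_eq_rpow, show ((j : ℝ) + 1) ^ 4 = (((j : ℝ) + 1) ^ 2) ^ 2 by ring,
          Real.sqrt_sq (by positivity)]
      rw [h2]
      gcongr
      have h3 : (j : ℝ) ≤ ((j : ℝ) + 1) ^ 2 := by nlinarith
      nlinarith [mul_le_mul_of_nonneg_left h3 ha.le])
  have h2 := Mom_bc
    (fun j => {ω | reach (2 ^ j) ω ≤ ((j : ℝ) + 1) ^ (-2 : ℝ) * ((2 ^ j : ℕ) : ℝ) ^ (4/7 : ℝ)})
    (fun j => A' * (((j + 1 : ℕ) : ℝ)) ^ (-(7/2) : ℝ))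
    (((summable_nat_add_iff 1).2 (Real.summable_nat_rpow.2 (by norm_num))).mul_left A')
    (fun j => by
      refine (hlow (2 ^ j) _ Nat.one_le_two_pow (by positivity)).trans (le_of_eq ?_)
      rw [← Real.rpow_mul (by positivity)]
      norm_num)
  filter_upwards [h1, h2] with ω hω1 hω2
  have h3 : ∀ᶠ j : ℕ in atTop, reach (2 ^ (j + 1)) ω <
      (((j + 1 : ℕ) : ℝ) + 1) ^ 4 * ((2 ^ (j + 1) : ℕ) : ℝ) ^ (4/7 : ℝ) := by
    have := (tendsto_add_atTop_nat 1).eventually hω1
    filter_upwards [this] with j hj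
    simpa using hj
  have h4 : ∀ᶠ j : ℕ in atTop, ((j : ℝ) + 1) ^ (-2 : ℝ) * ((2 ^ j : ℕ) : ℝ) ^ (4/7 : ℝ) <
      reach (2 ^ j) ω := by
    filter_upwards [hω2] with j hj
    simpa using hj
  have h5 : ∀ᶠ n : ℕ in atTop, |Real.log (reach n ω) / Real.log n - 4/7| ≤
      (4 * Real.log (((Nat.log 2 n : ℕ) : ℝ) + 2) + 1) / ((Nat.log 2 n : ℕ) * Real.log 2) := by
    filter_upwards [Mom_log_tendsto.eventually h3, Mom_log_tendsto.eventually h4,
      eventually_ge_atTop 2] with n hn3 hn4 hn2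
    set j := Nat.log 2 n with hj
    have hj1 : 1 ≤ j := Nat.le_log_of_pow_le (by norm_num) (by simpa using hn2)
    have hjr : (1 : ℝ) ≤ j := by exact_mod_cast hj1
    have hlow2 : 2 ^ j ≤ n := Nat.pow_log_le_self 2 (by omega)
    have hup2 : n ≤ 2 ^ (j + 1) := (Nat.lt_pow_succ_log_self (by norm_num) n).le
    have hn0 : (0 : ℝ) < n := by
      have : 0 < n := by omega
      exact_mod_cast this
    have hM := reach_pos n ω
    -- logs
    have hlogn1 : (j : ℝ) * Real.log 2 ≤ Real.log n := by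
      rw [← Real.log_pow]
      exact Real.log_le_log (by positivity) (by exact_mod_cast hlow2)
    have hlogn2 : Real.log n ≤ ((j : ℝ) + 1) * Real.log 2 := by
      have h6 : ((j : ℝ) + 1) * Real.log 2 = Real.log ((2 : ℝ) ^ (j + 1)) := by
        rw [Real.log_pow]; push_cast; ring
      rw [h6]
      exact Real.log_le_log hn0 (by exact_mod_cast hup2)
    have hUp : Real.log (reach n ω) ≤ 4 * Real.log ((j : ℝ) + 2) + 4/7 * (((j : ℝ) + 1) * Real.log 2) := by
      have h6 : reach n ω ≤ (((j + 1 : ℕ) : ℝ) + 1) ^ 4 * ((2 ^ (j + 1) : ℕ) : ℝ) ^ (4/7 : ℝ) :=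
        (reach_mono ω hup2).trans hn3.le
      have h7 := Real.log_le_log hM h6
      rw [Real.log_mul (by positivity) (by positivity), Real.log_pow, Real.log_rpow (by positivity)]
        at h7
      push_cast at h7
      rw [Real.log_pow] at h7
      push_cast at h7
      have h8 : (j : ℝ) + 1 + 1 = j + 2 := by ring
      rw [h8] at h7
      exact h7
    have hLow : -(2 * Real.log ((j : ℝ) + 2)) + 4/7 * ((j : ℝ) * Real.log 2) ≤
        Real.log (reach n ω) := by
      have h6 : ((j : ℝ) + 1) ^ (-2 : ℝ) * ((2 ^ j : ℕ) : ℝ) ^ (4/7 : ℝ) ≤ reach n ω :=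
        hn4.le.trans (reach_mono ω hlow2)
      have h7 := Real.log_le_log (by positivity) h6
      rw [Real.log_mul (by positivity) (by positivity), Real.log_rpow (by positivity),
        Real.log_rpow (by positivity)] at h7
      push_cast at h7
      rw [Real.log_pow] at h7
      have h8 : Real.log ((j : ℝ) + 1) ≤ Real.log ((j : ℝ) + 2) :=
        Real.log_le_log (by positivity) (by linarith)
      linarith
    have hlj : 0 ≤ Real.log ((j : ℝ) + 2) := Real.log_nonneg (by linarith)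
    have hlog2 : Real.log 2 ≤ 1 := by
      have := Real.log_two_lt_d9
      linarith
    have hden : 0 < (j : ℝ) * Real.log 2 := by positivity
    have hlogpos : 0 < Real.log n := lt_of_lt_of_le hden hlogn1
    have habs : |Real.log (reach n ω) - 4/7 * Real.log n| ≤ 4 * Real.log ((j : ℝ) + 2) + 1 := by
      rw [abs_le]
      constructor
      · nlinarith
      · nlinarith
    have h9 : Real.log (reach n ω) / Real.log n - 4/7 =
        (Real.log (reach n ω) - 4/7 * Real.log n) / Real.log n := by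
      field_simp
    rw [h9, abs_div, abs_of_pos hlogpos]
    exact div_le_div₀ (by positivity) habs hden hlogn1
  rw [tendsto_iff_dist_tendsto_zero]
  refine squeeze_zero' (Eventually.of_forall fun n => dist_nonneg) ?_
    (Mom_lim.comp Mom_log_tendsto)
  filter_upwards [h5] with n hn
  rw [Real.dist_eq]
  exact hn

end H984H
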