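import Pool.Agent.H984R4.HN.SumA

/-!
B3b: sum of the two-point bounds over the rectangle.
-/

namespace H984H

open H974 Finset H342P H984P

/-- one-dimensional sum around an arbitrary centre -/
theorem sumb_one {b : ℝ} (hb0 : 0 ≤ b) (hb1 : b < 1) {n : ℝ} (hn : 1 ≤ n) (N : ℕ) (hN : (N : ℝ) ≤ n)
    (k : ℤ) (J : Finset ℤ) (hJ : ∀ l ∈ J, |k - l| ≤ N) :
    ∑ l ∈ J, ph 1 b |k - l| ≤ 2 * ((1 + 1 / (1 - b)) * n ^ (1 - b)) := by
  classical
  have key := suma_line (C := 1) zero_le_one hb0 hb1 N hn hN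
  have hnn : ∀ j : ℤ, 0 ≤ ph 1 b j := fun j => ph_nonneg zero_le_one j
  have h1 : ∀ (ε : ℤ) (J' : Finset ℤ), (ε = 1 ∨ ε = -1) → (∀ l ∈ J', 0 ≤ ε * (k - l) ∧ ε * (k - l) ≤ N) →
      ∑ l ∈ J', ph 1 b |k - l| ≤ ∑ x ∈ Finset.Icc (0:ℤ) N, ph 1 b x := by
    intro ε J' hε hJ'
    have e1 : ∑ l ∈ J', ph 1 b |k - l| = ∑ x ∈ J'.image (fun l => ε * (k - l)), ph 1 b x := by
      rw [Finset.sum_image]
      · refine Finset.sum_congr rfl fun l hl => ?_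
        congr 1
        have := (hJ' l hl).1
        rcases hε with rfl | rfl
        · rw [abs_of_nonneg (by omega)]; ring
        · rw [abs_of_nonpos (by omega)]; ring
      · intro x _ y _ hxy
        have hxy' : ε * (k - x) = ε * (k - y) := hxy
        rcases hε with rfl | rfl <;> omega
    rw [e1]
    apply Finset.sum_le_sum_of_subset_of_nonneg
    · intro x hx
      obtain ⟨l, hl, rfl⟩ := Finset.mem_image.1 hx
      rw [Finset.mem_Icc]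
      exact hJ' l hl
    · intro x _ _
      exact hnn x
  rw [← Finset.sum_filter_add_sum_filter_not J (fun l => l ≤ k)]
  have a1 := h1 1 (J.filter fun l => l ≤ k) (Or.inl rfl) (by
    intro l hl
    rw [Finset.mem_filter] at hl
    have := abs_le.1 (hJ l hl.1)
    omega)
  have a2 := h1 (-1) (J.filter fun l => ¬ l ≤ k) (Or.inr rfl) (by
    intro l hl
    rw [Finset.mem_filter] at hl
    have := abs_le.1 (hJ l hl.1)
    omega)
  linarith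

/-- sup distance and coordinates -/
theorem sumb_key {a : ℝ} (ha : 0 ≤ a) (u v : Vtx) :
    (if u = v then (0:ℝ) else ((sd u v : ℤ) : ℝ) ^ (-a)) ≤
      ph 1 (a / 2) |u.1 - v.1| * ph 1 (a / 2) |u.2 - v.2| := by
  have hnn : ∀ j : ℤ, 0 ≤ ph 1 (a / 2) j := fun j => ph_nonneg zero_le_one j
  split_ifs with h
  · exact mul_nonneg (hnn _) (hnn _)
  · have hsd : (1 : ℤ) ≤ sd u v := by
      unfold sd
      by_contra hc
      push Not at hc
      have h1 : |u.1 - v.1| < 1 := lt_of_le_of_lt (le_max_left _ _) hc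
      have h2 : |u.2 - v.2| < 1 := lt_of_le_of_lt (le_max_right _ _) hc
      apply h
      have h3 := abs_lt.1 h1
      have h4 := abs_lt.1 h2
      exact Prod.ext (by omega) (by omega)
    have hs1 : (1 : ℝ) ≤ ((sd u v : ℤ) : ℝ) := by exact_mod_cast hsd
    have hs0 : (0 : ℝ) < ((sd u v : ℤ) : ℝ) := by linarith
    have hp : ∀ j : ℤ, 0 ≤ j → j ≤ sd u v → ((sd u v : ℤ) : ℝ) ^ (-(a / 2)) ≤ ph 1 (a / 2) j := by
      intro j hj0 hj
      unfold ph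
      split_ifs with hj1
      · exact Real.rpow_le_one_of_one_le_of_nonpos hs1 (by linarith)
      · rw [one_mul]
        have hj2 : (0 : ℝ) < j := by exact_mod_cast (by omega : 0 < j)
        apply Real.rpow_le_rpow_of_nonpos hj2 _ (by linarith)
        exact_mod_cast hj
    have e : ((sd u v : ℤ) : ℝ) ^ (-a) =
        ((sd u v : ℤ) : ℝ) ^ (-(a / 2)) * ((sd u v : ℤ) : ℝ) ^ (-(a / 2)) := by
      rw [← Real.rpow_add hs0]
      congr 1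
      ring
    rw [e]
    exact mul_le_mul (hp _ (abs_nonneg _) (le_max_left _ _)) (hp _ (abs_nonneg _) (le_max_right _ _))
      (Real.rpow_nonneg hs0.le _) (hnn _)

/-- two-dimensional sum -/
theorem sumb_two {a : ℝ} (ha : 0 ≤ a) (ha1 : a < 2) {D : Dm} {n : ℝ} (hD : D.Ok)
    (hn : 1 ≤ n) (h1 : ((D.r - D.l : ℤ) : ℝ) ≤ n) (h2 : (D.h : ℝ) ≤ n) {u : Vtx}
    (hu : u ∈ Finset.Icc D.l D.r ×ˢ Finset.Icc 0 D.h) :
    ∑ v ∈ Finset.Icc D.l D.r ×ˢ Finset.Icc 0 D.h,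
      (if u = v then (0:ℝ) else ((sd u v : ℤ) : ℝ) ^ (-a)) ≤
      4 * (1 + 1 / (1 - a / 2)) ^ 2 * n ^ (2 - a) := by
  have b0 : 0 ≤ a / 2 := by linarith
  have b1 : a / 2 < 1 := by linarith
  have b2 : 0 < 1 - a / 2 := by linarith
  obtain ⟨hl, hr, hh, -, -⟩ := hD
  obtain ⟨N, hN⟩ := Int.eq_ofNat_of_zero_le (show 0 ≤ D.r - D.l by omega)
  obtain ⟨M, hM⟩ := Int.eq_ofNat_of_zero_le (show 0 ≤ D.h - 0 by omega)
  have hNn : (N : ℝ) ≤ n := by rw [hN] at h1; exact_mod_cast h1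
  have hMn : (M : ℝ) ≤ n := by
    have : (D.h : ℝ) = M := by
      have : D.h = M := by omega
      rw [this]; simp
    rw [← this]; exact h2
  rw [Finset.mem_product, Finset.mem_Icc, Finset.mem_Icc] at hu
  have s1 := sumb_one b0 b1 hn N hNn u.1 (Finset.Icc D.l D.r) (by
    intro l hl
    rw [Finset.mem_Icc] at hl
    rw [abs_le]
    omega)
  have s2 := sumb_one b0 b1 hn M hMn u.2 (Finset.Icc 0 D.h) (by
    intro l hl
    rw [Finset.mem_Icc] at hl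
    rw [abs_le]
    omega)
  have p2 : 0 ≤ ∑ l ∈ Finset.Icc 0 D.h, ph 1 (a / 2) |u.2 - l| :=
    Finset.sum_nonneg fun _ _ => ph_nonneg zero_le_one _
  have hnp : (0 : ℝ) < n := by linarith
  calc ∑ v ∈ Finset.Icc D.l D.r ×ˢ Finset.Icc 0 D.h,
        (if u = v then (0:ℝ) else ((sd u v : ℤ) : ℝ) ^ (-a))
      ≤ ∑ v ∈ Finset.Icc D.l D.r ×ˢ Finset.Icc 0 D.h,
        ph 1 (a / 2) |u.1 - v.1| * ph 1 (a / 2) |u.2 - v.2| :=
        Finset.sum_le_sum fun v _ => sumb_key ha u v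
    _ = (∑ x ∈ Finset.Icc D.l D.r, ph 1 (a / 2) |u.1 - x|) *
        ∑ y ∈ Finset.Icc 0 D.h, ph 1 (a / 2) |u.2 - y| := by
        rw [Finset.sum_product, Finset.sum_mul_sum]
    _ ≤ (2 * ((1 + 1 / (1 - a / 2)) * n ^ (1 - a / 2))) *
        (2 * ((1 + 1 / (1 - a / 2)) * n ^ (1 - a / 2))) :=
        mul_le_mul s1 s2 p2 (by positivity)
    _ = 4 * (1 + 1 / (1 - a / 2)) ^ 2 * (n ^ (1 - a / 2) * n ^ (1 - a / 2)) := by ring
    _ = 4 * (1 + 1 / (1 - a / 2)) ^ 2 * n ^ (2 - a) := by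
        rw [← Real.rpow_add hnp]
        congr 2
        ring

theorem sumb_bd0 {D : Dm} {u : Vtx} (hu : u ∈ Finset.Icc D.l D.r ×ˢ Finset.Icc 0 D.h) :
    0 ≤ D.bd u := by
  rw [Finset.mem_product, Finset.mem_Icc, Finset.mem_Icc] at hu
  unfold Dm.bd
  omega

theorem sumb_ph {b : ℝ} (hb0 : 0 ≤ b) {D : Dm} {u : Vtx}
    (hu : u ∈ Finset.Icc D.l D.r ×ˢ Finset.Icc 0 D.h) :
    ((D.bd u : ℝ) + 1) ^ (-b) ≤ ph 1 b (D.bd u) := by
  have h0 := sumb_bd0 hu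
  have h0' : (0 : ℝ) ≤ D.bd u := by exact_mod_cast h0
  unfold ph
  split_ifs with h
  · exact Real.rpow_le_one_of_one_le_of_nonpos (by linarith) (by linarith)
  · rw [one_mul]
    have h1 : (0 : ℝ) < D.bd u := by exact_mod_cast (by omega : 0 < D.bd u)
    exact Real.rpow_le_rpow_of_nonpos h1 (by linarith) (by linarith)

/-- weighted double sum -/
theorem sumb_dbl {a b : ℝ} (ha : 0 ≤ a) (ha1 : a < 2) (hb0 : 0 ≤ b) (hb1 : b < 1) {D : Dm} {n : ℝ}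
    (hD : D.Ok) (hn : 1 ≤ n) (h1 : ((D.r - D.l : ℤ) : ℝ) ≤ n) (h2 : (D.h : ℝ) ≤ n) :
    ∑ u ∈ Finset.Icc D.l D.r ×ˢ Finset.Icc 0 D.h, ∑ v ∈ Finset.Icc D.l D.r ×ˢ Finset.Icc 0 D.h,
      ((D.bd u : ℝ) + 1) ^ (-b) * (if u = v then (0:ℝ) else ((sd u v : ℤ) : ℝ) ^ (-a)) ≤
      (8 * (1 + 1 / (1 - b))) * (4 * (1 + 1 / (1 - a / 2)) ^ 2) * n ^ (4 - a - b) := by
  have hnp : (0 : ℝ) < n := by linarith
  have b2 : 0 < 1 - a / 2 := by linarith
  have b3 : 0 < 1 - b := by linarith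
  have hA := suma_bd (C := 1) zero_le_one hb0 hb1 D n hD hn h1 h2
  have hpos : ∀ u ∈ Finset.Icc D.l D.r ×ˢ Finset.Icc 0 D.h, (0:ℝ) ≤ ((D.bd u : ℝ) + 1) ^ (-b) := by
    intro u hu
    have h0' : (0 : ℝ) ≤ D.bd u := by exact_mod_cast sumb_bd0 hu
    exact Real.rpow_nonneg (by linarith) _
  calc ∑ u ∈ Finset.Icc D.l D.r ×ˢ Finset.Icc 0 D.h, ∑ v ∈ Finset.Icc D.l D.r ×ˢ Finset.Icc 0 D.h,
        ((D.bd u : ℝ) + 1) ^ (-b) * (if u = v then (0:ℝ) else ((sd u v : ℤ) : ℝ) ^ (-a))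
      = ∑ u ∈ Finset.Icc D.l D.r ×ˢ Finset.Icc 0 D.h, ((D.bd u : ℝ) + 1) ^ (-b) *
        ∑ v ∈ Finset.Icc D.l D.r ×ˢ Finset.Icc 0 D.h,
          (if u = v then (0:ℝ) else ((sd u v : ℤ) : ℝ) ^ (-a)) := by
        refine Finset.sum_congr rfl fun u _ => ?_
        rw [Finset.mul_sum]
    _ ≤ ∑ u ∈ Finset.Icc D.l D.r ×ˢ Finset.Icc 0 D.h, ph 1 b (D.bd u) *
        (4 * (1 + 1 / (1 - a / 2)) ^ 2 * n ^ (2 - a)) := by
        refine Finset.sum_le_sum fun u hu => ?_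
        apply mul_le_mul (sumb_ph hb0 hu) (sumb_two ha ha1 hD hn h1 h2 hu)
        · apply Finset.sum_nonneg
          intro v _
          split_ifs
          · exact le_rfl
          · apply Real.rpow_nonneg
            have : (0:ℤ) ≤ sd u v := le_trans (abs_nonneg _) (le_max_left _ _)
            exact_mod_cast this
        · exact ph_nonneg zero_le_one _
    _ = (∑ u ∈ Finset.Icc D.l D.r ×ˢ Finset.Icc 0 D.h, ph 1 b (D.bd u)) *
        (4 * (1 + 1 / (1 - a / 2)) ^ 2 * n ^ (2 - a)) := by rw [Finset.sum_mul]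
    _ ≤ (8 * (1 + 1 / (1 - b)) * n ^ (2 - b)) *
        (4 * (1 + 1 / (1 - a / 2)) ^ 2 * n ^ (2 - a)) :=
        mul_le_mul_of_nonneg_right hA (by positivity)
    _ = (8 * (1 + 1 / (1 - b))) * (4 * (1 + 1 / (1 - a / 2)) ^ 2) * (n ^ (2 - b) * n ^ (2 - a)) := by
        ring
    _ = _ := by
        rw [← Real.rpow_add hnp]
        congr 2
        ring

theorem sumb_lin (V : Finset Vtx) (A B C : Vtx → Vtx → ℝ) :
    ∑ u ∈ V, ∑ v ∈ V, (A u v + (1/2) * (B u v + C u v)) =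
      ∑ u ∈ V, ∑ v ∈ V, A u v + (1/2) * (∑ u ∈ V, ∑ v ∈ V, B u v + ∑ u ∈ V, ∑ v ∈ V, C u v) := by
  simp only [Finset.sum_add_distrib, ← Finset.mul_sum]

theorem sumb_sd_comm (u v : Vtx) : sd u v = sd v u := by
  unfold sd
  rw [abs_sub_comm u.1, abs_sub_comm u.2]

theorem sum_two {α : ℝ} (h0 : 0 ≤ α) (h1 : α < 7/4) : ∃ C' : ℝ, 0 < C' ∧
    ∀ (D : Dm) (n : ℝ), D.Ok → 1 ≤ n → ((D.r - D.l : ℤ) : ℝ) ≤ n → (D.h : ℝ) ≤ n →
    ∑ u ∈ Finset.Icc D.l D.r ×ˢ Finset.Icc 0 D.h, ∑ v ∈ Finset.Icc D.l D.r ×ˢ Finset.Icc 0 D.h,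
      (if u = v then 0 else ((sd u v : ℤ) : ℝ) ^ (-α) * tpb D u v) ≤ C' * n ^ (7/2 - α) := by
  have q1 : 0 < 1 - (α + 1/4) / 2 := by linarith
  have q2 : 0 < 1 - α / 2 := by linarith
  refine ⟨(8 * (1 + 1 / (1 - 1/4))) * (4 * (1 + 1 / (1 - (α + 1/4) / 2)) ^ 2) +
    (8 * (1 + 1 / (1 - 1/2))) * (4 * (1 + 1 / (1 - α / 2)) ^ 2), by positivity, ?_⟩
  intro D n hD hn hw hh
  set V := Finset.Icc D.l D.r ×ˢ Finset.Icc 0 D.h with hV
  have d1 := sumb_dbl (a := α + 1/4) (b := 1/4) (by linarith) (by linarith) (by norm_num)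
    (by norm_num) hD hn hw hh
  have d2 := sumb_dbl (a := α) (b := 1/2) h0 (by linarith) (by norm_num) (by norm_num) hD hn hw hh
  have e1 : (4 : ℝ) - (α + 1/4) - 1/4 = 7/2 - α := by ring
  have e2 : (4 : ℝ) - α - 1/2 = 7/2 - α := by ring
  rw [e1] at d1
  rw [e2] at d2
  -- the symmetric version
  have d3 : ∑ u ∈ V, ∑ v ∈ V, ((D.bd v : ℝ) + 1) ^ (-(1/2) : ℝ) *
      (if u = v then (0:ℝ) else ((sd u v : ℤ) : ℝ) ^ (-α)) =
      ∑ u ∈ V, ∑ v ∈ V, ((D.bd u : ℝ) + 1) ^ (-(1/2) : ℝ) *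
      (if u = v then (0:ℝ) else ((sd u v : ℤ) : ℝ) ^ (-α)) := by
    rw [Finset.sum_comm]
    refine Finset.sum_congr rfl fun u _ => Finset.sum_congr rfl fun v _ => ?_
    rw [sumb_sd_comm u v]
    by_cases huv : u = v
    · rw [if_pos huv, if_pos huv.symm]
    · rw [if_neg huv, if_neg (fun e => huv e.symm)]
  have key : ∀ u ∈ V, ∀ v ∈ V, (if u = v then 0 else ((sd u v : ℤ) : ℝ) ^ (-α) * tpb D u v) ≤
      ((D.bd u : ℝ) + 1) ^ (-(1/4) : ℝ) *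
        (if u = v then (0:ℝ) else ((sd u v : ℤ) : ℝ) ^ (-(α + 1/4))) +
      (1/2) * (((D.bd u : ℝ) + 1) ^ (-(1/2) : ℝ) *
        (if u = v then (0:ℝ) else ((sd u v : ℤ) : ℝ) ^ (-α)) +
      ((D.bd v : ℝ) + 1) ^ (-(1/2) : ℝ) *
        (if u = v then (0:ℝ) else ((sd u v : ℤ) : ℝ) ^ (-α))) := by
    intro u hu v hv
    by_cases huv : u = v
    · simp [huv]
    · rw [if_neg huv, if_neg huv, if_neg huv]
      have hsd : (1 : ℤ) ≤ sd u v := by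
        unfold sd
        by_contra hc
        push Not at hc
        have g1 : |u.1 - v.1| < 1 := lt_of_le_of_lt (le_max_left _ _) hc
        have g2 : |u.2 - v.2| < 1 := lt_of_le_of_lt (le_max_right _ _) hc
        apply huv
        have g3 := abs_lt.1 g1
        have g4 := abs_lt.1 g2
        exact Prod.ext (by omega) (by omega)
      have hs0 : (0 : ℝ) < ((sd u v : ℤ) : ℝ) := by exact_mod_cast (by omega : 0 < sd u v)
      have hbu : (0 : ℝ) < (D.bd u : ℝ) + 1 := by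
        have : (0 : ℝ) ≤ D.bd u := by exact_mod_cast sumb_bd0 hu
        linarith
      have hbv : (0 : ℝ) < (D.bd v : ℝ) + 1 := by
        have : (0 : ℝ) ≤ D.bd v := by exact_mod_cast sumb_bd0 hv
        linarith
      have r1 : ((sd u v : ℤ) : ℝ) ^ (-(α + 1/4)) =
          ((sd u v : ℤ) : ℝ) ^ (-α) * ((sd u v : ℤ) : ℝ) ^ (-(1/4) : ℝ) := by
        rw [← Real.rpow_add hs0]; congr 1; ring
      have r2 : ((D.bd u : ℝ) + 1) ^ (-(1/2) : ℝ) =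
          ((D.bd u : ℝ) + 1) ^ (-(1/4) : ℝ) * ((D.bd u : ℝ) + 1) ^ (-(1/4) : ℝ) := by
        rw [← Real.rpow_add hbu]; congr 1; norm_num
      have r3 : ((D.bd v : ℝ) + 1) ^ (-(1/2) : ℝ) =
          ((D.bd v : ℝ) + 1) ^ (-(1/4) : ℝ) * ((D.bd v : ℝ) + 1) ^ (-(1/4) : ℝ) := by
        rw [← Real.rpow_add hbv]; congr 1; norm_num
      rw [r1, r2, r3]
      unfold tpb
      have hs1 := Real.rpow_nonneg hs0.le (-α)
      set S := ((sd u v : ℤ) : ℝ) ^ (-α)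
      set T := ((sd u v : ℤ) : ℝ) ^ (-(1/4) : ℝ)
      set x := ((D.bd u : ℝ) + 1) ^ (-(1/4) : ℝ)
      set y := ((D.bd v : ℝ) + 1) ^ (-(1/4) : ℝ)
      have h5 : 0 ≤ S * (x - y) ^ 2 := mul_nonneg hs1 (sq_nonneg _)
      nlinarith
  have hsum : ∑ u ∈ V, ∑ v ∈ V, (if u = v then 0 else ((sd u v : ℤ) : ℝ) ^ (-α) * tpb D u v) ≤
      ∑ u ∈ V, ∑ v ∈ V, (((D.bd u : ℝ) + 1) ^ (-(1/4) : ℝ) *
        (if u = v then (0:ℝ) else ((sd u v : ℤ) : ℝ) ^ (-(α + 1/4))) +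
      (1/2) * (((D.bd u : ℝ) + 1) ^ (-(1/2) : ℝ) *
        (if u = v then (0:ℝ) else ((sd u v : ℤ) : ℝ) ^ (-α)) +
      ((D.bd v : ℝ) + 1) ^ (-(1/2) : ℝ) *
        (if u = v then (0:ℝ) else ((sd u v : ℤ) : ℝ) ^ (-α)))) :=
    Finset.sum_le_sum fun u hu => Finset.sum_le_sum fun v hv => key u hu v hv
  refine hsum.trans ?_
  rw [sumb_lin V (fun u v => ((D.bd u : ℝ) + 1) ^ (-(1/4) : ℝ) *
        (if u = v then (0:ℝ) else ((sd u v : ℤ) : ℝ) ^ (-(α + 1/4))))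
      (fun u v => ((D.bd u : ℝ) + 1) ^ (-(1/2) : ℝ) *
        (if u = v then (0:ℝ) else ((sd u v : ℤ) : ℝ) ^ (-α)))
      (fun u v => ((D.bd v : ℝ) + 1) ^ (-(1/2) : ℝ) *
        (if u = v then (0:ℝ) else ((sd u v : ℤ) : ℝ) ^ (-α))), d3, add_mul]
  linarith

end H984H
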