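import Pool.Agent.H984R4.HN.One

/-!
B2: two-point bound.
-/

namespace H984H

open H974 Finset H342P H984P

theorem two_ok : Ok (fun _ : Edg => (1/2:ℝ)) := fun _ => ⟨by norm_num, by norm_num⟩

theorem two_sd {u v : Vtx} {r : ℤ} (h : sd u v = r) :
    (u.1 - v.1 ≤ r ∧ v.1 - u.1 ≤ r ∧ u.2 - v.2 ≤ r ∧ v.2 - u.2 ≤ r) ∧
      (u.1 - v.1 = r ∨ v.1 - u.1 = r ∨ u.2 - v.2 = r ∨ v.2 - u.2 = r) := by
  unfold sd at h
  have h1 := le_max_left |u.1 - v.1| |u.2 - v.2|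
  have h2 := le_max_right |u.1 - v.1| |u.2 - v.2|
  rw [h] at h1 h2
  rw [abs_le] at h1 h2
  refine ⟨by omega, ?_⟩
  rcases max_choice |u.1 - v.1| |u.2 - v.2| with h3 | h3
  · rw [h3] at h
    rcases abs_choice (u.1 - v.1) with h' | h' <;> rw [h'] at h <;> omega
  · rw [h3] at h
    rcases abs_choice (u.2 - v.2) with h' | h' <;> rw [h'] at h <;> omega

theorem two_bd0 {D : Dm} {σ : St} (h : σ ∈ D.states) : 0 ≤ D.bd σ.1 := by
  unfold Dm.states at h
  simp only [Finset.mem_product, Finset.mem_Icc, Finset.mem_univ, and_true] at h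
  unfold Dm.bd
  omega

theorem two_pow {x y M : ℝ} (hx : 0 ≤ x) (hy : 0 ≤ y) (hM : 1 ≤ M) (h : x ≤ M * y) :
    x ^ (1/4 : ℝ) ≤ M * y ^ (1/4 : ℝ) := by
  calc x ^ (1/4 : ℝ) ≤ (M * y) ^ (1/4 : ℝ) := Real.rpow_le_rpow hx h (by norm_num)
    _ = M ^ (1/4 : ℝ) * y ^ (1/4 : ℝ) := Real.mul_rpow (by linarith) hy
    _ ≤ M * y ^ (1/4 : ℝ) := by
        apply mul_le_mul_of_nonneg_right _ (Real.rpow_nonneg hy _)
        calc M ^ (1/4 : ℝ) ≤ M ^ (1 : ℝ) :=
              Real.rpow_le_rpow_of_exponent_le hM (by norm_num)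
          _ = M := Real.rpow_one M

theorem two_inv {x y M : ℝ} (hx : 0 < x) (hy : 0 < y) (hM : 1 ≤ M) (h : y ≤ M * x) :
    x ^ (-(1/4) : ℝ) ≤ M * y ^ (-(1/4) : ℝ) := by
  rw [Real.rpow_neg hx.le, Real.rpow_neg hy.le]
  have h1 := two_pow hy.le hx.le hM h
  have hx' : 0 < x ^ (1/4 : ℝ) := Real.rpow_pos_of_pos hx _
  have hy' : 0 < y ^ (1/4 : ℝ) := Real.rpow_pos_of_pos hy _
  rw [← one_div, ← div_eq_mul_inv, div_le_div_iff₀ hx' hy']
  linarith

theorem two_pr1 {C : ℝ} (hU : TwoUp C (1/4)) {D : Dm} {σ : St} {k : ℤ} (h0 : 0 < k)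
    (hk : k ≤ D.bd σ.1) :
    P D.edges (fun F => Two σ.1 (face σ) k (↑F)) ≤ C * (k:ℝ) ^ (-(1/4) : ℝ) := by
  have h1 : P D.edges (fun F => Two σ.1 (face σ) k (↑F)) =
      Pr (fun _ => (1/2:ℝ)) (RE (σ.1.1 - k) (σ.1.1 + k) (σ.1.2 - k) (σ.1.2 + k))
        (fun F => Two σ.1 (face σ) k (↑F)) := pr_two h0 (one_box hk)
  rw [h1]
  exact hU _ _ _ h0 (one_inc σ)

/-- Two disjoint boxes. -/
theorem two_two {C : ℝ} (hC : 0 < C) (hU : TwoUp C (1/4)) {D : Dm} (hD : D.Ok) {σ τ : St}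
    {k1 k2 : ℤ} (h1 : k1 + 1 ≤ D.bd σ.1) (h2 : k2 + 1 ≤ D.bd τ.1)
    (hd : Disjoint (RE (σ.1.1 - k1) (σ.1.1 + k1) (σ.1.2 - k1) (σ.1.2 + k1))
      (RE (τ.1.1 - k2) (τ.1.1 + k2) (τ.1.2 - k2) (τ.1.2 + k2))) :
    P D.edges (fun F => D.Vis F σ ∧ D.Vis F τ) ≤ ph C (1/4) k1 * ph C (1/4) k2 := by
  by_cases hk1 : k1 ≤ 0
  · have e1 : ph C (1/4) k1 = 1 := by unfold ph; rw [if_pos hk1]
    rw [e1, one_mul]
    by_cases hk2 : k2 ≤ 0
    · have e2 : ph C (1/4) k2 = 1 := by unfold ph; rw [if_pos hk2]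
      rw [e2]
      exact Pr_le_one two_ok _ _
    · have e2 : ph C (1/4) k2 = C * (k2:ℝ) ^ (-(1/4) : ℝ) := by unfold ph; rw [if_neg hk2]
      rw [e2]
      refine le_trans (Pr_mono two_ok fun F hF hv => ?_) (two_pr1 hU (D := D) (σ := τ) (k := k2) (by omega)
        (by omega))
      exact vis_two hD hF hv.2 (by omega) h2
  · have e1 : ph C (1/4) k1 = C * (k1:ℝ) ^ (-(1/4) : ℝ) := by unfold ph; rw [if_neg hk1]
    have hk1' : 0 < k1 := by omega
    have g1 := two_pr1 hU (D := D) (σ := σ) hk1' (by omega)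
    by_cases hk2 : k2 ≤ 0
    · have e2 : ph C (1/4) k2 = 1 := by unfold ph; rw [if_pos hk2]
      rw [e1, e2, mul_one]
      refine le_trans (Pr_mono two_ok fun F hF hv => ?_) g1
      exact vis_two hD hF hv.1 hk1' h1
    · have e2 : ph C (1/4) k2 = C * (k2:ℝ) ^ (-(1/4) : ℝ) := by unfold ph; rw [if_neg hk2]
      have hk2' : 0 < k2 := by omega
      have g2 := two_pr1 hU (D := D) (σ := τ) hk2' (by omega)
      have hm : P D.edges (fun F => D.Vis F σ ∧ D.Vis F τ) ≤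
          P D.edges (fun F => Two σ.1 (face σ) k1 (↑F) ∧ Two τ.1 (face τ) k2 (↑F)) :=
        Pr_mono two_ok fun F hF hv =>
          ⟨vis_two hD hF hv.1 hk1' h1, vis_two hD hF hv.2 hk2' h2⟩
      have hi : P D.edges (fun F => Two σ.1 (face σ) k1 (↑F) ∧ Two τ.1 (face τ) k2 (↑F)) =
          P D.edges (fun F => Two σ.1 (face σ) k1 (↑F)) *
            P D.edges (fun F => Two τ.1 (face τ) k2 (↑F)) :=
        Pr_indep (one_box (by omega)) (one_box (by omega)) hd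
          (fun F _ => two_inter hk1' F (Finset.Subset.refl _))
          (fun F _ => two_inter hk2' F (Finset.Subset.refl _))
      rw [hi] at hm
      rw [e1, e2]
      refine hm.trans (mul_le_mul g1 g2 (Pr_nonneg two_ok _ _) ?_)
      exact le_trans (Pr_nonneg two_ok _ _) g1

/-- The annulus event in the edge set `X`. -/
def two_An (X : Finset Edg) (c : Vtx) (r R : ℕ) (F : Finset Edg) : Prop :=
  H12S.Crs c.1 c.2 r R (↑(F ∩ X) : Set Edg) ∧ H12S.DCrs c.1 c.2 r R (↑(X \ F) : Set Edg)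

theorem two_loc (X : Finset Edg) (v : Vtx) (r R : ℕ) (F : Finset Edg) :
    two_An X v r R F ↔ two_An X v r R (F ∩ X) := by
  unfold two_An
  have h1 : F ∩ X ∩ X = F ∩ X := by
    ext e; simp only [Finset.mem_inter]; tauto
  have h2 : X \ (F ∩ X) = X \ F := by
    ext e; simp only [Finset.mem_inter, Finset.mem_sdiff]; tauto
  rw [h1, h2]

theorem two_loc' {X Y : Finset Edg} (hXY : X ⊆ Y) (v : Vtx) (r R : ℕ) (F : Finset Edg) :
    two_An X v r R F ↔ two_An X v r R (F ∩ Y) := by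
  unfold two_An
  have h1 : F ∩ Y ∩ X = F ∩ X := by
    ext e; simp only [Finset.mem_inter]
    constructor
    · rintro ⟨⟨h1, _⟩, h3⟩; exact ⟨h1, h3⟩
    · rintro ⟨h1, h3⟩; exact ⟨⟨h1, hXY h3⟩, h3⟩
  have h2 : X \ (F ∩ Y) = X \ F := by
    ext e; simp only [Finset.mem_inter, Finset.mem_sdiff]
    constructor
    · rintro ⟨h1, h2⟩; exact ⟨h1, fun h => h2 ⟨h, hXY h1⟩⟩
    · rintro ⟨h1, h2⟩; exact ⟨h1, fun h => h2 h.1⟩
  rw [h1, h2]

theorem two_pr {C : ℝ} (hA : AnnUp C) {X S : Finset Edg} (hXS : X ⊆ S) (v : Vtx) {r R : ℕ}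
    (hr : 1 ≤ r) (hR : r ≤ R) : P S (two_An X v r R) ≤ C * ((r:ℝ)/R)^(1/4:ℝ) := by
  have h1 : P S (two_An X v r R) = P X (two_An X v r R) :=
    Pr_local hXS (fun F _ => two_loc X v r R F)
  rw [h1]
  refine le_trans (le_of_eq ?_) (hA r R hr hR v.1 v.2 X)
  apply Pr_congr
  intro F hF
  unfold two_An
  rw [Finset.inter_eq_left.mpr hF]

/-- Two boxes and the annulus around them. -/
theorem two_three {C C2 : ℝ} (hC : 0 < C) (hU : TwoUp C (1/4)) (hC2 : 0 < C2) (hA : AnnUp C2)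
    {D : Dm} (hD : D.Ok) {σ τ : St} {r d k : ℕ} (hr : sd σ.1 τ.1 = r) (hd : D.bd σ.1 = d)
    (hk1 : 1 ≤ k) (hk : 2 * k < r) (h8 : 8 * r ≤ d) :
    P D.edges (fun F => D.Vis F σ ∧ D.Vis F τ) ≤
      (C * (k:ℝ) ^ (-(1/4) : ℝ)) * ((C * (k:ℝ) ^ (-(1/4) : ℝ)) *
        (C2 * (((r + k + 1 : ℕ) : ℝ) / (d : ℕ)) ^ (1/4 : ℝ))) := by
  have hs := two_sd hr
  have hdb : (D.l ≤ σ.1.1 - d ∧ σ.1.1 + d ≤ D.r) ∧ (0 ≤ σ.1.2 - d ∧ σ.1.2 + d ≤ D.h) := by
    unfold Dm.bd at hd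
    omega
  have hkd : (k:ℤ) + 1 ≤ D.bd σ.1 := by omega
  have hkd' : (k:ℤ) + 1 ≤ D.bd τ.1 := by
    unfold Dm.bd
    omega
  set X1 := RE (σ.1.1 - k) (σ.1.1 + k) (σ.1.2 - k) (σ.1.2 + k) with hX1
  set X2 := RE (τ.1.1 - k) (τ.1.1 + k) (τ.1.2 - k) (τ.1.2 + k) with hX2
  set Bx := RE (σ.1.1 - ((r + k : ℕ) : ℤ)) (σ.1.1 + ((r + k : ℕ) : ℤ)) (σ.1.2 - ((r + k : ℕ) : ℤ))
    (σ.1.2 + ((r + k : ℕ) : ℤ)) with hBx
  set X3 := D.edges \ Bx with hX3
  have s1 : X1 ⊆ D.edges := one_box (by omega)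
  have s2 : X2 ⊆ D.edges := one_box (by omega)
  have s3 : X3 ⊆ D.edges := Finset.sdiff_subset
  have b1 : X1 ⊆ Bx := RE_subset (by push_cast; omega) (by push_cast; omega)
    (by push_cast; omega) (by push_cast; omega)
  have b2 : X2 ⊆ Bx := RE_subset (by push_cast; omega) (by push_cast; omega)
    (by push_cast; omega) (by push_cast; omega)
  have d12 : Disjoint X1 X2 := by
    rw [Finset.disjoint_left]
    rintro ⟨x, y, t⟩ h1 h2
    rw [hX1] at h1
    rw [hX2] at h2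
    cases t
    · rw [mem_RE_false] at h1 h2
      omega
    · rw [mem_RE_true] at h1 h2
      omega
  have d13 : Disjoint X1 X3 := Finset.disjoint_of_subset_left b1 Finset.disjoint_sdiff
  have d23 : Disjoint X2 X3 := Finset.disjoint_of_subset_left b2 Finset.disjoint_sdiff
  have hk0 : (0:ℤ) < k := by omega
  have i23 : P D.edges (fun F => Two τ.1 (face τ) k (↑F) ∧ two_An X3 σ.1 (r + k + 1) d F) =
      P D.edges (fun F => Two τ.1 (face τ) k (↑F)) * P D.edges (two_An X3 σ.1 (r + k + 1) d) :=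
    Pr_indep s2 s3 d23 (fun F _ => two_inter hk0 F (Finset.Subset.refl _))
      (fun F _ => two_loc _ _ _ _ F)
  have i1 : P D.edges (fun F => Two σ.1 (face σ) k (↑F) ∧
      (Two τ.1 (face τ) k (↑F) ∧ two_An X3 σ.1 (r + k + 1) d F)) =
      P D.edges (fun F => Two σ.1 (face σ) k (↑F)) *
        P D.edges (fun F => Two τ.1 (face τ) k (↑F) ∧ two_An X3 σ.1 (r + k + 1) d F) := by
    apply Pr_indep s1 (Finset.union_subset s2 s3) (Finset.disjoint_union_right.2 ⟨d12, d13⟩)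
      (fun F _ => two_inter hk0 F (Finset.Subset.refl _))
    intro F _
    rw [two_loc' (X := X3) Finset.subset_union_right (Y := X2 ∪ X3),
      two_inter hk0 F (T := X2 ∪ X3) Finset.subset_union_left]
  have hm : P D.edges (fun F => D.Vis F σ ∧ D.Vis F τ) ≤
      P D.edges (fun F => Two σ.1 (face σ) k (↑F) ∧
        (Two τ.1 (face τ) k (↑F) ∧ two_An X3 σ.1 (r + k + 1) d F)) := by
    refine Pr_mono two_ok fun F hF hv => ⟨vis_two hD hF hv.1 hk0 hkd,
      vis_two hD hF hv.2 hk0 hkd', ?_⟩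
    have h3 := vis_ann hD hF hv.1 (c1 := σ.1.1) (c2 := σ.1.2) (k := r + k) (R := d)
      (by unfold inR; push_cast; omega) (by omega) (by omega) (by omega) (by omega) (by omega)
    unfold two_An
    have e1 : F ∩ X3 = F \ Bx := by
      rw [hX3]
      ext e
      simp only [Finset.mem_inter, Finset.mem_sdiff]
      constructor
      · rintro ⟨a1, a2, a3⟩
        exact ⟨a1, a3⟩
      · rintro ⟨a1, a3⟩
        exact ⟨a1, hF a1, a3⟩
    rw [e1]
    exact h3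
  rw [i1, i23] at hm
  refine hm.trans ?_
  have g1 := two_pr1 hU (D := D) (σ := σ) hk0 (by omega)
  have g2 := two_pr1 hU (D := D) (σ := τ) hk0 (by omega)
  have g3 := two_pr hA s3 σ.1 (r := r + k + 1) (R := d) (by omega) (by omega)
  rw [Int.cast_natCast] at g1 g2
  have hkr : (0:ℝ) < k := by exact_mod_cast hk1
  have hpos : 0 ≤ C * (k:ℝ) ^ (-(1/4) : ℝ) := by positivity
  exact mul_le_mul g1 (mul_le_mul g2 g3 (Pr_nonneg two_ok _ _) hpos)
    (mul_nonneg (Pr_nonneg two_ok _ _) (Pr_nonneg two_ok _ _)) hpos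

theorem two_point {C C2 : ℝ} (hC : 0 < C) (hU : TwoUp C (1/4)) (hC2 : 0 < C2) (hA : AnnUp C2) :
    ∃ C' : ℝ, 0 < C' ∧ ∀ D : Dm, D.Ok → ∀ σ ∈ D.states, ∀ τ ∈ D.states, σ.1 ≠ τ.1 →
      P D.edges (fun F => D.Vis F σ ∧ D.Vis F τ) ≤ C' * tpb D σ.1 τ.1 := by
  refine ⟨4 * (2 * C + 1) + 32 + 64 * C ^ 2 * C2 + (2 + 72 * C) ^ 2, by positivity, ?_⟩
  intro D hD σ hσ τ hτ hne
  have hb := two_bd0 hσ
  have hb' := two_bd0 hτ
  obtain ⟨d, hd⟩ := Int.eq_ofNat_of_zero_le hb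
  obtain ⟨d', hd'⟩ := Int.eq_ofNat_of_zero_le hb'
  have hr0 : 0 ≤ sd σ.1 τ.1 := le_max_of_le_left (abs_nonneg _)
  obtain ⟨r, hr⟩ := Int.eq_ofNat_of_zero_le hr0
  have hs := two_sd hr
  have hr1 : 1 ≤ r := by
    by_contra hcon
    apply hne
    ext <;> omega
  have hlip : d' ≤ d + r := by
    unfold Dm.bd at hd hd'
    omega
  unfold tpb
  rw [hd, hd', hr, Int.cast_natCast, Int.cast_natCast, Int.cast_natCast]
  have hrR : (0:ℝ) < r := by exact_mod_cast hr1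
  have hdR : (0:ℝ) < (d:ℝ) + 1 := by positivity
  have hdR' : (0:ℝ) < (d':ℝ) + 1 := by positivity
  set a := ((d:ℝ) + 1) ^ (-(1/4) : ℝ) with ha
  set b := (r:ℝ) ^ (-(1/4) : ℝ) with hb
  set c := ((d':ℝ) + 1) ^ (-(1/4) : ℝ) with hc
  have ha0 : 0 < a := Real.rpow_pos_of_pos hdR _
  have hb0 : 0 < b := Real.rpow_pos_of_pos hrR _
  have hc0 : 0 < c := Real.rpow_pos_of_pos hdR' _
  have hab : a * b ≤ a * (b + c) := by
    apply mul_le_mul_of_nonneg_left _ ha0.le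
    linarith
  have hac : a * c ≤ a * (b + c) := by
    apply mul_le_mul_of_nonneg_left _ ha0.le
    linarith
  have habc : 0 ≤ a * (b + c) := by positivity
  -- it suffices to bound with one of the constants
  have fin1 : ∀ {x : ℝ}, x ≤ 4 * (2 * C + 1) * (a * b) →
      x ≤ (4 * (2 * C + 1) + 32 + 64 * C ^ 2 * C2 + (2 + 72 * C) ^ 2) * (a * (b + c)) := by
    intro x hx
    have h1 : 4 * (2 * C + 1) * (a * b) ≤ 4 * (2 * C + 1) * (a * (b + c)) :=
      mul_le_mul_of_nonneg_left hab (by positivity)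
    have h2 : 0 ≤ (32 + 64 * C ^ 2 * C2 + (2 + 72 * C) ^ 2) * (a * (b + c)) := by positivity
    linarith
  have fin2 : ∀ {x : ℝ}, x ≤ 32 * (a * b) →
      x ≤ (4 * (2 * C + 1) + 32 + 64 * C ^ 2 * C2 + (2 + 72 * C) ^ 2) * (a * (b + c)) := by
    intro x hx
    have h1 : 32 * (a * b) ≤ 32 * (a * (b + c)) :=
      mul_le_mul_of_nonneg_left hab (by positivity)
    have h2 : 0 ≤ (4 * (2 * C + 1) + 64 * C ^ 2 * C2 + (2 + 72 * C) ^ 2) * (a * (b + c)) := by positivity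
    linarith
  have fin3 : ∀ {x : ℝ}, x ≤ 64 * C ^ 2 * C2 * (a * b) →
      x ≤ (4 * (2 * C + 1) + 32 + 64 * C ^ 2 * C2 + (2 + 72 * C) ^ 2) * (a * (b + c)) := by
    intro x hx
    have h1 : 64 * C ^ 2 * C2 * (a * b) ≤ 64 * C ^ 2 * C2 * (a * (b + c)) :=
      mul_le_mul_of_nonneg_left hab (by positivity)
    have h2 : 0 ≤ (4 * (2 * C + 1) + 32 + (2 + 72 * C) ^ 2) * (a * (b + c)) := by positivity
    linarith
  have fin4 : ∀ {x : ℝ}, x ≤ (2 + 72 * C) ^ 2 * (a * c) →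
      x ≤ (4 * (2 * C + 1) + 32 + 64 * C ^ 2 * C2 + (2 + 72 * C) ^ 2) * (a * (b + c)) := by
    intro x hx
    have h1 : (2 + 72 * C) ^ 2 * (a * c) ≤ (2 + 72 * C) ^ 2 * (a * (b + c)) :=
      mul_le_mul_of_nonneg_left hac (by positivity)
    have h2 : 0 ≤ (4 * (2 * C + 1) + 32 + 64 * C ^ 2 * C2) * (a * (b + c)) := by positivity
    linarith
  by_cases hr2 : r ≤ 2
  · -- `1 ≤ 2 b`
    have hb1 : 1 ≤ 2 * b := by
      have := two_inv (x := 1) (y := (r:ℝ)) (M := 2) one_pos hrR (by norm_num)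
        (by rw [mul_one]; exact_mod_cast hr2)
      rwa [Real.one_rpow] at this
    by_cases h8 : 8 * r ≤ d
    · apply fin1
      have h1 : P D.edges (fun F => D.Vis F σ ∧ D.Vis F τ) ≤ P D.edges (fun F => D.Vis F σ) :=
        Pr_mono two_ok fun F _ hv => hv.1
      have h2 := one_point hC hU hD σ
      have h3 : ph (2 * C + 1) (1/4) (D.bd σ.1) = (2 * C + 1) * (d:ℝ) ^ (-(1/4) : ℝ) := by
        unfold ph
        rw [if_neg (by omega), hd, Int.cast_natCast]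
      rw [h3] at h2
      have hdp : (0:ℝ) < d := by
        have : 0 < d := by omega
        exact_mod_cast this
      have h4 : (d:ℝ) ^ (-(1/4) : ℝ) ≤ 2 * a := two_inv hdp hdR (by norm_num) (by
        have : (1:ℝ) ≤ d := by
          have : 1 ≤ d := by omega
          exact_mod_cast this
        linarith)
      calc P D.edges (fun F => D.Vis F σ ∧ D.Vis F τ)
          ≤ (2 * C + 1) * (d:ℝ) ^ (-(1/4) : ℝ) := h1.trans h2
        _ ≤ (2 * C + 1) * (2 * a) := mul_le_mul_of_nonneg_left h4 (by positivity)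
        _ = (2 * C + 1) * (2 * a) * 1 := (mul_one _).symm
        _ ≤ (2 * C + 1) * (2 * a) * (2 * b) := mul_le_mul_of_nonneg_left hb1 (by positivity)
        _ = 4 * (2 * C + 1) * (a * b) := by ring
    · apply fin2
      have ha1 : 1 ≤ 16 * a := by
        have := two_inv (x := 1) (y := (d:ℝ) + 1) (M := 16) one_pos hdR (by norm_num) (by
          rw [mul_one]
          have : d + 1 ≤ 16 := by omega
          exact_mod_cast this)
        rwa [Real.one_rpow] at this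
      have h1 : P D.edges (fun F => D.Vis F σ ∧ D.Vis F τ) ≤ 1 := Pr_le_one two_ok _ _
      calc P D.edges (fun F => D.Vis F σ ∧ D.Vis F τ) ≤ 1 := h1
        _ = 1 * 1 := (mul_one _).symm
        _ ≤ (16 * a) * (2 * b) := mul_le_mul ha1 hb1 (by norm_num) (by positivity)
        _ = 32 * (a * b) := by ring
  · obtain ⟨k, hk1, hk2⟩ : ∃ k : ℕ, 2 * k < r ∧ r ≤ 4 * k := ⟨(r - 1) / 2, by omega, by omega⟩
    have hk0 : 1 ≤ k := by omega
    have hkR : (0:ℝ) < k := by exact_mod_cast hk0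
    by_cases h8 : 8 * r ≤ d
    · apply fin3
      have h1 := two_three hC hU hC2 hA hD hr hd hk0 hk1 h8
      refine h1.trans ?_
      have hkb : (k:ℝ) ^ (-(1/4) : ℝ) ≤ 4 * b := two_inv hkR hrR (by norm_num)
        (by exact_mod_cast hk2)
      have hdp : (0:ℝ) < d := by
        have : 0 < d := by omega
        exact_mod_cast this
      have hq : (((r + k + 1 : ℕ) : ℝ) / (d : ℕ)) ^ (1/4 : ℝ) ≤ 4 * ((r:ℝ) / ((d:ℝ) + 1)) ^ (1/4 : ℝ) := by
        apply two_pow (by positivity) (by positivity) (by norm_num)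
        rw [mul_div_assoc', div_le_div_iff₀ hdp hdR]
        have e1 : ((r + k + 1 : ℕ) : ℝ) ≤ 2 * r := by
          have : r + k + 1 ≤ 2 * r := by omega
          exact_mod_cast this
        have e2 : (d:ℝ) + 1 ≤ 2 * d := by
          have : d + 1 ≤ 2 * d := by omega
          exact_mod_cast this
        calc ((r + k + 1 : ℕ) : ℝ) * ((d:ℝ) + 1) ≤ (2 * r) * (2 * d) :=
              mul_le_mul e1 e2 (by positivity) (by positivity)
          _ = 4 * r * d := by ring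
      have hq2 : ((r:ℝ) / ((d:ℝ) + 1)) ^ (1/4 : ℝ) = b⁻¹ * a := by
        rw [Real.div_rpow hrR.le hdR.le, ha, hb, Real.rpow_neg hrR.le, Real.rpow_neg hdR.le,
          inv_inv, div_eq_mul_inv]
      rw [hq2] at hq
      calc (C * (k:ℝ) ^ (-(1/4) : ℝ)) * ((C * (k:ℝ) ^ (-(1/4) : ℝ)) *
            (C2 * (((r + k + 1 : ℕ) : ℝ) / (d : ℕ)) ^ (1/4 : ℝ)))
          ≤ (C * (4 * b)) * ((C * (4 * b)) * (C2 * (4 * (b⁻¹ * a)))) := by
            gcongr
        _ = 64 * C ^ 2 * C2 * (a * b) := by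
            field_simp
            ring
    · apply fin4
      have hdis : Disjoint (RE (σ.1.1 - min (k:ℤ) (d-1)) (σ.1.1 + min (k:ℤ) (d-1))
          (σ.1.2 - min (k:ℤ) (d-1)) (σ.1.2 + min (k:ℤ) (d-1)))
          (RE (τ.1.1 - min (k:ℤ) (d'-1)) (τ.1.1 + min (k:ℤ) (d'-1)) (τ.1.2 - min (k:ℤ) (d'-1))
            (τ.1.2 + min (k:ℤ) (d'-1))) := by
        rw [Finset.disjoint_left]
        rintro ⟨x, y, t⟩ h1 h2
        cases t
        · rw [mem_RE_false] at h1 h2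
          omega
        · rw [mem_RE_true] at h1 h2
          omega
      have h1 := two_two hC hU hD (σ := σ) (τ := τ) (k1 := min (k:ℤ) (d-1))
        (k2 := min (k:ℤ) (d'-1)) (by omega) (by omega) hdis
      refine h1.trans ?_
      have key : ∀ (m : ℕ), m ≤ 36 * k →
          ph C (1/4) (min (k:ℤ) (m-1)) ≤ (2 + 72 * C) * ((m:ℝ) + 1) ^ (-(1/4) : ℝ) := by
        intro m hm2
        have hmR : (0:ℝ) < (m:ℝ) + 1 := by positivity
        have e2 : 0 < ((m:ℝ) + 1) ^ (-(1/4) : ℝ) := Real.rpow_pos_of_pos hmR _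
        rcases Nat.lt_or_ge m 2 with h0 | h0
        · unfold ph
          rw [if_pos (by omega)]
          have e3 : (1:ℝ) ^ (-(1/4) : ℝ) ≤ 2 * ((m:ℝ) + 1) ^ (-(1/4) : ℝ) :=
            two_inv one_pos hmR (by norm_num) (by
              have : m + 1 ≤ 2 := by omega
              have h5 : ((m:ℝ) + 1) ≤ 2 := by exact_mod_cast this
              linarith)
          rw [Real.one_rpow] at e3
          have h6 : 0 ≤ 72 * C * ((m:ℝ) + 1) ^ (-(1/4) : ℝ) := by positivity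
          linarith
        · have hmin : ∃ j : ℕ, (min (k:ℤ) (m-1)) = j ∧ 1 ≤ j ∧ m + 1 ≤ 72 * j := by
            refine ⟨min k (m-1), by omega, by omega, by omega⟩
          obtain ⟨j, hj, hj1, hj2⟩ := hmin
          unfold ph
          rw [hj, if_neg (by omega), Int.cast_natCast]
          have hjR : (0:ℝ) < j := by exact_mod_cast hj1
          have e1 : (j:ℝ) ^ (-(1/4) : ℝ) ≤ 72 * ((m:ℝ) + 1) ^ (-(1/4) : ℝ) :=
            two_inv hjR hmR (by norm_num) (by exact_mod_cast hj2)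
          calc C * (j:ℝ) ^ (-(1/4) : ℝ) ≤ C * (72 * ((m:ℝ) + 1) ^ (-(1/4) : ℝ)) :=
                mul_le_mul_of_nonneg_left e1 hC.le
            _ ≤ (2 + 72 * C) * ((m:ℝ) + 1) ^ (-(1/4) : ℝ) := by nlinarith
      have k1 := key d (by omega)
      have k2 := key d' (by omega)
      calc ph C (1/4) (min (k:ℤ) (d-1)) * ph C (1/4) (min (k:ℤ) (d'-1))
          ≤ ((2 + 72 * C) * a) * ((2 + 72 * C) * c) :=
            mul_le_mul k1 k2 (ph_nonneg hC.le _) (by positivity)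
        _ = (2 + 72 * C) ^ 2 * (a * c) := by ring

end H984H
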