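import Pool.Agent.H984R4.HN.Trans
import Pool.Agent.H984R4.HN.Perc
import Pool.Agent.H984R4.HN.Moments

/-!
S6: lower tail of the distance.
-/

namespace H984H

open H974 Finset H342P H984P MeasureTheory

/-- The first point of the path. -/
theorem TailLow_start (n : ℕ) (ω : Conf) : (1/3 : ℝ) < reach n ω := by
  have h0 : gam ω 0 = ⟨1/4, 1/4⟩ := by
    unfold gam path place
    simp
  have h1 : (1/3 : ℝ) < ‖gam ω 0‖ := by
    rw [h0, Complex.norm_def, Complex.normSq_mk]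
    rw [Real.lt_sqrt (by norm_num)]
    norm_num
  refine lt_of_lt_of_le h1 ?_
  unfold reach
  exact Finset.le_sup' (fun k => ‖gam ω k‖) (Finset.mem_range.mpr (Nat.succ_pos n))

theorem TailLow_stay {n : ℕ} {ω : Conf} {y : ℝ} (h : reach n ω ≤ y) :
    Stay (⌈y⌉ + 2) n ω := by
  intro j hj
  have h1 : ‖gam ω j‖ ≤ y := by
    refine le_trans ?_ h
    unfold reach
    exact Finset.le_sup' (fun k => ‖gam ω k‖) (Finset.mem_range.mpr (by omega))
  have h2 := le_norm_place (path ω j)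
  have h3 : ((sd (path ω j).1 (0, 0) : ℤ) : ℝ) < ((⌈y⌉ + 2 : ℤ) : ℝ) := by
    push_cast
    have h4 := Int.le_ceil y
    unfold gam at h1
    linarith
  exact_mod_cast h3

/-- Markov inequality for the number of visited states of the box (`count_le`, `Moments_vis`). -/
theorem tail_low {C : ℝ} (hC : 0 < C) (hU : TwoUp C (1/4)) :
    ∃ A : ℝ, 0 < A ∧ ∀ (n : ℕ) (x : ℝ), 1 ≤ n → 0 < x →
      perc.real {ω | reach n ω ≤ x * (n : ℝ) ^ (4/7 : ℝ)} ≤ A * x ^ (7/4 : ℝ) := by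
  obtain ⟨C', hC', hv⟩ := Moments_vis hC hU
  refine ⟨C' * 20 ^ (7/4 : ℝ), by positivity, fun n x hn hx => ?_⟩
  have hn0 : (0 : ℝ) < (n : ℝ) := by exact_mod_cast hn
  have hy : 0 < x * (n : ℝ) ^ (4/7 : ℝ) := by positivity
  have hy7 : (x * (n : ℝ) ^ (4/7 : ℝ)) ^ (7/4 : ℝ) = x ^ (7/4 : ℝ) * n := by
    rw [Real.mul_rpow hx.le (by positivity), ← Real.rpow_mul hn0.le]
    norm_num
  generalize x * (n : ℝ) ^ (4/7 : ℝ) = y at hy hy7 ⊢
  have hx7 : (0 : ℝ) < x ^ (7/4 : ℝ) := by positivity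
  by_cases hy3 : y < 1/3
  · have : {ω : Conf | reach n ω ≤ y} = ∅ := by
      ext ω
      simp only [Set.mem_setOf_eq, Set.mem_empty_iff_false, iff_false, not_le]
      exact hy3.trans (TailLow_start n ω)
    rw [this, measureReal_empty]
    positivity
  · have hy3' : 1/3 ≤ y := not_lt.mp hy3
    have hceil : 1 ≤ ⌈y⌉ := Int.one_le_ceil_iff.mpr hy
    have hρ : 1 ≤ ⌈y⌉ + 2 := by omega
    have hlt := Int.ceil_lt_add_one y
    set ρ : ℤ := ⌈y⌉ + 2 with hρd
    have hsub : {ω : Conf | reach n ω ≤ y} ⊆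
        {ω : Conf | (fun F => ((n : ℝ) + 1) ≤
          ∑ σ ∈ (bx ρ).states, ind ((bx ρ).Vis F σ)) (cut ω ρ)} := by
      intro ω hω
      exact count_le hρ (TailLow_stay hω)
    have h1 := measureReal_mono (μ := perc) hsub
    rw [perc_cut ρ (fun F => ((n : ℝ) + 1) ≤
          ∑ σ ∈ (bx ρ).states, ind ((bx ρ).Vis F σ))] at h1
    have h2 : P (bx ρ).edges (fun F => ((n : ℝ) + 1) ≤
          ∑ σ ∈ (bx ρ).states, ind ((bx ρ).Vis F σ)) * ((n : ℝ) + 1) ≤
        ∑ σ ∈ (bx ρ).states, P (bx ρ).edges (fun F => (bx ρ).Vis F σ) := by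
      have e1 : ∑ σ ∈ (bx ρ).states, P (bx ρ).edges (fun F => (bx ρ).Vis F σ) =
          E (bx ρ).edges (fun F => ∑ σ ∈ (bx ρ).states, ind ((bx ρ).Vis F σ)) := by
        rw [E, Ex_sum]
        rfl
      rw [e1]
      have e2 : P (bx ρ).edges (fun F => ((n : ℝ) + 1) ≤
          ∑ σ ∈ (bx ρ).states, ind ((bx ρ).Vis F σ)) * ((n : ℝ) + 1) =
          E (bx ρ).edges (fun F => ind (((n : ℝ) + 1) ≤
          ∑ σ ∈ (bx ρ).states, ind ((bx ρ).Vis F σ)) * ((n : ℝ) + 1)) := by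
        rw [E, Ex_mul_right]
        rfl
      rw [e2]
      refine Ex_mono Moments_ok fun F _ => ?_
      by_cases hF : ((n : ℝ) + 1) ≤ ∑ σ ∈ (bx ρ).states, ind ((bx ρ).Vis F σ)
      · rw [ind_of hF, one_mul]
        exact hF
      · rw [ind_not_of hF, zero_mul]
        exact Finset.sum_nonneg fun σ _ => ind_nonneg _
    have hρr : (1 : ℝ) ≤ (ρ : ℝ) := by exact_mod_cast hρ
    have hρ10 : (ρ : ℝ) ≤ 10 * y := by
      rw [hρd]
      push_cast
      linarith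
    have h3 := hv (bx ρ) (2 * ρ) (bx_ok hρ) (by linarith)
      (by unfold bx; push_cast; linarith) (by unfold bx; simp only; linarith)
    have h4 : (2 * (ρ : ℝ)) ^ (7/4 : ℝ) ≤ 20 ^ (7/4 : ℝ) * (x ^ (7/4 : ℝ) * n) := by
      rw [← hy7, ← Real.mul_rpow (by norm_num) hy.le]
      exact Real.rpow_le_rpow (by linarith) (by linarith) (by norm_num)
    have h5 : P (bx ρ).edges (fun F => ((n : ℝ) + 1) ≤
          ∑ σ ∈ (bx ρ).states, ind ((bx ρ).Vis F σ)) * ((n : ℝ) + 1) ≤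
        C' * 20 ^ (7/4 : ℝ) * x ^ (7/4 : ℝ) * ((n : ℝ) + 1) := by
      refine (h2.trans h3).trans ?_
      refine (mul_le_mul_of_nonneg_left h4 hC'.le).trans ?_
      have h6 : 0 ≤ C' * 20 ^ (7/4 : ℝ) * x ^ (7/4 : ℝ) := by positivity
      nlinarith
    exact h1.trans (le_of_mul_le_mul_right h5 (by positivity))

end H984H
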