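import Pool.Agent.H984R4.HN.Trans
import Pool.Agent.H984R4.HN.Perc
import Pool.Agent.H984R4.HN.Holder
import Pool.Agent.H984R4.NP.PL

/-!
S8: uniform Hölder continuity of the rescaled path.
-/

namespace H984H

open H974 Finset H342P H984P MeasureTheory

theorem TightC_shape {ρ : ℤ} (hρ : 1 ≤ ρ) : (bx ρ).Shape (1/2) (2 * (ρ : ℝ)) := by
  refine ⟨bx_ok hρ, ?_, ?_, ?_, ?_, ?_⟩
  · simp only [bx]
    push_cast
    linarith
  · simp only [bx]
    linarith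
  · simp only [bx]
    linarith
  · simp only [bx]
    push_cast
    linarith
  · simp only [bx]
    have : (0 : ℝ) ≤ ρ := by exact_mod_cast (by omega : (0 : ℤ) ≤ ρ)
    linarith

/-- the computation of the distances -/
theorem TightC_aux {β γ Λ0 b x m R n : ℝ} (hβ : 0 < β) (hβ1 : β < 4/7) (hγ : γ * β = 1)
    (hΛ : 0 < Λ0) (hb : 0 < b) (hx : 0 ≤ x) (hm : 0 ≤ m) (hR : 0 < R) (hn : 0 < n)
    (hRb : R ≤ 4 * b * n ^ (4/7 : ℝ))
    (h : (x / R) ^ γ ≤ Λ0 * (m / R ^ (7/4 : ℝ))) :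
    x ≤ Λ0 ^ β * (4 * b) ^ (1 - 7/4 * β) * (n ^ (4/7 : ℝ) * (m / n) ^ β) := by
  have hN : 0 < n ^ (4/7 : ℝ) := Real.rpow_pos_of_pos hn _
  have h1 : x / R ≤ (Λ0 * (m / R ^ (7/4 : ℝ))) ^ β := by
    have h2 : ((x / R) ^ γ) ^ β ≤ (Λ0 * (m / R ^ (7/4 : ℝ))) ^ β :=
      Real.rpow_le_rpow (by positivity) h hβ.le
    rwa [← Real.rpow_mul (by positivity), hγ, Real.rpow_one] at h2
  have h3 : (Λ0 * (m / R ^ (7/4 : ℝ))) ^ β = Λ0 ^ β * (m ^ β / R ^ (7/4 * β)) := by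
    rw [Real.mul_rpow hΛ.le (by positivity), Real.div_rpow hm (by positivity),
      ← Real.rpow_mul hR.le]
  have h4 : R ^ (1 - 7/4 * β) = R / R ^ (7/4 * β) := by
    rw [Real.rpow_sub hR, Real.rpow_one]
  have h5 : x ≤ Λ0 ^ β * m ^ β * R ^ (1 - 7/4 * β) := by
    have h6 : x = R * (x / R) := by field_simp
    rw [h6, h4]
    rw [h3] at h1
    calc R * (x / R) ≤ R * (Λ0 ^ β * (m ^ β / R ^ (7/4 * β))) :=
          mul_le_mul_of_nonneg_left h1 hR.le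
      _ = Λ0 ^ β * m ^ β * (R / R ^ (7/4 * β)) := by ring
  have he : 0 ≤ 1 - 7/4 * β := by linarith
  have h7 : R ^ (1 - 7/4 * β) ≤ (4 * b) ^ (1 - 7/4 * β) * (n ^ (4/7 : ℝ) / n ^ β) := by
    calc R ^ (1 - 7/4 * β) ≤ (4 * b * n ^ (4/7 : ℝ)) ^ (1 - 7/4 * β) :=
          Real.rpow_le_rpow hR.le hRb he
      _ = (4 * b) ^ (1 - 7/4 * β) * (n ^ (4/7 : ℝ) / n ^ β) := by
          rw [Real.mul_rpow (by positivity) hN.le, ← Real.rpow_mul hn.le, ← Real.rpow_sub hn]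
          congr 2
          ring
  calc x ≤ Λ0 ^ β * m ^ β * R ^ (1 - 7/4 * β) := h5
    _ ≤ Λ0 ^ β * m ^ β * ((4 * b) ^ (1 - 7/4 * β) * (n ^ (4/7 : ℝ) / n ^ β)) :=
        mul_le_mul_of_nonneg_left h7 (by positivity)
    _ = Λ0 ^ β * (4 * b) ^ (1 - 7/4 * β) * (n ^ (4/7 : ℝ) * (m / n) ^ β) := by
        rw [Real.div_rpow hm hn.le]
        ring

/-- For large `n` use `holder` for `bx ρ` with `ρ` a large multiple of `n ^ (4/7)`
(`Shape (1/2) (2 * ρ)`), `stay_of_hol`, `hol_path` and `H984N.pl_holder`; for small `n` the curve is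
Lipschitz with a deterministic constant. -/
theorem tight_curve {c C : ℝ} (hc : 0 < c) (hC : 0 < C) (hL : LowA c (1/4))
    (hU : TwoUp C (1/4)) {β : ℝ} (hβ : 0 < β) (hβ1 : β < 4/7) {ε : ℝ} (hε : 0 < ε) :
    ∃ Λ : ℝ, 1 ≤ Λ ∧ ∀ n : ℕ, 1 ≤ n → perc.real {ω | curve n ω ∉ GoodC β Λ} ≤ ε := by
  obtain ⟨γ, hγ⟩ : ∃ γ : ℝ, γ * β = 1 := ⟨1 / β, by field_simp⟩
  have hγ0 : 0 < γ := by
    by_contra hcon
    have : γ * β ≤ 0 := mul_nonpos_of_nonpos_of_nonneg (not_lt.1 hcon) hβ.le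
    linarith
  have hγ1 : 7/4 < γ := by
    by_contra hcon
    have h1 : γ * β < 7/4 * (4/7) := by
      calc γ * β ≤ 7/4 * β := mul_le_mul_of_nonneg_right (not_lt.1 hcon) hβ.le
        _ < 7/4 * (4/7) := by linarith
    norm_num at h1
    linarith
  obtain ⟨Λ0, n0, hΛ0, hn0, hhol⟩ := holder hc hC hL hU (κ := 1/2) (by norm_num) hγ1 hε
  -- the constant `b`
  obtain ⟨b, hb1, hbn, hb2⟩ : ∃ b : ℝ, 1 ≤ b ∧ n0 ≤ b ∧ Λ0 * (2:ℝ) ^ γ < (2 * b) ^ (7/4 : ℝ) := by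
    refine ⟨max (max 1 n0) (Λ0 * (2:ℝ) ^ γ), ?_, ?_, ?_⟩
    · exact (le_max_left _ _).trans (le_max_left _ _)
    · exact (le_max_right _ _).trans (le_max_left _ _)
    · set b := max (max 1 n0) (Λ0 * (2:ℝ) ^ γ)
      have h1 : 1 ≤ b := (le_max_left _ _).trans (le_max_left _ _)
      have h2 : Λ0 * (2:ℝ) ^ γ ≤ b := le_max_right _ _
      have h3 : (2 * b) ^ (1 : ℝ) ≤ (2 * b) ^ (7/4 : ℝ) :=
        Real.rpow_le_rpow_of_exponent_le (by linarith) (by norm_num)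
      rw [Real.rpow_one] at h3
      linarith
  have hb0 : 0 < b := by linarith
  set K : ℝ := Λ0 ^ β * (4 * b) ^ (1 - 7/4 * β) with hK
  have hK0 : 0 ≤ K := by positivity
  refine ⟨3 * (2 * K + 1), by linarith, fun n hn => ?_⟩
  have hnR : (1 : ℝ) ≤ n := by exact_mod_cast hn
  have hn0' : (0 : ℝ) < n := by linarith
  set N : ℝ := (n : ℝ) ^ (4/7 : ℝ) with hN
  have hN1 : 1 ≤ N := Real.one_le_rpow hnR (by norm_num)
  have hN0 : 0 < N := by linarith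
  set ρ : ℤ := ⌈b * N⌉ with hρd
  have hρ1 : b * N ≤ ρ := Int.le_ceil _
  have hρ2 : (ρ : ℝ) < b * N + 1 := Int.ceil_lt_add_one _
  have hbN : b ≤ b * N := by nlinarith
  have hρR : (1 : ℝ) ≤ ρ := by linarith
  have hρ : 1 ≤ ρ := by exact_mod_cast hρR
  have hR0 : (0 : ℝ) < 2 * (ρ : ℝ) := by linarith
  have hR1 : 2 * (ρ : ℝ) ≤ 4 * b * N := by nlinarith
  -- the good event
  have hgood : ∀ ω : Conf, Hol (bx ρ) γ Λ0 (2 * ρ) (cut ω ρ) →
      curve n ω ∈ GoodC β (3 * (2 * K + 1)) := by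
    intro ω hH
    have hpow : Λ0 * ((n : ℝ) / (2 * ρ : ℝ) ^ (7/4 : ℝ)) < (1/2 : ℝ) ^ γ := by
      have h1 : (2 * b) ^ (7/4 : ℝ) * n ≤ (2 * ρ : ℝ) ^ (7/4 : ℝ) := by
        have h2 : (2 * b * N) ^ (7/4 : ℝ) ≤ (2 * ρ : ℝ) ^ (7/4 : ℝ) :=
          Real.rpow_le_rpow (by positivity) (by linarith) (by norm_num)
        have h3 : (2 * b * N) ^ (7/4 : ℝ) = (2 * b) ^ (7/4 : ℝ) * n := by
          rw [Real.mul_rpow (by positivity) hN0.le, hN, ← Real.rpow_mul hn0'.le]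
          norm_num
        rwa [h3] at h2
      have h4 : 0 < (2 * b) ^ (7/4 : ℝ) := Real.rpow_pos_of_pos (by linarith) _
      have h5 : 0 < (2 * ρ : ℝ) ^ (7/4 : ℝ) := Real.rpow_pos_of_pos hR0 _
      have h6 : (n : ℝ) / (2 * ρ : ℝ) ^ (7/4 : ℝ) ≤ 1 / (2 * b) ^ (7/4 : ℝ) := by
        rw [div_le_div_iff₀ h5 h4]
        linarith
      have h7 : (1/2 : ℝ) ^ γ = 1 / (2:ℝ) ^ γ := by
        rw [Real.div_rpow (by norm_num) (by norm_num), Real.one_rpow]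
      have h8 : (0:ℝ) < 2 ^ γ := Real.rpow_pos_of_pos (by norm_num) _
      calc Λ0 * ((n : ℝ) / (2 * ρ : ℝ) ^ (7/4 : ℝ)) ≤ Λ0 * (1 / (2 * b) ^ (7/4 : ℝ)) :=
            mul_le_mul_of_nonneg_left h6 hΛ0.le
        _ < (1/2 : ℝ) ^ γ := by
            rw [h7, mul_one_div, div_lt_div_iff₀ h4 h8]
            linarith
    have hS : Stay ρ n ω := stay_of_hol hρ hγ0 hΛ0 hH hpow
    have hdist : ∀ k l : ℕ, k < l → l ≤ n →
        dist ((((n : ℝ) ^ (-(4/7) : ℝ) : ℝ) : ℂ) * gam ω k)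
          ((((n : ℝ) ^ (-(4/7) : ℝ) : ℝ) : ℂ) * gam ω l) ≤
        (2 * K + 1) * (1 / (n : ℝ) * ((l - k : ℕ) : ℝ)) ^ β := by
      intro k l hkl hl
      have h1 := hol_path hρ hH hS hkl.le hl
      have hsd0 : (0 : ℝ) ≤ ((sd (path ω k).1 (path ω l).1 : ℤ) : ℝ) := by
        have : 0 ≤ sd (path ω k).1 (path ω l).1 := by
          unfold sd
          exact (abs_nonneg _).trans (le_max_left _ _)
        exact_mod_cast this
      have hm1 : (1 : ℝ) ≤ ((l - k : ℕ) : ℝ) := by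
        have : 1 ≤ l - k := by omega
        exact_mod_cast this
      have h2 := TightC_aux (b := b) hβ hβ1 hγ hΛ0 hb0 hsd0 (by linarith) hR0 hn0' hR1 h1
      have h3 : dist (gam ω k) (gam ω l) ≤ 2 * ((sd (path ω k).1 (path ω l).1 : ℤ) : ℝ) + 1 :=
        dist_place_le _ _
      set m : ℝ := ((l - k : ℕ) : ℝ) with hmd
      have h4 : 1 ≤ N * (m / n) ^ β := by
        have h5 : (1 / (n:ℝ)) ^ β ≤ (m / n) ^ β :=
          Real.rpow_le_rpow (by positivity) (by gcongr) hβ.le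
        have h6 : (1 / (n:ℝ)) ^ β = 1 / (n : ℝ) ^ β := by
          rw [Real.div_rpow (by norm_num) hn0'.le, Real.one_rpow]
        have h7 : (n : ℝ) ^ β ≤ N := Real.rpow_le_rpow_of_exponent_le hnR hβ1.le
        have h8 : 0 < (n : ℝ) ^ β := Real.rpow_pos_of_pos hn0' _
        calc (1 : ℝ) ≤ N * (1 / (n : ℝ) ^ β) := by
              rw [mul_one_div, le_div_iff₀ h8]
              linarith
          _ ≤ N * (m / n) ^ β := by
              rw [← h6]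
              exact mul_le_mul_of_nonneg_left h5 hN0.le
      have h9 : dist (gam ω k) (gam ω l) ≤ (2 * K + 1) * (N * (m / n) ^ β) := by
        have : (2 * K + 1) * (N * (m / n) ^ β) = 2 * (K * (N * (m / n) ^ β)) +
          N * (m / n) ^ β := by ring
        rw [this]
        linarith
      have h10 : (n : ℝ) ^ (-(4/7) : ℝ) = N⁻¹ := Real.rpow_neg hn0'.le _
      have h11 : dist ((((n : ℝ) ^ (-(4/7) : ℝ) : ℝ) : ℂ) * gam ω k)
          ((((n : ℝ) ^ (-(4/7) : ℝ) : ℝ) : ℂ) * gam ω l) = N⁻¹ * dist (gam ω k) (gam ω l) := by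
        rw [dist_eq_norm, ← mul_sub, norm_mul, Complex.norm_real, Real.norm_eq_abs, h10,
          abs_of_nonneg (by positivity), ← dist_eq_norm]
      rw [h11]
      calc N⁻¹ * dist (gam ω k) (gam ω l) ≤ N⁻¹ * ((2 * K + 1) * (N * (m / n) ^ β)) :=
            mul_le_mul_of_nonneg_left h9 (by positivity)
        _ = (2 * K + 1) * (1 / (n : ℝ) * m) ^ β := by
            have h12 : 1 / (n : ℝ) * m = m / n := by ring
            rw [h12]
            field_simp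
    refine ⟨?_, fun s t => ?_⟩
    · have h1 : curve n ω 0 = (((n : ℝ) ^ (-(4/7) : ℝ) : ℝ) : ℂ) * gam ω 0 :=
        H984N.pl_zero n _
      rw [h1, norm_mul, Complex.norm_real, Real.norm_eq_abs]
      have h2 : ‖gam ω 0‖ ≤ 2 * ((sd (path ω 0).1 (0, 0) : ℤ) : ℝ) + 1 := norm_place_le _
      have h3 : sd (path ω 0).1 (0, 0) = 0 := by
        simp [path, sd]
      rw [h3] at h2
      have h4 : |(n : ℝ) ^ (-(4/7) : ℝ)| ≤ 1 := by
        rw [abs_of_nonneg (by positivity)]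
        exact Real.rpow_le_one_of_one_le_of_nonpos hnR (by norm_num)
      have h5 : |(n : ℝ) ^ (-(4/7) : ℝ)| * ‖gam ω 0‖ ≤ 1 * 1 :=
        mul_le_mul h4 (by simpa using h2) (norm_nonneg _) (by norm_num)
      linarith
    · have h1 := H984N.pl_holder (N := n)
        (p := fun k => (((n : ℝ) ^ (-(4/7) : ℝ) : ℝ) : ℂ) * gam ω k) (τ := 1 / (n : ℝ))
        (β := β) (Λ := 2 * K + 1) hβ (by linarith) (by positivity) (by linarith) hdist s t
      have h2 : 1 / (n : ℝ) * n * |(s : ℝ) - t| = |(s : ℝ) - t| := by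
        rw [one_div, inv_mul_cancel₀ hn0'.ne', one_mul]
      rw [h2] at h1
      exact h1
  have hsub : {ω | curve n ω ∉ GoodC β (3 * (2 * K + 1))} ⊆
      {ω | ¬ Hol (bx ρ) γ Λ0 (2 * ρ) (cut ω ρ)} := fun ω hω hH => hω (hgood ω hH)
  refine (measureReal_mono hsub (measure_ne_top _ _)).trans ?_
  rw [perc_cut ρ (fun F => ¬ Hol (bx ρ) γ Λ0 (2 * ρ) F)]
  exact hhol _ _ (by linarith) (TightC_shape hρ)

end H984H
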