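import Pool.Agent.H984R4.HN.TailUp
import Pool.Agent.H984R4.HN.TailLow
import Pool.Agent.H984R4.HN.Mom
import Pool.Agent.H984R4.HN.TightC
import Pool.Agent.H984R4.HN.EnC
import Pool.Agent.H984R4.HN.LimG
import Pool.Agent.H984R4.HN.LimE
import Pool.Agent.H984R4.NP.Final2

/-!
The theorem on the exploration path in the half-plane, from the three inputs.
-/

namespace H984H

open H974 Finset H342P H984P MeasureTheory Filter Topology

/-- The law of the rescaled path `n ^ (-4/7) γ(n t)`, `0 ≤ t ≤ 1`. -/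
noncomputable def lawH (n : ℕ) : ProbabilityMeasure C(unitInterval, ℂ) :=
  ⟨perc.map (curve n), Measure.isProbabilityMeasure_map (curve_meas n).aemeasurable⟩

theorem lawH_apply (n : ℕ) {G : Set C(unitInterval, ℂ)} (hG : MeasurableSet G) :
    (lawH n : Measure C(unitInterval, ℂ)) G = ENNReal.ofReal (perc.real {ω | curve n ω ∈ G}) := by
  show perc.map (curve n) G = _
  rw [Measure.map_apply (curve_meas n) hG, ofReal_measureReal]
  rfl

theorem lawH_int (n : ℕ) {g : C(unitInterval, ℂ) → ℝ} (hg : Continuous g) :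
    ∫ f, g f ∂(lawH n : Measure C(unitInterval, ℂ)) = ∫ ω, g (curve n ω) ∂perc := by
  show ∫ f, g f ∂(perc.map (curve n)) = _
  rw [integral_map (curve_meas n).aemeasurable hg.aestronglyMeasurable]

theorem curve_zero (n : ℕ) (ω : Conf) :
    curve n ω 0 = (((n : ℝ) ^ (-(4/7) : ℝ) : ℝ) : ℂ) * gam ω 0 := by
  unfold curve
  rw [H984N.pl_zero]

theorem curve_nil (ω : Conf) (s : unitInterval) : curve 0 ω s = 0 := by
  unfold curve
  rw [H984N.pl_apply']
  simp [Real.zero_rpow (show (-(4/7) : ℝ) ≠ 0 by norm_num)]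

theorem gam_zero (ω : Conf) : ‖gam ω 0‖ ≤ 1 := by
  have h := norm_place_le (path ω 0)
  have h0 : gam ω 0 = (⟨1/4, 1/4⟩ : ℂ) := by
    unfold gam path place
    norm_num
  rw [h0]
  refine (Complex.norm_le_abs_re_add_abs_im _).trans ?_
  simp only
  rw [abs_of_pos (by norm_num)]
  norm_num

theorem goodC_zero {β Λ : ℝ} (hΛ : 1 ≤ Λ) (ω : Conf) : curve 0 ω ∈ GoodC β Λ := by
  refine ⟨?_, fun s t => ?_⟩
  · rw [curve_nil, norm_zero]; linarith
  · rw [curve_nil, curve_nil, dist_self]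
    exact mul_nonneg (by linarith) (Real.rpow_nonneg (abs_nonneg _) _)

theorem lawH_tight {c C : ℝ} (hc : 0 < c) (hC : 0 < C) (hL : LowA c (1/4))
    (hU : TwoUp C (1/4)) {β : ℝ} (hβ : 0 < β) (hβ1 : β < 4/7) {ε : ℝ} (hε : 0 < ε) :
    ∃ Λ : ℝ, 1 ≤ Λ ∧ ∀ n : ℕ,
      (lawH n : Measure C(unitInterval, ℂ)) (GoodC β Λ)ᶜ ≤ ENNReal.ofReal ε := by
  obtain ⟨Λ, hΛ, h⟩ := tight_curve hc hC hL hU hβ hβ1 hε
  refine ⟨Λ, hΛ, fun n => ?_⟩
  rw [lawH_apply n (goodC_compact hβ hΛ).isClosed.measurableSet.compl]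
  apply ENNReal.ofReal_le_ofReal
  rcases Nat.eq_zero_or_pos n with rfl | hn
  · have : {ω : Conf | curve 0 ω ∈ (GoodC β Λ)ᶜ} = ∅ := by
      ext ω
      simp only [Set.mem_compl_iff, Set.mem_ofPred_eq, Set.mem_empty_iff_false, iff_false, not_not]
      exact goodC_zero hΛ ω
    rw [this]
    simpa using hε.le
  · exact h n hn

theorem lim_start {ν : ℕ → ℕ} (hν : Tendsto ν atTop atTop)
    {μ : ProbabilityMeasure C(unitInterval, ℂ)} (hμ : Tendsto (fun i => lawH (ν i)) atTop (𝓝 μ)) :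
    ∀ᵐ f : C(unitInterval, ℂ) ∂(μ : Measure C(unitInterval, ℂ)), f 0 = 0 := by
  have hsc : Tendsto (fun i => (ν i : ℝ) ^ (-(4/7) : ℝ)) atTop (𝓝 0) :=
    (tendsto_rpow_neg_atTop (by norm_num : (0:ℝ) < 4/7)).comp
      (tendsto_natCast_atTop_atTop.comp hν)
  have key : ∀ m : ℕ, ∀ᵐ f : C(unitInterval, ℂ) ∂(μ : Measure C(unitInterval, ℂ)), ‖f 0‖ ≤ 1 / ((m : ℝ) + 1) := by
    intro m
    set η : ℝ := 1 / ((m : ℝ) + 1) with hη
    have hη0 : 0 < η := by positivity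
    have hG : IsClosed {f : C(unitInterval, ℂ) | ‖f 0‖ ≤ η} :=
      isClosed_le (by fun_prop) continuous_const
    have h1 := limit_closedC hμ hG (ε := 0) (by
      filter_upwards [hsc.eventually (ge_mem_nhds hη0)] with i hi
      rw [lawH_apply _ hG.measurableSet.compl]
      apply ENNReal.ofReal_le_ofReal
      have : {ω : Conf | curve (ν i) ω ∈ ({f : C(unitInterval, ℂ) | ‖f 0‖ ≤ η})ᶜ} = ∅ := by
        ext ω
        simp only [Set.mem_compl_iff, Set.mem_ofPred_eq, Set.mem_empty_iff_false, iff_false,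
          not_not]
        rw [curve_zero, norm_mul, Complex.norm_real, Real.norm_eq_abs,
          abs_of_nonneg (by positivity)]
        have := gam_zero ω
        calc (ν i : ℝ) ^ (-(4/7) : ℝ) * ‖gam ω 0‖ ≤ (ν i : ℝ) ^ (-(4/7) : ℝ) * 1 :=
              mul_le_mul_of_nonneg_left this (by positivity)
          _ ≤ η := by rw [mul_one]; exact hi
      rw [this]; simp)
    rw [ENNReal.ofReal_zero] at h1
    rw [ae_iff]
    exact le_antisymm h1 bot_le
  filter_upwards [ae_all_iff.2 key] with f hf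
  have hlim0 : Tendsto (fun n : ℕ => 1 / ((n : ℝ) + 1)) atTop (𝓝 0) :=
    tendsto_one_div_add_atTop_nhds_zero_nat
  exact norm_le_zero_iff.1 (ge_of_tendsto' hlim0 hf)

theorem lim_half {ν : ℕ → ℕ} (hν : Tendsto ν atTop atTop)
    {μ : ProbabilityMeasure C(unitInterval, ℂ)} (hμ : Tendsto (fun i => lawH (ν i)) atTop (𝓝 μ)) :
    ∀ᵐ f : C(unitInterval, ℂ) ∂(μ : Measure C(unitInterval, ℂ)), ∀ s : unitInterval, 0 ≤ (f s).im := by
  have hsc : Tendsto (fun i => (ν i : ℝ) ^ (-(4/7) : ℝ)) atTop (𝓝 0) :=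
    (tendsto_rpow_neg_atTop (by norm_num : (0:ℝ) < 4/7)).comp
      (tendsto_natCast_atTop_atTop.comp hν)
  have key : ∀ m : ℕ, ∀ᵐ f : C(unitInterval, ℂ) ∂(μ : Measure C(unitInterval, ℂ)), ∀ s : unitInterval,
      -(1 / ((m : ℝ) + 1)) ≤ (f s).im := by
    intro m
    set η : ℝ := 1 / ((m : ℝ) + 1) with hη
    have hη0 : 0 < η := by positivity
    have hG : IsClosed {f : C(unitInterval, ℂ) | ∀ s : unitInterval, -η ≤ (f s).im} := by
      rw [Set.ofPred_forall]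
      refine isClosed_iInter fun s => isClosed_le continuous_const ?_
      exact Complex.continuous_im.comp (by fun_prop)
    have h1 := limit_closedC hμ hG (ε := 0) (by
      filter_upwards [hsc.eventually (ge_mem_nhds hη0)] with i hi
      rw [lawH_apply _ hG.measurableSet.compl]
      apply ENNReal.ofReal_le_ofReal
      have : {ω : Conf | curve (ν i) ω ∈
          ({f : C(unitInterval, ℂ) | ∀ s : unitInterval, -η ≤ (f s).im})ᶜ} = ∅ := by
        ext ω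
        simp only [Set.mem_compl_iff, Set.mem_ofPred_eq, Set.mem_empty_iff_false, iff_false,
          not_not]
        intro s
        set d : ℝ := (ν i : ℝ) ^ (-(4/7) : ℝ) with hd
        have hd0 : 0 ≤ d := by positivity
        obtain ⟨k, _, hk⟩ := H984N.pl_close (N := ν i) (p := fun k => (d : ℂ) * gam ω k)
          (δ := d * (1/2)) (by positivity) (fun k _ => by
            rw [dist_eq_norm, ← mul_sub, norm_mul, Complex.norm_real, Real.norm_eq_abs,
              abs_of_nonneg hd0, ← dist_eq_norm]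
            exact mul_le_mul_of_nonneg_left (gam_step ω k) hd0) s
        have h2 : |(curve (ν i) ω s).im - ((d : ℂ) * gam ω k).im| ≤ d * (1/2) := by
          refine le_trans ?_ hk
          rw [dist_eq_norm, ← Complex.sub_im]
          exact Complex.abs_im_le_norm _
        have h3 : ((d : ℂ) * gam ω k).im = d * (gam ω k).im := by
          rw [Complex.im_ofReal_mul]
        have h4 := gam_im ω k
        rw [h3] at h2
        have h5 := (abs_le.1 h2).1
        nlinarith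
      rw [this]; simp)
    rw [ENNReal.ofReal_zero] at h1
    rw [ae_iff]
    exact le_antisymm h1 bot_le
  filter_upwards [ae_all_iff.2 key] with f hf s
  have hlim0 : Tendsto (fun n : ℕ => -(1 / ((n : ℝ) + 1))) atTop (𝓝 0) := by
    have := (tendsto_one_div_add_atTop_nhds_zero_nat (𝕜 := ℝ)).neg
    simpa using this
  exact le_of_tendsto' hlim0 (fun n => hf n s)

theorem lim_energy {C C2 : ℝ} (hC : 0 < C) (hU : TwoUp C (1/4)) (hC2 : 0 < C2) (hA : AnnUp C2)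
    {α : ℝ} (h0 : 0 < α) (h1 : α < 7/4) {ν : ℕ → ℕ} (hν : Tendsto ν atTop atTop)
    {μ : ProbabilityMeasure C(unitInterval, ℂ)} (hμ : Tendsto (fun i => lawH (ν i)) atTop (𝓝 μ)) :
    ∀ᵐ f : C(unitInterval, ℂ) ∂(μ : Measure C(unitInterval, ℂ)), H984N.EnI α f ≠ ⊤ := by
  have hsc : Tendsto (fun i => (ν i : ℝ) ^ (-(4/7) : ℝ)) atTop (𝓝 0) :=
    (tendsto_rpow_neg_atTop (by norm_num : (0:ℝ) < 4/7)).comp
      (tendsto_natCast_atTop_atTop.comp hν)
  apply limit_energyC h0 hμ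
  intro r hr
  obtain ⟨C', hC', h⟩ := en_cutoff hC hU hC2 hA h0.le h1 hr
  refine ⟨C', fun ρ hρ => ?_⟩
  filter_upwards [hsc.eventually (ge_mem_nhds hρ), hν.eventually_ge_atTop 1] with i hi hi1
  rw [lawH_int (ν i) (g := fun f => cutoff r f * H984N.En α ρ f)
    ((cutoff_cont r).mul (H984N.EnLimit_En_cont h0.le hρ))]
  exact h (ν i) ρ hi1 hi

theorem finalH {c C C2 : ℝ} (hc : 0 < c) (hC : 0 < C) (hL : LowA c (1/4))
    (hU : TwoUp C (1/4)) (hC2 : 0 < C2) (hA : AnnUp C2) :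
    (∃ a A : ℝ, 0 < a ∧ 0 < A ∧ ∀ (n : ℕ) (x : ℝ), 1 ≤ n → 0 < x →
      perc.real {ω | x * (n : ℝ) ^ (4/7 : ℝ) ≤ reach n ω} ≤ A * Real.exp (-(a * x ^ (1/2 : ℝ))) ∧
      perc.real {ω | reach n ω ≤ x * (n : ℝ) ^ (4/7 : ℝ)} ≤ A * x ^ (7/4 : ℝ)) ∧
    (∀ p : ℝ, 0 < p → ∃ c C : ℝ, 0 < c ∧ 0 < C ∧ ∀ n : ℕ, 1 ≤ n →
      c * (n : ℝ) ^ (4/7 * p) ≤ ∫ ω, (reach n ω) ^ p ∂perc ∧
      ∫ ω, (reach n ω) ^ p ∂perc ≤ C * (n : ℝ) ^ (4/7 * p)) ∧
    (∀ᵐ ω ∂perc, Tendsto (fun n : ℕ => Real.log (reach n ω) / Real.log n) atTop (𝓝 (4/7))) ∧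
    (∀ φ : ℕ → ℕ, Tendsto φ atTop atTop → ∃ ψ : ℕ → ℕ, StrictMono ψ ∧
      ∃ μ : ProbabilityMeasure C(unitInterval, ℂ),
        Tendsto (fun i => lawH (φ (ψ i))) atTop (𝓝 μ)) ∧
    (∀ φ : ℕ → ℕ, Tendsto φ atTop atTop → ∀ μ : ProbabilityMeasure C(unitInterval, ℂ),
      Tendsto (fun i => lawH (φ i)) atTop (𝓝 μ) →
      ∀ᵐ f : C(unitInterval, ℂ) ∂(μ : Measure C(unitInterval, ℂ)), f 0 = 0 ∧ (∀ s : unitInterval, 0 ≤ (f s).im) ∧
        (∀ s t : unitInterval, s < t → dimH (f '' Set.Icc s t) = 7 / 4) ∧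
        (∀ β : ℝ, 0 < β → β < 4/7 → ∃ Λ : ℝ, ∀ s t : unitInterval,
          dist (f s) (f t) ≤ Λ * |(s : ℝ) - t| ^ β) ∧
        (∀ β : ℝ, 4/7 < β → ∀ s t : unitInterval, s < t →
          ¬ ∃ Λ : ℝ, ∀ u ∈ Set.Icc s t, ∀ v ∈ Set.Icc s t,
            dist (f u) (f v) ≤ Λ * |(u : ℝ) - v| ^ β)) := by
  obtain ⟨a, A, ha, hA1, hup⟩ := tail_up hc hC hL hU
  obtain ⟨A', hA', hlow⟩ := tail_low hC hU
  refine ⟨⟨a, max A A', ha, lt_max_of_lt_left hA1, fun n x hn hx => ⟨?_, ?_⟩⟩, ?_, ?_, ?_, ?_⟩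
  · exact (hup n x hn hx).trans (mul_le_mul_of_nonneg_right (le_max_left _ _) (Real.exp_nonneg _))
  · exact (hlow n x hn hx).trans
      (mul_le_mul_of_nonneg_right (le_max_right _ _) (Real.rpow_nonneg hx.le _))
  · intro p hp
    exact moments_of ha hA1 hA' hup hlow hp
  · exact as_exponent_of ha hA1 hA' hup hlow
  · intro φ _
    exact exists_limitC (β := 1/2) (by norm_num) (ν := fun i => lawH (φ i)) (fun ε hε => by
      obtain ⟨Λ, hΛ, h⟩ := lawH_tight hc hC hL hU (β := 1/2) (by norm_num) (by norm_num) hε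
      exact ⟨Λ, hΛ, fun i => h (φ i)⟩)
  · intro φ hφ μ hμ
    have hG : ∀ᵐ f : C(unitInterval, ℂ) ∂(μ : Measure C(unitInterval, ℂ)), ∀ m : ℕ, ∃ Λ : ℝ, 1 ≤ Λ ∧
        f ∈ GoodC (4/7 - 1/((m:ℝ)+2)) Λ := by
      rw [ae_all_iff]
      intro m
      apply limit_goodC hμ (H984N.Final_beta m).1
      intro ε hε
      obtain ⟨Λ, hΛ, h⟩ := lawH_tight hc hC hL hU (H984N.Final_beta m).1
        (H984N.Final_beta m).2 hε
      exact ⟨Λ, hΛ, fun i => h (φ i)⟩
    have hEn : ∀ᵐ f : C(unitInterval, ℂ) ∂(μ : Measure C(unitInterval, ℂ)), ∀ m : ℕ,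
        H984N.EnI (7/4 - 1/((m:ℝ)+2)) f ≠ ⊤ := by
      rw [ae_all_iff]
      intro m
      exact lim_energy hC hU hC2 hA (H984N.Final_alpha m).1 (H984N.Final_alpha m).2 hφ hμ
    filter_upwards [hG, hEn, lim_start hφ hμ, lim_half hφ hμ] with f h1 h2 h3 h4
    have hdim : ∀ s t : unitInterval, s < t → dimH (f '' Set.Icc s t) = 7 / 4 := by
      intro s t hst
      refine H984N.Final_det (fun m => ?_) h2 hst
      obtain ⟨Λ, -, -, h5⟩ := h1 m
      exact ⟨Λ, h5⟩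
    refine ⟨h3, h4, hdim, ?_, fun β hβ s t hst => H984N.not_holderOn (hdim s t hst) hβ⟩
    intro β hβ hβ1
    have hev : ∀ᶠ m : ℕ in atTop, 1/((m:ℝ)+2) < 4/7 - β :=
      H984N.Final_tend.eventually (gt_mem_nhds (by linarith))
    obtain ⟨m, hm⟩ := hev.exists
    obtain ⟨Λ, hΛ, -, h5⟩ := h1 m
    refine ⟨Λ, fun s t => (h5 s t).trans ?_⟩
    have h6 : |(s : ℝ) - t| ≤ 1 := by
      rw [abs_le]
      have a1 := s.2.1
      have a2 := s.2.2
      have a3 := t.2.1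
      have a4 := t.2.2
      constructor <;> linarith
    have h7 := Real.rpow_le_rpow_of_exponent_ge' (abs_nonneg ((s : ℝ) - t)) h6 hβ.le
      (show β ≤ 4/7 - 1/((m:ℝ)+2) by linarith)
    exact mul_le_mul_of_nonneg_left h7 (by linarith)

end H984H
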