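import Pool.Agent.H984R4.HN.Defs
import Pool.Agent.H984R4.NP.Model

/-!
The exploration path of critical bond percolation in the half-plane, in the setting of the problem
MP_6c8efb_pr.
-/

namespace H984H

open H974 Finset H342P H984P MeasureTheory

/-- Configurations of the edges of `ℤ²`. -/
abbrev Conf := Edg → Bool

/-- Independent fair coins on the edges (`p = 1 / 2`). -/
noncomputable def perc : Measure Conf :=
  Measure.infinitePi (fun _ : Edg => (PMF.uniformOfFintype Bool).toMeasure)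

/-- The open edges of the half-plane `ℤ × ℕ`: the edge `[x, x + 1]` of the real axis is open for
`x < 0` and closed for `x ≥ 0`; the other edges follow the coins. -/
def opn (ω : Conf) : Set Edg :=
  {e | (e.2.1 = 0 ∧ e.2.2 = true ∧ e.1 < 0) ∨
    (0 ≤ e.2.1 ∧ ¬ (e.2.1 = 0 ∧ e.2.2 = true) ∧ ω e = true)}

open Classical in
/-- One step of the path which keeps the open cluster on its left. The state `(v, q)` stands for
the point at the corner `q` of the vertex `v`; the path goes round `v` counterclockwise until it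
meets an open edge of `v` and then follows this edge. -/
noncomputable def step (G : Set Edg) (σ : St) : St := match σ.2 with
  | .ne => if (σ.1.1, σ.1.2, false) ∈ G then ((σ.1.1, σ.1.2 + 1), .se) else (σ.1, .nw)
  | .nw => if (σ.1.1 - 1, σ.1.2, true) ∈ G then ((σ.1.1 - 1, σ.1.2), .ne) else (σ.1, .sw)
  | .sw => if (σ.1.1, σ.1.2 - 1, false) ∈ G then ((σ.1.1, σ.1.2 - 1), .nw) else (σ.1, .se)
  | .se => if (σ.1.1, σ.1.2, true) ∈ G then ((σ.1.1 + 1, σ.1.2), .sw) else (σ.1, .ne)

/-- The exploration path, which starts next to the origin. -/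
noncomputable def path (ω : Conf) : ℕ → St
  | 0 => ((0, 0), .ne)
  | k + 1 => step (opn ω) (path ω k)

/-- The point of a state: at distance `1/4` from the edges at the vertex. -/
noncomputable def place (σ : St) : ℂ := match σ.2 with
  | .ne => ⟨σ.1.1 + 1/4, σ.1.2 + 1/4⟩
  | .nw => ⟨σ.1.1 - 1/4, σ.1.2 + 1/4⟩
  | .sw => ⟨σ.1.1 - 1/4, σ.1.2 - 1/4⟩
  | .se => ⟨σ.1.1 + 1/4, σ.1.2 - 1/4⟩

/-- The point after `k` steps. -/
noncomputable def gam (ω : Conf) (k : ℕ) : ℂ := place (path ω k)

/-- The first `n` steps, rescaled by `n ^ (-4/7)`, as a curve on `[0, 1]`. -/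
noncomputable def curve (n : ℕ) (ω : Conf) : C(unitInterval, ℂ) :=
  H984N.pl n (fun k => (((n : ℝ) ^ (-(4/7) : ℝ) : ℝ) : ℂ) * gam ω k)

/-- The greatest distance from the origin in the first `n` steps. -/
noncomputable def reach (n : ℕ) (ω : Conf) : ℝ :=
  (Finset.range (n + 1)).sup' ⟨0, Finset.mem_range.mpr (Nat.succ_pos n)⟩ (fun k => ‖gam ω k‖)

/-! ### auxiliary objects -/

/-- The box of size `ρ`, with its path from the middle of the top side to the origin. -/
def bx (ρ : ℤ) : Dm := ⟨-ρ, ρ, ρ, 0⟩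

/-- The open edges in the box. -/
noncomputable def cut (ω : Conf) (ρ : ℤ) : Finset Edg :=
  (bx ρ).edges.filter (fun e => ω e = true)

/-- The path stays in the box of radius `ρ` during the first `n` steps. -/
def Stay (ρ : ℤ) (n : ℕ) (ω : Conf) : Prop := ∀ j ≤ n, sd (path ω j).1 (0, 0) < ρ

/-- Discrete energy of the first `n` steps. -/
noncomputable def enr (α : ℝ) (n : ℕ) (ω : Conf) : ℝ :=
  ∑ i ∈ Finset.range (n + 1), ∑ j ∈ Finset.range (n + 1),
    ((max (sd (path ω i).1 (path ω j).1) 1 : ℤ) : ℝ) ^ (-α)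

/-- Hölder continuous curves. -/
def GoodC (β Λ : ℝ) : Set C(unitInterval, ℂ) :=
  {f | ‖f 0‖ ≤ Λ ∧ ∀ s t : unitInterval, dist (f s) (f t) ≤ Λ * |(s : ℝ) - t| ^ β}

/-- Cutoff function: `1` for `‖f‖ ≤ r` and `0` for `‖f‖ ≥ 2 r`. -/
noncomputable def cutoff (r : ℝ) (f : C(unitInterval, ℂ)) : ℝ := max 0 (min 1 (2 - ‖f‖ / r))

end H984H
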