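import Pool.Agent.H984R4.HN.LayerR

/-!
C4: closed dual paths near the boundary of a rectangle.
-/

namespace H984H

open H974 Finset H342P H984P

theorem LayerD_dmp_sub {a b c d : ℤ} : dmp (RE a b c d) ⊆ RE (a - 1) b (c - 1) d := by
  rintro ⟨x, y, _ | _⟩ h <;> rw [mem_dmp] at h
  · simp only [dls_f, mem_RE_true, mem_RE_false] at h ⊢
    omega
  · simp only [dls_t, mem_RE_true, mem_RE_false] at h ⊢
    omega

theorem LayerD_bdr {a b c d ρ : ℤ} {e : Edg} (h : bdr a b c d (src e) < ρ) :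
    bdr (a - 1) b (c - 1) d (dsrc e) < ρ + 1 ∧ bdr (a - 1) b (c - 1) d (dtgt e) < ρ + 1 := by
  obtain ⟨x, y, _ | _⟩ := e
  · simp only [bdr, src_mk, dsrc_false, dtgt_mk] at h ⊢
    omega
  · simp only [bdr, src_mk, dsrc_true, dtgt_mk] at h ⊢
    omega

theorem dual_layer_rect {a b c d ρ w : ℤ} {m : ℕ} (hρ : 1 ≤ ρ) (h1 : 4 * ρ + 4 ≤ b - a)
    (h2 : 4 * ρ + 4 ≤ d - c) (hw : 2 * (m + 3) * (ρ + 3) + 4 * (ρ + 2) ≤ w) :
    P (RE a b c d) (fun F => ∃ f g : Vtx, w ≤ sd f g ∧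
      DReach ({e | e ∈ RE a b c d ∧ bdr a b c d (src e) < ρ ∧ bdr a b c d (tgt e) < ρ} \ ↑F :
        Set Edg) f g) ≤
      4 * ((((b - a : ℤ) : ℝ) + ((d - c : ℤ) : ℝ)) / ρ + 8) * (1/2) ^ m := by
  have hok : Ok (fun _ : Edg => (1/2 : ℝ)) := fun _ => by norm_num
  set A : Finset Edg → Prop := fun G => ∃ f g : Vtx, w ≤ sd f g ∧
    DReach (↑G ∩ {e | bdr a b c d (src e) < ρ ∧ bdr a b c d (tgt e) < ρ} : Set Edg) f g with hA
  set B : Finset Edg → Prop := fun G => ∃ f g : Vtx, w ≤ sd f g ∧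
    Reach (↑G ∩ {e | bdr (a - 1) b (c - 1) d (src e) < ρ + 1 ∧
      bdr (a - 1) b (c - 1) d (tgt e) < ρ + 1} : Set Edg) f g with hB
  have e1 : P (RE a b c d) (fun F => ∃ f g : Vtx, w ≤ sd f g ∧
      DReach ({e | e ∈ RE a b c d ∧ bdr a b c d (src e) < ρ ∧ bdr a b c d (tgt e) < ρ} \ ↑F :
        Set Edg) f g) = P (RE a b c d) (fun F => A (RE a b c d \ F)) := by
    apply Pr_congr
    intro F _
    have hset : ({e | e ∈ RE a b c d ∧ bdr a b c d (src e) < ρ ∧ bdr a b c d (tgt e) < ρ} \ ↑F :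
        Set Edg) = (↑(RE a b c d \ F) ∩ {e | bdr a b c d (src e) < ρ ∧ bdr a b c d (tgt e) < ρ} :
        Set Edg) := by
      ext e
      simp only [Set.mem_sdiff, Set.mem_ofPred_eq, Finset.mem_coe, Set.mem_inter_iff,
        Finset.coe_sdiff]
      tauto
    rw [hset]
  have e2 : P (RE a b c d) (fun F => A (RE a b c d \ F)) = P (RE a b c d) A := by
    have h := Pr_compl (fun _ : Edg => (1/2 : ℝ)) (RE a b c d) A
    refine h.symm.trans ?_
    have h0 : (fun _ : Edg => (1 - 1/2 : ℝ)) = fun _ => (1/2 : ℝ) := by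
      funext e
      norm_num
    rw [h0]
  have e3 : P (RE a b c d) A ≤ P (RE a b c d) (fun F => B (dmp F)) := by
    apply Pr_mono hok
    rintro F _ ⟨f, g, hfg, hr⟩
    refine ⟨f, g, hfg, ?_⟩
    refine Reach.mono ?_ (reach_dl.2 hr)
    rintro _ ⟨e, ⟨he1, he2⟩, rfl⟩
    refine ⟨?_, ?_⟩
    · rw [coe_dmp]
      exact Set.mem_image_of_mem _ he1
    · have h3 := LayerD_bdr he2.1
      show bdr (a - 1) b (c - 1) d (src (dl e)) < ρ + 1 ∧ bdr (a - 1) b (c - 1) d (tgt (dl e)) < ρ + 1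
      rw [src_dl, tgt_dl]
      exact h3
  have e4 : P (RE a b c d) (fun F => B (dmp F)) = P (dmp (RE a b c d)) B :=
    (pr_dmp (1/2) (RE a b c d) B).symm
  have e5 : P (dmp (RE a b c d)) B ≤ P (RE (a - 1) b (c - 1) d) B := by
    apply Pr_mono_set hok LayerD_dmp_sub
    rintro F G hFG _ ⟨f, g, hfg, hr⟩
    refine ⟨f, g, hfg, hr.mono ?_⟩
    exact Set.inter_subset_inter_left _ (by exact_mod_cast hFG)
  have e6 : P (RE (a - 1) b (c - 1) d) B ≤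
      4 * ((((b - (a - 1) : ℤ) : ℝ) + ((d - (c - 1) : ℤ) : ℝ)) / ((ρ + 1 : ℤ) : ℝ) + 4) *
        (1/2) ^ m := by
    refine layer_rect (by omega) (by omega) (by omega) ?_
    have : (0 : ℤ) ≤ m := by positivity
    nlinarith
  rw [e1, e2]
  refine e3.trans (e4.le.trans (e5.trans (e6.trans ?_)))
  have hρ' : (1 : ℝ) ≤ ρ := by exact_mod_cast hρ
  have hba : (0 : ℝ) ≤ ((b - a : ℤ) : ℝ) := by
    have : (0 : ℤ) ≤ b - a := by omega
    exact_mod_cast this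
  have hdc : (0 : ℝ) ≤ ((d - c : ℤ) : ℝ) := by
    have : (0 : ℤ) ≤ d - c := by omega
    exact_mod_cast this
  have h7 : (((b - (a - 1) : ℤ) : ℝ) + ((d - (c - 1) : ℤ) : ℝ)) / ((ρ + 1 : ℤ) : ℝ) ≤
      (((b - a : ℤ) : ℝ) + ((d - c : ℤ) : ℝ)) / ρ + 1 := by
    have e7 : (((b - (a - 1) : ℤ) : ℝ) + ((d - (c - 1) : ℤ) : ℝ)) =
        (((b - a : ℤ) : ℝ) + ((d - c : ℤ) : ℝ)) + 2 := by push_cast; ring
    have e8 : ((ρ + 1 : ℤ) : ℝ) = ρ + 1 := by push_cast; ring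
    rw [e7, e8, add_div]
    have h8 : (((b - a : ℤ) : ℝ) + ((d - c : ℤ) : ℝ)) / (ρ + 1) ≤
        (((b - a : ℤ) : ℝ) + ((d - c : ℤ) : ℝ)) / ρ :=
      div_le_div_of_nonneg_left (by linarith) (by linarith) (by linarith)
    have h9 : (2 : ℝ) / (ρ + 1) ≤ 1 := by
      rw [div_le_one (by linarith)]
      linarith
    linarith
  have hpow : (0 : ℝ) ≤ (1/2) ^ m := by positivity
  refine mul_le_mul_of_nonneg_right ?_ hpow
  linarith

end H984H
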