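import Pool.Agent.H984R4.HN.Defs
import Pool.Agent.H984R3.Per.Layer2

/-!
C3: open paths near the boundary of a rectangle.
-/

namespace H984H

open H974 Finset H342P H984P

/-- Distance of a vertex to the boundary of the rectangle `[a,b] × [c,d]`. -/
def bdr (a b c d : ℤ) (v : Vtx) : ℤ := min (min (v.1 - a) (b - v.1)) (min (v.2 - c) (d - v.2))

/-- The layer. -/
def layerR_S (a b c d R : ℤ) : Set Edg := {e | bdr a b c d (src e) < R ∧ bdr a b c d (tgt e) < R}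

theorem layerR_swap (a b c d : ℤ) (u : Vtx) : bdr c d a b (u.2, u.1) = bdr a b c d u := by
  unfold bdr
  exact min_comm _ _

/-- An endpoint of a nontrivial path in a box is in the box. -/
theorem layerR_end {a b c d : ℤ} {F : Finset Edg} (hF : F ⊆ RE a b c d) {G : Set Edg}
    (hG : G ⊆ ↑F) {u v : Vtx} (h : Reach G u v) (hne : u ≠ v) : inR a b c d u := by
  rcases Relation.ReflTransGen.cases_head h with h1 | ⟨w, h1, -⟩
  · exact absurd h1 hne
  · obtain ⟨e, he, hc⟩ := h1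
    have hm : e ∈ RE a b c d := hF (by exact_mod_cast hG he)
    obtain ⟨x, y, t⟩ := e
    unfold inR
    cases t
    · rw [mem_RE_false] at hm
      simp only [src_mk, tgt_false] at hc
      rcases hc with ⟨h3, h4⟩ | ⟨h3, h4⟩
      · rw [← h3]; simp only; omega
      · rw [← h4]; simp only; omega
    · rw [mem_RE_true] at hm
      simp only [src_mk, tgt_true] at hc
      rcases hc with ⟨h3, h4⟩ | ⟨h3, h4⟩
      · rw [← h3]; simp only; omega
      · rw [← h4]; simp only; omega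

/-- A wide path in the layer crosses a long rectangle. -/
theorem layerR_cross {a b c d : ℤ} {K : ℕ} {R w : ℤ} (hR : 1 ≤ R) (hK : 1 ≤ K)
    (hcd : 4 * R ≤ d - c)
    (hw : K * (R + 1) + 4 * R ≤ w) {F : Finset Edg} (hF : F ⊆ RE a b c d) {u v : Vtx}
    (huv : u.1 + w ≤ v.1) (h : Reach (↑F ∩ layerR_S a b c d R) u v) :
    ∃ x ∈ Finset.Icc a b, x + K * (R + 1) ≤ b ∧
      (LRc x (x + K * (R + 1)) c (c + R) F ∨
        LRc x (x + K * (R + 1)) (d - R) (d - R + R) F) := by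
  have hK0 : (1:ℤ) * (R + 1) ≤ (K:ℤ) * (R + 1) := by
    apply mul_le_mul_of_nonneg_right _ (by omega)
    exact_mod_cast hK
  have hne : u ≠ v := by rintro rfl; omega
  have hu := layerR_end hF Set.inter_subset_left h hne
  have hv := layerR_end hF Set.inter_subset_left h.symm hne.symm
  unfold inR at hu hv
  set L : ℤ := (K:ℤ) * (R + 1) with hL
  set x₀ : ℤ := max u.1 (a + R) with ha
  have ha1 : u.1 ≤ x₀ := le_max_left _ _
  have ha2 : a + R ≤ x₀ := le_max_right _ _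
  have ha3 : x₀ ≤ u.1 + R := max_le (by omega) (by omega)
  have hab : x₀ + L ≤ v.1 - R := by omega
  have hab' : x₀ + L ≤ b - R := by omega
  have hlt : x₀ < x₀ + L := by omega
  obtain ⟨y1, y2, k1, k2, k3, -⟩ := sub_LR (a := x₀) (b := x₀ + L) (c := c) (d := d) hlt
    (by
      rintro x y ⟨h, -⟩ _ _
      have := hF (by exact_mod_cast h : ((x, y, true) : Edg) ∈ F)
      rw [mem_RE_true] at this; omega)
    (by
      rintro x y ⟨h, -⟩ _ _
      have := hF (by exact_mod_cast h : ((x, y, false) : Edg) ∈ F)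
      rw [mem_RE_false] at this; omega) h ha1 (by omega : x₀ + L ≤ v.1)
  -- every edge is on one side
  have hside : ∀ e : Edg, e ∈ (↑F ∩ layerR_S a b c d R) ∩ (↑(LRE x₀ (x₀ + L) c d) : Set Edg) →
      ((src e).2 < c + R ∧ (tgt e).2 < c + R ∧ e ∈ LRE x₀ (x₀ + L) c (c + R)) ∨
      (d - R < (src e).2 ∧ d - R < (tgt e).2 ∧
        e ∈ LRE x₀ (x₀ + L) (d - R) (d - R + R)) := by
    rintro ⟨x, y, t⟩ ⟨⟨-, hl⟩, hm⟩
    have hm' : ((x, y, t) : Edg) ∈ LRE x₀ (x₀ + L) c d := by exact_mod_cast hm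
    unfold layerR_S bdr at hl
    simp only [Set.mem_setOf_eq] at hl
    cases t
    · simp only [src_mk, tgt_false] at hl ⊢
      rw [mem_LRE_false] at hm' ⊢
      rw [mem_LRE_false]
      omega
    · simp only [src_mk, tgt_true] at hl ⊢
      rw [mem_LRE_true] at hm' ⊢
      rw [mem_LRE_true]
      omega
  have key : ∀ z, Reach ((↑F ∩ layerR_S a b c d R) ∩ (↑(LRE x₀ (x₀ + L) c d) : Set Edg))
      (x₀, y1) z →
      z = (x₀, y1) ∨ (z.2 < c + R ∧ y1 < c + R ∧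
        Reach (↑F ∩ ↑(LRE x₀ (x₀ + L) c (c + R))) (x₀, y1) z) ∨
      (d - R < z.2 ∧ d - R < y1 ∧
        Reach (↑F ∩ ↑(LRE x₀ (x₀ + L) (d - R) (d - R + R))) (x₀, y1) z) := by
    intro z hz
    induction hz with
    | refl => exact Or.inl rfl
    | @tail z z' _ hs ih =>
      obtain ⟨e, he, hc⟩ := hs
      have hs := hside e he
      have heF := he.1.1
      right
      rcases ih with ih | ih | ih
      · subst ih
        rcases hs with ⟨s1, s2, s3⟩ | ⟨s1, s2, s3⟩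
        · left
          have hadj : Adj (↑F ∩ ↑(LRE x₀ (x₀ + L) c (c + R))) (x₀, y1) z' :=
            ⟨e, ⟨heF, by exact_mod_cast s3⟩, hc⟩
          rcases hc with ⟨h3, h4⟩ | ⟨h3, h4⟩
          · rw [h4] at s2; rw [h3] at s1; exact ⟨s2, s1, hadj.reach⟩
          · rw [h4] at s2; rw [h3] at s1; exact ⟨s1, s2, hadj.reach⟩
        · right
          have hadj : Adj (↑F ∩ ↑(LRE x₀ (x₀ + L) (d - R) (d - R + R))) (x₀, y1) z' :=
            ⟨e, ⟨heF, by exact_mod_cast s3⟩, hc⟩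
          rcases hc with ⟨h3, h4⟩ | ⟨h3, h4⟩
          · rw [h4] at s2; rw [h3] at s1; exact ⟨s2, s1, hadj.reach⟩
          · rw [h4] at s2; rw [h3] at s1; exact ⟨s1, s2, hadj.reach⟩
      · obtain ⟨i1, i2, i3⟩ := ih
        rcases hs with ⟨s1, s2, s3⟩ | ⟨s1, s2, s3⟩
        · left
          have hadj : Adj (↑F ∩ ↑(LRE x₀ (x₀ + L) c (c + R))) z z' :=
            ⟨e, ⟨heF, by exact_mod_cast s3⟩, hc⟩
          rcases hc with ⟨h3, h4⟩ | ⟨h3, h4⟩
          · rw [h4] at s2; exact ⟨s2, i2, i3.trans hadj.reach⟩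
          · rw [h3] at s1; exact ⟨s1, i2, i3.trans hadj.reach⟩
        · exfalso
          rcases hc with ⟨h3, h4⟩ | ⟨h3, h4⟩
          · rw [h3] at s1; omega
          · rw [h4] at s2; omega
      · obtain ⟨i1, i2, i3⟩ := ih
        rcases hs with ⟨s1, s2, s3⟩ | ⟨s1, s2, s3⟩
        · exfalso
          rcases hc with ⟨h3, h4⟩ | ⟨h3, h4⟩
          · rw [h3] at s1; omega
          · rw [h4] at s2; omega
        · right
          have hadj : Adj (↑F ∩ ↑(LRE x₀ (x₀ + L) (d - R) (d - R + R))) z z' :=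
            ⟨e, ⟨heF, by exact_mod_cast s3⟩, hc⟩
          rcases hc with ⟨h3, h4⟩ | ⟨h3, h4⟩
          · rw [h4] at s2; exact ⟨s2, i2, i3.trans hadj.reach⟩
          · rw [h3] at s1; exact ⟨s1, i2, i3.trans hadj.reach⟩
  refine ⟨x₀, by rw [Finset.mem_Icc]; omega, by omega, ?_⟩
  rcases key _ k3 with h1 | ⟨h1, h2, h3⟩ | ⟨h1, h2, h3⟩
  · exfalso
    simp only [Prod.mk.injEq] at h1
    omega
  · left
    exact ⟨y1, y2, by simp only at h1; omega, by simp only at h1; omega, h3⟩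
  · right
    exact ⟨y1, y2, by simp only at h1; omega, by simp only at h1; omega, h3⟩

/-- A wide path in the layer crosses a long rectangle which starts at a multiple of `R + 1`. -/
theorem layerR_cross2 {a b c d : ℤ} {K : ℕ} {R w : ℤ} (hR : 1 ≤ R) (hK : 1 ≤ K)
    (hcd : 4 * R ≤ d - c)
    (hw : (K + 1 : ℕ) * (R + 1) + 4 * R ≤ w) {F : Finset Edg} (hF : F ⊆ RE a b c d) {u v : Vtx}
    (huv : u.1 + w ≤ v.1) (h : Reach (↑F ∩ layerR_S a b c d R) u v) :
    ∃ j : ℤ, 0 ≤ j ∧ a + j * (R + 1) + K * (R + 1) ≤ b ∧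
      (LRc (a + j * (R + 1)) (a + j * (R + 1) + K * (R + 1)) c (c + R) F ∨
        LRc (a + j * (R + 1)) (a + j * (R + 1) + K * (R + 1)) (d - R) (d - R + R) F) := by
  obtain ⟨x, hx, h1, h2⟩ := layerR_cross hR (by omega : 1 ≤ K + 1) hcd hw hF huv h
  rw [Finset.mem_Icc] at hx
  have hd := Int.emod_add_mul_ediv (x - a + R) (R + 1)
  have hd1 := Int.emod_nonneg (x - a + R) (by omega : R + 1 ≠ 0)
  have hd2 := Int.emod_lt_of_pos (x - a + R) (by omega : 0 < R + 1)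
  set q := (x - a + R) / (R + 1) with hq
  set r := (x - a + R) % (R + 1) with hr
  have hq0 : 0 ≤ q := Int.ediv_nonneg (by omega) (by omega)
  have e1 : ((K + 1 : ℕ):ℤ) * (R + 1) = K * (R + 1) + (R + 1) := by push_cast; ring
  rw [e1] at h1 h2
  have e2 : q * (R + 1) = x - a + R - r := by rw [mul_comm]; linarith
  have hK0 : (1:ℤ) * (R + 1) ≤ (K:ℤ) * (R + 1) := by
    apply mul_le_mul_of_nonneg_right _ (by omega)
    exact_mod_cast hK
  refine ⟨q, hq0, by omega, ?_⟩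
  rcases h2 with h2 | h2
  · exact Or.inl (layL_sub (by omega) (by omega) (by omega) h2)
  · exact Or.inr (layL_sub (by omega) (by omega) (by omega) h2)

/-- Wide paths. -/
theorem layerR_x {a b c d : ℤ} {m : ℕ} {R w : ℤ} (hR : 1 ≤ R) (hab : 4 * R ≤ b - a)
    (hcd : 4 * R ≤ d - c) (hw : (m + 2) * (R + 1) + 4 * R ≤ w) :
    Pr (fun _ => (1/2:ℝ)) (RE a b c d) (fun F => ∃ u v : Vtx, w ≤ |u.1 - v.1| ∧
      Reach (↑F ∩ layerR_S a b c d R) u v) ≤ (((b - a : ℤ):ℝ) / R + 2) * (1/2) ^ m := by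
  have hok : Ok (fun _ : Edg => (1/2:ℝ)) := fun _ => ⟨by norm_num, by norm_num⟩
  set J : Finset ℤ := ((Finset.Icc (0:ℤ) ((b - a) / (R + 1))).image
    (fun j => a + j * (R + 1))).filter
    (fun x => a ≤ x ∧ x + (m + 1 : ℕ) * (R + 1) ≤ b) with hJ
  have hq0 : 0 ≤ (b - a) / (R + 1) := Int.ediv_nonneg (by omega) (by omega)
  have hcard : (J.card : ℝ) ≤ ((b - a : ℤ):ℝ) / R + 2 := by
    have h1 : J.card ≤ (Finset.Icc (0:ℤ) ((b - a) / (R + 1))).card :=
      (Finset.card_filter_le _ _).trans Finset.card_image_le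
    have h2 : ((Finset.Icc (0:ℤ) ((b - a) / (R + 1))).card : ℤ) = (b - a) / (R + 1) + 1 := by
      rw [Int.card_Icc]
      rw [Int.toNat_of_nonneg (by omega)]
      ring
    have h3 : (J.card : ℤ) ≤ (b - a) / (R + 1) + 1 := by rw [← h2]; exact_mod_cast h1
    have h4 : (J.card : ℝ) ≤ (((b - a) / (R + 1) : ℤ) : ℝ) + 1 := by exact_mod_cast h3
    have h5 : (((b - a) / (R + 1) : ℤ) : ℝ) ≤ ((b - a : ℤ):ℝ) / R := by
      have h6 : (((b - a) / (R + 1) : ℤ)) * (R + 1) ≤ b - a := Int.ediv_mul_le _ (by omega)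
      have hRp : (0:ℝ) < R := by exact_mod_cast (by omega : 0 < R)
      rw [le_div_iff₀ hRp]
      have h7 : (((b - a) / (R + 1) : ℤ)) * R ≤ b - a := by nlinarith
      exact_mod_cast h7
    linarith
  have hR0 : 0 ≤ ((m + 1 : ℕ):ℤ) * (R + 1) := by positivity
  refine le_trans (Pr_mono hok (B := fun F => ∃ x ∈ J,
      (LRc x (x + (m + 1 : ℕ) * (R + 1)) c (c + R) F ∨
        LRc x (x + (m + 1 : ℕ) * (R + 1)) (d - R) (d - R + R) F)) ?_) ?_
  · have hmemJ : ∀ j : ℤ, 0 ≤ j → a + j * (R + 1) + (m + 1 : ℕ) * (R + 1) ≤ b →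
        a + j * (R + 1) ∈ J := by
      intro j h0 h1
      rw [hJ, Finset.mem_filter, Finset.mem_image]
      have h2 : 0 ≤ j * (R + 1) := mul_nonneg h0 (by omega)
      refine ⟨⟨j, ?_, rfl⟩, by omega, h1⟩
      rw [Finset.mem_Icc]
      refine ⟨h0, ?_⟩
      rw [Int.le_ediv_iff_mul_le (by omega)]
      omega
    rintro F hF ⟨u, v, huv, hr⟩
    have hw' : (((m + 1) + 1 : ℕ):ℤ) * (R + 1) + 4 * R ≤ w := by
      push_cast
      have : ((m:ℤ) + 1 + 1) * (R + 1) = (m + 2) * (R + 1) := by ring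
      rw [this]; exact hw
    rcases le_total u.1 v.1 with h1 | h1
    · rw [abs_sub_comm, abs_of_nonneg (by omega)] at huv
      obtain ⟨j, k1, k2, k3⟩ := layerR_cross2 hR (by omega : 1 ≤ m + 1) hcd hw' hF
        (by omega : u.1 + w ≤ v.1) hr
      exact ⟨a + j * (R + 1), hmemJ j k1 k2, k3⟩
    · rw [abs_of_nonneg (by omega)] at huv
      obtain ⟨j, k1, k2, k3⟩ := layerR_cross2 hR (by omega : 1 ≤ m + 1) hcd hw' hF
        (by omega : v.1 + w ≤ u.1) hr.symm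
      exact ⟨a + j * (R + 1), hmemJ j k1 k2, k3⟩
  · refine le_trans (Pr_exists_le hok _ J _) ?_
    have hb : ∀ x ∈ J, Pr (fun _ => (1/2:ℝ)) (RE a b c d) (fun F =>
        (LRc x (x + (m + 1 : ℕ) * (R + 1)) c (c + R) F ∨
        LRc x (x + (m + 1 : ℕ) * (R + 1)) (d - R) (d - R + R) F)) ≤ (1/2) ^ m := by
      intro x₀ hx₀
      rw [hJ, Finset.mem_filter] at hx₀
      have ha0 := hx₀.2.1
      have ha1 := hx₀.2.2
      refine le_trans (Pr_or_le hok _ _ _) ?_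
      have p1 := layL_long (a := x₀) (c := c) hR (RE a b c d) (m + 1) (by omega) (by
        rintro ⟨x, y, _ | _⟩ h
        · simp only [mem_LRE_false, mem_RE_false] at h ⊢; omega
        · simp only [mem_LRE_true, mem_RE_true] at h ⊢; omega)
      have p2 := layL_long (a := x₀) (c := d - R) hR (RE a b c d) (m + 1) (by omega) (by
        rintro ⟨x, y, _ | _⟩ h
        · simp only [mem_LRE_false, mem_RE_false] at h ⊢; omega
        · simp only [mem_LRE_true, mem_RE_true] at h ⊢; omega)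
      rw [pow_succ] at p1 p2
      have := add_le_add p1 p2
      linarith
    refine le_trans (Finset.sum_le_sum hb) ?_
    rw [Finset.sum_const, nsmul_eq_mul]
    exact mul_le_mul_of_nonneg_right hcard (by positivity)

theorem layer_rect {a b c d ρ w : ℤ} {m : ℕ} (hρ : 1 ≤ ρ) (h1 : 4 * ρ ≤ b - a)
    (h2 : 4 * ρ ≤ d - c) (hw : 2 * (m + 3) * (ρ + 1) + 4 * ρ ≤ w) :
    P (RE a b c d) (fun F => ∃ u v : Vtx, w ≤ sd u v ∧
      Reach (↑F ∩ {e | bdr a b c d (src e) < ρ ∧ bdr a b c d (tgt e) < ρ} : Set Edg) u v) ≤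
      4 * ((((b - a : ℤ) : ℝ) + ((d - c : ℤ) : ℝ)) / ρ + 4) * (1/2) ^ m := by
  have hok : Ok (fun _ : Edg => (1/2:ℝ)) := fun _ => ⟨by norm_num, by norm_num⟩
  have hw' : ((m:ℤ) + 2) * (ρ + 1) + 4 * ρ ≤ w := by
    have h3 : 0 ≤ ((m:ℤ) + 4) * (ρ + 1) := by positivity
    linarith
  have hA := layerR_x (a := a) (b := b) (c := c) (d := d) hρ h1 h2 hw'
  have hB : Pr (fun _ => (1/2:ℝ)) (RE a b c d) (fun F => ∃ u v : Vtx, w ≤ |u.2 - v.2| ∧
      Reach (↑F ∩ layerR_S a b c d ρ) u v) ≤ (((d - c : ℤ):ℝ) / ρ + 2) * (1/2) ^ m := by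
    refine le_trans ?_ (layerR_x (a := c) (b := d) (c := a) (d := b) hρ h2 h1 hw')
    have h3 : RE c d a b = tps.mp (RE a b c d) := by rw [tps_RE]
    rw [h3, LSym.pr]
    apply Pr_mono hok
    rintro F _ ⟨u, v, huv, hr⟩
    have h4 := tps.reach hr
    refine ⟨tps.ψ u, tps.ψ v, huv, h4.mono ?_⟩
    rintro _ ⟨e, ⟨he1, he2⟩, rfl⟩
    constructor
    · rw [LSym.coe_mp]; exact ⟨e, he1, rfl⟩
    · unfold layerR_S at he2 ⊢
      simp only [Set.mem_setOf_eq] at he2 ⊢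
      obtain ⟨x, y, t⟩ := e
      cases t
      · simp only [src_mk, tgt_false, tps_φ, Bool.not_false, tgt_true] at he2 ⊢
        exact ⟨(layerR_swap a b c d (x, y)).trans_lt he2.1,
          (layerR_swap a b c d (x, y + 1)).trans_lt he2.2⟩
      · simp only [src_mk, tgt_true, tps_φ, Bool.not_true, tgt_false] at he2 ⊢
        exact ⟨(layerR_swap a b c d (x, y)).trans_lt he2.1,
          (layerR_swap a b c d (x + 1, y)).trans_lt he2.2⟩
  have hC : P (RE a b c d) (fun F => ∃ u v : Vtx, w ≤ sd u v ∧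
      Reach (↑F ∩ {e | bdr a b c d (src e) < ρ ∧ bdr a b c d (tgt e) < ρ} : Set Edg) u v) ≤
      Pr (fun _ => (1/2:ℝ)) (RE a b c d) (fun F => ∃ u v : Vtx, w ≤ |u.1 - v.1| ∧
      Reach (↑F ∩ layerR_S a b c d ρ) u v) +
      Pr (fun _ => (1/2:ℝ)) (RE a b c d) (fun F => ∃ u v : Vtx, w ≤ |u.2 - v.2| ∧
      Reach (↑F ∩ layerR_S a b c d ρ) u v) := by
    refine le_trans (Pr_mono hok ?_) (Pr_or_le hok _ _ _)
    rintro F _ ⟨u, v, huv, hr⟩
    unfold sd at huv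
    rcases le_max_iff.mp huv with huv | huv
    · exact Or.inl ⟨u, v, huv, hr⟩
    · exact Or.inr ⟨u, v, huv, hr⟩
  have hRp : (0:ℝ) < ρ := by exact_mod_cast (by omega : 0 < ρ)
  have hba : (0:ℝ) ≤ ((b - a : ℤ):ℝ) := by exact_mod_cast (by omega : 0 ≤ b - a)
  have hdc : (0:ℝ) ≤ ((d - c : ℤ):ℝ) := by exact_mod_cast (by omega : 0 ≤ d - c)
  have hpos : 0 ≤ ((((b - a : ℤ) : ℝ) + ((d - c : ℤ) : ℝ)) / ρ + 4) * (1/2:ℝ) ^ m := by positivity
  have e1 : (((b - a : ℤ):ℝ) / ρ + 2) * (1/2:ℝ) ^ m + (((d - c : ℤ):ℝ) / ρ + 2) * (1/2:ℝ) ^ m =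
      ((((b - a : ℤ) : ℝ) + ((d - c : ℤ) : ℝ)) / ρ + 4) * (1/2:ℝ) ^ m := by ring
  have e2 : 4 * ((((b - a : ℤ) : ℝ) + ((d - c : ℤ) : ℝ)) / ρ + 4) * (1/2:ℝ) ^ m =
      4 * (((((b - a : ℤ) : ℝ) + ((d - c : ℤ) : ℝ)) / ρ + 4) * (1/2:ℝ) ^ m) := by ring
  rw [e2]
  linarith

end H984H
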