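import Pool.Agent.H984R4.HN.FinalH
import Pool.Agent.H984R4.HN.Disp

/-!
The limits do not return to the origin.
-/

namespace H984H

open H974 Finset H342P H984P MeasureTheory Filter Topology

theorem curve_node {n : ℕ} (ω : Conf) {k : ℕ} (hk : k < n) {s : unitInterval}
    (h1 : (k : ℝ) ≤ s * n) (h2 : (s : ℝ) * n ≤ k + 1) :
    ‖curve n ω s - (((n : ℝ) ^ (-(4/7) : ℝ) : ℝ) : ℂ) * gam ω k‖ ≤
      (n : ℝ) ^ (-(4/7) : ℝ) * (1/2) := by
  unfold curve
  rw [H984N.pl_seg hk h1 h2, add_sub_cancel_left, norm_mul, Complex.norm_real, Real.norm_eq_abs,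
    abs_of_nonneg (by linarith), ← mul_sub, norm_mul, Complex.norm_real, Real.norm_eq_abs,
    abs_of_nonneg (by positivity)]
  have h3 := gam_step ω k
  rw [dist_comm, dist_eq_norm] at h3
  have h4 : (s : ℝ) * n - k ≤ 1 := by linarith
  have h5 : 0 ≤ (s : ℝ) * n - k := by linarith
  have h6 : 0 ≤ (n : ℝ) ^ (-(4/7) : ℝ) := by positivity
  have h7 : (n : ℝ) ^ (-(4/7) : ℝ) * ‖gam ω (k + 1) - gam ω k‖ ≤
      (n : ℝ) ^ (-(4/7) : ℝ) * (1/2) := mul_le_mul_of_nonneg_left h3 h6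
  calc ((s : ℝ) * n - k) * ((n : ℝ) ^ (-(4/7) : ℝ) * ‖gam ω (k + 1) - gam ω k‖)
      ≤ 1 * ((n : ℝ) ^ (-(4/7) : ℝ) * (1/2)) :=
        mul_le_mul h4 h7 (by positivity) (by norm_num)
    _ = _ := one_mul _

/-- The discrete event. -/
theorem nz_event {n : ℕ} (hn : 1 ≤ n) {R η : ℝ} (hη : 0 < η) (hηR : η < R)
    {ω : Conf} {s t : unitInterval} (hst : s ≤ t) (hs : R < ‖curve n ω s‖)
    (ht : ‖curve n ω t‖ < η) {R' r' : ℤ}
    (hR' : (R' : ℝ) ≤ (R / (n : ℝ) ^ (-(4/7) : ℝ) - 3/2) / 2)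
    (hr' : η / (n : ℝ) ^ (-(4/7) : ℝ) + 3/4 ≤ r') :
    ∃ k l : ℕ, k ≤ l ∧ R' ≤ sd (path ω k).1 (0, 0) ∧ sd (path ω l).1 (0, 0) ≤ r' := by
  set d : ℝ := (n : ℝ) ^ (-(4/7) : ℝ) with hd
  have hn0 : (0 : ℝ) < n := by exact_mod_cast hn
  have hd0 : 0 < d := Real.rpow_pos_of_pos hn0 _
  obtain ⟨k, hk, hk1, hk2⟩ := H984N.pl_exists_seg hn s
  obtain ⟨l, hl, hl1, hl2⟩ := H984N.pl_exists_seg hn t
  have hne : s ≠ t := by
    rintro rfl
    linarith
  have hlt : (s : ℝ) < t := lt_of_le_of_ne hst (fun h => hne (Subtype.ext h))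
  have hkl : k ≤ l := by
    have : (s : ℝ) * n < t * n := mul_lt_mul_of_pos_right hlt hn0
    have h2 : (k : ℝ) < l + 1 := by linarith
    have h3 : k < l + 1 := by exact_mod_cast h2
    omega
  refine ⟨k, l, hkl, ?_, ?_⟩
  · have h1 := curve_node ω hk hk1 hk2
    have h2 : ‖curve n ω s‖ ≤ ‖(d : ℂ) * gam ω k‖ + d * (1/2) := by
      have := norm_sub_norm_le (curve n ω s) ((d : ℂ) * gam ω k)
      linarith
    rw [norm_mul, Complex.norm_real, Real.norm_eq_abs, abs_of_pos hd0] at h2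
    have h3 : ‖gam ω k‖ ≤ 2 * ((sd (path ω k).1 (0, 0) : ℤ) : ℝ) + 1 := norm_place_le _
    have h4 : R / d < 2 * ((sd (path ω k).1 (0, 0) : ℤ) : ℝ) + 3/2 := by
      rw [div_lt_iff₀ hd0]
      nlinarith
    have h5 : (R' : ℝ) < ((sd (path ω k).1 (0, 0) : ℤ) : ℝ) := by linarith
    exact_mod_cast h5.le
  · have h1 := curve_node ω hl hl1 hl2
    have h2 : ‖(d : ℂ) * gam ω l‖ ≤ ‖curve n ω t‖ + d * (1/2) := by
      have := norm_sub_norm_le ((d : ℂ) * gam ω l) (curve n ω t)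
      rw [norm_sub_rev] at this
      linarith
    rw [norm_mul, Complex.norm_real, Real.norm_eq_abs, abs_of_pos hd0] at h2
    have h3 : ((sd (path ω l).1 (0, 0) : ℤ) : ℝ) - 1/4 ≤ ‖gam ω l‖ := le_norm_place _
    have h4 : ‖gam ω l‖ < η / d + 1/2 := by
      rw [← sub_lt_iff_lt_add, lt_div_iff₀ hd0]
      nlinarith
    have h5 : ((sd (path ω l).1 (0, 0) : ℤ) : ℝ) < r' := by linarith
    exact_mod_cast h5.le

theorem nz_closed (R η : ℝ) :
    IsClosed {f : C(unitInterval, ℂ) | ∀ s t : unitInterval, s ≤ t → ‖f s‖ ≤ R ∨ η ≤ ‖f t‖} := by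
  simp only [Set.ofPred_forall]
  refine isClosed_iInter fun s => isClosed_iInter fun t => isClosed_iInter fun _ => ?_
  have e1 : Continuous (fun f : C(unitInterval, ℂ) => ‖f s‖) := by fun_prop
  have e2 : Continuous (fun f : C(unitInterval, ℂ) => ‖f t‖) := by fun_prop
  exact (isClosed_le e1 continuous_const).union (isClosed_le continuous_const e2)

theorem lim_nozero {ν : ℕ → ℕ} (hν : Tendsto ν atTop atTop)
    {μ : ProbabilityMeasure C(unitInterval, ℂ)} (hμ : Tendsto (fun i => lawH (ν i)) atTop (𝓝 μ)) :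
    ∀ᵐ f : C(unitInterval, ℂ) ∂(μ : Measure C(unitInterval, ℂ)), ∀ s t : unitInterval, s ≤ t →
      f s ≠ 0 → f t ≠ 0 := by
  have hsc : Tendsto (fun i => (ν i : ℝ) ^ (-(4/7) : ℝ)) atTop (𝓝 0) :=
    (tendsto_rpow_neg_atTop (by norm_num : (0:ℝ) < 4/7)).comp
      (tendsto_natCast_atTop_atTop.comp hν)
  obtain ⟨a, A, ha, hA, hret⟩ := Disp_ret
  have key : ∀ R η : ℝ, 0 < η → η < R →
      (μ : Measure C(unitInterval, ℂ))
        {f : C(unitInterval, ℂ) | ∀ s t : unitInterval, s ≤ t → ‖f s‖ ≤ R ∨ η ≤ ‖f t‖}ᶜ ≤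
        ENNReal.ofReal (A * (12 * η / R) ^ a) := by
    intro R η hη hηR
    have hR : 0 < R := hη.trans hηR
    apply limit_closedC hμ (nz_closed R η)
    have hη8 : 0 < min (η/8) (R/8) := lt_min (by linarith) (by linarith)
    filter_upwards [hsc.eventually (gt_mem_nhds hη8), hν.eventually_ge_atTop 1] with i hi hi1
    set d : ℝ := (ν i : ℝ) ^ (-(4/7) : ℝ) with hd
    have hn0 : (0 : ℝ) < ν i := by exact_mod_cast hi1
    have hd0 : 0 < d := Real.rpow_pos_of_pos hn0 _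
    have hd1 : d < η / 8 := lt_of_lt_of_le hi (min_le_left _ _)
    have hd2 : d < R / 8 := lt_of_lt_of_le hi (min_le_right _ _)
    rw [lawH_apply _ (nz_closed R η).measurableSet.compl]
    apply ENNReal.ofReal_le_ofReal
    have e1 : 8 < η / d := by rw [lt_div_iff₀ hd0]; linarith
    have e2 : 8 < R / d := by rw [lt_div_iff₀ hd0]; linarith
    set R' : ℤ := ⌊(R / d - 3/2) / 2⌋ with hR'
    set r' : ℤ := ⌈η / d + 3/4⌉ with hr'
    have f1 : (R' : ℝ) ≤ (R / d - 3/2) / 2 := Int.floor_le _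
    have f2 : η / d + 3/4 ≤ r' := Int.le_ceil _
    have f3 : (R / d - 3/2) / 2 < R' + 1 := Int.lt_floor_add_one _
    have f4 : (r' : ℝ) < η / d + 3/4 + 1 := Int.ceil_lt_add_one _
    have g1 : R / d / 4 ≤ (R' : ℝ) := by linarith
    have g2 : (r' : ℝ) ≤ 2 * (η / d) := by linarith
    have g3 : (1 : ℤ) ≤ r' := by
      have : (1 : ℝ) ≤ r' := by linarith
      exact_mod_cast this
    have g4 : (1 : ℤ) ≤ R' := by
      have : (1 : ℝ) ≤ R' := by linarith
      exact_mod_cast this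
    have hsub : {ω : Conf | curve (ν i) ω ∈
        ({f : C(unitInterval, ℂ) | ∀ s t : unitInterval, s ≤ t → ‖f s‖ ≤ R ∨ η ≤ ‖f t‖})ᶜ} ⊆
        {ω | ∃ k l : ℕ, k ≤ l ∧ R' ≤ sd (path ω k).1 (0, 0) ∧ sd (path ω l).1 (0, 0) ≤ r'} := by
      intro ω hω
      simp only [Set.mem_compl_iff, Set.mem_ofPred_eq, not_forall, not_or, not_le] at hω
      obtain ⟨s, t, hst, hs, ht⟩ := hω
      exact nz_event hi1 hη hηR hst hs ht f1 f2
    refine (measureReal_mono hsub).trans ((hret r' R' g3 g4).trans ?_)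
    apply mul_le_mul_of_nonneg_left _ (by linarith)
    apply Real.rpow_le_rpow _ _ ha.le
    · have : (0 : ℝ) ≤ r' := by linarith
      have : (0 : ℝ) ≤ R' := by linarith
      positivity
    · have hR'0 : (0 : ℝ) < R' := by linarith
      rw [div_le_div_iff₀ hR'0 hR]
      have h1 : (r' : ℝ) * R ≤ 2 * (η / d) * R := mul_le_mul_of_nonneg_right g2 hR.le
      have h2 : 12 * η * (R / d / 4) ≤ 12 * η * R' := mul_le_mul_of_nonneg_left g1 (by linarith)
      have h3 : 12 * η * (R / d / 4) = 3 * ((η / d) * R) := by ring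
      have h4 : 0 ≤ (η / d) * R := by positivity
      nlinarith
  have hz : ∀ m : ℕ, ∀ᵐ f : C(unitInterval, ℂ) ∂(μ : Measure C(unitInterval, ℂ)),
      ¬ ∃ s t : unitInterval, s ≤ t ∧ 1 / ((m : ℝ) + 1) < ‖f s‖ ∧ f t = 0 := by
    intro m
    rw [ae_iff]
    simp only [not_not]
    set R : ℝ := 1 / ((m : ℝ) + 1) with hR
    have hR0 : 0 < R := by positivity
    refine le_antisymm ?_ bot_le
    have hlim : Tendsto (fun j : ℕ => ENNReal.ofReal (A * (12 * (R / ((j : ℝ) + 2)) / R) ^ a))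
        atTop (𝓝 0) := by
      rw [← ENNReal.ofReal_zero]
      apply (ENNReal.continuous_ofReal.tendsto 0).comp
      have h1 : Tendsto (fun j : ℕ => 12 * (R / ((j : ℝ) + 2)) / R) atTop (𝓝 0) := by
        have h2 : Tendsto (fun j : ℕ => (12 : ℝ) * (1 / ((j : ℝ) + 2))) atTop (𝓝 (12 * 0)) := by
          apply Tendsto.const_mul
          have h3 : Tendsto (fun j : ℕ => ((j : ℝ) + 2)) atTop atTop :=
            tendsto_atTop_add_const_right _ _ tendsto_natCast_atTop_atTop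
          have h5 := h3.inv_tendsto_atTop
          refine h5.congr fun j => ?_
          simp
        rw [mul_zero] at h2
        refine h2.congr fun j => ?_
        field_simp
      have h4 := (h1.rpow_const (p := a) (Or.inr ha.le)).const_mul A
      rw [Real.zero_rpow ha.ne', mul_zero] at h4
      exact h4
    refine ge_of_tendsto' hlim fun j => ?_
    refine (measure_mono ?_).trans (key R (R / ((j : ℝ) + 2)) (by positivity) ?_)
    · rintro f ⟨s, t, hst, hs, ht⟩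
      simp only [Set.mem_compl_iff, Set.mem_ofPred_eq, not_forall, not_or, not_le]
      refine ⟨s, t, hst, hs, ?_⟩
      rw [ht, norm_zero]
      positivity
    · rw [div_lt_iff₀ (by positivity)]
      have : (0 : ℝ) ≤ j := Nat.cast_nonneg j
      nlinarith
  filter_upwards [ae_all_iff.2 hz] with f hf s t hst hs ht
  obtain ⟨m, hm⟩ := exists_nat_one_div_lt (norm_pos_iff.2 hs)
  exact hf m ⟨s, t, hst, hm, ht⟩

end H984H
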