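import Pool.Agent.H984R4.HN.Arms

/-!
B1: one-point bound.
-/

namespace H984H

open H974 Finset H342P H984P

theorem one_inc (σ : St) : Inc σ.1 (face σ) := by
  obtain ⟨⟨x, y⟩, q⟩ := σ
  cases q <;> simp [Inc, face]

theorem one_box {D : Dm} {u : Vtx} {k : ℤ} (hk : k ≤ D.bd u) :
    RE (u.1 - k) (u.1 + k) (u.2 - k) (u.2 + k) ⊆ D.edges := by
  unfold Dm.bd at hk
  unfold Dm.edges
  rintro ⟨x, y, t⟩ he
  cases t
  · rw [mem_RE_false] at he ⊢; omega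
  · rw [mem_RE_true] at he ⊢; omega

theorem one_inv {x y : ℝ} (hx : 0 < x) (hy : 0 < y) (h : y ≤ 2 * x) :
    x ^ (-(1/4) : ℝ) ≤ 2 * y ^ (-(1/4) : ℝ) := by
  have h1 : (2 * x) ^ (-(1/4) : ℝ) ≤ y ^ (-(1/4) : ℝ) :=
    Real.rpow_le_rpow_of_nonpos hy h (by norm_num)
  rw [Real.mul_rpow (by norm_num) hx.le] at h1
  have h2 : (1/2 : ℝ) ≤ (2:ℝ) ^ (-(1/4) : ℝ) := by
    calc (1/2 : ℝ) = (2:ℝ) ^ (-1 : ℝ) := by rw [Real.rpow_neg_one]; norm_num
      _ ≤ (2:ℝ) ^ (-(1/4) : ℝ) := Real.rpow_le_rpow_of_exponent_le (by norm_num) (by norm_num)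
  have h3 : 0 < x ^ (-(1/4) : ℝ) := Real.rpow_pos_of_pos hx _
  have h4 := mul_le_mul_of_nonneg_right h2 h3.le
  linarith

theorem one_point {C : ℝ} (hC : 0 < C) (hU : TwoUp C (1/4)) {D : Dm} (hD : D.Ok) (σ : St) :
    P D.edges (fun F => D.Vis F σ) ≤ ph (2 * C + 1) (1/4) (D.bd σ.1) := by
  unfold ph
  have hle1 : P D.edges (fun F => D.Vis F σ) ≤ 1 :=
    Pr_le_one (fun _ => ⟨by norm_num, by norm_num⟩) _ _
  split_ifs with h
  · exact hle1
  · rcases Int.lt_or_le 1 (D.bd σ.1) with h2 | h2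
    · have hm : 0 < D.bd σ.1 - 1 := by omega
      have h1 : P D.edges (fun F => D.Vis F σ) ≤
          Pr (fun _ => (1/2:ℝ)) D.edges (fun F => Two σ.1 (face σ) (D.bd σ.1 - 1) (↑F)) :=
        Pr_mono (fun _ => ⟨by norm_num, by norm_num⟩) fun F hF hv =>
          vis_two hD hF hv hm (by omega)
      rw [pr_two hm (one_box (by omega))] at h1
      have h3 := h1.trans (hU _ _ _ hm (one_inc σ))
      have hr : (2:ℝ) ≤ (D.bd σ.1 : ℝ) := by exact_mod_cast h2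
      have h4 : ((D.bd σ.1 - 1 : ℤ) : ℝ) ^ (-(1/4) : ℝ) ≤
          2 * ((D.bd σ.1 : ℤ) : ℝ) ^ (-(1/4) : ℝ) := by
        apply one_inv
        · push_cast; linarith
        · linarith
        · push_cast; linarith
      have h5 : (0:ℝ) ≤ ((D.bd σ.1 : ℤ) : ℝ) ^ (-(1/4) : ℝ) := by positivity
      have h6 := mul_le_mul_of_nonneg_left h4 hC.le
      linarith
    · have h3 : D.bd σ.1 = 1 := by omega
      rw [h3, Int.cast_one, Real.one_rpow, mul_one]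
      linarith

end H984H
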