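import Pool.Agent.H984R4.HN.AllOkOf
import Pool.Agent.H984R4.HN.Bulk
import Pool.Agent.H984R4.HN.LayerD
import Pool.Agent.H984R4.HN.Det

/-!
C6: fast subpaths at one scale.
-/

namespace H984H

open H974 Finset H342P H984P

/-- The integer part of the choice of constants. -/
theorem scale_ints {K : ℕ} {w : ℤ} (hK : 1 ≤ K) (hw : 600000 * (K:ℤ) ^ 2 ≤ w) :
    ∃ (a : ℕ) (w' : ℤ), 5 ≤ a ∧ 120000 * (a:ℤ) * (K:ℤ) ^ 2 ≤ w ∧
      w ≤ 240000 * (a:ℤ) * (K:ℤ) ^ 2 ∧ 4 * w' + 1 ≤ w ∧ w ≤ 4 * w' + 4 := by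
  have hK1 : (1:ℤ) ≤ (K:ℤ) ^ 2 := by
    have : (1:ℤ) ≤ K := by exact_mod_cast hK
    nlinarith
  have hd : (0:ℤ) < 120000 * (K:ℤ) ^ 2 := by linarith
  have h1 := Int.mul_ediv_add_emod w (120000 * (K:ℤ) ^ 2)
  have h2 := Int.emod_nonneg w hd.ne'
  have h3 := Int.emod_lt_of_pos w hd
  set A := w / (120000 * (K:ℤ) ^ 2) with hA
  have hA5 : 5 ≤ A := by
    rw [hA, Int.le_ediv_iff_mul_le hd]
    linarith
  refine ⟨A.toNat, (w - 1) / 4, by omega, ?_, ?_, by omega, by omega⟩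
  · have : ((A.toNat : ℕ) : ℤ) = A := Int.toNat_of_nonneg (by omega)
    rw [this]
    nlinarith
  · have : ((A.toNat : ℕ) : ℤ) = A := Int.toNat_of_nonneg (by omega)
    rw [this]
    nlinarith

theorem scale_one {c C : ℝ} (hc : 0 < c) (hC : 0 < C) (hL : LowA c (1/4))
    (hU : TwoUp C (1/4)) :
    ∃ c1 C1 q : ℝ, 0 < c1 ∧ 0 < C1 ∧ 0 < q ∧ q < 1 ∧
      ∀ (D : Dm) (K : ℕ) (w : ℤ) (s : ℝ), D.Ok → 1 ≤ K → C1 * (K:ℝ) ^ 2 ≤ w →
        2 * w ≤ -D.l → 2 * w ≤ D.r → 2 * w ≤ D.h → ((D.r - D.l : ℤ) : ℝ) ≤ s → (D.h : ℝ) ≤ s →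
        P D.edges (fun F => D.Fast w (c1 * ((w:ℝ) / K ^ 2) ^ (7/4 : ℝ)) F) ≤
          C1 * (s / w) ^ 2 * (K:ℝ) ^ 4 * q ^ K := by
  obtain ⟨c', δ, hc', hδ0, hδ1, hall⟩ := allOk_of hc hC hL hU
  obtain ⟨CB, hCB, hbulk⟩ := bulk
  set q : ℝ := max (1/2) (1 - δ) with hq
  have hq2 : 1/2 ≤ q := le_max_left _ _
  have hqd : 1 - δ ≤ q := le_max_right _ _
  have hq0 : 0 < q := by linarith
  have hq1 : q < 1 := by
    rw [hq, max_lt_iff]
    constructor <;> linarith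
  refine ⟨c' * ((240000:ℝ)⁻¹) ^ (7/4 : ℝ), 2 * CB * 663 ^ 2 * 429 ^ 2 + 10608 + 600000, q,
    by positivity, by positivity, hq0, hq1, ?_⟩
  intro D K w s hD hK hw hwl hwr hwh hrl hhs
  have hKr : (1:ℝ) ≤ K := by exact_mod_cast hK
  have hKz : (1:ℤ) ≤ K := by exact_mod_cast hK
  have hw1 : 600000 * (K:ℤ) ^ 2 ≤ w := by
    have : (600000:ℝ) * (K:ℝ) ^ 2 ≤ w := by
      refine le_trans ?_ hw
      have h0 : (0:ℝ) ≤ 2 * CB * 663 ^ 2 * 429 ^ 2 + 10608 := by positivity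
      have h1 := mul_nonneg h0 (sq_nonneg (K:ℝ))
      linarith
    exact_mod_cast this
  obtain ⟨a, w', ha5, haw, hwa, hw4, hw4'⟩ := scale_ints hK hw1
  have ha5z : (5:ℤ) ≤ a := by exact_mod_cast ha5
  have ha5r : (5:ℝ) ≤ a := by exact_mod_cast ha5
  have hK2z : (K:ℤ) ≤ (K:ℤ) ^ 2 := by
    have := mul_le_mul_of_nonneg_left hKz (show (0:ℤ) ≤ K by omega)
    linarith
  have haK : (a:ℤ) ≤ a * K := by
    have := mul_le_mul_of_nonneg_left hKz (show (0:ℤ) ≤ a by omega)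
    linarith
  have haK2 : (a:ℤ) * K ≤ a * K ^ 2 :=
    mul_le_mul_of_nonneg_left hK2z (show (0:ℤ) ≤ a by omega)
  have hKaK : (K:ℤ) * 5 ≤ a * K := by
    have := mul_le_mul_of_nonneg_left ha5z (show (0:ℤ) ≤ K by omega)
    linarith
  obtain ⟨R, hR⟩ : ∃ R : ℤ, R = 121 * a * K + a + 2 := ⟨_, rfl⟩
  obtain ⟨L, hLL⟩ : ∃ L : ℤ, L = 3 * R + 60 * a := ⟨_, rfl⟩
  obtain ⟨ρ, hρ⟩ : ∃ ρ : ℤ, ρ = 4 * L + R + 2 := ⟨_, rfl⟩
  have hρ1 : ρ ≤ 1832 * (a * K) := by linarith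
  have hρ28 : 28 ≤ ρ := by linarith
  have hLρ : L ≤ ρ := by linarith
  have hL363 : 363 * (a * K : ℤ) ≤ L := by linarith
  have hL428 : L ≤ 428 * (a * K : ℤ) := by linarith
  have hKρ : 28 * (K:ℤ) ≤ K * ρ := by
    have := mul_le_mul_of_nonneg_left hρ28 (show (0:ℤ) ≤ K by omega)
    linarith
  have hρK : ρ ≤ K * ρ := by
    have := mul_le_mul_of_nonneg_right hKz (show (0:ℤ) ≤ ρ by omega)
    linarith
  have hw61 : 61 * ((K:ℤ) * ρ) ≤ w := by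
    have h1 : (K:ℤ) * ρ ≤ K * (1832 * (a * K)) := mul_le_mul_of_nonneg_left hρ1 (by omega)
    have h2 : (0:ℤ) ≤ (a:ℤ) * (K:ℤ) ^ 2 := by positivity
    linarith
  have hw15 : 15 * ((K:ℤ) * ρ) ≤ w' := by linarith
  set M : ℕ := ⌈c' * (a:ℝ) ^ (7/4 : ℝ)⌉₊ with hM
  have hMge : c' * ((240000:ℝ)⁻¹) ^ (7/4 : ℝ) * ((w:ℝ) / K ^ 2) ^ (7/4 : ℝ) ≤ M := by
    refine le_trans ?_ (Nat.le_ceil _)
    rw [mul_assoc]
    refine mul_le_mul_of_nonneg_left ?_ hc'.le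
    have hw0 : (0:ℝ) ≤ w := by
      have : (0:ℤ) ≤ w := by omega
      exact_mod_cast this
    rw [← Real.mul_rpow (by positivity) (by positivity)]
    refine Real.rpow_le_rpow (by positivity) ?_ (by norm_num)
    rw [inv_mul_le_iff₀ (by norm_num), div_le_iff₀ (by positivity)]
    exact_mod_cast hwa
  -- the inclusion of events
  have hinc : ∀ F, F ⊆ D.edges →
      D.Fast w (c' * ((240000:ℝ)⁻¹) ^ (7/4 : ℝ) * ((w:ℝ) / K ^ 2) ^ (7/4 : ℝ)) F →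
      (D.BulkBad R (4 * L) M F ∨ D.PLay ρ w' F) ∨ D.DLay ρ (w' - 1) F := by
    intro F hF hfast
    by_contra hcon
    push Not at hcon
    obtain ⟨⟨hB, hP⟩, hQ⟩ := hcon
    obtain ⟨k, l, hkl, hl, hsd, hlt⟩ := hfast
    have := det hD hF (R := R) (D0 := 4 * L) (ρ := ρ) (w := w') (M := M) (by omega)
      (by omega) (by omega) (by omega) (by omega) (by omega) (by omega) hB hP hQ hkl hl
      (by omega)
    have h2 : (M:ℝ) ≤ ((l - k : ℕ) : ℝ) := by exact_mod_cast this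
    linarith
  have hok : Ok (fun _ : Edg => (1/2:ℝ)) := fun _ => ⟨by norm_num, by norm_num⟩
  have hsum : P D.edges (fun F =>
      D.Fast w (c' * ((240000:ℝ)⁻¹) ^ (7/4 : ℝ) * ((w:ℝ) / K ^ 2) ^ (7/4 : ℝ)) F) ≤
      P D.edges (fun F => D.BulkBad R (4 * L) M F) + P D.edges (fun F => D.PLay ρ w' F) +
        P D.edges (fun F => D.DLay ρ (w' - 1) F) := by
    refine le_trans (Pr_mono hok hinc) ?_
    refine le_trans (Pr_or_le hok _ _ _) ?_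
    exact add_le_add_left (Pr_or_le hok _ _ _) _
  -- probabilities
  have hB := hbulk D a K M δ R L hD ha5 hK hδ0.le hδ1 (by rw [hR]) hLL (hall _ _ (by omega))
  have hPl : P D.edges (fun F => D.PLay ρ w' F) ≤
      4 * ((((D.r - D.l : ℤ) : ℝ) + ((D.h - 0 : ℤ) : ℝ)) / ρ + 4) * (1/2) ^ K := by
    have := layer_rect (a := D.l) (b := D.r) (c := 0) (d := D.h) (ρ := ρ) (w := w') (m := K)
      (by omega) (by omega) (by omega) (by linarith)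
    refine le_trans (Pr_mono hok ?_) this
    intro F hF h
    simpa only [Dm.PLay, Dm.bd, bdr, sub_zero] using h
  have hDl : P D.edges (fun F => D.DLay ρ (w' - 1) F) ≤
      4 * ((((D.r - D.l : ℤ) : ℝ) + ((D.h - 0 : ℤ) : ℝ)) / ρ + 8) * (1/2) ^ K := by
    have := dual_layer_rect (a := D.l) (b := D.r) (c := 0) (d := D.h) (ρ := ρ) (w := w' - 1)
      (m := K) (by omega) (by omega) (by omega) (by linarith)
    refine le_trans (Pr_mono hok ?_) this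
    intro F hF h
    simpa only [Dm.DLay, Dm.bd, bdr, sub_zero, Dm.edges] using h
  -- real estimates
  have hwpos : (0:ℝ) < w := by
    have : (0:ℤ) < w := by omega
    exact_mod_cast this
  have haKr : (0:ℝ) < (a:ℝ) * K := by positivity
  have hLr : 363 * ((a:ℝ) * K) ≤ L := by exact_mod_cast hL363
  have hLr2 : (L:ℝ) ≤ 428 * ((a:ℝ) * K) := by exact_mod_cast hL428
  have hLpos : (0:ℝ) < L := by linarith
  have hρL : (L:ℝ) ≤ ρ := by exact_mod_cast hLρ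
  have hρpos : (0:ℝ) < ρ := by linarith
  have hwar : (w:ℝ) ≤ 240000 * a * K ^ 2 := by exact_mod_cast hwa
  set x : ℝ := s / w with hx
  have h4w : 4 * (w:ℝ) ≤ s := by
    refine le_trans ?_ hrl
    have : 4 * w ≤ D.r - D.l := by omega
    exact_mod_cast this
  have hx4 : 4 ≤ x := by
    rw [hx, le_div_iff₀ hwpos]
    exact h4w
  have hsx : s = x * w := by
    rw [hx]; field_simp
  have hs0 : 0 < s := by linarith
  have hsL : s / L ≤ 662 * (K * x) := by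
    rw [div_le_iff₀ hLpos, hsx]
    have h1 : (w:ℝ) ≤ 662 * K * L := by
      have : 662 * (K:ℝ) * (363 * ((a:ℝ) * K)) ≤ 662 * K * L :=
        mul_le_mul_of_nonneg_left hLr (by positivity)
      have h3 : (0:ℝ) ≤ (a:ℝ) * K ^ 2 := by positivity
      linarith
    have h2 : x * w ≤ x * (662 * K * L) := mul_le_mul_of_nonneg_left h1 (by linarith)
    linarith
  have hKx : 4 ≤ (K:ℝ) * x := by
    have := mul_le_mul hKr hx4 (by norm_num) (by linarith)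
    linarith
  have hf1 : ((D.r - D.l : ℤ) : ℝ) / L + 2 ≤ 663 * (K * x) := by
    have : ((D.r - D.l : ℤ) : ℝ) / L ≤ s / L := by gcongr
    linarith
  have hf2 : (D.h : ℝ) / L + 2 ≤ 663 * (K * x) := by
    have : (D.h : ℝ) / L ≤ s / L := by gcongr
    linarith
  have hf3 : (L:ℝ) / a + 1 ≤ 429 * K := by
    have : (L:ℝ) / a ≤ 428 * K := by
      rw [div_le_iff₀ (by linarith)]
      linarith
    linarith
  have hh0 : (0:ℝ) ≤ (D.h : ℝ) / L := by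
    have : (0:ℝ) ≤ D.h := by exact_mod_cast hD.h_pos.le
    positivity
  have hr0 : (0:ℝ) ≤ ((D.r - D.l : ℤ) : ℝ) / L := by
    have h1 := hD.l_neg
    have h2 := hD.r_pos
    have : (0:ℝ) ≤ ((D.r - D.l : ℤ) : ℝ) := by exact_mod_cast (by omega : (0:ℤ) ≤ D.r - D.l)
    positivity
  have hLa0 : (0:ℝ) ≤ (L:ℝ) / a := by positivity
  have hpow1 : (1 - δ) ^ (K - 1) ≤ 2 * q ^ K := by
    have h1 : (1 - δ) ^ (K - 1) ≤ q ^ (K - 1) := pow_le_pow_left₀ (by linarith) hqd _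
    have h2 : q ^ K = q ^ (K - 1) * q := by
      rw [← pow_succ]
      congr 1
      omega
    have h3 : 0 ≤ q ^ (K - 1) := by positivity
    have h4 := mul_le_mul_of_nonneg_left hq2 h3
    rw [h2]
    linarith
  have hpow2 : ((1:ℝ)/2) ^ K ≤ q ^ K := pow_le_pow_left₀ (by norm_num) hq2 _
  have hd0 : (0:ℝ) ≤ (1 - δ) ^ (K - 1) := pow_nonneg (by linarith) _
  have hqK : 0 < q ^ K := by positivity
  have hB' : P D.edges (fun F => D.BulkBad R (4 * L) M F) ≤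
      2 * CB * 663 ^ 2 * 429 ^ 2 * (x ^ 2 * (K:ℝ) ^ 4 * q ^ K) := by
    refine hB.trans ?_
    calc CB * (((D.r - D.l : ℤ) : ℝ) / L + 2) * ((D.h : ℝ) / L + 2) * ((L : ℝ) / a + 1) ^ 2 *
        (1 - δ) ^ (K - 1)
        ≤ CB * (663 * (K * x)) * (663 * (K * x)) * (429 * K) ^ 2 * (2 * q ^ K) := by
          gcongr
      _ = 2 * CB * 663 ^ 2 * 429 ^ 2 * (x ^ 2 * (K:ℝ) ^ 4 * q ^ K) := by ring
  have hlay : (((D.r - D.l : ℤ) : ℝ) + ((D.h - 0 : ℤ) : ℝ)) / ρ ≤ 1324 * (K * x) := by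
    have h1 : (((D.r - D.l : ℤ) : ℝ) + ((D.h - 0 : ℤ) : ℝ)) ≤ 2 * s := by
      rw [sub_zero]; linarith
    calc (((D.r - D.l : ℤ) : ℝ) + ((D.h - 0 : ℤ) : ℝ)) / ρ ≤ 2 * s / ρ := by gcongr
      _ ≤ 2 * s / L := by gcongr
      _ = 2 * (s / L) := by ring
      _ ≤ _ := by linarith
  have hPl' : P D.edges (fun F => D.PLay ρ w' F) ≤ 5304 * ((K * x) * q ^ K) := by
    refine hPl.trans ?_
    calc 4 * ((((D.r - D.l : ℤ) : ℝ) + ((D.h - 0 : ℤ) : ℝ)) / ρ + 4) * (1/2) ^ K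
        ≤ 4 * (1326 * (K * x)) * q ^ K := by
          gcongr
          linarith
      _ = 5304 * ((K * x) * q ^ K) := by ring
  have hDl' : P D.edges (fun F => D.DLay ρ (w' - 1) F) ≤ 5304 * ((K * x) * q ^ K) := by
    refine hDl.trans ?_
    calc 4 * ((((D.r - D.l : ℤ) : ℝ) + ((D.h - 0 : ℤ) : ℝ)) / ρ + 8) * (1/2) ^ K
        ≤ 4 * (1326 * (K * x)) * q ^ K := by
          gcongr
          linarith
      _ = 5304 * ((K * x) * q ^ K) := by ring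
  have hKx2 : (K * x) * q ^ K ≤ x ^ 2 * (K:ℝ) ^ 4 * q ^ K := by
    refine mul_le_mul_of_nonneg_right ?_ hqK.le
    have h1 : (K:ℝ) ≤ K ^ 4 := by
      calc (K:ℝ) = K ^ 1 := (pow_one _).symm
        _ ≤ K ^ 4 := pow_le_pow_right₀ hKr (by norm_num)
    have h2 : x ≤ x ^ 2 := by
      have := mul_le_mul_of_nonneg_left (show (1:ℝ) ≤ x by linarith) (show (0:ℝ) ≤ x by linarith)
      linarith
    calc (K:ℝ) * x ≤ K ^ 4 * x ^ 2 := by gcongr
      _ = x ^ 2 * (K:ℝ) ^ 4 := by ring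
  refine hsum.trans ?_
  have hfin : 0 ≤ x ^ 2 * (K:ℝ) ^ 4 * q ^ K := by positivity
  calc P D.edges (fun F => D.BulkBad R (4 * L) M F) + P D.edges (fun F => D.PLay ρ w' F) +
        P D.edges (fun F => D.DLay ρ (w' - 1) F)
      ≤ 2 * CB * 663 ^ 2 * 429 ^ 2 * (x ^ 2 * (K:ℝ) ^ 4 * q ^ K) +
        10608 * (x ^ 2 * (K:ℝ) ^ 4 * q ^ K) := by linarith
    _ ≤ (2 * CB * 663 ^ 2 * 429 ^ 2 + 10608 + 600000) * x ^ 2 * (K:ℝ) ^ 4 * q ^ K := by
        linarith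

end H984H
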