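import Pool.Agent.H984R4.HN.Trans
import Pool.Agent.H984R4.HN.Perc
import Pool.Agent.H984R4.HN.Scale

/-!
S5: upper tail of the distance.
-/

namespace H984H

open H974 Finset H342P H984P MeasureTheory

/-- The path which stays in the box is not far away. -/
theorem TailUp_reach {ρ : ℤ} {n : ℕ} {ω : Conf} {R : ℝ} (hS : Stay ρ n ω) (hρ : 2 * (ρ : ℝ) ≤ R) :
    reach n ω < R := by
  unfold reach
  refine (Finset.sup'_lt_iff _).mpr fun k hk => ?_
  rw [Finset.mem_range] at hk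
  have h1 := norm_place_le (path ω k)
  have h2 : sd (path ω k).1 (0, 0) ≤ ρ - 1 := by
    have := hS k (by omega)
    omega
  have h3 : ((sd (path ω k).1 (0, 0) : ℤ) : ℝ) ≤ ((ρ - 1 : ℤ) : ℝ) := by exact_mod_cast h2
  push_cast at h3
  have h4 : ‖gam ω k‖ = ‖place (path ω k)‖ := rfl
  rw [h4]
  linarith

theorem TailUp_K4 {K l u v : ℝ} (hl : 0 < l) (hu : 0 ≤ u) (hK : 0 ≤ K) (hKu : K ≤ u)
    (hv : v = l / 2 * u) : K ^ 4 ≤ 24 * (2 / l) ^ 4 * Real.exp v := by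
  have h1 : K ^ 4 ≤ u ^ 4 := pow_le_pow_left₀ hK hKu 4
  have hv0 : 0 ≤ v := by rw [hv]; positivity
  have h2 := Real.pow_div_factorial_le_exp v hv0 4
  have h5 : ((Nat.factorial 4 : ℕ) : ℝ) = 24 := by norm_num [Nat.factorial]
  rw [h5] at h2
  have h3 : u = 2 / l * v := by rw [hv]; field_simp
  have h4 : u ^ 4 = 24 * (2 / l) ^ 4 * (v ^ 4 / 24) := by
    rw [h3]
    ring
  rw [h4] at h1
  exact h1.trans (mul_le_mul_of_nonneg_left h2 (by positivity))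

/-- The path leaves the box of size `ρ` in `n` steps with small probability. Use `scale_one` with
`D = bx ρ`, `w = ρ / 2`, `K` of order `sqrt x` where `ρ = x n ^ (4/7)`; for small `ρ` compared with
`K ^ 2` use that `n` steps stay within distance `n`. -/
theorem tail_up {c C : ℝ} (hc : 0 < c) (hC : 0 < C) (hL : LowA c (1/4)) (hU : TwoUp C (1/4)) :
    ∃ a A : ℝ, 0 < a ∧ 0 < A ∧ ∀ (n : ℕ) (x : ℝ), 1 ≤ n → 0 < x →
      perc.real {ω | x * (n : ℝ) ^ (4/7 : ℝ) ≤ reach n ω} ≤ A * Real.exp (-(a * x ^ (1/2 : ℝ))) := by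
  obtain ⟨c1, C1, q, hc1, hC1, hq0, hq1, hsc⟩ := scale_one hc hC hL hU
  obtain ⟨β, hβ⟩ : ∃ β : ℝ, β = min 1 (min (c1 / 2) (1 / C1)) := ⟨_, rfl⟩
  have hβ0 : 0 < β := by rw [hβ]; positivity
  have hβ1 : β ≤ 1 := by rw [hβ]; exact min_le_left _ _
  have hβ2 : β ≤ c1 / 2 := by rw [hβ]; exact (min_le_right _ _).trans (min_le_left _ _)
  have hβ3 : β * C1 ≤ 1 := by
    have : β ≤ 1 / C1 := by rw [hβ]; exact (min_le_right _ _).trans (min_le_right _ _)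
    rwa [le_div_iff₀ hC1] at this
  obtain ⟨b, hb⟩ : ∃ b : ℝ, b = Real.sqrt (β / 8) := ⟨_, rfl⟩
  have hb0 : 0 < b := by rw [hb]; exact Real.sqrt_pos.mpr (by positivity)
  have hb2 : b ^ 2 = β / 8 := by rw [hb]; exact Real.sq_sqrt (by positivity)
  obtain ⟨l, hl⟩ : ∃ l : ℝ, l = - Real.log q := ⟨_, rfl⟩
  have hl0 : 0 < l := by
    rw [hl]
    have := Real.log_neg hq0 hq1
    linarith
  have hql : ∀ K : ℕ, q ^ K = Real.exp (-(l * K)) := by
    intro K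
    rw [hl, neg_mul, neg_neg, mul_comm, Real.exp_nat_mul, Real.exp_log hq0]
  obtain ⟨x0, hx0⟩ : ∃ x0 : ℝ, x0 = max 8 (1 / b ^ 2) := ⟨_, rfl⟩
  have hx08 : 8 ≤ x0 := by rw [hx0]; exact le_max_left _ _
  have hx0b : 1 / b ^ 2 ≤ x0 := by rw [hx0]; exact le_max_right _ _
  obtain ⟨a, ha⟩ : ∃ a : ℝ, a = l * b / 2 := ⟨_, rfl⟩
  have ha0 : 0 < a := by rw [ha]; positivity
  obtain ⟨B, hB⟩ : ∃ B : ℝ, B = 36 * C1 * (24 * (2 / l) ^ 4) * Real.exp l := ⟨_, rfl⟩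
  have hB0 : 0 < B := by rw [hB]; positivity
  refine ⟨a, Real.exp (a * Real.sqrt x0) + B, ha0, by positivity, ?_⟩
  intro n x hn hx
  rw [← Real.sqrt_eq_rpow]
  obtain ⟨t, ht⟩ : ∃ t : ℝ, t = Real.sqrt x := ⟨_, rfl⟩
  rw [← ht]
  have ht0 : 0 ≤ t := by rw [ht]; exact Real.sqrt_nonneg x
  have ht2 : t ^ 2 = x := by rw [ht]; exact Real.sq_sqrt hx.le
  have hE : 0 < Real.exp (-(a * t)) := Real.exp_pos _
  rcases lt_or_ge x x0 with hxs | hxl
  · -- small `x`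
    have h1 : perc.real {ω | x * (n : ℝ) ^ (4/7 : ℝ) ≤ reach n ω} ≤ 1 := measureReal_le_one
    have h2 : t ≤ Real.sqrt x0 := by rw [ht]; exact Real.sqrt_le_sqrt hxs.le
    have h3 : 1 ≤ Real.exp (a * Real.sqrt x0) * Real.exp (-(a * t)) := by
      rw [← Real.exp_add, ← Real.exp_zero]
      apply Real.exp_le_exp.mpr
      have := mul_le_mul_of_nonneg_left h2 ha0.le
      linarith
    have h4 : 0 ≤ B * Real.exp (-(a * t)) := by positivity
    calc perc.real {ω | x * (n : ℝ) ^ (4/7 : ℝ) ≤ reach n ω} ≤ 1 := h1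
      _ ≤ Real.exp (a * Real.sqrt x0) * Real.exp (-(a * t)) + B * Real.exp (-(a * t)) := by linarith
      _ = _ := by ring
  · -- large `x`
    have hn1 : (1:ℝ) ≤ n := by exact_mod_cast hn
    have hnp : (1:ℝ) ≤ (n : ℝ) ^ (4/7 : ℝ) := Real.one_le_rpow hn1 (by norm_num)
    obtain ⟨R, hR⟩ : ∃ R : ℝ, R = x * (n : ℝ) ^ (4/7 : ℝ) := ⟨_, rfl⟩
    rw [← hR]
    have hxR : x ≤ R := by rw [hR]; nlinarith
    have hR8 : 8 ≤ R := by linarith
    obtain ⟨ρ, hρ⟩ : ∃ ρ : ℤ, ρ = ⌊R / 2⌋ := ⟨_, rfl⟩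
    have hρ1 : (ρ : ℝ) ≤ R / 2 := by rw [hρ]; exact Int.floor_le _
    have hρ2 : R / 2 < ρ + 1 := by rw [hρ]; exact Int.lt_floor_add_one _
    have hρ4 : (4:ℤ) ≤ ρ := by
      rw [hρ, Int.le_floor]
      push_cast
      linarith
    obtain ⟨w, hw⟩ : ∃ w : ℤ, w = ρ / 2 := ⟨_, rfl⟩
    have hw1 : 2 * w ≤ ρ := by omega
    have hw2 : ρ ≤ 2 * w + 1 := by omega
    have hw2' : 2 ≤ w := by omega
    have hwr : (2:ℝ) ≤ w := by exact_mod_cast hw2'
    have hw2r : (ρ : ℝ) ≤ 2 * w + 1 := by exact_mod_cast hw2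
    have hwR : R / 8 ≤ w := by linarith
    obtain ⟨K, hK⟩ : ∃ K : ℕ, K = ⌊b * t⌋₊ := ⟨_, rfl⟩
    have hbt0 : 0 ≤ b * t := by positivity
    have hbt1 : 1 ≤ b * t := by
      have h1 : 1 ≤ (b * t) ^ 2 := by
        rw [mul_pow, ht2]
        have := (div_le_iff₀ (by positivity : 0 < b ^ 2)).mp (hx0b.trans hxl)
        linarith
      by_contra hcon
      push Not at hcon
      nlinarith
    have hK1 : 1 ≤ K := by
      rw [hK, Nat.one_le_floor_iff]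
      exact hbt1
    have hKle : (K : ℝ) ≤ b * t := by rw [hK]; exact Nat.floor_le hbt0
    have hKge : b * t < K + 1 := by rw [hK]; exact Nat.lt_floor_add_one _
    have hKr : (1:ℝ) ≤ K := by exact_mod_cast hK1
    have hK2 : (K : ℝ) ^ 2 ≤ β / 8 * x := by
      calc (K : ℝ) ^ 2 ≤ (b * t) ^ 2 := pow_le_pow_left₀ (by positivity) hKle 2
        _ = β / 8 * x := by rw [mul_pow, ht2, hb2]
    have hCK : C1 * (K : ℝ) ^ 2 ≤ w := by
      calc C1 * (K : ℝ) ^ 2 ≤ C1 * (β / 8 * x) := mul_le_mul_of_nonneg_left hK2 hC1.le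
        _ = (β * C1) * (x / 8) := by ring
        _ ≤ 1 * (x / 8) := mul_le_mul_of_nonneg_right hβ3 (by positivity)
        _ ≤ R / 8 := by linarith
        _ ≤ w := hwR
    -- the time
    have hM : (n : ℝ) < c1 * ((w : ℝ) / K ^ 2) ^ (7/4 : ℝ) := by
      have h1 : (n : ℝ) ^ (4/7 : ℝ) / β ≤ (w : ℝ) / K ^ 2 := by
        rw [div_le_div_iff₀ hβ0 (by positivity)]
        calc (n : ℝ) ^ (4/7 : ℝ) * (K : ℝ) ^ 2 ≤ (n : ℝ) ^ (4/7 : ℝ) * (β / 8 * x) :=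
              mul_le_mul_of_nonneg_left hK2 (by positivity)
          _ = (R / 8) * β := by rw [hR]; ring
          _ ≤ w * β := mul_le_mul_of_nonneg_right hwR hβ0.le
      have h2 : ((n : ℝ) ^ (4/7 : ℝ) / β) ^ (7/4 : ℝ) ≤ ((w : ℝ) / K ^ 2) ^ (7/4 : ℝ) :=
        Real.rpow_le_rpow (by positivity) h1 (by norm_num)
      have h3 : ((n : ℝ) ^ (4/7 : ℝ) / β) ^ (7/4 : ℝ) = n / β ^ (7/4 : ℝ) := by
        rw [Real.div_rpow (by positivity) hβ0.le, ← Real.rpow_mul (by positivity)]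
        norm_num
      have h4 : β ^ (7/4 : ℝ) ≤ c1 / 2 := by
        refine le_trans ?_ hβ2
        calc β ^ (7/4 : ℝ) ≤ β ^ (1 : ℝ) :=
              Real.rpow_le_rpow_of_exponent_ge hβ0 hβ1 (by norm_num)
          _ = β := Real.rpow_one β
      have h5 : 0 < β ^ (7/4 : ℝ) := Real.rpow_pos_of_pos hβ0 _
      rw [h3] at h2
      have h6 : (n : ℝ) < c1 * (n / β ^ (7/4 : ℝ)) := by
        rw [← mul_div_assoc, lt_div_iff₀ h5]
        have h7 : (n : ℝ) * β ^ (7/4 : ℝ) ≤ n * (c1 / 2) :=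
          mul_le_mul_of_nonneg_left h4 (by positivity)
        have h8 : 0 < n * c1 := by positivity
        linarith
      exact h6.trans_le (mul_le_mul_of_nonneg_left h2 hc1.le)
    have hρ1' : 1 ≤ ρ := by omega
    -- the event
    have hsub : {ω | R ≤ reach n ω} ⊆
        {ω | (bx ρ).Fast w (c1 * ((w : ℝ) / K ^ 2) ^ (7/4 : ℝ)) (cut ω ρ)} := by
      intro ω hω
      refine fast_of_not_stay hρ1' hw1 hM fun hS => ?_
      have := TailUp_reach (R := R) hS (by linarith)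
      exact absurd (lt_of_lt_of_le this hω) (lt_irrefl _)
    have hP : perc.real {ω | R ≤ reach n ω} ≤
        C1 * (((2 * ρ : ℤ) : ℝ) / w) ^ 2 * (K : ℝ) ^ 4 * q ^ K := by
      refine (measureReal_mono hsub).trans ?_
      rw [perc_cut ρ (fun F => (bx ρ).Fast w (c1 * ((w : ℝ) / K ^ 2) ^ (7/4 : ℝ)) F)]
      refine hsc (bx ρ) K w ((2 * ρ : ℤ) : ℝ) (bx_ok hρ1') hK1 hCK ?_ hw1 hw1 ?_ ?_
      · show 2 * w ≤ - -ρ
        omega
      · show ((ρ - -ρ : ℤ) : ℝ) ≤ ((2 * ρ : ℤ) : ℝ)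
        have : ρ - -ρ = 2 * ρ := by ring
        rw [this]
      · show ((ρ : ℤ) : ℝ) ≤ ((2 * ρ : ℤ) : ℝ)
        exact_mod_cast (by omega : ρ ≤ 2 * ρ)
    have hsw : (((2 * ρ : ℤ) : ℝ) / w) ^ 2 ≤ 36 := by
      have h1 : ((2 * ρ : ℤ) : ℝ) / w ≤ 6 := by
        rw [div_le_iff₀ (by linarith)]
        push_cast
        linarith
      have h2 : 0 ≤ ((2 * ρ : ℤ) : ℝ) / w := by
        have : (0:ℝ) ≤ ((2 * ρ : ℤ) : ℝ) := by exact_mod_cast (by omega : 0 ≤ 2 * ρ)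
        have hw0 : (0:ℝ) ≤ w := by linarith
        positivity
      calc (((2 * ρ : ℤ) : ℝ) / w) ^ 2 ≤ 6 ^ 2 := pow_le_pow_left₀ h2 h1 2
        _ = 36 := by norm_num
    have hK4 : (K : ℝ) ^ 4 ≤ 24 * (2 / l) ^ 4 * Real.exp (a * t) :=
      TailUp_K4 hl0 hbt0 (by positivity) hKle (by rw [ha]; ring)
    have hqK : q ^ K ≤ Real.exp l * Real.exp (-(2 * (a * t))) := by
      rw [hql, ← Real.exp_add]
      apply Real.exp_le_exp.mpr
      have h1 : l * (b * t) ≤ l * (K + 1) := mul_le_mul_of_nonneg_left hKge.le hl0.le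
      have h2 : 2 * (a * t) = l * (b * t) := by rw [ha]; ring
      rw [h2]
      linarith
    calc perc.real {ω | R ≤ reach n ω} ≤
        C1 * (((2 * ρ : ℤ) : ℝ) / w) ^ 2 * (K : ℝ) ^ 4 * q ^ K := hP
      _ ≤ C1 * 36 * (24 * (2 / l) ^ 4 * Real.exp (a * t)) *
          (Real.exp l * Real.exp (-(2 * (a * t)))) := by gcongr
      _ = B * (Real.exp (a * t) * Real.exp (-(2 * (a * t)))) := by rw [hB]; ring
      _ = B * Real.exp (-(a * t)) := by
          rw [← Real.exp_add]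
          congr 2
          ring
      _ ≤ (Real.exp (a * Real.sqrt x0) + B) * Real.exp (-(a * t)) := by
          refine mul_le_mul_of_nonneg_right ?_ hE.le
          have := Real.exp_pos (a * Real.sqrt x0)
          linarith

end H984H
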