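import Pool.Agent.H984R4.HN.Couple
import Pool.Agent.H984R4.HN.Moments

/-!
S4: consequences of the coupling.
-/

namespace H984H

open H974 Finset H342P H984P MeasureTheory

theorem Trans_sd_comm (u v : Vtx) : sd u v = sd v u := by
  unfold sd
  rw [abs_sub_comm u.1 v.1, abs_sub_comm u.2 v.2]

theorem Trans_path_zero (ω : Conf) : (path ω 0).1 = (0, 0) := rfl

/-- The first time at which the path is at distance `ρ` from the origin. -/
theorem Trans_exit {ρ : ℤ} {ω : Conf} {n : ℕ} (hS : ¬ Stay ρ n ω) :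
    ∃ k ≤ n, ρ ≤ sd (path ω k).1 (0, 0) ∧ ∀ j < k, sd (path ω j).1 (0, 0) < ρ := by
  classical
  have hex : ∃ k, k ≤ n ∧ ρ ≤ sd (path ω k).1 (0, 0) := by
    by_contra hcon
    push Not at hcon
    exact hS fun j hj => hcon j hj
  refine ⟨Nat.find hex, (Nat.find_spec hex).1, (Nat.find_spec hex).2, fun j hj => ?_⟩
  have h1 := Nat.find_min hex hj
  by_contra h2
  exact h1 ⟨hj.le.trans (Nat.find_spec hex).1, not_lt.1 h2⟩

/-- Hölder continuity for the path in the half-plane, as long as it stays in the box. -/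
theorem hol_path {ρ : ℤ} (hρ : 1 ≤ ρ) {ω : Conf} {γ Λ : ℝ} {n : ℕ}
    (hH : Hol (bx ρ) γ Λ (2 * ρ) (cut ω ρ)) (hS : Stay ρ n ω) {k l : ℕ} (hkl : k ≤ l)
    (hl : l ≤ n) :
    (((sd (path ω k).1 (path ω l).1 : ℤ) : ℝ) / (2 * ρ)) ^ γ ≤
      Λ * (((l - k : ℕ) : ℝ) / (2 * ρ : ℝ) ^ (7/4 : ℝ)) := by
  obtain ⟨h1, h2⟩ := couple hρ ω (k := k) fun j hj => hS j (by omega)
  obtain ⟨h3, h4⟩ := couple hρ ω (k := l) fun j hj => hS j (by omega)
  have h5 := hH ((bx ρ).len (cut ω ρ) - 1 - l) ((bx ρ).len (cut ω ρ) - 1 - k) (by omega) (by omega)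
  have h6 : (bx ρ).len (cut ω ρ) - 1 - k - ((bx ρ).len (cut ω ρ) - 1 - l) = l - k := by omega
  rw [h2, h4, h6, Trans_sd_comm] at h5
  exact h5

/-- Hölder continuity implies that the path stays in the box for a time of the right order. -/
theorem stay_of_hol {ρ : ℤ} (hρ : 1 ≤ ρ) {ω : Conf} {γ Λ : ℝ} (hγ : 0 < γ) (hΛ : 0 < Λ) {n : ℕ}
    (hH : Hol (bx ρ) γ Λ (2 * ρ) (cut ω ρ))
    (hn : Λ * ((n : ℝ) / (2 * ρ : ℝ) ^ (7/4 : ℝ)) < (1/2 : ℝ) ^ γ) : Stay ρ n ω := by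
  by_contra hS
  obtain ⟨k, hk, hsd, hlt⟩ := Trans_exit hS
  obtain ⟨h1, h2⟩ := couple hρ ω (k := k) hlt
  obtain ⟨h3, h4⟩ := couple hρ ω (k := 0) fun j hj => absurd hj (Nat.not_lt_zero j)
  have h5 := hH ((bx ρ).len (cut ω ρ) - 1 - k) ((bx ρ).len (cut ω ρ) - 1 - 0) (by omega) (by omega)
  have h6 : (bx ρ).len (cut ω ρ) - 1 - 0 - ((bx ρ).len (cut ω ρ) - 1 - k) = k := by omega
  rw [h2, h4, h6, Trans_path_zero] at h5
  have hρ0 : (0 : ℝ) < ρ := by exact_mod_cast hρ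
  have h7 : (1/2 : ℝ) ≤ ((sd (path ω k).1 (0, 0) : ℤ) : ℝ) / (2 * ρ) := by
    rw [le_div_iff₀ (by positivity)]
    have : (ρ : ℝ) ≤ ((sd (path ω k).1 (0, 0) : ℤ) : ℝ) := by exact_mod_cast hsd
    linarith
  have h8 := Real.rpow_le_rpow (by norm_num) h7 hγ.le
  have h9 : Λ * ((k : ℝ) / (2 * ρ : ℝ) ^ (7/4 : ℝ)) ≤ Λ * ((n : ℝ) / (2 * ρ : ℝ) ^ (7/4 : ℝ)) := by
    have : (k : ℝ) ≤ n := by exact_mod_cast hk
    gcongr
  linarith

/-- A fast exit gives a fast subpath of the path in the box. -/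
theorem fast_of_not_stay {ρ w : ℤ} (hρ : 1 ≤ ρ) (hw : 2 * w ≤ ρ) {ω : Conf} {n : ℕ} {M : ℝ}
    (hn : (n : ℝ) < M) (hS : ¬ Stay ρ n ω) : (bx ρ).Fast w M (cut ω ρ) := by
  obtain ⟨k, hk, hsd, hlt⟩ := Trans_exit hS
  obtain ⟨h1, h2⟩ := couple hρ ω (k := k) hlt
  obtain ⟨h3, h4⟩ := couple hρ ω (k := 0) fun j hj => absurd hj (Nat.not_lt_zero j)
  refine ⟨(bx ρ).len (cut ω ρ) - 1 - k, (bx ρ).len (cut ω ρ) - 1 - 0, by omega, by omega, ?_, ?_⟩
  · rw [h2, h4, Trans_path_zero]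
    omega
  · have h6 : (bx ρ).len (cut ω ρ) - 1 - 0 - ((bx ρ).len (cut ω ρ) - 1 - k) = k := by omega
    rw [h6]
    have : (k : ℝ) ≤ n := by exact_mod_cast hk
    linarith

theorem Trans_sum_le (n m : ℕ) (φ : ℕ → ℕ) (hφ : ∀ i ≤ n, φ i ≤ m)
    (hinj : ∀ i ≤ n, ∀ j ≤ n, φ i = φ j → i = j) (g : ℕ → ℝ) (hg : ∀ i, 0 ≤ g i) :
    ∑ i ∈ Finset.range (n + 1), g (φ i) ≤ ∑ i ∈ Finset.range (m + 1), g i := by
  classical
  have h1 : ∑ i ∈ Finset.range (n + 1), g (φ i) =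
      ∑ i ∈ (Finset.range (n + 1)).image φ, g i := by
    rw [Finset.sum_image]
    intro i hi j hj hij
    have hi' : i < n + 1 := by simpa using hi
    have hj' : j < n + 1 := by simpa using hj
    exact hinj i (by omega) j (by omega) hij
  rw [h1]
  refine Finset.sum_le_sum_of_subset_of_nonneg ?_ fun i _ _ => hg i
  intro i hi
  obtain ⟨j, hj, rfl⟩ := Finset.mem_image.1 hi
  rw [Finset.mem_range] at hj ⊢
  have := hφ j (by omega)
  omega

/-- The energy of the path which stays in the box. -/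
theorem enr_le {ρ : ℤ} (hρ : 1 ≤ ρ) {ω : Conf} {n : ℕ} {α : ℝ} (hS : Stay ρ n ω) :
    enr α n ω ≤ energy (bx ρ) α (cut ω ρ) := by
  have hc : ∀ i ≤ n, i + 1 ≤ (bx ρ).len (cut ω ρ) ∧
      (bx ρ).walk (cut ω ρ) ((bx ρ).len (cut ω ρ) - 1 - i) = path ω i := fun i hi =>
    couple hρ ω (k := i) fun j hj => hS j (by omega)
  have hlen := (hc n le_rfl).1
  set m := (bx ρ).len (cut ω ρ) with hm
  set φ : ℕ → ℕ := fun i => m - 1 - i with hφ
  have hφ1 : ∀ i ≤ n, φ i ≤ m := fun i hi => by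
    show m - 1 - i ≤ m
    omega
  have hφ2 : ∀ i ≤ n, ∀ j ≤ n, φ i = φ j → i = j := fun i hi j hj hij => by
    have : m - 1 - i = m - 1 - j := hij
    omega
  have hpos : ∀ u v : Vtx, 0 ≤ ((max (sd u v) 1 : ℤ) : ℝ) ^ (-α) := fun u v => by
    refine Real.rpow_nonneg ?_ _
    have : (0 : ℤ) ≤ max (sd u v) 1 := (by norm_num : (0 : ℤ) ≤ 1).trans (le_max_right _ _)
    exact_mod_cast this
  unfold enr energy
  calc ∑ i ∈ Finset.range (n + 1), ∑ j ∈ Finset.range (n + 1),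
        ((max (sd (path ω i).1 (path ω j).1) 1 : ℤ) : ℝ) ^ (-α)
      = ∑ i ∈ Finset.range (n + 1), ∑ j ∈ Finset.range (n + 1),
        ((max (sd ((bx ρ).walk (cut ω ρ) (φ i)).1 ((bx ρ).walk (cut ω ρ) (φ j)).1) 1 : ℤ) : ℝ)
          ^ (-α) := by
        refine Finset.sum_congr rfl fun i hi => Finset.sum_congr rfl fun j hj => ?_
        have hi' : i ≤ n := by
          have := Finset.mem_range.1 hi
          omega
        have hj' : j ≤ n := by
          have := Finset.mem_range.1 hj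
          omega
        rw [(hc i hi').2, (hc j hj').2]
    _ ≤ ∑ i ∈ Finset.range (n + 1), ∑ j ∈ Finset.range (m + 1),
        ((max (sd ((bx ρ).walk (cut ω ρ) (φ i)).1 ((bx ρ).walk (cut ω ρ) j).1) 1 : ℤ) : ℝ)
          ^ (-α) :=
        Finset.sum_le_sum fun i _ => Trans_sum_le n m φ hφ1 hφ2
          (fun j => ((max (sd ((bx ρ).walk (cut ω ρ) (φ i)).1
            ((bx ρ).walk (cut ω ρ) j).1) 1 : ℤ) : ℝ) ^ (-α)) fun j => hpos _ _
    _ ≤ ∑ i ∈ Finset.range (m + 1), ∑ j ∈ Finset.range (m + 1),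
        ((max (sd ((bx ρ).walk (cut ω ρ) i).1 ((bx ρ).walk (cut ω ρ) j).1) 1 : ℤ) : ℝ)
          ^ (-α) :=
        Trans_sum_le n m φ hφ1 hφ2
          (fun i => ∑ j ∈ Finset.range (m + 1), ((max (sd ((bx ρ).walk (cut ω ρ) i).1
            ((bx ρ).walk (cut ω ρ) j).1) 1 : ℤ) : ℝ) ^ (-α))
          fun i => Finset.sum_nonneg fun j _ => hpos _ _

/-- The path which stays in the small box visits many states of the big box. -/
theorem count_le {ρ : ℤ} (hρ : 1 ≤ ρ) {ω : Conf} {n : ℕ} (hS : Stay ρ n ω) :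
    ((n : ℝ) + 1) ≤ ∑ σ ∈ (bx ρ).states, ind ((bx ρ).Vis (cut ω ρ) σ) := by
  classical
  have hc : ∀ i ≤ n, i + 1 ≤ (bx ρ).len (cut ω ρ) ∧
      (bx ρ).walk (cut ω ρ) ((bx ρ).len (cut ω ρ) - 1 - i) = path ω i := fun i hi =>
    couple hρ ω (k := i) fun j hj => hS j (by omega)
  have hF : cut ω ρ ⊆ (bx ρ).edges := Finset.filter_subset _ _
  have hsub : (Finset.range (n + 1)).image (path ω) ⊆ (bx ρ).states := by
    intro σ hσ
    obtain ⟨i, hi, rfl⟩ := Finset.mem_image.1 hσ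
    have hi' : i ≤ n := by
      have := Finset.mem_range.1 hi
      omega
    rw [← (hc i hi').2]
    have h := walk_in (bx_ok hρ) hF ((bx ρ).len (cut ω ρ) - 1 - i)
    unfold Dm.states
    simp only [Finset.mem_product, Finset.mem_Icc, Finset.mem_univ, and_true]
    exact h
  have hcard : ((Finset.range (n + 1)).image (path ω)).card = n + 1 := by
    rw [Finset.card_image_of_injective _ ?_, Finset.card_range]
    intro i j hij
    by_contra hne
    exact path_inj ω hne hij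
  have h1 : ∀ σ ∈ (Finset.range (n + 1)).image (path ω), ind ((bx ρ).Vis (cut ω ρ) σ) = 1 := by
    intro σ hσ
    obtain ⟨i, hi, rfl⟩ := Finset.mem_image.1 hσ
    have hi' : i ≤ n := by
      have := Finset.mem_range.1 hi
      omega
    exact ind_of ⟨_, by omega, (hc i hi').2⟩
  calc ((n : ℝ) + 1) = ∑ σ ∈ (Finset.range (n + 1)).image (path ω),
        ind ((bx ρ).Vis (cut ω ρ) σ) := by
        rw [Finset.sum_congr rfl h1, Finset.sum_const, hcard, nsmul_eq_mul, mul_one]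
        push_cast
        rfl
    _ ≤ ∑ σ ∈ (bx ρ).states, ind ((bx ρ).Vis (cut ω ρ) σ) :=
        Finset.sum_le_sum_of_subset_of_nonneg hsub fun σ _ _ => ind_nonneg _

end H984H
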