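import Pool.Agent.H984R4.HN.Defs
import Pool.Agent.H984R3.Per.Basic

/-!
A1 (helper477): the exploration path reaches its end and visits no state twice.
-/

namespace H984H

open H974 Finset H342P H984P

theorem walk_zero (D : Dm) (F : Finset Edg) : D.walk F 0 = D.start := rfl

theorem walk_succ (D : Dm) (F : Finset Edg) (k : ℕ) :
    D.walk F (k + 1) = nxt (D.cfg F) (D.walk F k) := orb_succ _ _ _

/-- One step moves the vertex by at most one. -/
theorem walk_step (D : Dm) (F : Finset Edg) (k : ℕ) :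
    sd (D.walk F k).1 (D.walk F (k + 1)).1 ≤ 1 := by
  rw [walk_succ]
  have h := nxt_fst (D.cfg F) (D.walk F k)
  unfold sd
  rw [abs_sub_comm, abs_sub_comm (D.walk F k).1.2]
  exact max_le h.1 h.2

theorem Walk_sd_tri (u v w : Vtx) : sd u w ≤ sd u v + sd v w := by
  unfold sd
  have h1 : |u.1 - w.1| ≤ |u.1 - v.1| + |v.1 - w.1| := abs_sub_le _ _ _
  have h2 : |u.2 - w.2| ≤ |u.2 - v.2| + |v.2 - w.2| := abs_sub_le _ _ _
  have h3 := le_max_left |u.1 - v.1| |u.2 - v.2|
  have h4 := le_max_right |u.1 - v.1| |u.2 - v.2|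
  have h5 := le_max_left |v.1 - w.1| |v.2 - w.2|
  have h6 := le_max_right |v.1 - w.1| |v.2 - w.2|
  exact max_le (by linarith) (by linarith)

theorem Walk_sd_self (u : Vtx) : sd u u = 0 := by
  unfold sd
  simp

theorem walk_sd (D : Dm) (F : Finset Edg) {i j : ℕ} (h : i ≤ j) :
    sd (D.walk F i).1 (D.walk F j).1 ≤ (j - i : ℕ) := by
  induction j, h using Nat.le_induction with
  | base => rw [Walk_sd_self]; simp
  | succ j hj ih =>
    have h1 := Walk_sd_tri (D.walk F i).1 (D.walk F j).1 (D.walk F (j + 1)).1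
    have h2 := walk_step D F j
    have h3 : ((j + 1 - i : ℕ) : ℤ) = ((j - i : ℕ) : ℤ) + 1 := by omega
    rw [h3]
    linarith

/-- The edges of the configuration have their ends in the rectangle. -/
theorem Walk_cfg_in {D : Dm} (hD : D.Ok) {F : Finset Edg} (hF : F ⊆ D.edges) {e : Edg}
    (he : e ∈ D.cfg F) : inR D.l D.r 0 D.h (src e) ∧ inR D.l D.r 0 D.h (tgt e) := by
  have h1 := hD.l_neg
  have h2 := hD.r_pos
  have h3 := hD.h_pos
  have h4 := hD.l_le
  have h5 := hD.le_r
  rcases he with he | he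
  · have h := hF (Finset.mem_coe.1 he.1)
    unfold Dm.edges at h
    obtain ⟨x, y, b⟩ := e
    cases b
    · rw [mem_RE_false] at h
      simp only [src_mk, tgt_false, inR]
      omega
    · rw [mem_RE_true] at h
      simp only [src_mk, tgt_true, inR]
      omega
  · obtain ⟨x, y, b⟩ := e
    change (b = true ∧ y = D.h ∧ D.l ≤ x ∧ x < D.t) ∨
      (b = false ∧ x = D.l ∧ 0 ≤ y ∧ y < D.h) ∨ (b = true ∧ y = 0 ∧ D.l ≤ x ∧ x < 0) at he
    cases b
    · simp only [src_mk, tgt_false, inR]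
      simp only [Bool.false_eq_true, false_and, false_or, or_false, true_and] at he
      omega
    · simp only [src_mk, tgt_true, inR]
      simp only [Bool.true_eq_false, false_and, false_or, true_and] at he
      omega

theorem Walk_nxt_in {D : Dm} (hD : D.Ok) {F : Finset Edg} (hF : F ⊆ D.edges) {σ : St}
    (h : inR D.l D.r 0 D.h σ.1) : inR D.l D.r 0 D.h (nxt (D.cfg F) σ).1 := by
  by_cases h1 : ae σ ∈ D.cfg F
  · rw [nxt_open h1]
    have h2 := Walk_cfg_in hD hF h1
    rcases p2_ends σ with ⟨_, h3⟩ | ⟨h3, _⟩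
    · rw [← h3]; exact h2.2
    · rw [← h3]; exact h2.1
  · rw [nxt_closed h1, p2_rt_fst]
    exact h

/-- The path stays in the rectangle. -/
theorem walk_in {D : Dm} (hD : D.Ok) {F : Finset Edg} (hF : F ⊆ D.edges) (k : ℕ) :
    inR D.l D.r 0 D.h (D.walk F k).1 := by
  induction k with
  | zero =>
    rw [walk_zero]
    have h1 := hD.l_neg
    have h2 := hD.r_pos
    have h3 := hD.h_pos
    have h4 := hD.l_le
    have h5 := hD.le_r
    simp only [Dm.start, inR]
    omega
  | succ k ih =>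
    rw [walk_succ]
    exact Walk_nxt_in hD hF ih

/-- Some iterate of `σ` is `τ`. -/
def Walk_R (C : Set Edg) (σ τ : St) : Prop := ∃ m, orb C σ m = τ

theorem Walk_R.refl (C : Set Edg) (σ : St) : Walk_R C σ σ := ⟨0, rfl⟩

theorem Walk_R.trans {C : Set Edg} {σ τ ρ : St} (h : Walk_R C σ τ) (h' : Walk_R C τ ρ) :
    Walk_R C σ ρ := by
  obtain ⟨m, hm⟩ := h
  obtain ⟨n, hn⟩ := h'
  exact ⟨n + m, by rw [orb_add, hm, hn]⟩

theorem Walk_R.op {C : Set Edg} {σ τ : St} (h : ae σ ∈ C) (h' : mv σ = τ) : Walk_R C σ τ :=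
  ⟨1, by rw [orb_succ, orb_zero, nxt_open h, h']⟩

theorem Walk_R.cl {C : Set Edg} {σ τ : St} (h : ae σ ∉ C) (h' : rt σ = τ) : Walk_R C σ τ :=
  ⟨1, by rw [orb_succ, orb_zero, nxt_closed h, h']⟩

theorem Walk_not_cfg {D : Dm} (hD : D.Ok) {F : Finset Edg} (hF : F ⊆ D.edges) {e : Edg}
    (he : ¬ (inR D.l D.r 0 D.h (src e) ∧ inR D.l D.r 0 D.h (tgt e))) : e ∉ D.cfg F :=
  fun h => he (Walk_cfg_in hD hF h)

theorem Walk_bottom {D : Dm} (hD : D.Ok) {F : Finset Edg} (hF : F ⊆ D.edges) (k : ℕ)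
    (hk : D.l ≤ -(k:ℤ)) : Walk_R (D.cfg F) Dm.stop ((-(k:ℤ), 0), .se) := by
  induction k with
  | zero =>
    have : ((-((0:ℕ):ℤ), (0:ℤ)), Q4.se) = Dm.stop := by simp [Dm.stop]
    rw [this]
    exact Walk_R.refl _ _
  | succ k ih =>
    have ih' := ih (by push_cast at hk; linarith)
    refine ih'.trans ((Walk_R.cl (τ := ((-(k:ℤ), 0), .sw)) ?_ rfl).trans (Walk_R.op ?_ ?_))
    · apply Walk_not_cfg hD hF
      rw [ae_se]
      simp only [src_mk, tgt_false, inR]
      omega
    · rw [ae_sw]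
      push_cast at hk
      refine Or.inr (Or.inr (Or.inr ⟨rfl, rfl, ?_, ?_⟩))
      · show D.l ≤ -(k:ℤ) - 1
        linarith
      · show -(k:ℤ) - 1 < 0
        linarith [Int.natCast_nonneg k]
    · rw [mv_sw]
      push_cast
      congr 2
      ring

theorem Walk_left {D : Dm} (hD : D.Ok) {F : Finset Edg} (hF : F ⊆ D.edges) (k : ℕ)
    (hk : (k:ℤ) ≤ D.h) : Walk_R (D.cfg F) ((D.l, 0), .sw) ((D.l, (k:ℤ)), .sw) := by
  induction k with
  | zero => exact Walk_R.refl _ _
  | succ k ih =>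
    have ih' := ih (by push_cast at hk; linarith)
    refine ih'.trans ((Walk_R.cl (τ := ((D.l, (k:ℤ)), .nw)) ?_ rfl).trans (Walk_R.op ?_ ?_))
    · apply Walk_not_cfg hD hF
      rw [ae_sw]
      simp only [src_mk, tgt_true, inR]
      omega
    · rw [ae_nw]
      push_cast at hk
      refine Or.inr (Or.inr (Or.inl ⟨rfl, rfl, ?_, ?_⟩))
      · show 0 ≤ (k:ℤ)
        positivity
      · show (k:ℤ) < D.h
        linarith
    · rw [mv_nw]
      push_cast
      rfl

theorem Walk_top {D : Dm} (hD : D.Ok) {F : Finset Edg} (hF : F ⊆ D.edges) (k : ℕ)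
    (hk : D.l + (k:ℤ) ≤ D.t) :
    Walk_R (D.cfg F) ((D.l, D.h), .ne) ((D.l + (k:ℤ), D.h), .ne) := by
  induction k with
  | zero =>
    have : ((D.l + ((0:ℕ):ℤ), D.h), Q4.ne) = ((D.l, D.h), Q4.ne) := by simp
    rw [this]
    exact Walk_R.refl _ _
  | succ k ih =>
    have ih' := ih (by push_cast at hk; linarith)
    refine ih'.trans ((Walk_R.op (τ := ((D.l + (k:ℤ) + 1, D.h), .nw)) ?_ ?_).trans
      (Walk_R.cl ?_ ?_))
    · rw [ae_ne]
      push_cast at hk
      refine Or.inr (Or.inl ⟨rfl, rfl, ?_, ?_⟩)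
      · show D.l ≤ D.l + (k:ℤ)
        linarith [Int.natCast_nonneg k]
      · show D.l + (k:ℤ) < D.t
        linarith
    · rw [mv_ne]
    · apply Walk_not_cfg hD hF
      rw [ae_nw]
      simp only [src_mk, tgt_false, inR]
      omega
    · rw [rt_nw]
      push_cast
      congr 2
      ring

/-- The last state is followed by the first one. -/
theorem Walk_stop_start {D : Dm} (hD : D.Ok) {F : Finset Edg} (hF : F ⊆ D.edges) :
    Walk_R (D.cfg F) Dm.stop D.start := by
  have h1 := hD.l_neg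
  have h3 := hD.h_pos
  have h4 := hD.l_le
  obtain ⟨a, ha⟩ := Int.eq_ofNat_of_zero_le (show 0 ≤ -D.l by linarith)
  obtain ⟨b, hb⟩ := Int.eq_ofNat_of_zero_le h3.le
  obtain ⟨c, hc⟩ := Int.eq_ofNat_of_zero_le (show 0 ≤ D.t - D.l by linarith)
  have r1 := Walk_bottom hD hF a (by omega)
  rw [show -(a:ℤ) = D.l by omega] at r1
  have r2 : Walk_R (D.cfg F) ((D.l, 0), .se) ((D.l, 0), .sw) := by
    refine Walk_R.cl ?_ rfl
    apply Walk_not_cfg hD hF
    rw [ae_se]
    simp only [src_mk, tgt_false, inR]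
    omega
  have r3 := Walk_left hD hF b (by omega)
  rw [← show D.h = (b:ℤ) by omega] at r3
  have r4 : Walk_R (D.cfg F) ((D.l, D.h), .sw) ((D.l, D.h), .nw) := by
    refine Walk_R.cl ?_ rfl
    apply Walk_not_cfg hD hF
    rw [ae_sw]
    simp only [src_mk, tgt_true, inR]
    omega
  have r5 : Walk_R (D.cfg F) ((D.l, D.h), .nw) ((D.l, D.h), .ne) := by
    refine Walk_R.cl ?_ rfl
    apply Walk_not_cfg hD hF
    rw [ae_nw]
    simp only [src_mk, tgt_false, inR]
    omega
  have r6 := Walk_top hD hF c (by omega)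
  rw [show D.l + (c:ℤ) = D.t by omega] at r6
  exact ((((r1.trans r2).trans r3).trans r4).trans r5).trans r6

/-- The first state is periodic. -/
theorem Walk_periodic {D : Dm} (hD : D.Ok) {F : Finset Edg} (hF : F ⊆ D.edges) :
    ∃ P : ℕ, 0 < P ∧ D.walk F P = D.start := by
  have hmem : ∀ k, D.walk F k ∈ D.states := by
    intro k
    have h := walk_in hD hF k
    unfold Dm.states
    simp only [Finset.mem_product, Finset.mem_Icc, Finset.mem_univ, and_true]
    exact h
  obtain ⟨i, j, hij, he⟩ := Finite.exists_ne_map_eq_of_infinite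
    (fun k : ℕ => (⟨D.walk F k, hmem k⟩ : D.states))
  have he' : D.walk F i = D.walk F j := congrArg Subtype.val he
  have hinj : ∀ m : ℕ, Function.Injective ((nxt (D.cfg F))^[m]) :=
    fun m => (nxt_bij (D.cfg F)).1.iterate m
  rcases lt_or_gt_of_ne hij with h | h
  · refine ⟨j - i, by omega, ?_⟩
    apply hinj i
    have h1 : j = i + (j - i) := by omega
    rw [h1] at he'
    have h2 : D.walk F (i + (j - i)) = (nxt (D.cfg F))^[i] (D.walk F (j - i)) :=
      orb_add _ _ _ _
    rw [← h2, ← he']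
    rfl
  · refine ⟨i - j, by omega, ?_⟩
    apply hinj j
    have h1 : i = j + (i - j) := by omega
    rw [h1] at he'
    have h2 : D.walk F (j + (i - j)) = (nxt (D.cfg F))^[j] (D.walk F (i - j)) :=
      orb_add _ _ _ _
    rw [← h2, he']
    rfl

theorem Walk_ex {D : Dm} (hD : D.Ok) {F : Finset Edg} (hF : F ⊆ D.edges) :
    ∃ k, D.walk F k = Dm.stop := by
  obtain ⟨P, hP, hP'⟩ := Walk_periodic hD hF
  obtain ⟨m, hm⟩ := Walk_stop_start hD hF
  have h1 : ∀ n : ℕ, D.walk F (P * n) = D.start := by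
    intro n
    induction n with
    | zero => rfl
    | succ n ih =>
      have h2 : D.walk F (P * n + P) = orb (D.cfg F) (D.walk F P) (P * n) := orb_add _ _ _ _
      rw [Nat.mul_succ, h2, hP']
      exact ih
  refine ⟨P * m - m, ?_⟩
  have hinj : Function.Injective ((nxt (D.cfg F))^[m]) := (nxt_bij (D.cfg F)).1.iterate m
  apply hinj
  have h3 : m ≤ P * m := Nat.le_mul_of_pos_left m hP
  have h4 : D.walk F (m + (P * m - m)) = (nxt (D.cfg F))^[m] (D.walk F (P * m - m)) :=
    orb_add _ _ _ _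
  rw [← h4, show m + (P * m - m) = P * m by omega, h1]
  exact hm.symm

/-- The path reaches its end. -/
theorem walk_len {D : Dm} (hD : D.Ok) {F : Finset Edg} (hF : F ⊆ D.edges) :
    D.walk F (D.len F) = Dm.stop := Nat.sInf_mem (Walk_ex hD hF)

/-- No state is visited twice. -/
theorem walk_inj {D : Dm} (hD : D.Ok) {F : Finset Edg} (hF : F ⊆ D.edges) {i j : ℕ}
    (hij : i < j) (hj : j ≤ D.len F) : D.walk F i ≠ D.walk F j := by
  intro he
  have h1 : ∀ s : ℕ, D.walk F (s + i) = D.walk F (s + j) := by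
    intro s
    have h2 : D.walk F (s + i) = orb (D.cfg F) (D.walk F i) s := orb_add _ _ _ _
    have h3 : D.walk F (s + j) = orb (D.cfg F) (D.walk F j) s := orb_add _ _ _ _
    rw [h2, h3, he]
  have h4 := h1 (D.len F - j)
  rw [show D.len F - j + j = D.len F by omega, walk_len hD hF] at h4
  have h5 : D.len F ≤ D.len F - j + i := Nat.sInf_le h4
  omega

end H984H
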